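import Mathlib

/-!
# MP_3f23fb_mp, module A1: global solutions for a Lipschitz vector field

Let f be C-Lipschitz on a Banach space E. Step h = 1/(2C+1). For every x₀ the solution exists on [-h,h]: IsPicardLindelof (time independent, e.g.
IsPicardLindelof.of_time_independent) on the ball of radius a = ‖f x₀‖ + 1 (≥ 0) around x₀, |f| ≤ ‖f x₀‖ + C a =: L there and L h ≤ a because
(‖f x₀‖ + C a) ≤ (2C+1) a. Gluing: solutions on [-nh, nh] by induction on n (extend from the two end points; uniqueness ODE_solution_unique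
makes all these solutions agree), or: prove P(n): for every x there is a solution on (-nh/2.. nh/2)-type intervals by concatenation. A convenient form is
Mathlib's IsIntegralCurveOn / existence on every Ioo (-a) a implies existence on ℝ (glue by uniqueness).
-/

set_option autoImplicit false
set_option linter.unusedVariables false

open scoped NNReal

namespace IsoTB

private def A1_P {E : Type*} [NormedAddCommGroup E] [NormedSpace ℝ E] (f : E → E) (T : ℝ) : Prop :=
  ∀ x, ∃ y : ℝ → E, y 0 = x ∧ ∀ t ∈ Set.Ioo (-T) T, HasDerivAt y (f (y t)) t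

private theorem A1_loc {E : Type*} [NormedAddCommGroup E] [NormedSpace ℝ E] [CompleteSpace E]
    {f : E → E} {C : ℝ≥0} (hf : LipschitzWith C f) : ∃ h : ℝ, 0 < h ∧ A1_P f h := by
  have hC : (0 : ℝ) ≤ C := C.2
  have hC1 : (0 : ℝ) < 2 * C + 1 := by positivity
  refine ⟨1 / (2 * C + 1), by positivity, fun x => ?_⟩
  set h : ℝ := 1 / (2 * C + 1) with hh
  have hh0 : 0 < h := by positivity
  have hmem : (0 : ℝ) ∈ Set.Icc (-h) h := ⟨by linarith, hh0.le⟩
  have hP : IsPicardLindelof (fun _ => f) (tmin := -h) (tmax := h) ⟨0, hmem⟩ x (‖f x‖₊ + 1) 0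
      (‖f x‖₊ + C * (‖f x‖₊ + 1)) C := by
    refine IsPicardLindelof.of_time_independent ?_ hf.lipschitzOnWith ?_
    · intro z hz
      rw [Metric.mem_closedBall, dist_eq_norm] at hz
      have h1 : ‖f z - f x‖ ≤ C * ‖z - x‖ := by
        rw [← dist_eq_norm, ← dist_eq_norm]
        exact hf.dist_le_mul z x
      have h2 : ‖f z‖ ≤ ‖f z - f x‖ + ‖f x‖ := by
        have := norm_add_le (f z - f x) (f x)
        rwa [sub_add_cancel] at this
      have h3 : (C : ℝ) * ‖z - x‖ ≤ C * (‖f x‖ + 1) := by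
        refine mul_le_mul_of_nonneg_left ?_ hC
        refine hz.trans (le_of_eq ?_)
        push_cast
        rfl
      push_cast
      linarith
    · have h0 : max (h - (0 : ℝ)) ((0 : ℝ) - -h) = h := by
        rw [sub_zero, zero_sub, neg_neg, max_self]
      have h1 : max (h - ((⟨0, hmem⟩ : Set.Icc (-h) h) : ℝ))
          (((⟨0, hmem⟩ : Set.Icc (-h) h) : ℝ) - -h) = h := h0
      rw [h1]
      push_cast
      have h2 : 0 ≤ ‖f x‖ := norm_nonneg _
      rw [hh, mul_one_div, div_le_iff₀ hC1]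
      nlinarith [mul_nonneg hC h2]
  obtain ⟨y, hy0, hy⟩ := hP.exists_eq_forall_mem_Icc_hasDerivWithinAt₀
  refine ⟨y, hy0, fun t ht => ?_⟩
  exact (hy t (Set.Ioo_subset_Icc_self ht)).hasDerivAt (Icc_mem_nhds ht.1 ht.2)

private theorem A1_uniq {E : Type*} [NormedAddCommGroup E] [NormedSpace ℝ E]
    {f : E → E} {C : ℝ≥0} (hf : LipschitzWith C f) {y z : ℝ → E} {a b t₀ : ℝ}
    (ht : t₀ ∈ Set.Ioo a b) (hy : ∀ t ∈ Set.Ioo a b, HasDerivAt y (f (y t)) t)
    (hz : ∀ t ∈ Set.Ioo a b, HasDerivAt z (f (z t)) t) (h0 : y t₀ = z t₀) :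
    Set.EqOn y z (Set.Ioo a b) :=
  ODE_solution_unique_of_mem_Ioo (v := fun _ => f) (s := fun _ => Set.univ)
    (fun _ _ => hf.lipschitzOnWith) ht (fun t h => ⟨hy t h, Set.mem_univ _⟩)
    (fun t h => ⟨hz t h, Set.mem_univ _⟩) h0

private theorem A1_shift {E : Type*} [NormedAddCommGroup E] [NormedSpace ℝ E]
    {f : E → E} {z : ℝ → E} {T c : ℝ} (hz : ∀ t ∈ Set.Ioo (-T) T, HasDerivAt z (f (z t)) t)
    (t : ℝ) (ht : t ∈ Set.Ioo (c - T) (c + T)) :
    HasDerivAt (fun s => z (s - c)) (f ((fun s => z (s - c)) t)) t := by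
  have h1 : t - c ∈ Set.Ioo (-T) T := ⟨by linarith [ht.1], by linarith [ht.2]⟩
  exact HasDerivAt.comp_sub_const t c (hz _ h1)

private theorem A1_step {E : Type*} [NormedAddCommGroup E] [NormedSpace ℝ E]
    {f : E → E} {C : ℝ≥0} (hf : LipschitzWith C f) {T : ℝ} (hT : 0 < T) (hP : A1_P f T) :
    A1_P f (3 / 2 * T) := by
  intro x
  obtain ⟨y, hy0, hy⟩ := hP x
  obtain ⟨z, hz0, hz⟩ := hP (y (T / 2))
  obtain ⟨w, hw0, hw⟩ := hP (y (-(T / 2)))
  have hz' := A1_shift (c := T / 2) hz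
  have hw' := A1_shift (c := -(T / 2)) hw
  have e1 : Set.EqOn y (fun s => z (s - T / 2)) (Set.Ioo (-(T / 2)) T) := by
    refine A1_uniq hf (t₀ := T / 2) ⟨by linarith, by linarith⟩ ?_ ?_ ?_
    · intro t ht
      exact hy t ⟨by linarith [ht.1], ht.2⟩
    · intro t ht
      exact hz' t ⟨by linarith [ht.1], by linarith [ht.2]⟩
    · show y (T / 2) = z (T / 2 - T / 2)
      rw [sub_self, hz0]
  have e2 : Set.EqOn y (fun s => w (s - -(T / 2))) (Set.Ioo (-T) (T / 2)) := by
    refine A1_uniq hf (t₀ := -(T / 2)) ⟨by linarith, by linarith⟩ ?_ ?_ ?_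
    · intro t ht
      exact hy t ⟨ht.1, by linarith [ht.2]⟩
    · intro t ht
      exact hw' t ⟨by linarith [ht.1], by linarith [ht.2]⟩
    · show y (-(T / 2)) = w (-(T / 2) - -(T / 2))
      rw [sub_self, hw0]
  set Y : ℝ → E := fun t => if t < -(T / 4) then w (t - -(T / 2)) else
    if t ≤ T / 4 then y t else z (t - T / 2) with hY
  have g1 : ∀ t ∈ Set.Ioo (-(T / 2)) (T / 2), Y t = y t := by
    intro t ht
    rw [hY]
    show (if t < -(T / 4) then w (t - -(T / 2)) else if t ≤ T / 4 then y t else z (t - T / 2)) = y t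
    split_ifs with h1 h2
    · exact (e2 ⟨by linarith [ht.1], ht.2⟩).symm
    · rfl
    · exact (e1 ⟨ht.1, by linarith [ht.2]⟩).symm
  have g2 : ∀ t, T / 4 < t → Y t = z (t - T / 2) := by
    intro t ht
    rw [hY]
    show (if t < -(T / 4) then w (t - -(T / 2)) else if t ≤ T / 4 then y t else z (t - T / 2)) = _
    rw [if_neg (by linarith), if_neg (by linarith)]
  have g3 : ∀ t, t < -(T / 4) → Y t = w (t - -(T / 2)) := by
    intro t ht
    rw [hY]
    show (if t < -(T / 4) then w (t - -(T / 2)) else if t ≤ T / 4 then y t else z (t - T / 2)) = _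
    rw [if_pos ht]
  refine ⟨Y, ?_, ?_⟩
  · rw [g1 0 ⟨by linarith, by linarith⟩, hy0]
  · intro t ht
    by_cases h1 : T / 4 < t
    · rw [g2 t h1]
      refine HasDerivAt.congr_of_eventuallyEq (hz' t ⟨by linarith, by linarith [ht.2]⟩) ?_
      filter_upwards [Ioi_mem_nhds h1] with s hs
      exact g2 s hs
    · by_cases h2 : t < -(T / 4)
      · rw [g3 t h2]
        refine HasDerivAt.congr_of_eventuallyEq (hw' t ⟨by linarith [ht.1], by linarith⟩) ?_
        filter_upwards [Iio_mem_nhds h2] with s hs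
        exact g3 s hs
      · have h3 : t ∈ Set.Ioo (-(T / 2)) (T / 2) := ⟨by linarith, by linarith⟩
        rw [g1 t h3]
        refine HasDerivAt.congr_of_eventuallyEq (hy t ⟨by linarith, by linarith⟩) ?_
        filter_upwards [Ioo_mem_nhds h3.1 h3.2] with s hs
        exact g1 s hs

private theorem A1_all {E : Type*} [NormedAddCommGroup E] [NormedSpace ℝ E] [CompleteSpace E]
    {f : E → E} {C : ℝ≥0} (hf : LipschitzWith C f) (T : ℝ) : A1_P f T := by
  obtain ⟨h, hh, hP⟩ := A1_loc hf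
  have h1 : ∀ n : ℕ, A1_P f ((3 / 2) ^ n * h) := by
    intro n
    induction n with
    | zero =>
      rw [pow_zero, one_mul]
      exact hP
    | succ n ih =>
      have h2 := A1_step hf (by positivity) ih
      rw [pow_succ, mul_comm ((3 / 2 : ℝ) ^ n) (3 / 2), mul_assoc]
      exact h2
  obtain ⟨n, hn⟩ := pow_unbounded_of_one_lt (T / h) (by norm_num : (1 : ℝ) < 3 / 2)
  have h2 : T ≤ (3 / 2) ^ n * h := by
    rw [div_lt_iff₀ hh] at hn
    exact hn.le
  intro x
  obtain ⟨y, hy0, hy⟩ := h1 n x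
  exact ⟨y, hy0, fun t ht => hy t ⟨by linarith [ht.1], by linarith [ht.2]⟩⟩

theorem exists_global_solution {E : Type*} [NormedAddCommGroup E] [NormedSpace ℝ E] [CompleteSpace E] {f : E → E} {C : ℝ≥0}
    (hf : LipschitzWith C f) (x : E) : ∃ y : ℝ → E, y 0 = x ∧ ∀ t, HasDerivAt y (f (y t)) t := by
  have h1 : ∀ T : ℝ, ∃ y : ℝ → E, y 0 = x ∧ ∀ t ∈ Set.Ioo (-T) T, HasDerivAt y (f (y t)) t :=
    fun T => A1_all hf T x
  choose y hy0 hy using h1
  have h2 : ∀ S T t : ℝ, |t| < S → |t| < T → y S t = y T t := by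
    intro S T t hS hT
    have hm : |t| < min S T := lt_min hS hT
    have hm0 : 0 < min S T := (abs_nonneg t).trans_lt hm
    refine A1_uniq hf (y := y S) (z := y T) (a := -min S T) (b := min S T) (t₀ := 0)
      ⟨by linarith, hm0⟩ ?_ ?_ ?_ (abs_lt.mp hm)
    · intro s hs
      exact hy S s ⟨by linarith [hs.1, min_le_left S T], by linarith [hs.2, min_le_left S T]⟩
    · intro s hs
      exact hy T s ⟨by linarith [hs.1, min_le_right S T], by linarith [hs.2, min_le_right S T]⟩
    · rw [hy0, hy0]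
  refine ⟨fun t => y (|t| + 1) t, hy0 _, fun t => ?_⟩
  refine HasDerivAt.congr_of_eventuallyEq (f := y (|t| + 1)) ?_ ?_
  · exact hy (|t| + 1) t (abs_lt.mp (by linarith))
  · have h3 : Set.Ioo (t - 1) (t + 1) ∈ nhds t := Ioo_mem_nhds (by linarith) (by linarith)
    filter_upwards [h3] with s hs
    refine h2 _ _ s (by linarith) ?_
    have h4 : |s| ≤ |t| + |s - t| := by
      have := abs_add_le t (s - t)
      rwa [add_sub_cancel] at this
    have h5 : |s - t| < 1 := abs_lt.mpr ⟨by linarith [hs.1], by linarith [hs.2]⟩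
    linarith

end IsoTB
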