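import Pool.Agent.Lib.MP_3f23fb_mp.A1

/-!
# MP_3f23fb_mp, module A1b: the global flow of a Lipschitz vector field

Φ t x = the solution of exists_global_solution (choose). Uniqueness: ODE_solution_unique (two global solutions with the same value at one time agree; for negative times use the
time reversed version or Mathlib's two sided statement, e.g. ODE_solution_unique_univ). Group law: s ↦ Φ (s+t) x and s ↦ Φ s (Φ t x) are solutions with the same value at 0. Continuity: Gronwall
(dist_le_of_trajectories_ODE) ‖Φ t x - Φ t y‖ ≤ e^{C|t|}‖x-y‖ (negative times: reversed solutions solve the equation of -f), so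
‖Φ t x - Φ s y‖ ≤ e^{C|t|}‖x - y‖ + ‖Φ t y - Φ s y‖.
-/

set_option autoImplicit false
set_option linter.unusedVariables false

open scoped NNReal

namespace IsoTB

private theorem A1b_uniq {E : Type*} [NormedAddCommGroup E] [NormedSpace ℝ E]
    {f : E → E} {C : ℝ≥0} (hf : LipschitzWith C f) {y z : ℝ → E} {t₀ : ℝ}
    (hy : ∀ t, HasDerivAt y (f (y t)) t) (hz : ∀ t, HasDerivAt z (f (z t)) t)
    (h0 : y t₀ = z t₀) : y = z :=
  ODE_solution_unique_univ (v := fun _ => f) (s := fun _ => Set.univ)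
    (fun _ => hf.lipschitzOnWith) (fun t => ⟨hy t, Set.mem_univ _⟩)
    (fun t => ⟨hz t, Set.mem_univ _⟩) h0

private theorem A1b_dist {E : Type*} [NormedAddCommGroup E] [NormedSpace ℝ E]
    {f : E → E} {C : ℝ≥0} (hf : LipschitzWith C f) {y z : ℝ → E}
    (hy : ∀ t, HasDerivAt y (f (y t)) t) (hz : ∀ t, HasDerivAt z (f (z t)) t) {t : ℝ}
    (ht : 0 ≤ t) : dist (y t) (z t) ≤ dist (y 0) (z 0) * Real.exp (C * t) := by
  have h1 := dist_le_of_trajectories_ODE (v := fun _ => f) (f := y) (g := z) (a := 0) (b := t)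
    (δ := dist (y 0) (z 0)) (K := C) (fun _ => hf)
    (fun s _ => (hy s).continuousAt.continuousWithinAt) (fun s _ => (hy s).hasDerivWithinAt)
    (fun s _ => (hz s).continuousAt.continuousWithinAt) (fun s _ => (hz s).hasDerivWithinAt)
    le_rfl t ⟨ht, le_rfl⟩
  rw [sub_zero] at h1
  exact h1

private theorem A1b_rev {E : Type*} [NormedAddCommGroup E] [NormedSpace ℝ E]
    {f : E → E} {y : ℝ → E} (hy : ∀ t, HasDerivAt y (f (y t)) t) (t : ℝ) :
    HasDerivAt (fun s => y (-s)) ((fun v => -f v) ((fun s => y (-s)) t)) t := by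
  have h1 := HasDerivAt.scomp t (hy (-t)) (hasDerivAt_neg t)
  have h2 : (-1 : ℝ) • f (y (-t)) = -f (y (-t)) := by rw [neg_one_smul]
  rw [h2] at h1
  exact h1

private theorem A1b_dist' {E : Type*} [NormedAddCommGroup E] [NormedSpace ℝ E]
    {f : E → E} {C : ℝ≥0} (hf : LipschitzWith C f) {y z : ℝ → E}
    (hy : ∀ t, HasDerivAt y (f (y t)) t) (hz : ∀ t, HasDerivAt z (f (z t)) t) (t : ℝ) :
    dist (y t) (z t) ≤ dist (y 0) (z 0) * Real.exp (C * |t|) := by
  rcases le_total 0 t with h | h
  · rw [abs_of_nonneg h]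
    exact A1b_dist hf hy hz h
  · rw [abs_of_nonpos h]
    have hf' : LipschitzWith C (fun v => -f v) := by
      refine LipschitzWith.of_dist_le_mul fun a b => ?_
      rw [dist_neg_neg]
      exact hf.dist_le_mul a b
    have h1 := A1b_dist hf' (A1b_rev hy) (A1b_rev hz) (t := -t) (by linarith)
    simp only [neg_neg, neg_zero] at h1
    exact h1

theorem exists_global_flow {E : Type*} [NormedAddCommGroup E] [NormedSpace ℝ E] [CompleteSpace E] {f : E → E} {C : ℝ≥0}
    (hf : LipschitzWith C f) : ∃ Φ : ℝ → E → E, (∀ x, Φ 0 x = x) ∧ (∀ t x, HasDerivAt (fun s => Φ s x) (f (Φ t x)) t) ∧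
      (∀ s t x, Φ (s + t) x = Φ s (Φ t x)) ∧ Continuous fun q : ℝ × E => Φ q.1 q.2 := by
  choose y hy0 hy using fun x => exists_global_solution hf x
  refine ⟨fun t x => y x t, hy0, fun t x => hy x t, ?_, ?_⟩
  · intro s t x
    have h1 : (fun s => y x (s + t)) = y (y x t) := by
      refine A1b_uniq hf (t₀ := 0) (fun s => ?_) (hy (y x t)) ?_
      · exact HasDerivAt.comp_add_const s t (hy x (s + t))
      · show y x (0 + t) = y (y x t) 0
        rw [zero_add, hy0]
    exact congrFun h1 s
  · rw [continuous_iff_continuousAt]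
    rintro ⟨t₀, x₀⟩
    have hcont : Continuous (y x₀) := continuous_iff_continuousAt.mpr fun t => (hy x₀ t).continuousAt
    have h1 : Filter.Tendsto (fun q : ℝ × E => dist q.2 x₀ * Real.exp (C * |q.1|) +
        dist (y x₀ q.1) (y x₀ t₀)) (nhds (t₀, x₀)) (nhds 0) := by
      have h2 : Continuous (fun q : ℝ × E => dist q.2 x₀ * Real.exp (C * |q.1|) +
        dist (y x₀ q.1) (y x₀ t₀)) := by fun_prop
      have h3 := h2.tendsto (t₀, x₀)
      simp only [dist_self, zero_mul, add_zero] at h3
      exact h3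
    show Filter.Tendsto (fun q : ℝ × E => y q.2 q.1) (nhds (t₀, x₀)) (nhds (y x₀ t₀))
    rw [tendsto_iff_dist_tendsto_zero]
    refine squeeze_zero (fun _ => dist_nonneg) (fun q => ?_) h1
    refine (dist_triangle (y q.2 q.1) (y x₀ q.1) (y x₀ t₀)).trans (add_le_add ?_ le_rfl)
    have h4 := A1b_dist' hf (hy q.2) (hy x₀) q.1
    rw [hy0, hy0] at h4
    exact h4

end IsoTB
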