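import Mathlib

/-!
# MP_3f23fb_mp, module A2: Lipschitz modification away from a compact set

Q compact ⊂ U open. Choose a compact Q' with Q ⊂ interior Q' ⊂ Q' ⊂ U (exists_compact_between) and a smooth χ : E → ℝ with χ = 1 near Q and χ = 0 outside Q'
(exists_contMDiffMap_one_nhds_of_subset_interior for the manifold E, or exists_contDiff_... ; Q closed). f' = χ • f: C¹ at points of U (product), and
equal to 0 on the open set complement of Q', which together with U covers E; so C¹ on E with compact support (contained in Q'), hence Lipschitz: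
ContDiff.lipschitzWith_of_hasCompactSupport. V = interior of {χ = 1} ∩ U.
-/

set_option autoImplicit false
set_option linter.unusedVariables false

open scoped NNReal ContDiff Topology

namespace IsoTB

theorem exists_lipschitz_modification {E : Type*} [NormedAddCommGroup E] [NormedSpace ℝ E] [FiniteDimensional ℝ E]
    {U : Set E} (hU : IsOpen U) {f : E → E} (hf : ContDiffOn ℝ 1 f U) {Q : Set E} (hQ : IsCompact Q) (hQU : Q ⊆ U) :
    ∃ (f' : E → E) (C : ℝ≥0), LipschitzWith C f' ∧ ∃ V, IsOpen V ∧ Q ⊆ V ∧ V ⊆ U ∧ Set.EqOn f f' V := by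
  haveI : ProperSpace E := FiniteDimensional.proper_real E
  obtain ⟨L, hL, hQL, hLU⟩ := exists_compact_between hQ hU hQU
  obtain ⟨χ, h1, h0, -⟩ := exists_contMDiffMap_one_nhds_of_subset_interior
    (modelWithCornersSelf ℝ E) (n := 1) hQ.isClosed hQL
  have hχ : ContDiff ℝ 1 (fun x => χ x) := χ.contMDiff.contDiff
  have hcd : ContDiff ℝ 1 (fun x => χ x • f x) := by
    rw [contDiff_iff_contDiffAt]
    intro x
    by_cases hx : x ∈ U
    · exact hχ.contDiffAt.smul (hf.contDiffAt (hU.mem_nhds hx))
    · have hx' : x ∈ Lᶜ := fun h => hx (hLU h)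
      have h2 : (fun x => χ x • f x) =ᶠ[nhds x] fun _ => (0 : E) := by
        filter_upwards [hL.isClosed.isOpen_compl.mem_nhds hx'] with y hy
        rw [h0 y hy, zero_smul]
      exact contDiffAt_const.congr_of_eventuallyEq h2
  have hcs : HasCompactSupport (fun x => χ x • f x) :=
    HasCompactSupport.intro hL fun x hx => by rw [h0 x hx, zero_smul]
  obtain ⟨C, hC⟩ := ContDiff.lipschitzWith_of_hasCompactSupport hcs hcd one_ne_zero
  obtain ⟨W, hW, hQW, hW1⟩ := mem_nhdsSet_iff_exists.1 h1
  refine ⟨fun x => χ x • f x, C, hC, W ∩ U, hW.inter hU, Set.subset_inter hQW hQU,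
    Set.inter_subset_right, ?_⟩
  intro x hx
  have h2 : χ x = 1 := hW1 hx.1
  show f x = χ x • f x
  rw [h2, one_smul]

end IsoTB
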