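import Pool.Agent.Lib.MP_3f23fb_mp.A1b
import Pool.Agent.Lib.MP_3f23fb_mp.A2

/-!
# MP_3f23fb_mp, module A3: the flow on a compact level set of first integrals

Let f', V be as in A2 and Φ the global flow of f' (A1b). Let x ∈ Q. The set of t ≥ 0 with Φ s x ∈ Q for all s ∈ [0,t] is closed (Q closed) and open to the right:
if Φ t x ∈ Q ⊂ V then Φ s x ∈ V for s near t, there s ↦ Φ s x solves the equation of f (f = f' on V), so g(Φ s x) has derivative 0 (hg), is constant near t
(connected interval) and Φ s x ∈ V ⊂ U, g = c: Φ s x ∈ Q. So Φ t x ∈ Q for all t ≥ 0 (IsClosed.Icc_subset_of_forall_exists_gt or a sup argument), the same for t ≤ 0.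
(Alternatively: {t : Φ t x ∈ Q} is clopen in ℝ and contains 0: IsClopen.eq_univ.)
-/

set_option autoImplicit false
set_option linter.unusedVariables false

open scoped NNReal ContDiff Topology

namespace IsoTB

theorem exists_level_flow {E : Type*} [NormedAddCommGroup E] [NormedSpace ℝ E] [FiniteDimensional ℝ E]
    {G : Type*} [NormedAddCommGroup G] [NormedSpace ℝ G]
    {U : Set E} (hU : IsOpen U) {f : E → E} (hf : ContDiffOn ℝ 1 f U) {g : E → G} {c : G}
    (hg : ∀ (y : ℝ → E) (t : ℝ), y t ∈ U → HasDerivAt y (f (y t)) t → HasDerivAt (fun s => g (y s)) 0 t)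
    (hQ : IsCompact {x | x ∈ U ∧ g x = c}) :
    ∃ Φ : ℝ → E → E, (Continuous fun q : ℝ × E => Φ q.1 q.2) ∧ (∀ x, Φ 0 x = x) ∧
      (∀ s t x, Φ (s + t) x = Φ s (Φ t x)) ∧
      ∀ x, x ∈ U ∧ g x = c → ∀ t, (Φ t x ∈ U ∧ g (Φ t x) = c) ∧ HasDerivAt (fun s => Φ s x) (f (Φ t x)) t := by
  set Q : Set E := {x | x ∈ U ∧ g x = c} with hQdef
  haveI : CompleteSpace E := FiniteDimensional.complete ℝ E
  obtain ⟨f', C, hf', V, hV, hQV, hVU, heq⟩ := exists_lipschitz_modification hU hf hQ (fun x hx => hx.1)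
  obtain ⟨Φ, h0, hd, hadd, hcont⟩ := exists_global_flow hf'
  have hcx : ∀ x, Continuous fun t => Φ t x := fun x =>
    continuous_iff_continuousAt.mpr fun t => (hd t x).continuousAt
  have key : ∀ x ∈ Q, ∀ t, Φ t x ∈ Q := by
    intro x hx
    have hcl : IsClosed {t : ℝ | Φ t x ∈ Q} := hQ.isClosed.preimage (hcx x)
    have hop : IsOpen {t : ℝ | Φ t x ∈ Q} := by
      rw [Metric.isOpen_iff]
      intro t ht
      have h1 : {s : ℝ | Φ s x ∈ V} ∈ nhds t := (hV.preimage (hcx x)).mem_nhds (hQV ht)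
      obtain ⟨δ, hδ, hball⟩ := Metric.mem_nhds_iff.1 h1
      refine ⟨δ, hδ, fun s hs => ?_⟩
      have h2 : ∀ r ∈ Metric.ball t δ, HasDerivAt (fun s => g (Φ s x)) 0 r := by
        intro r hr
        have hr' : Φ r x ∈ V := hball hr
        refine hg (fun s => Φ s x) r (hVU hr') ?_
        have h3 := hd r x
        rw [← heq hr'] at h3
        exact h3
      have h3 : g (Φ s x) = g (Φ t x) := by
        have hconv : Convex ℝ (Metric.ball t δ) := convex_ball t δ
        refine hconv.is_const_of_fderivWithin_eq_zero (𝕜 := ℝ) (f := fun s => g (Φ s x)) ?_ ?_ hs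
          (Metric.mem_ball_self hδ)
        · exact fun r hr => (h2 r hr).differentiableAt.differentiableWithinAt
        · intro r hr
          have h4 := (h2 r hr).hasFDerivAt.hasFDerivWithinAt (s := Metric.ball t δ)
          rw [h4.fderivWithin (Metric.isOpen_ball.uniqueDiffWithinAt hr)]
          ext
          simp
      exact ⟨hVU (hball hs), h3.trans ht.2⟩
    have huniv := IsClopen.eq_univ ⟨hcl, hop⟩ ⟨0, by
      show Φ 0 x ∈ Q
      rw [h0]
      exact hx⟩
    intro t
    have : t ∈ {t : ℝ | Φ t x ∈ Q} := by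
      rw [huniv]
      exact Set.mem_univ t
    exact this
  refine ⟨Φ, hcont, h0, hadd, fun x hx t => ⟨key x hx t, ?_⟩⟩
  have h1 := hd t x
  rw [← heq (hQV (key x hx t))] at h1
  exact h1

end IsoTB
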