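import Pool.Agent.Lib.MP_3f23fb_mp.O1

/-!
# MP_3f23fb_mp, module A4: the normalised system in six variables and the compact level

State (ρ, ν, z, w): horizontal position and velocity of body 1 (complex numbers), height and vertical velocity of body 3 above the plane of bodies 1, 2.

`isCompact_lev`: for x ∈ lev put r = |ρ|, p = Re(conj ρ · ν)/r. |conj ρ ν|² = Re² + Im² gives |ν|² = p² + 1/(4r²), so the energy equation is
p² + (1-1/r)²/4 + μ(w²/(2+μ) - 2/D) = -μ²k, exactly as in `Orb.en`. Hence (as in O1) 2/3 < r < 3/2, D ≤ 2/(μk), w² ≤ 25/4, and p² ≤ 2μ/D ≤ 2, |ν|² ≤ 2 + 9/16: bounded.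
Closed: if x_n → x, x_n ∈ lev then |ρ| ≥ 2/3, so x is in the open set ρ ≠ 0 where all functions are continuous. (lev = closed set {|ρ| ≥ 2/3} ∩ equations, where the functions with
1/|ρ| are continuous on |ρ| ≥ 2/3, e.g. replace |ρ| by max |ρ| (1/2) to get globally continuous functions.)
-/

set_option autoImplicit false
set_option linter.unusedVariables false

open ComplexConjugate

namespace IsoTB

/-- The normalised phase space. -/
abbrev E6 : Type := ℂ × ℂ × ℝ × ℝ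

/-- The vector field of the normalised isosceles problem (masses 1, 1, μ). -/
noncomputable def fld (μ : ℝ) (x : E6) : E6 :=
  (x.2.1, -((1 / (4 * ‖x.1‖ ^ 3) + μ / dd ‖x.1‖ x.2.2.1 ^ 3 : ℝ) : ℂ) * x.1, x.2.2.2,
    -((2 + μ) * (x.2.2.1 / dd ‖x.1‖ x.2.2.1 ^ 3)))

/-- Half of the angular momentum. -/
noncomputable def am6 (x : E6) : ℝ := (conj x.1 * x.2.1).im

/-- The energy. -/
noncomputable def en6 (μ : ℝ) (x : E6) : ℝ :=
  ‖x.2.1‖ ^ 2 - 1 / (2 * ‖x.1‖) + μ * (x.2.2.2 ^ 2 / (2 + μ) - 2 / dd ‖x.1‖ x.2.2.1)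

/-- The normalised level: angular momentum 1, energy -1/4 - μ²k. -/
def lev (μ k : ℝ) : Set E6 := {x | x.1 ≠ 0 ∧ am6 x = 1 / 2 ∧ en6 μ x = -(1 / 4) - μ ^ 2 * k}

/-- Kinetic energy of the binary in polar coordinates. -/
theorem norm_sq_polar {x : E6} (h0 : x.1 ≠ 0) (h : am6 x = 1 / 2) :
    ‖x.2.1‖ ^ 2 = ((conj x.1 * x.2.1).re / ‖x.1‖) ^ 2 + 1 / (4 * ‖x.1‖ ^ 2) := by
  have hr : 0 < ‖x.1‖ := norm_pos_iff.2 h0
  have h1 : ‖conj x.1 * x.2.1‖ ^ 2 = ‖x.1‖ ^ 2 * ‖x.2.1‖ ^ 2 := by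
    rw [norm_mul, RCLike.norm_conj, mul_pow]
  have h2 : ‖conj x.1 * x.2.1‖ ^ 2 = (conj x.1 * x.2.1).re ^ 2 + (conj x.1 * x.2.1).im ^ 2 := by
    rw [Complex.sq_norm, Complex.normSq_apply]
    ring
  have h3 : (conj x.1 * x.2.1).im = 1 / 2 := h
  rw [h1, h3] at h2
  field_simp
  nlinarith [h2]

/-- The energy equation in polar coordinates. -/
theorem en_polar {μ k : ℝ} {x : E6} (hx : x ∈ lev μ k) :
    ((conj x.1 * x.2.1).re / ‖x.1‖) ^ 2 + (1 - 1 / ‖x.1‖) ^ 2 / 4 +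
      μ * (x.2.2.2 ^ 2 / (2 + μ) - 2 / dd ‖x.1‖ x.2.2.1) = -(μ ^ 2 * k) := by
  obtain ⟨h0, h1, h2⟩ := hx
  have h3 := norm_sq_polar h0 h1
  have hr : ‖x.1‖ ≠ 0 := norm_ne_zero_iff.2 h0
  unfold en6 at h2
  rw [h3] at h2
  have h4 : (1 - 1 / ‖x.1‖) ^ 2 / 4 = 1 / 4 + 1 / (4 * ‖x.1‖ ^ 2) - 1 / (2 * ‖x.1‖) := by
    field_simp
    ring
  rw [h4]
  linarith

theorem lev_bounds {μ k : ℝ} (hμ : 0 < μ) (hμ' : μ ≤ 1 / 64) (hk : 0 < k) {x : E6} (hx : x ∈ lev μ k) :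
    2 / 3 < ‖x.1‖ ∧ ‖x.1‖ < 3 / 2 ∧ ‖x.2.1‖ ≤ 2 ∧ |x.2.2.1| ≤ 2 / (μ * k) ∧ |x.2.2.2| ≤ 5 / 2 := by
  have hen := en_polar hx
  have hns := norm_sq_polar hx.1 hx.2.1
  have hr : 0 < ‖x.1‖ := norm_pos_iff.2 hx.1
  have hD : 0 < dd ‖x.1‖ x.2.2.1 := dd_pos _ hr
  have hDr : ‖x.1‖ ≤ dd ‖x.1‖ x.2.2.1 := le_dd_left _ hr
  have hDz : |x.2.2.1| ≤ dd ‖x.1‖ x.2.2.1 := abs_le_dd_right _ _
  generalize ‖x.1‖ = r at *
  generalize dd r x.2.2.1 = D at *
  generalize ((conj x.1 * x.2.1).re / r) = q at *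
  generalize x.2.2.2 = w at *
  generalize x.2.2.1 = z at *
  have hq : 0 ≤ q ^ 2 := sq_nonneg q
  have hw : 0 ≤ μ * (w ^ 2 / (2 + μ)) := by positivity
  have hk2 : 0 < μ ^ 2 * k := by positivity
  have hu : 0 < 1 / r := by positivity
  have hD1 : 1 / D ≤ 1 / r := one_div_le_one_div_of_le hr hDr
  have hD2 : 2 / D = 2 * (1 / D) := by ring
  have hD0 : 0 < 1 / D := by positivity
  rw [hD2] at hen
  have h1 : (1 - 1 / r) ^ 2 / 4 ≤ (1 / 32) * (1 / r) := by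
    have : μ * (2 * (1 / D)) ≤ (1 / 32) * (1 / r) := by
      have h3 : μ * (2 * (1 / D)) ≤ 1 / 64 * (2 * (1 / r)) := by
        apply mul_le_mul hμ' (by linarith) (by positivity) (by norm_num)
      linarith
    nlinarith
  have hu1 : 1 / r < 3 / 2 := by
    by_contra hc
    push Not at hc
    nlinarith
  have hu2 : 2 / 3 < 1 / r := by
    by_contra hc
    push Not at hc
    nlinarith
  have hr1 : 2 / 3 < r := by
    rw [div_lt_iff₀ hr] at hu1
    linarith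
  have hr2 : r < 3 / 2 := by
    rw [lt_div_iff₀ hr] at hu2
    linarith
  have h5 : μ * (2 * (1 / D)) ≤ 3 / 64 := by
    have h3 : μ * (2 * (1 / D)) ≤ 1 / 64 * (2 * (3 / 2)) := by
      apply mul_le_mul hμ' (by linarith) (by positivity) (by norm_num)
    linarith
  have hp2 : q ^ 2 ≤ 3 / 64 := by
    nlinarith [sq_nonneg (1 - 1 / r)]
  refine ⟨hr1, hr2, ?_, ?_, ?_⟩
  · have h6 : 1 / (4 * r ^ 2) = (1 / r) ^ 2 / 4 := by
      field_simp
    have h7 : ‖x.2.1‖ ^ 2 ≤ 4 := by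
      rw [hns, h6]
      nlinarith
    exact abs_le_of_sq_le_sq' (by linarith) (by norm_num) |>.2
  · refine hDz.trans ?_
    rw [le_div_iff₀ (by positivity)]
    have h8 : μ ^ 2 * k ≤ μ * (2 * (1 / D)) := by
      nlinarith [sq_nonneg (1 - 1 / r)]
    have h9 : μ * (μ * k * D) ≤ μ * 2 := by
      have h10 : μ ^ 2 * k * D ≤ μ * (2 * (1 / D)) * D := mul_le_mul_of_nonneg_right h8 hD.le
      have h11 : μ * (2 * (1 / D)) * D = μ * 2 := by field_simp
      nlinarith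
    have h12 := le_of_mul_le_mul_left h9 hμ
    linarith
  · have h8 : μ * (w ^ 2 / (2 + μ)) ≤ μ * 3 := by
      have h9 : μ * (w ^ 2 / (2 + μ)) ≤ μ * (2 * (1 / D)) := by
        nlinarith [sq_nonneg (1 - 1 / r)]
      have h10 : μ * (2 * (1 / D)) ≤ μ * 3 := by
        apply mul_le_mul_of_nonneg_left _ hμ.le
        linarith
      linarith
    have h9 : w ^ 2 / (2 + μ) ≤ 3 := le_of_mul_le_mul_left h8 hμ
    rw [div_le_iff₀ (by positivity)] at h9
    apply abs_le_of_sq_le_sq _ (by norm_num)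
    nlinarith

theorem isCompact_lev {μ k : ℝ} (hμ : 0 < μ) (hμ' : μ ≤ 1 / 64) (hk : 0 < k) : IsCompact (lev μ k) := by
  apply Metric.isCompact_of_isClosed_isBounded
  · have hS : IsClosed {x : E6 | 2 / 3 ≤ ‖x.1‖} := isClosed_le continuous_const (by fun_prop)
    have ha : ContinuousOn am6 {x : E6 | 2 / 3 ≤ ‖x.1‖} := by
      apply Continuous.continuousOn
      unfold am6
      fun_prop
    have he : ContinuousOn (en6 μ) {x : E6 | 2 / 3 ≤ ‖x.1‖} := by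
      unfold en6
      have hn : ∀ x ∈ {x : E6 | 2 / 3 ≤ ‖x.1‖}, 0 < ‖x.1‖ := fun x hx => by
        have : 2 / 3 ≤ ‖x.1‖ := hx
        linarith
      have h1 : Continuous fun x : E6 => dd ‖x.1‖ x.2.2.1 := by
        unfold dd
        fun_prop
      refine ContinuousOn.add (ContinuousOn.sub (by fun_prop) ?_) ?_
      · exact ContinuousOn.div continuousOn_const (by fun_prop) fun x hx => by
          have := hn x hx
          positivity
      · refine ContinuousOn.mul continuousOn_const (ContinuousOn.sub (by fun_prop) ?_)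
        exact ContinuousOn.div continuousOn_const h1.continuousOn fun x hx => (dd_pos _ (hn x hx)).ne'
    have h1 := ha.preimage_isClosed_of_isClosed hS (isClosed_singleton (x := (1 / 2 : ℝ)))
    have h2 := he.preimage_isClosed_of_isClosed hS (isClosed_singleton (x := (-(1 / 4) - μ ^ 2 * k : ℝ)))
    have h3 : lev μ k = ({x : E6 | 2 / 3 ≤ ‖x.1‖} ∩ am6 ⁻¹' {(1 / 2 : ℝ)}) ∩
        ({x : E6 | 2 / 3 ≤ ‖x.1‖} ∩ en6 μ ⁻¹' {(-(1 / 4) - μ ^ 2 * k : ℝ)}) := by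
      ext x
      constructor
      · intro hx
        have hb := (lev_bounds hμ hμ' hk hx).1.le
        exact ⟨⟨hb, hx.2.1⟩, ⟨hb, hx.2.2⟩⟩
      · rintro ⟨⟨h4, h5⟩, ⟨_, h6⟩⟩
        refine ⟨?_, h5, h6⟩
        intro h7
        have h8 : 2 / 3 ≤ ‖x.1‖ := h4
        rw [h7, norm_zero] at h8
        linarith
    rw [h3]
    exact h1.inter h2
  · refine (Metric.isBounded_closedBall (x := (0 : E6)) (r := 3 + 2 / (μ * k))).subset ?_
    intro x hx
    obtain ⟨_, h2, h3, h4, h5⟩ := lev_bounds hμ hμ' hk hx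
    have h6 : 0 < 2 / (μ * k) := by positivity
    rw [mem_closedBall_zero_iff, Prod.norm_def, Prod.norm_def, Prod.norm_def, Real.norm_eq_abs, Real.norm_eq_abs]
    refine max_le (by linarith) (max_le (by linarith) (max_le (by linarith) (by linarith)))

end IsoTB
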