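import Pool.Agent.Lib.MP_3f23fb_mp.A4

/-!
# MP_3f23fb_mp, module A5: smoothness and first integrals

`contDiffOn_fld`: on ρ ≠ 0 the norm ρ ↦ ‖ρ‖ is smooth (contDiffAt_norm), dd = √(‖ρ‖²+z²) is smooth (positive radicand), everything else is algebra.
`am6_const`: y = (ρ,ν,z,w) with derivative fld: conj ρ ν has derivative conj ν ν + conj ρ (-a ρ) = |ν|² - a|ρ|² (a real), whose imaginary part is 0.
`en6_const`: d/dt|ν|² = 2 Re(conj ν · (-a ρ)) = -2a Re(conj ρ ν), a = 1/(4|ρ|³) + μ/D³; d/dt(-1/(2|ρ|)) = |ρ|'/(2|ρ|²) = Re(conj ρ ν)/(2|ρ|³);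
μ d/dt(w²/(2+μ)) = -2μ w z/D³; d/dt(-2μ/D) = 2μ D'/D² = 2μ (Re(conj ρ ν) + z w)/D³. Sum = 0. (|ρ|' = Re(conj ρ ν)/|ρ|: from |ρ|² = normSq; HasDerivAt.sqrt or norm derivative.)
-/

set_option autoImplicit false
set_option linter.unusedVariables false

open ComplexConjugate

namespace IsoTB

theorem isOpen_dom : IsOpen {x : E6 | x.1 ≠ 0} :=
  isOpen_ne_fun continuous_fst continuous_const

theorem contDiffOn_fld (μ : ℝ) : ContDiffOn ℝ 1 (fld μ) {x : E6 | x.1 ≠ 0} := by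
  intro x hx
  apply ContDiffAt.contDiffWithinAt
  have h0 : x.1 ≠ 0 := hx
  have hr : 0 < ‖x.1‖ := norm_pos_iff.2 h0
  have h1 : ContDiffAt ℝ 1 (fun y : E6 => y.1) x := contDiffAt_fst
  have h21 : ContDiffAt ℝ 1 (fun y : E6 => y.2.1) x := contDiffAt_fst.comp x contDiffAt_snd
  have h22 : ContDiffAt ℝ 1 (fun y : E6 => y.2.2) x := contDiffAt_snd.comp x contDiffAt_snd
  have hz : ContDiffAt ℝ 1 (fun y : E6 => y.2.2.1) x := contDiffAt_fst.comp x h22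
  have hw : ContDiffAt ℝ 1 (fun y : E6 => y.2.2.2) x := contDiffAt_snd.comp x h22
  have hn : ContDiffAt ℝ 1 (fun y : E6 => ‖y.1‖) x := h1.norm ℝ h0
  have hd : ContDiffAt ℝ 1 (fun y : E6 => dd ‖y.1‖ y.2.2.1) x := by
    unfold dd
    refine ContDiffAt.sqrt ((hn.pow 2).add (hz.pow 2)) ?_
    positivity
  have hdp : 0 < dd ‖x.1‖ x.2.2.1 := dd_pos _ hr
  have ha : ContDiffAt ℝ 1 (fun y : E6 => 1 / (4 * ‖y.1‖ ^ 3) + μ / dd ‖y.1‖ y.2.2.1 ^ 3) x := by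
    refine ContDiffAt.add (ContDiffAt.div contDiffAt_const (contDiffAt_const.mul (hn.pow 3)) (by positivity)) ?_
    exact ContDiffAt.div contDiffAt_const (hd.pow 3) (by positivity)
  have ha' : ContDiffAt ℝ 1 (fun y : E6 => ((1 / (4 * ‖y.1‖ ^ 3) + μ / dd ‖y.1‖ y.2.2.1 ^ 3 : ℝ) : ℂ)) x :=
    Complex.ofRealCLM.contDiff.contDiffAt.comp x ha
  unfold fld
  refine h21.prodMk ((ha'.neg.mul h1).prodMk (hw.prodMk ?_))
  exact (contDiffAt_const.mul (hz.div (hd.pow 3) (by positivity))).neg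

theorem A5_parts {y : ℝ → E6} {t : ℝ} {v : E6} (h : HasDerivAt y v t) :
    HasDerivAt (fun s => (y s).1) v.1 t ∧ HasDerivAt (fun s => (y s).2.1) v.2.1 t ∧
      HasDerivAt (fun s => (y s).2.2.1) v.2.2.1 t ∧ HasDerivAt (fun s => (y s).2.2.2) v.2.2.2 t := by
  have h1 : HasDerivAt (fun s => (y s).1) v.1 t :=
    (ContinuousLinearMap.fst ℝ ℂ (ℂ × ℝ × ℝ)).hasFDerivAt.comp_hasDerivAt t h
  have h2 : HasDerivAt (fun s => (y s).2) v.2 t :=
    (ContinuousLinearMap.snd ℝ ℂ (ℂ × ℝ × ℝ)).hasFDerivAt.comp_hasDerivAt t h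
  have h21 : HasDerivAt (fun s => (y s).2.1) v.2.1 t :=
    (ContinuousLinearMap.fst ℝ ℂ (ℝ × ℝ)).hasFDerivAt.comp_hasDerivAt t h2
  have h22 : HasDerivAt (fun s => (y s).2.2) v.2.2 t :=
    (ContinuousLinearMap.snd ℝ ℂ (ℝ × ℝ)).hasFDerivAt.comp_hasDerivAt t h2
  exact ⟨h1, h21, (ContinuousLinearMap.fst ℝ ℝ ℝ).hasFDerivAt.comp_hasDerivAt t h22,
    (ContinuousLinearMap.snd ℝ ℝ ℝ).hasFDerivAt.comp_hasDerivAt t h22⟩

/-- Derivative of |ρ| along a curve. -/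
theorem norm_deriv {y : ℝ → E6} {t : ℝ} {v : E6} (h0 : (y t).1 ≠ 0) (h : HasDerivAt y v t) :
    HasDerivAt (fun s => ‖(y s).1‖) ((conj (y t).1 * v.1).re / ‖(y t).1‖) t := by
  have hr : 0 < ‖(y t).1‖ := norm_pos_iff.2 h0
  have h1 := (A5_parts h).1.norm_sq
  have h2 := h1.sqrt (by positivity)
  have e1 : (fun s => √(‖(y s).1‖ ^ 2)) = fun s => ‖(y s).1‖ := funext fun s =>
    Real.sqrt_sq (norm_nonneg _)
  rw [e1, Real.sqrt_sq (norm_nonneg _), Complex.inner] at h2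
  convert h2 using 1
  rw [mul_comm (v.1)]
  field_simp

theorem am6_const {μ : ℝ} {y : ℝ → E6} {t : ℝ} (h0 : (y t).1 ≠ 0) (h : HasDerivAt y (fld μ (y t)) t) :
    HasDerivAt (fun s => am6 (y s)) 0 t := by
  obtain ⟨h1, h2, _, _⟩ := A5_parts h
  have r1 : HasDerivAt (fun s => ((y s).1).re) (fld μ (y t)).1.re t :=
    Complex.reCLM.hasFDerivAt.comp_hasDerivAt t h1
  have i1 : HasDerivAt (fun s => ((y s).1).im) (fld μ (y t)).1.im t :=
    Complex.imCLM.hasFDerivAt.comp_hasDerivAt t h1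
  have r2 : HasDerivAt (fun s => ((y s).2.1).re) (fld μ (y t)).2.1.re t :=
    Complex.reCLM.hasFDerivAt.comp_hasDerivAt t h2
  have i2 : HasDerivAt (fun s => ((y s).2.1).im) (fld μ (y t)).2.1.im t :=
    Complex.imCLM.hasFDerivAt.comp_hasDerivAt t h2
  have e1 : (fun s => am6 (y s)) = fun s => ((y s).1).re * ((y s).2.1).im - ((y s).1).im * ((y s).2.1).re := by
    funext s
    unfold am6
    rw [Complex.mul_im, Complex.conj_re, Complex.conj_im]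
    ring
  rw [e1]
  have h3 : HasDerivAt (fun s => ((y s).1).re * ((y s).2.1).im - ((y s).1).im * ((y s).2.1).re) _ t :=
    (r1.mul i2).sub (i1.mul r2)
  refine h3.congr_deriv ?_
  simp only [fld, ← Complex.ofReal_neg, Complex.re_ofReal_mul, Complex.im_ofReal_mul]
  ring

theorem en6_const {μ : ℝ} (hμ : 0 < μ) {y : ℝ → E6} {t : ℝ} (h0 : (y t).1 ≠ 0) (h : HasDerivAt y (fld μ (y t)) t) :
    HasDerivAt (fun s => en6 μ (y s)) 0 t := by
  have hr : 0 < ‖(y t).1‖ := norm_pos_iff.2 h0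
  have hD : 0 < dd ‖(y t).1‖ (y t).2.2.1 := dd_pos _ hr
  obtain ⟨_, h2, h3, h4⟩ := A5_parts h
  have hn := norm_deriv h0 h
  have hν := h2.norm_sq
  have hdsq := dd_sq ‖(y t).1‖ (y t).2.2.1
  have hd : HasDerivAt (fun s => dd ‖(y s).1‖ (y s).2.2.1)
      ((2 * ‖(y t).1‖ * ((conj (y t).1 * (fld μ (y t)).1).re / ‖(y t).1‖) +
        2 * (y t).2.2.1 * (fld μ (y t)).2.2.1) / (2 * dd ‖(y t).1‖ (y t).2.2.1)) t := by
    unfold dd
    have hp : HasDerivAt (fun s => ‖(y s).1‖ ^ 2 + (y s).2.2.1 ^ 2) _ t := (hn.pow 2).add (h3.pow 2)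
    have h5 := hp.sqrt (by positivity)
    refine h5.congr_deriv ?_
    simp
  have h5 : HasDerivAt (fun s => 1 / (2 * ‖(y s).1‖))
      (-((conj (y t).1 * (fld μ (y t)).1).re / ‖(y t).1‖) / (2 * ‖(y t).1‖ ^ 2)) t := by
    have h6 : HasDerivAt (fun s => (2 * ‖(y s).1‖)⁻¹)
        (-(2 * ((conj (y t).1 * (fld μ (y t)).1).re / ‖(y t).1‖)) / (2 * ‖(y t).1‖) ^ 2) t :=
      (hn.const_mul 2).inv (by positivity)
    have e : (fun s => 1 / (2 * ‖(y s).1‖)) = fun s => (2 * ‖(y s).1‖)⁻¹ := funext fun s => one_div _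
    rw [e]
    refine h6.congr_deriv ?_
    generalize (conj (y t).1 * (fld μ (y t)).1).re = q
    field_simp
    try ring
  have h7 : HasDerivAt (fun s => 2 / dd ‖(y s).1‖ (y s).2.2.1)
      (-(2 * ((2 * ‖(y t).1‖ * ((conj (y t).1 * (fld μ (y t)).1).re / ‖(y t).1‖) +
        2 * (y t).2.2.1 * (fld μ (y t)).2.2.1) / (2 * dd ‖(y t).1‖ (y t).2.2.1))) /
          dd ‖(y t).1‖ (y t).2.2.1 ^ 2) t := by
    have e : (fun s => 2 / dd ‖(y s).1‖ (y s).2.2.1) = fun s => 2 * (dd ‖(y s).1‖ (y s).2.2.1)⁻¹ :=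
      funext fun s => div_eq_mul_inv _ _
    rw [e]
    have h6 : HasDerivAt (fun s => 2 * (dd ‖(y s).1‖ (y s).2.2.1)⁻¹) _ t := (hd.inv hD.ne').const_mul 2
    refine h6.congr_deriv ?_
    ring
  have h8 := (hν.sub h5).add (((h4.pow 2).div_const (2 + μ)).sub h7 |>.const_mul μ)
  have h9 : HasDerivAt (fun s => en6 μ (y s)) _ t := h8
  refine h9.congr_deriv ?_
  have hin : (conj (y t).2.1 * (-((1 / (4 * ‖(y t).1‖ ^ 3) + μ / dd ‖(y t).1‖ (y t).2.2.1 ^ 3 : ℝ) : ℂ) * (y t).1)).re =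
      -(1 / (4 * ‖(y t).1‖ ^ 3) + μ / dd ‖(y t).1‖ (y t).2.2.1 ^ 3) * (conj (y t).1 * (y t).2.1).re := by
    rw [← Complex.ofReal_neg, mul_left_comm, Complex.re_ofReal_mul, Complex.mul_re, Complex.mul_re,
      Complex.conj_re, Complex.conj_im, Complex.conj_re, Complex.conj_im]
    ring
  rw [Complex.inner]
  simp only [fld]
  have hin' : ((-((1 / (4 * ‖(y t).1‖ ^ 3) + μ / dd ‖(y t).1‖ (y t).2.2.1 ^ 3 : ℝ) : ℂ) * (y t).1) * conj (y t).2.1).re =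
      -(1 / (4 * ‖(y t).1‖ ^ 3) + μ / dd ‖(y t).1‖ (y t).2.2.1 ^ 3) * (conj (y t).1 * (y t).2.1).re := by
    rw [mul_comm, hin]
  rw [hin']
  generalize (conj (y t).1 * (y t).2.1).re = q
  have hDD : dd ‖(y t).1‖ (y t).2.2.1 ≠ 0 := hD.ne'
  generalize dd ‖(y t).1‖ (y t).2.2.1 = D at *
  have hrr : ‖(y t).1‖ ≠ 0 := hr.ne'
  generalize ‖(y t).1‖ = r at *
  have hμ2 : (2 + μ) ≠ 0 := by positivity
  simp only [Nat.cast_ofNat, Nat.add_one_sub_one, pow_one]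
  field_simp
  ring

end IsoTB
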