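import Pool.Agent.Lib.MP_3f23fb_mp.A3
import Pool.Agent.Lib.MP_3f23fb_mp.A5

/-!
# MP_3f23fb_mp, module A6: the flow on the normalised level

exists_level_flow with U = {ρ ≠ 0}, f = fld μ, g = (am6, en6 μ), c = (1/2, -1/4 - μ²k); {x ∈ U, g x = c} = lev μ k (Prod.ext_iff).
-/

set_option autoImplicit false
set_option linter.unusedVariables false

namespace IsoTB

/-- Φ restricts to a complete flow of the normalised isosceles problem on the level. -/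
structure IsFlow6 (μ k : ℝ) (Φ : ℝ → E6 → E6) : Prop where
  cont : Continuous fun q : ℝ × E6 => Φ q.1 q.2
  zero : ∀ x, Φ 0 x = x
  add : ∀ s t x, Φ (s + t) x = Φ s (Φ t x)
  mem : ∀ x ∈ lev μ k, ∀ t, Φ t x ∈ lev μ k
  deriv : ∀ x ∈ lev μ k, ∀ t, HasDerivAt (fun s => Φ s x) (fld μ (Φ t x)) t

theorem exists_flow6 {μ k : ℝ} (hμ : 0 < μ) (hμ' : μ ≤ 1 / 64) (hk : 0 < k) : ∃ Φ, IsFlow6 μ k Φ := by
  have hlev : ∀ x : E6, x ∈ lev μ k ↔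
      (x ∈ {x : E6 | x.1 ≠ 0} ∧ (am6 x, en6 μ x) = ((1 / 2 : ℝ), (-(1 / 4) - μ ^ 2 * k : ℝ))) := by
    intro x
    rw [Prod.mk.injEq]
    exact Iff.rfl
  have hcomp : IsCompact {x : E6 | x ∈ {x : E6 | x.1 ≠ 0} ∧
      (am6 x, en6 μ x) = ((1 / 2 : ℝ), (-(1 / 4) - μ ^ 2 * k : ℝ))} := by
    have h := isCompact_lev hμ hμ' hk
    have he : lev μ k = {x : E6 | x ∈ {x : E6 | x.1 ≠ 0} ∧
      (am6 x, en6 μ x) = ((1 / 2 : ℝ), (-(1 / 4) - μ ^ 2 * k : ℝ))} := by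
      ext x
      exact hlev x
    rwa [he] at h
  obtain ⟨Φ, hc, h0, ha, hm⟩ := exists_level_flow isOpen_dom (contDiffOn_fld μ)
    (g := fun x => (am6 x, en6 μ x)) (c := ((1 / 2 : ℝ), (-(1 / 4) - μ ^ 2 * k : ℝ)))
    (fun y t hy h => (am6_const hy h).prodMk (en6_const hμ hy h)) hcomp
  exact ⟨Φ, hc, h0, ha, fun x hx t => (hlev _).2 (hm x ((hlev x).1 hx) t).1,
    fun x hx t => (hm x ((hlev x).1 hx) t).2⟩

end IsoTB
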