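import Pool.Agent.Lib.MP_3f23fb_mp.O1

/-!
# MP_3f23fb_mp, module O1b: symmetries

Time shift, time reversal and reflection of orbits: how Y, F, Ω, D and the angle `ph` transform. Y of the reversed orbit is the
complex conjugate (p changes sign, r does not). `ph` of the reversed orbit: substitution in the integral, x.ph is the primitive of
the continuous function Om. `IsRet.rev` and the reflection of a half orbit are immediate from the definitions.
-/

set_option autoImplicit false
set_option linter.unusedVariables false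

open MeasureTheory intervalIntegral ComplexConjugate

namespace IsoTB

namespace Orb

variable {μ k : ℝ} (x : Orb μ k)

theorem Y_shift (a t : ℝ) : (x.shift a).Y t = x.Y (t + a) := rfl

theorem Y_rev (a t : ℝ) : (x.rev a).Y t = conj (x.Y (a - t)) := by
  apply Complex.ext
  · rfl
  · show -x.p (a - t) / μ = -(x.p (a - t) / μ)
    exact neg_div _ _

theorem Y_refl (t : ℝ) : x.refl.Y t = x.Y t := rfl

theorem F_shift (a t : ℝ) : (x.shift a).F t = x.F (t + a) := rfl

theorem F_rev (a t : ℝ) : (x.rev a).F t = x.F (a - t) := rfl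

theorem F_refl (t : ℝ) : x.refl.F t = x.F t := by
  show x.r t / dd (x.r t) (-x.z t) ^ 3 = x.r t / dd (x.r t) (x.z t) ^ 3
  rw [dd_neg]

theorem Om_shift (a t : ℝ) : (x.shift a).Om t = x.Om (t + a) := rfl

theorem Om_rev (a t : ℝ) : (x.rev a).Om t = x.Om (a - t) := rfl

theorem Om_refl (t : ℝ) : x.refl.Om t = x.Om t := rfl

/-- The angle between two times is the integral of the angular velocity. -/
theorem ph_sub (a b : ℝ) : x.ph b - x.ph a = ∫ s in a..b, x.Om s := by
  unfold ph
  exact integral_interval_sub_left (x.continuous_Om.intervalIntegrable _ _)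
    (x.continuous_Om.intervalIntegrable _ _)

theorem ph_shift (a t : ℝ) : (x.shift a).ph t = x.ph (t + a) - x.ph a := by
  rw [x.ph_sub]
  unfold ph
  have h : (∫ s in (0:ℝ)..t, (x.shift a).Om s) = ∫ s in (0:ℝ)..t, x.Om (s + a) := rfl
  rw [h, integral_comp_add_right (fun s => x.Om s), zero_add]

theorem ph_rev (a t : ℝ) : (x.rev a).ph t = x.ph a - x.ph (a - t) := by
  rw [x.ph_sub]
  unfold ph
  have h : (∫ s in (0:ℝ)..t, (x.rev a).Om s) = ∫ s in (0:ℝ)..t, x.Om (a - s) := rfl
  rw [h, integral_comp_sub_left (fun s => x.Om s), sub_zero]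

theorem ph_refl (t : ℝ) : x.refl.ph t = x.ph t := rfl

theorem ph_zero : x.ph 0 = 0 := by
  unfold ph
  exact integral_same

/-- The angle moves with speed at most 9/8. -/
theorem abs_ph_sub_le (hμ : 0 < μ) (hμ' : μ ≤ 1 / 64) (hk : 0 < k) (a b : ℝ) :
    |x.ph b - x.ph a| ≤ 9 / 8 * |b - a| := by
  rw [x.ph_sub, ← Real.norm_eq_abs]
  refine norm_integral_le_of_norm_le_const fun t _ => ?_
  rw [Real.norm_eq_abs, abs_of_pos (x.Om_pos t)]
  exact x.Om_le hμ hμ' hk t

variable {x}

theorem IsRet.rev {t₁ : ℝ} (h : x.IsRet t₁) : (x.rev t₁).IsRet t₁ := by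
  refine ⟨h.pos, ?_, ?_, ?_, ?_, ?_⟩
  · show x.z (t₁ - 0) = 0
    rw [sub_zero]
    exact h.z1
  · show 0 < -x.w (t₁ - 0)
    rw [sub_zero]
    linarith [h.w1]
  · show x.z (t₁ - t₁) = 0
    rw [sub_self]
    exact h.z0
  · show -x.w (t₁ - t₁) < 0
    rw [sub_self]
    linarith [h.w0]
  · intro t ht ht'
    exact h.zpos (t₁ - t) (by linarith) (by linarith)

end Orb

end IsoTB
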