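import Pool.Agent.Lib.MP_3f23fb_mp.A6
import Pool.Agent.Lib.MP_3f23fb_mp.O1b

/-!
# MP_3f23fb_mp, module A7: reduction to Orb

Let y : ℝ → E6 solve y' = fld μ y with y t ∈ lev μ k for all t. r = ‖ρ‖, p = Re(conj ρ ν)/‖ρ‖. norm_deriv: r' = p. p' : (conj ρ ν)' has real part |ν|² - a r², a = 1/(4r³) + μ/D³,
so p' = (|ν|² - a r²)/r - p²/r = (|ν|² - p²)/r - a r = 1/(4r³) - 1/(4r²) - μ r/D³ (norm_sq_polar: |ν|² - p² = 1/(4r²)). Energy: en_polar.
`angle`: u = ρ e^{-iφ}/r (φ = ph) has derivative 0: ρ'/ρ = ν/ρ = (conj ρ ν)/r² = (r p + i/2)/r² = p/r + iΩ (Ω = 1/(2r²)), so u'/u = p/r + iΩ - iΩ - p/r = 0; u(0) = 1 if ρ(0) = r(0), hence ρ = r e^{iφ}.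
-/

set_option autoImplicit false
set_option linter.unusedVariables false

open Complex ComplexConjugate

namespace IsoTB

private theorem A7_comp {μ : ℝ} {y : ℝ → E6} (hd : ∀ t, HasDerivAt y (fld μ (y t)) t) (t : ℝ) :
    HasDerivAt (fun t => (y t).1) (y t).2.1 t ∧
    HasDerivAt (fun t => (y t).2.1) (-((1 / (4 * ‖(y t).1‖ ^ 3) +
      μ / dd ‖(y t).1‖ (y t).2.2.1 ^ 3 : ℝ) : ℂ) * (y t).1) t ∧
    HasDerivAt (fun t => (y t).2.2.1) (y t).2.2.2 t ∧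
    HasDerivAt (fun t => (y t).2.2.2)
      (-((2 + μ) * ((y t).2.2.1 / dd ‖(y t).1‖ (y t).2.2.1 ^ 3))) t := by
  have h := hd t
  have h2 := (ContinuousLinearMap.snd ℝ ℂ (ℂ × ℝ × ℝ)).hasFDerivAt.comp_hasDerivAt t h
  have h3 := (ContinuousLinearMap.snd ℝ ℂ (ℝ × ℝ)).hasFDerivAt.comp_hasDerivAt t h2
  refine ⟨?_, ?_, ?_, ?_⟩
  · exact (ContinuousLinearMap.fst ℝ ℂ (ℂ × ℝ × ℝ)).hasFDerivAt.comp_hasDerivAt t h
  · exact (ContinuousLinearMap.fst ℝ ℂ (ℝ × ℝ)).hasFDerivAt.comp_hasDerivAt t h2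
  · exact (ContinuousLinearMap.fst ℝ ℝ ℝ).hasFDerivAt.comp_hasDerivAt t h3
  · exact (ContinuousLinearMap.snd ℝ ℝ ℝ).hasFDerivAt.comp_hasDerivAt t h3

private theorem A7_re {f : ℝ → ℂ} {f' : ℂ} {t : ℝ} (h : HasDerivAt f f' t) :
    HasDerivAt (fun t => (f t).re) f'.re t :=
  Complex.reCLM.hasFDerivAt.comp_hasDerivAt t h

private theorem A7_im {f : ℝ → ℂ} {f' : ℂ} {t : ℝ} (h : HasDerivAt f f' t) :
    HasDerivAt (fun t => (f t).im) f'.im t :=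
  Complex.imCLM.hasFDerivAt.comp_hasDerivAt t h

private theorem A7_norm {f : ℝ → ℂ} {f' : ℂ} {t : ℝ} (h : HasDerivAt f f' t) (h0 : f t ≠ 0) :
    HasDerivAt (fun t => ‖f t‖) ((conj (f t) * f').re / ‖f t‖) t := by
  have h1 : HasDerivAt (fun t => (f t).re ^ 2 + (f t).im ^ 2)
      (2 * (f t).re * f'.re + 2 * (f t).im * f'.im) t := by
    have h2 := ((A7_re h).pow 2).add ((A7_im h).pow 2)
    have h3 : (2 * (f t).re * f'.re + 2 * (f t).im * f'.im) =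
        ((2 : ℕ) : ℝ) * (f t).re ^ (2 - 1) * f'.re + ((2 : ℕ) : ℝ) * (f t).im ^ (2 - 1) * f'.im := by
      norm_num
    rw [h3]
    exact h2
  have hn : ∀ s, ‖f s‖ = √((f s).re ^ 2 + (f s).im ^ 2) := by
    intro s
    rw [Complex.norm_eq_sqrt_sq_add_sq]
  have hpos : 0 < ‖f t‖ := norm_pos_iff.2 h0
  have hpos2 : (f t).re ^ 2 + (f t).im ^ 2 ≠ 0 := by
    intro h4
    have h5 := hn t
    rw [h4, Real.sqrt_zero] at h5
    linarith
  have h4 := h1.sqrt hpos2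
  have h5 : (fun t => ‖f t‖) = fun t => √((f t).re ^ 2 + (f t).im ^ 2) := funext hn
  rw [h5]
  have h6 : (conj (f t) * f').re / (fun t => √((f t).re ^ 2 + (f t).im ^ 2)) t =
      (2 * (f t).re * f'.re + 2 * (f t).im * f'.im) / (2 * √((f t).re ^ 2 + (f t).im ^ 2)) := by
    have h7 : (conj (f t) * f').re = (f t).re * f'.re + (f t).im * f'.im := by
      rw [Complex.mul_re, Complex.conj_re, Complex.conj_im]
      ring
    rw [h7]
    show _ / √((f t).re ^ 2 + (f t).im ^ 2) = _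
    rw [← hn t]
    field_simp
  have h8 : (conj (f t) * f').re / ‖f t‖ =
      (2 * (f t).re * f'.re + 2 * (f t).im * f'.im) / (2 * √((f t).re ^ 2 + (f t).im ^ 2)) := by
    rw [hn t]
    exact h6
  rw [h8]
  exact h4

private theorem A7_dp {μ k : ℝ} {y : ℝ → E6} (hy : ∀ t, y t ∈ lev μ k)
    (hd : ∀ t, HasDerivAt y (fld μ (y t)) t) (t : ℝ) :
    HasDerivAt (fun t => (conj (y t).1 * (y t).2.1).re / ‖(y t).1‖)
      (1 / (4 * ‖(y t).1‖ ^ 3) - 1 / (4 * ‖(y t).1‖ ^ 2) -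
        μ * (‖(y t).1‖ / dd ‖(y t).1‖ (y t).2.2.1 ^ 3)) t := by
  obtain ⟨h1, h2, -, -⟩ := A7_comp hd t
  have h0 : (y t).1 ≠ 0 := (hy t).1
  have hr : 0 < ‖(y t).1‖ := norm_pos_iff.2 h0
  have hq : ∀ s, (conj (y s).1 * (y s).2.1).re =
      (y s).1.re * (y s).2.1.re + (y s).1.im * (y s).2.1.im := by
    intro s
    rw [Complex.mul_re, Complex.conj_re, Complex.conj_im]
    ring
  have hD : 0 < dd ‖(y t).1‖ (y t).2.2.1 := dd_pos _ hr
  obtain ⟨a, ha⟩ : ∃ a : ℝ, a = 1 / (4 * ‖(y t).1‖ ^ 3) +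
      μ / dd ‖(y t).1‖ (y t).2.2.1 ^ 3 := ⟨_, rfl⟩
  rw [← ha] at h2
  have hqd : HasDerivAt (fun s => (conj (y s).1 * (y s).2.1).re)
      (‖(y t).2.1‖ ^ 2 - a * ‖(y t).1‖ ^ 2) t := by
    have h3 : (fun s => (conj (y s).1 * (y s).2.1).re) = fun s =>
        (y s).1.re * (y s).2.1.re + (y s).1.im * (y s).2.1.im := funext hq
    rw [h3]
    have h4 := ((A7_re h1).mul (A7_re h2)).add ((A7_im h1).mul (A7_im h2))
    have h5 : (‖(y t).2.1‖ ^ 2 - a * ‖(y t).1‖ ^ 2) =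
        ((y t).2.1.re * (y t).2.1.re + (y t).1.re * (-(a : ℂ) * (y t).1).re) +
        ((y t).2.1.im * (y t).2.1.im + (y t).1.im * (-(a : ℂ) * (y t).1).im) := by
      rw [Complex.sq_norm, Complex.sq_norm, Complex.normSq_apply, Complex.normSq_apply]
      simp only [neg_mul, Complex.neg_re, Complex.neg_im, Complex.re_ofReal_mul,
        Complex.im_ofReal_mul]
      ring
    rw [h5]
    exact h4
  have h6 := hqd.div (A7_norm h1 h0) hr.ne'
  have hns := norm_sq_polar h0 (hy t).2.1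
  obtain ⟨q, hq'⟩ : ∃ q : ℝ, q = (conj (y t).1 * (y t).2.1).re := ⟨_, rfl⟩
  have h7 : (1 / (4 * ‖(y t).1‖ ^ 3) - 1 / (4 * ‖(y t).1‖ ^ 2) -
        μ * (‖(y t).1‖ / dd ‖(y t).1‖ (y t).2.2.1 ^ 3)) =
      ((‖(y t).2.1‖ ^ 2 - a * ‖(y t).1‖ ^ 2) * ‖(y t).1‖ -
        (conj (y t).1 * (y t).2.1).re * ((conj (y t).1 * (y t).2.1).re / ‖(y t).1‖)) /
        ‖(y t).1‖ ^ 2 := by
    rw [← hq'] at hns ⊢
    rw [hns, ha]
    obtain ⟨D, hDD⟩ : ∃ D : ℝ, D = dd ‖(y t).1‖ (y t).2.2.1 := ⟨_, rfl⟩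
    obtain ⟨r, hrr⟩ : ∃ r : ℝ, r = ‖(y t).1‖ := ⟨_, rfl⟩
    rw [← hDD, ← hrr]
    have hD' : D ≠ 0 := by
      rw [hDD]
      exact hD.ne'
    have hr' : r ≠ 0 := by
      rw [hrr]
      exact hr.ne'
    field_simp
    ring
  rw [h7]
  exact h6

theorem exists_orb {μ k : ℝ} {y : ℝ → E6} (hy : ∀ t, y t ∈ lev μ k) (hd : ∀ t, HasDerivAt y (fld μ (y t)) t) :
    ∃ o : Orb μ k, (∀ t, o.r t = ‖(y t).1‖) ∧ (∀ t, o.p t = (conj (y t).1 * (y t).2.1).re / ‖(y t).1‖) ∧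
      (∀ t, o.z t = (y t).2.2.1) ∧ (∀ t, o.w t = (y t).2.2.2) := by
  refine ⟨{ r := fun t => ‖(y t).1‖
            p := fun t => (conj (y t).1 * (y t).2.1).re / ‖(y t).1‖
            z := fun t => (y t).2.2.1
            w := fun t => (y t).2.2.2
            r_pos := fun t => norm_pos_iff.2 (hy t).1
            dr := fun t => A7_norm (A7_comp hd t).1 (hy t).1
            dp := fun t => A7_dp hy hd t
            dz := fun t => (A7_comp hd t).2.2.1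
            dw := fun t => (A7_comp hd t).2.2.2
            en := fun t => en_polar (hy t) }, fun t => rfl, fun t => rfl, fun t => rfl,
            fun t => rfl⟩

theorem orb_angle {μ k : ℝ} {y : ℝ → E6} (hy : ∀ t, y t ∈ lev μ k) (hd : ∀ t, HasDerivAt y (fld μ (y t)) t)
    (o : Orb μ k) (hr : ∀ t, o.r t = ‖(y t).1‖) (h0 : (y 0).1 = (‖(y 0).1‖ : ℂ)) (t : ℝ) :
    (y t).1 = (o.r t : ℂ) * exp (I * o.ph t) := by
  have hder : ∀ s, HasDerivAt (fun s => (y s).1 * exp (-(I * o.ph s)) / (o.r s : ℂ)) 0 s := by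
    intro s
    obtain ⟨h1, -, -, -⟩ := A7_comp hd s
    have h0 : (y s).1 ≠ 0 := (hy s).1
    have hrs : o.r s = ‖(y s).1‖ := hr s
    have hrpos : 0 < o.r s := o.r_pos s
    have hp : HasDerivAt o.r ((conj (y s).1 * (y s).2.1).re / ‖(y s).1‖) s := by
      have h2 : o.r = fun t => ‖(y t).1‖ := funext hr
      rw [h2]
      exact A7_norm h1 h0
    have hE : HasDerivAt (fun s => exp (-(I * o.ph s))) (exp (-(I * o.ph s)) *
        (-(I * o.Om s))) s := by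
      have h2 : HasDerivAt (fun s => ((o.ph s : ℝ) : ℂ)) ((o.Om s : ℝ) : ℂ) s :=
        (o.ph_deriv s).ofReal_comp
      exact ((h2.const_mul I).neg).cexp
    have hRc : HasDerivAt (fun s => ((o.r s : ℝ) : ℂ))
        ((((conj (y s).1 * (y s).2.1).re / ‖(y s).1‖ : ℝ)) : ℂ) s := hp.ofReal_comp
    have hrc : ((o.r s : ℝ) : ℂ) ≠ 0 := by exact_mod_cast hrpos.ne'
    have h3 := (h1.mul hE).div hRc hrc
    have h4 : ((y s).2.1 * exp (-(I * o.ph s)) + (y s).1 * (exp (-(I * o.ph s)) *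
        (-(I * o.Om s)))) * (o.r s : ℂ) - (y s).1 * exp (-(I * o.ph s)) *
        ((((conj (y s).1 * (y s).2.1).re / ‖(y s).1‖ : ℝ)) : ℂ) = 0 := by
      have h5 : conj (y s).1 * (y s).2.1 =
          (((conj (y s).1 * (y s).2.1).re : ℝ) : ℂ) + ((1 / 2 : ℝ) : ℂ) * I := by
        have h6 := Complex.re_add_im (conj (y s).1 * (y s).2.1)
        have h7 : (conj (y s).1 * (y s).2.1).im = 1 / 2 := (hy s).2.1
        rw [h7] at h6
        exact h6.symm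
      obtain ⟨q, hq⟩ : ∃ q : ℝ, q = (conj (y s).1 * (y s).2.1).re := ⟨_, rfl⟩
      rw [← hq] at h5 ⊢
      have h6 : (y s).1 * conj (y s).1 = ((o.r s : ℝ) : ℂ) ^ 2 := by
        rw [Complex.mul_conj, Complex.normSq_eq_norm_sq, hrs]
        push_cast
        ring
      have h7 : ((o.r s : ℝ) : ℂ) ^ 2 * (y s).2.1 = (y s).1 * ((q : ℂ) + ((1 / 2 : ℝ) : ℂ) * I) := by
        rw [← h5, ← h6]
        ring
      have h8 : ((o.Om s : ℝ) : ℂ) = 1 / (2 * ((o.r s : ℝ) : ℂ) ^ 2) := by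
        unfold Orb.Om
        push_cast
        ring
      rw [h8, ← hrs]
      push_cast at h7 ⊢
      have h9 : (y s).2.1 = (y s).1 * ((q : ℂ) + 1 / 2 * I) / ((o.r s : ℝ) : ℂ) ^ 2 := by
        rw [eq_div_iff (pow_ne_zero 2 hrc)]
        linear_combination h7
      rw [h9]
      field_simp
      ring
    have h10 : HasDerivAt (fun s => (y s).1 * exp (-(I * o.ph s)) / (o.r s : ℂ))
        ((((y s).2.1 * exp (-(I * o.ph s)) + (y s).1 * (exp (-(I * o.ph s)) *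
        (-(I * o.Om s)))) * (o.r s : ℂ) - (y s).1 * exp (-(I * o.ph s)) *
        ((((conj (y s).1 * (y s).2.1).re / ‖(y s).1‖ : ℝ)) : ℂ)) / (o.r s : ℂ) ^ 2) s := h3
    rw [h4, zero_div] at h10
    exact h10
  have hconst := is_const_of_deriv_eq_zero (fun s => (hder s).differentiableAt)
    (fun s => (hder s).deriv) t 0
  have hrt : ((o.r t : ℝ) : ℂ) ≠ 0 := by exact_mod_cast (o.r_pos t).ne'
  have hr0 : ((o.r 0 : ℝ) : ℂ) ≠ 0 := by exact_mod_cast (o.r_pos 0).ne'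
  have h1 : (y 0).1 * exp (-(I * o.ph 0)) / (o.r 0 : ℂ) = 1 := by
    rw [o.ph_zero, h0, ← hr 0]
    simp [hr0]
  rw [h1, div_eq_iff hrt, one_mul] at hconst
  have h2 : exp (-(I * o.ph t)) * exp (I * o.ph t) = 1 := by
    rw [← Complex.exp_add, neg_add_cancel, Complex.exp_zero]
  calc (y t).1 = (y t).1 * exp (-(I * o.ph t)) * exp (I * o.ph t) := by
        rw [mul_assoc, h2, mul_one]
    _ = (o.r t : ℂ) * exp (I * o.ph t) := by rw [hconst]

end IsoTB
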