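import Pool.Agent.Lib.MP_3f23fb_mp.A4

/-!
# MP_3f23fb_mp, module A8: the section

For Y ∈ ℂ, ‖Y‖ ≤ R: r = 1/(1 - 2μ Re Y), p = μ Im Y, ρ = r, ν = p + i/(2r), z = 0, w = √((2+μ)(2/r - μ(‖Y‖²+k))). If μ R ≤ 1/8 and μ (R²+K) ≤ 1/2, then 1 - 2μ Re Y ≥ 3/4, r ∈ [4/5, 4/3],
radicand ≥ 2(3/2 - 1/2) > 0, so w > 0; am6 = Im(r(p + i/(2r))) = 1/2; (1 - 1/r)/(2μ) = Re Y, p/μ = Im Y. Energy: p² + 1/(4r²) - 1/(2r) = p² + (1-1/r)²/4 - 1/4 = μ²‖Y‖² - 1/4, and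
μ(w²/(2+μ) - 2/r) = -μ²(‖Y‖²+k) (dd r 0 = r). Continuity on all of ℂ fails only at 1 = 2μ Re Y, so it is stated on the disc.
-/

set_option autoImplicit false
set_option linter.unusedVariables false

open Complex ComplexConjugate

namespace IsoTB

/-- The point of the section z = 0, w > 0 with amplitude Y. -/
noncomputable def sec (μ k : ℝ) (Y : ℂ) : E6 :=
  (((1 / (1 - 2 * μ * Y.re) : ℝ) : ℂ), ⟨μ * Y.im, (1 - 2 * μ * Y.re) / 2⟩, 0,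
    √((2 + μ) * (2 * (1 - 2 * μ * Y.re) - μ * (‖Y‖ ^ 2 + k))))

private theorem A8_re {μ R : ℝ} (hμ : 0 < μ) (h1 : μ * R ≤ 1 / 8) {Y : ℂ} (hY : ‖Y‖ ≤ R) :
    3 / 4 ≤ 1 - 2 * μ * Y.re := by
  have h2 : Y.re ≤ R := ((le_abs_self _).trans (Complex.abs_re_le_norm Y)).trans hY
  nlinarith

theorem sec_facts {μ k K R : ℝ} (hμ : 0 < μ) (hμ' : μ ≤ 1 / 64) (hk : 0 < k) (hkK : k ≤ K) (hR : 0 ≤ R)
    (h1 : μ * R ≤ 1 / 8) (h2 : μ * (R ^ 2 + K) ≤ 1 / 2) {Y : ℂ} (hY : ‖Y‖ ≤ R) :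
    sec μ k Y ∈ lev μ k ∧ (sec μ k Y).1 = (‖(sec μ k Y).1‖ : ℂ) ∧ 0 < (sec μ k Y).2.2.2 ∧ (sec μ k Y).2.2.1 = 0 ∧
      (1 - 1 / ‖(sec μ k Y).1‖) / (2 * μ) = Y.re ∧
      (conj (sec μ k Y).1 * (sec μ k Y).2.1).re / ‖(sec μ k Y).1‖ / μ = Y.im := by
  obtain ⟨a, ha⟩ : ∃ a : ℝ, a = 1 - 2 * μ * Y.re := ⟨_, rfl⟩
  have ha1 : 3 / 4 ≤ a := by
    rw [ha]
    exact A8_re hμ h1 hY
  have ha0 : 0 < a := by linarith
  have hr0 : 0 < 1 / a := by positivity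
  have hsec : sec μ k Y = (((1 / a : ℝ) : ℂ), ⟨μ * Y.im, a / 2⟩, 0,
      √((2 + μ) * (2 * a - μ * (‖Y‖ ^ 2 + k)))) := by
    rw [sec, ha]
  rw [hsec]
  have hn : ‖((1 / a : ℝ) : ℂ)‖ = 1 / a := by
    rw [Complex.norm_real, Real.norm_eq_abs, abs_of_pos hr0]
  have hsq : ‖Y‖ ^ 2 ≤ R ^ 2 := pow_le_pow_left₀ (norm_nonneg Y) hY 2
  have hrad : 0 < 2 * a - μ * (‖Y‖ ^ 2 + k) := by
    have h3 : μ * (‖Y‖ ^ 2 + k) ≤ μ * (R ^ 2 + K) :=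
      mul_le_mul_of_nonneg_left (by linarith) hμ.le
    linarith
  have hrad2 : 0 < (2 + μ) * (2 * a - μ * (‖Y‖ ^ 2 + k)) := mul_pos (by linarith) hrad
  have hY2 : ‖Y‖ ^ 2 = Y.re ^ 2 + Y.im ^ 2 := by
    rw [Complex.sq_norm, Complex.normSq_apply]
    ring
  refine ⟨⟨?_, ?_, ?_⟩, ?_, ?_, rfl, ?_, ?_⟩
  · show ((1 / a : ℝ) : ℂ) ≠ 0
    exact_mod_cast hr0.ne'
  · show ((starRingEnd ℂ) ((1 / a : ℝ) : ℂ) * ⟨μ * Y.im, a / 2⟩).im = 1 / 2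
    rw [Complex.conj_ofReal, Complex.im_ofReal_mul]
    field_simp
  · show ‖(⟨μ * Y.im, a / 2⟩ : ℂ)‖ ^ 2 - 1 / (2 * ‖((1 / a : ℝ) : ℂ)‖) +
      μ * (√((2 + μ) * (2 * a - μ * (‖Y‖ ^ 2 + k))) ^ 2 / (2 + μ) -
        2 / dd ‖((1 / a : ℝ) : ℂ)‖ 0) = -(1 / 4) - μ ^ 2 * k
    have hdd : dd (1 / a) 0 = 1 / a := by
      unfold dd
      rw [zero_pow two_ne_zero, add_zero, Real.sqrt_sq hr0.le]
    rw [hn, hdd, Real.sq_sqrt hrad2.le, Complex.sq_norm, Complex.normSq_apply,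
      mul_div_cancel_left₀ _ (by linarith : (2 + μ) ≠ 0), hY2]
    show μ * Y.im * (μ * Y.im) + a / 2 * (a / 2) - 1 / (2 * (1 / a)) +
      μ * (2 * a - μ * (Y.re ^ 2 + Y.im ^ 2 + k) - 2 / (1 / a)) = -(1 / 4) - μ ^ 2 * k
    have e1 : 1 / (2 * (1 / a)) = a / 2 := by field_simp
    have e2 : 2 / (1 / a) = 2 * a := by field_simp
    rw [e1, e2, ha]
    ring
  · show ((1 / a : ℝ) : ℂ) = (‖((1 / a : ℝ) : ℂ)‖ : ℂ)
    rw [hn]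
  · exact Real.sqrt_pos.2 hrad2
  · show (1 - 1 / ‖((1 / a : ℝ) : ℂ)‖) / (2 * μ) = Y.re
    rw [hn, one_div_one_div, ha]
    field_simp
    ring
  · show ((starRingEnd ℂ) ((1 / a : ℝ) : ℂ) * ⟨μ * Y.im, a / 2⟩).re /
      ‖((1 / a : ℝ) : ℂ)‖ / μ = Y.im
    rw [hn, Complex.conj_ofReal, Complex.re_ofReal_mul]
    field_simp

theorem sec_continuousOn {μ k R : ℝ} (hμ : 0 < μ) (h1 : μ * R ≤ 1 / 8) :
    ContinuousOn (sec μ k) {Y | ‖Y‖ ≤ R} := by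
  have h2 : ∀ Y ∈ {Y : ℂ | ‖Y‖ ≤ R}, 1 - 2 * μ * Y.re ≠ 0 := by
    intro Y hY
    have := A8_re hμ h1 hY
    linarith
  have hc : Continuous fun Y : ℂ => 1 - 2 * μ * Y.re :=
    continuous_const.sub (continuous_const.mul Complex.continuous_re)
  refine ContinuousOn.prodMk ?_ (ContinuousOn.prodMk ?_ (ContinuousOn.prodMk ?_ ?_))
  · exact Complex.continuous_ofReal.comp_continuousOn
      (continuousOn_const.div hc.continuousOn h2)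
  · have h3 : (fun Y : ℂ => (⟨μ * Y.im, (1 - 2 * μ * Y.re) / 2⟩ : ℂ)) =
        fun Y : ℂ => ((μ * Y.im : ℝ) : ℂ) + (((1 - 2 * μ * Y.re) / 2 : ℝ) : ℂ) * Complex.I := by
      funext Y
      exact Complex.mk_eq_add_mul_I _ _
    rw [h3]
    refine Continuous.continuousOn ?_
    exact (Complex.continuous_ofReal.comp (continuous_const.mul Complex.continuous_im)).add
      ((Complex.continuous_ofReal.comp (hc.div_const 2)).mul continuous_const)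
  · exact continuousOn_const
  · refine Continuous.continuousOn ?_
    exact (continuous_const.mul ((continuous_const.mul hc).sub (continuous_const.mul
      ((continuous_norm.pow 2).add continuous_const)))).sqrt

end IsoTB
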