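import Pool.Agent.Lib.MP_3f23fb_mp.M3

/-!
# MP_3f23fb_mp, module M4: Re J ≥ 1/4

Re J_τ = ∫_0^τ G cos(t/2). Let τ ≥ π. 
(a) On [0,π] G cos(t/2) ≥ 0; on [0,1] ζ ≤ 2t gives G ≥ (1+4t²)^{-3/2} and cos(t/2) ≥ 1 - t²/8 ≥ 7/8. ∫_0^1 (1+4t²)^{-3/2} dt = 1/√5
(primitive t/√(1+4t²)). So ∫_0^π G cos(t/2) ≥ 7/(8√5) ≥ 0.391.
(b) ∫_π^τ G cos(t/2) dt ≥ -4 G(π): integration by parts with S(t) = 2 sin(t/2) - 2 ∈ [-4, 0], S' = cos(t/2), S(π) = 0, G' ≤ 0
(GG has derivative -3 ζ vel/(√(1+ζ²))⁵): = G(τ)S(τ) - ∫ G' S ≥ -4G(τ) - 4(G(π) - G(τ)) = -4G(π). Alternatively: the function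
t ↦ G(t)S(t) + 4 G(π) - 4 G(t)... any monotonicity argument: d/dτ [∫_π^τ G cos(t/2) - G(τ)S(τ) - 4 G(τ)] = -G'(τ)(S(τ) + 4) ≥ 0, and at τ = π
the bracket is -4G(π), so ∫_π^τ G cos ≥ G(τ)(S(τ)+4) - 4G(π) ≥ -4G(π).
(c) ζ(π) ≥ 3 gives G(π) ≤ 10^{-3/2} ≤ 0.03163. Total ≥ 0.391 - 0.1266 ≥ 0.26; let τ → ∞: Re J ≥ 0.26 - 1/ζ(τ) for all large τ, hence
Re J ≥ 0.26 ≥ 1/4.
-/

set_option autoImplicit false
set_option linter.unusedVariables false

open MeasureTheory intervalIntegral Filter Complex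

namespace IsoTB

private theorem M4_hasDerivAt_GG (t : ℝ) :
    HasDerivAt GG (-(3 * (zeta t * vel t / √(1 + zeta t ^ 2)) * √(1 + zeta t ^ 2) ^ 2 /
      (√(1 + zeta t ^ 2) ^ 3) ^ 2)) t := by
  have h0 : (0 : ℝ) < 1 + zeta t ^ 2 := by positivity
  have hq0 : 0 < √(1 + zeta t ^ 2) := Real.sqrt_pos.2 h0
  have h1 : HasDerivAt (fun s => 1 + zeta s ^ 2) (2 * zeta t * vel t) t := by
    have := ((zeta_deriv t).pow 2).const_add 1
    refine this.congr_deriv ?_
    simp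
  have h2 : HasDerivAt (fun s => √(1 + zeta s ^ 2)) (zeta t * vel t / √(1 + zeta t ^ 2)) t := by
    refine (h1.sqrt h0.ne').congr_deriv ?_
    field_simp
  have h3 := (h2.pow 3).inv (pow_pos hq0 3).ne'
  have h4 : GG = fun s => (√(1 + zeta s ^ 2) ^ 3)⁻¹ := by
    funext s
    rw [GG, one_div]
  rw [h4]
  refine h3.congr_deriv ?_
  simp only [Pi.pow_apply]
  push_cast
  ring

private theorem M4_GG_pi : GG Real.pi ≤ 0.0317 := by
  have h1 := three_le_zeta_pi
  have h2 : (3.16 : ℝ) ≤ √(1 + zeta Real.pi ^ 2) := by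
    apply Real.le_sqrt_of_sq_le
    nlinarith
  have h3 : (3.16 : ℝ) ^ 3 ≤ √(1 + zeta Real.pi ^ 2) ^ 3 := pow_le_pow_left₀ (by norm_num) h2 3
  rw [GG, div_le_iff₀ (by positivity)]
  nlinarith

private theorem M4_cont : Continuous fun t : ℝ => GG t * Real.cos (t / 2) :=
  continuous_GG.mul (Real.continuous_cos.comp (continuous_id.div_const 2))

private theorem M4_head : 0.391 ≤ ∫ t in (0:ℝ)..Real.pi, GG t * Real.cos (t / 2) := by
  have hint : ∀ a b, IntervalIntegrable (fun t : ℝ => GG t * Real.cos (t / 2)) volume a b :=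
    fun a b => M4_cont.intervalIntegrable a b
  rw [← integral_add_adjacent_intervals (hint 0 1) (hint 1 Real.pi)]
  have hpi := Real.pi_gt_three
  have h2 : 0 ≤ ∫ t in (1:ℝ)..Real.pi, GG t * Real.cos (t / 2) := by
    refine integral_nonneg (by linarith) fun t ht => ?_
    refine mul_nonneg (GG_pos t).le (Real.cos_nonneg_of_mem_Icc ⟨?_, ?_⟩)
    · linarith [ht.1]
    · linarith [ht.2]
  -- the first part
  have hder : ∀ t : ℝ, HasDerivAt (fun t : ℝ => t / √(1 + 4 * t ^ 2))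
      (1 / √(1 + 4 * t ^ 2) ^ 3) t := by
    intro t
    have h0 : (0 : ℝ) < 1 + 4 * t ^ 2 := by positivity
    have hq0 : 0 < √(1 + 4 * t ^ 2) := Real.sqrt_pos.2 h0
    have h1 : HasDerivAt (fun s : ℝ => 1 + 4 * s ^ 2) (8 * t) t := by
      have := (((hasDerivAt_id t).pow 2).const_mul 4).const_add 1
      refine this.congr_deriv ?_
      simp
      ring
    have h2 := (hasDerivAt_id t).div (h1.sqrt h0.ne') hq0.ne'
    refine h2.congr_deriv ?_
    have h3 : √(1 + 4 * t ^ 2) ^ 2 = 1 + 4 * t ^ 2 := Real.sq_sqrt h0.le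
    simp only [id]
    field_simp
    rw [h3]
    ring
  have hcont : Continuous fun t : ℝ => 1 / √(1 + 4 * t ^ 2) ^ 3 := by
    refine continuous_const.div (by fun_prop) fun t => ?_
    have h0 : (0 : ℝ) < 1 + 4 * t ^ 2 := by positivity
    have hq0 : 0 < √(1 + 4 * t ^ 2) := Real.sqrt_pos.2 h0
    positivity
  have h3 : ∫ t in (0:ℝ)..1, 1 / √(1 + 4 * t ^ 2) ^ 3 = 1 / √5 := by
    rw [integral_eq_sub_of_hasDerivAt (fun t _ => hder t) (hcont.intervalIntegrable _ _)]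
    norm_num
  have h4 : ∫ t in (0:ℝ)..1, 7 / 8 * (1 / √(1 + 4 * t ^ 2) ^ 3) ≤
      ∫ t in (0:ℝ)..1, GG t * Real.cos (t / 2) := by
    refine integral_mono_on (by norm_num) ((hcont.const_mul _).intervalIntegrable _ _)
      (hint 0 1) fun t ht => ?_
    have h5 := zeta_le ht.1
    have h6 := zeta_nonneg ht.1
    have h7 : √(1 + zeta t ^ 2) ≤ √(1 + 4 * t ^ 2) := Real.sqrt_le_sqrt (by nlinarith)
    have h8 : 0 < √(1 + zeta t ^ 2) := Real.sqrt_pos.2 (by positivity)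
    have h9 : 1 / √(1 + 4 * t ^ 2) ^ 3 ≤ GG t := by
      rw [GG]
      exact one_div_le_one_div_of_le (by positivity) (pow_le_pow_left₀ h8.le h7 3)
    have h10 : 7 / 8 ≤ Real.cos (t / 2) := by
      have := Real.one_sub_sq_div_two_le_cos (x := t / 2)
      nlinarith [ht.1, ht.2]
    rw [mul_comm]
    exact mul_le_mul h9 h10 (by norm_num) (GG_pos t).le
  rw [intervalIntegral.integral_const_mul, h3] at h4
  have h5 : √5 ≤ 2.2361 := by
    rw [Real.sqrt_le_left (by norm_num)]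
    norm_num
  have h6 : (0 : ℝ) < √5 := Real.sqrt_pos.2 (by norm_num)
  have h7 : 0.4472 ≤ 1 / √5 := by
    rw [le_div_iff₀ h6]
    nlinarith
  linarith

private theorem M4_tail {τ : ℝ} (hτ : Real.pi ≤ τ) :
    0.26 ≤ ∫ t in (0:ℝ)..τ, GG t * Real.cos (t / 2) := by
  set A : ℝ → ℝ := fun s => ∫ t in (0:ℝ)..s, GG t * Real.cos (t / 2) with hA
  set H : ℝ → ℝ := fun s => A s - GG s * (2 * Real.sin (s / 2) - 2) - 4 * GG s with hH
  have hdA : ∀ s, HasDerivAt A (GG s * Real.cos (s / 2)) s := fun s =>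
    integral_hasDerivAt_right (M4_cont.intervalIntegrable _ _)
      (M4_cont.stronglyMeasurableAtFilter _ _) M4_cont.continuousAt
  have hdS : ∀ s : ℝ, HasDerivAt (fun s : ℝ => 2 * Real.sin (s / 2) - 2) (Real.cos (s / 2)) s := by
    intro s
    have h1 : HasDerivAt (fun s : ℝ => s / 2) (1 / 2) s := (hasDerivAt_id s).div_const 2
    have h2 := ((h1.sin).const_mul 2).sub_const 2
    refine h2.congr_deriv ?_
    ring
  set g : ℝ → ℝ := fun t => -(3 * (zeta t * vel t / √(1 + zeta t ^ 2)) * √(1 + zeta t ^ 2) ^ 2 /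
      (√(1 + zeta t ^ 2) ^ 3) ^ 2) with hg
  have hdH : ∀ s, HasDerivAt H (-(g s) * (2 * Real.sin (s / 2) + 2)) s := by
    intro s
    have h1 := ((hdA s).sub ((M4_hasDerivAt_GG s).mul (hdS s))).sub
      ((M4_hasDerivAt_GG s).const_mul 4)
    refine h1.congr_deriv ?_
    simp only [hg]
    ring
  have hmono : MonotoneOn H (Set.Ici Real.pi) := by
    refine monotoneOn_of_deriv_nonneg (convex_Ici _) (fun s _ => (hdH s).continuousAt.continuousWithinAt)
      (fun s _ => (hdH s).differentiableAt.differentiableWithinAt) fun s hs => ?_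
    rw [interior_Ici] at hs
    have hs0 : 0 ≤ s := Real.pi_pos.le.trans hs.le
    rw [(hdH s).deriv]
    have h1 : 0 ≤ 2 * Real.sin (s / 2) + 2 := by linarith [Real.neg_one_le_sin (s / 2)]
    have h2 : 0 ≤ -(g s) := by
      simp only [hg, neg_neg]
      have := zeta_nonneg hs0
      have := vel_pos s
      positivity
    exact mul_nonneg h2 h1
  have h1 := hmono (Set.mem_Ici.2 le_rfl) (Set.mem_Ici.2 hτ) hτ
  have h2 : H Real.pi = A Real.pi - 4 * GG Real.pi := by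
    simp only [hH]
    rw [Real.sin_pi_div_two]
    ring
  have h3 : H τ = A τ - GG τ * (2 * Real.sin (τ / 2) + 2) := by
    simp only [hH]
    ring
  have h4 : 0 ≤ GG τ * (2 * Real.sin (τ / 2) + 2) :=
    mul_nonneg (GG_pos τ).le (by linarith [Real.neg_one_le_sin (τ / 2)])
  have h5 := M4_head
  have h6 := M4_GG_pi
  have h7 : (0.391 : ℝ) ≤ A Real.pi := h5
  rw [h2, h3] at h1
  have : (0.26 : ℝ) ≤ A τ := by linarith
  exact this

private theorem M4_re (τ : ℝ) : (Jt τ).re = ∫ t in (0:ℝ)..τ, GG t * Real.cos (t / 2) := by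
  have hc : Continuous fun t : ℝ => (GG t : ℂ) * exp (I * (t / 2)) :=
    (Complex.continuous_ofReal.comp continuous_GG).mul (by fun_prop)
  have h1 := Complex.reCLM.intervalIntegral_comp_comm (hc.intervalIntegrable (μ := volume) 0 τ)
  rw [Jt]
  have h2 : ∀ t : ℝ, Complex.reCLM ((GG t : ℂ) * exp (I * (t / 2))) = GG t * Real.cos (t / 2) := by
    intro t
    rw [Complex.reCLM_apply, Complex.re_ofReal_mul]
    congr 1
    have h3 : I * ((t : ℂ) / 2) = ((t / 2 : ℝ) : ℂ) * I := by push_cast; ring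
    rw [h3, Complex.exp_ofReal_mul_I_re]
  rw [← Complex.reCLM_apply, ← h1]
  exact integral_congr fun t _ => h2 t

theorem re_JJ : 1 / 4 ≤ JJ.re := by
  obtain ⟨τ, h1, h2⟩ := ((zeta_tendsto.eventually_ge_atTop 1000).and
    (eventually_ge_atTop Real.pi)).exists
  have h3 : 0 < τ := Real.pi_pos.trans_le h2
  have h4 := Jt_sub_le h3 (by linarith)
  have h5 : 1 / zeta τ ≤ 0.001 := by
    rw [div_le_iff₀ (by linarith)]
    linarith
  have h6 : |(Jt τ - JJ).re| ≤ ‖Jt τ - JJ‖ := Complex.abs_re_le_norm _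
  rw [Complex.sub_re, abs_le] at h6
  have h7 := M4_tail h2
  rw [← M4_re] at h7
  linarith [h6.2]

end IsoTB
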