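import Mathlib

/-!
# MP_3f23fb_mp, module S9: lifted angles stay close

δ = φ - φ' is continuous, δ(0) = 0. ‖e^{iφ} - e^{iφ'}‖ ≤ 3‖r e^{iφ} - r' e^{iφ'}‖ ≤ 3/10 < 1 (r, r' ≥ 2/3: |r - r'| ≤ ‖r e^{iφ} - r' e^{iφ'}‖ =: h < 1/10, so
r‖e^{iφ} - e^{iφ'}‖ ≤ h + |r - r'| ≤ 2h, ‖..‖ ≤ 3h). ‖e^{iφ} - e^{iφ'}‖ = 2|sin(δ/2)|. If |δ(t)| ≥ π/2 for some t ∈ [0,T] then by the intermediate value theorem |δ(s)| = π/2 for some
s ∈ [0,t], where 2|sin(π/4)| = √2 > 1: contradiction.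
-/

set_option autoImplicit false
set_option linter.unusedVariables false

open Complex

namespace IsoTB

theorem angle_close {r r' φ φ' : ℝ → ℝ} {T : ℝ} (hφ : Continuous φ) (hφ' : Continuous φ') (h0 : φ 0 = 0) (h0' : φ' 0 = 0)
    (hr : ∀ t, 2 / 3 < r t) (hr' : ∀ t, 2 / 3 < r' t)
    (hclose : ∀ t ∈ Set.Icc 0 T, ‖(r t : ℂ) * exp (I * φ t) - (r' t : ℂ) * exp (I * φ' t)‖ < 1 / 10) :
    ∀ t ∈ Set.Icc 0 T, |φ t - φ' t| < Real.pi / 2 := by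
  intro t ht
  by_contra hcon
  push Not at hcon
  have hcont : Continuous fun s => |φ s - φ' s| := (hφ.sub hφ').abs
  have hmem : Real.pi / 2 ∈ Set.Icc (|φ 0 - φ' 0|) (|φ t - φ' t|) := by
    refine ⟨?_, hcon⟩
    rw [h0, h0', sub_zero, abs_zero]
    positivity
  obtain ⟨s, hs, hs2⟩ := intermediate_value_Icc ht.1 hcont.continuousOn hmem
  have hs3 : s ∈ Set.Icc 0 T := ⟨hs.1, hs.2.trans ht.2⟩
  have hc := hclose s hs3
  have hcos : Real.cos (φ s - φ' s) = 0 := by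
    rw [← Real.cos_abs]
    simp only at hs2
    rw [hs2, Real.cos_pi_div_two]
  have hsq : ‖(r s : ℂ) * exp (I * φ s) - (r' s : ℂ) * exp (I * φ' s)‖ ^ 2 = r s ^ 2 + r' s ^ 2 := by
    rw [← Complex.normSq_eq_norm_sq, Complex.normSq_apply]
    have e1 : exp (I * φ s) = (Real.cos (φ s) : ℂ) + (Real.sin (φ s) : ℂ) * I := by
      rw [mul_comm I, exp_mul_I, ← ofReal_cos, ← ofReal_sin]
    have e2 : exp (I * φ' s) = (Real.cos (φ' s) : ℂ) + (Real.sin (φ' s) : ℂ) * I := by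
      rw [mul_comm I, exp_mul_I, ← ofReal_cos, ← ofReal_sin]
    rw [e1, e2]
    rw [Real.cos_sub] at hcos
    simp only [sub_re, sub_im, mul_re, mul_im, add_re, add_im, ofReal_re, ofReal_im, I_re, I_im, mul_zero, zero_mul, mul_one,
      sub_zero, add_zero, zero_add]
    have h1 := Real.sin_sq_add_cos_sq (φ s)
    have h2 := Real.sin_sq_add_cos_sq (φ' s)
    linear_combination (-2 * r s * r' s) * hcos + r s ^ 2 * h1 + r' s ^ 2 * h2
  have h1 := hr s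
  have h2 := hr' s
  have h3 : ‖(r s : ℂ) * exp (I * φ s) - (r' s : ℂ) * exp (I * φ' s)‖ ^ 2 < (1 / 10) ^ 2 := by
    apply pow_lt_pow_left₀ hc (norm_nonneg _) (by norm_num)
  nlinarith

end IsoTB
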