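import Pool.Agent.Lib.MP_3f23fb_mp.S1

/-!
# MP_3f23fb_mp, module S4: a path across the region

For s ∈ [0,1] let ρ = (2d/3)(1+s), V(s) = √(ρ² - ρ⁴/(4d²)) - i ρ²/(2d). ρ ≤ 4d/3 < 2d, so the radicand is positive (ρ²(1 - ρ²/(4d²)) ≥ ρ²·5/9);
‖V‖² = ρ², ‖V + id‖² = ρ² - ρ⁴/(4d²) + (d - ρ²/(2d))² = d². To have a function continuous on all of ℝ compose with s ↦ max 0 (min s 1).
-/

set_option autoImplicit false
set_option linter.unusedVariables false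

open Complex

namespace IsoTB

theorem exists_path {d : ℝ} (hd : 0 < d) : ∃ V : ℝ → ℂ, Continuous V ∧ (∀ s, Ring d (V s)) ∧
    ‖V 0‖ = 2 * d / 3 ∧ ‖V 1‖ = 4 * d / 3 := by
  set ρ : ℝ → ℝ := fun s => 2 * d / 3 * (1 + max 0 (min s 1)) with hρ
  have hρc : Continuous ρ := by
    rw [hρ]
    fun_prop
  have hρ1 : ∀ s, 2 * d / 3 ≤ ρ s := by
    intro s
    have h1 : 0 ≤ max 0 (min s 1) := le_max_left _ _
    show 2 * d / 3 ≤ 2 * d / 3 * (1 + max 0 (min s 1))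
    nlinarith
  have hρ2 : ∀ s, ρ s ≤ 4 * d / 3 := by
    intro s
    have h1 : max 0 (min s 1) ≤ 1 := max_le zero_le_one (min_le_right _ _)
    show 2 * d / 3 * (1 + max 0 (min s 1)) ≤ 4 * d / 3
    nlinarith
  have hρ0 : ∀ s, 0 < ρ s := fun s => lt_of_lt_of_le (by positivity) (hρ1 s)
  have hrad : ∀ s, 0 < ρ s ^ 2 - ρ s ^ 4 / (4 * d ^ 2) := by
    intro s
    have h1 : ρ s ^ 2 ≤ (4 * d / 3) ^ 2 := pow_le_pow_left₀ (hρ0 s).le (hρ2 s) 2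
    have h2 : 0 < ρ s ^ 2 := pow_pos (hρ0 s) 2
    have h3 : ρ s ^ 4 / (4 * d ^ 2) < ρ s ^ 2 := by
      rw [div_lt_iff₀ (by positivity)]
      have h4 : ρ s ^ 2 < 4 * d ^ 2 := by nlinarith [mul_pos hd hd]
      calc ρ s ^ 4 = ρ s ^ 2 * ρ s ^ 2 := by ring
        _ < ρ s ^ 2 * (4 * d ^ 2) := mul_lt_mul_of_pos_left h4 h2
    linarith
  set a : ℝ → ℝ := fun s => √(ρ s ^ 2 - ρ s ^ 4 / (4 * d ^ 2)) with ha
  have hasq : ∀ s, a s ^ 2 = ρ s ^ 2 - ρ s ^ 4 / (4 * d ^ 2) := fun s => Real.sq_sqrt (hrad s).le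
  have hapos : ∀ s, 0 < a s := fun s => Real.sqrt_pos.mpr (hrad s)
  have hac : Continuous a := by
    rw [ha]
    fun_prop
  set V : ℝ → ℂ := fun s => (a s : ℂ) + ((-(ρ s ^ 2 / (2 * d)) : ℝ) : ℂ) * I with hV
  have hn1 : ∀ s, ‖V s‖ = ρ s := by
    intro s
    show ‖(a s : ℂ) + ((-(ρ s ^ 2 / (2 * d)) : ℝ) : ℂ) * I‖ = ρ s
    rw [norm_add_mul_I, hasq]
    have h1 : ρ s ^ 2 - ρ s ^ 4 / (4 * d ^ 2) + (-(ρ s ^ 2 / (2 * d))) ^ 2 = ρ s ^ 2 := by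
      field_simp
      ring
    rw [h1, Real.sqrt_sq (hρ0 s).le]
  have hn2 : ∀ s, ‖V s + I * d‖ = d := by
    intro s
    have h0 : V s + I * d = (a s : ℂ) + ((d - ρ s ^ 2 / (2 * d) : ℝ) : ℂ) * I := by
      show (a s : ℂ) + ((-(ρ s ^ 2 / (2 * d)) : ℝ) : ℂ) * I + I * d = _
      push_cast
      ring
    rw [h0, norm_add_mul_I, hasq]
    have h1 : ρ s ^ 2 - ρ s ^ 4 / (4 * d ^ 2) + (d - ρ s ^ 2 / (2 * d)) ^ 2 = d ^ 2 := by
      field_simp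
      ring
    rw [h1, Real.sqrt_sq hd.le]
  refine ⟨V, ?_, fun s => ⟨?_, ?_, ?_, ?_, ?_⟩, ?_, ?_⟩
  · rw [hV]
    fun_prop
  · rw [hn1]
    exact hρ1 s
  · rw [hn1]
    exact hρ2 s
  · rw [hn2]
    linarith
  · rw [hn2]
    linarith
  · show 0 < ((a s : ℂ) + ((-(ρ s ^ 2 / (2 * d)) : ℝ) : ℂ) * I).re
    have h0 : ((a s : ℂ) + ((-(ρ s ^ 2 / (2 * d)) : ℝ) : ℂ) * I).re = a s := by
      rw [Complex.add_re, Complex.ofReal_re, Complex.re_ofReal_mul, Complex.I_re, mul_zero, add_zero]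
    rw [h0]
    exact hapos s
  · rw [hn1]
    show 2 * d / 3 * (1 + max 0 (min 0 1)) = 2 * d / 3
    rw [min_eq_left zero_le_one, max_self]
    ring
  · rw [hn1]
    show 2 * d / 3 * (1 + max 0 (min 1 1)) = 4 * d / 3
    rw [min_self, max_eq_right zero_le_one]
    ring

end IsoTB
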