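import Pool.Agent.Lib.MP_3f23fb_mp.B1
import Pool.Agent.Lib.MP_3f23fb_mp.S4
import Pool.Agent.Lib.MP_3f23fb_mp.S7
import Pool.Agent.Lib.MP_3f23fb_mp.S10
import Pool.Agent.Lib.MP_3f23fb_mp.M4

/-!
# MP_3f23fb_mp, module B2: separated families for the normalised flow

d = 2 Re J ≥ 1/2. half_orbit with a = 2d/3, b = 4d/3, ε = d/15 gives μ₀' and for each (μ,k) numbers ΦA, ΦB with HOFacts μ k d ΦA ΦB. Shrink μ₀ so that the conditions of exists_fam hold. 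
V = the path of S4, f, P from exists_fam, T = 1 + 40/(μk)³. For u : Fin n → Bool extend by false to ℕ → Bool; exists_itin gives s_u; put P' u = P s_u. For u ≠ v: `separated` gives a time
s ∈ [0,nT] with |z - z'| ≥ 1/10 or ‖ρ - ρ'‖ ≥ 1/10, and dist on E6 = ℂ × ℂ × ℝ × ℝ is the sup distance.
-/

set_option autoImplicit false
set_option linter.unusedVariables false

open Complex ComplexConjugate

namespace IsoTB

theorem chaos6 (K : ℝ) (hK : 0 ≤ K) : ∃ μ₀ : ℝ, 0 < μ₀ ∧ μ₀ ≤ 1 / 64 ∧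
    ∀ {μ k : ℝ}, 0 < μ → μ ≤ μ₀ → 0 < k → k ≤ K → ∀ Φ : ℝ → E6 → E6, IsFlow6 μ k Φ →
      ∃ T : ℝ, 0 < T ∧ ∀ n : ℕ, ∃ P : (Fin n → Bool) → E6, (∀ u, P u ∈ lev μ k) ∧
        ∀ u v, u ≠ v → ∃ t ∈ Set.Icc 0 (n * T), 1 / 10 ≤ dist (Φ t (P u)) (Φ t (P v)) := by
  classical
  obtain ⟨d, hd0⟩ : ∃ d : ℝ, d = 2 * JJ.re := ⟨_, rfl⟩
  have hd : 0 < d := by
    have := re_JJ
    rw [hd0]
    linarith
  obtain ⟨μ1, hμ1, hμ1', hH⟩ := half_orbit (2 * d / 3) (4 * d / 3) K (d / 15) (by positivity) (by linarith) hK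
    (by positivity)
  have hb : 0 < 4 * d / 3 := by positivity
  have hq1 : 0 < 1 / (8 * (4 * d / 3 + 2)) := by positivity
  have hq2 : 0 < 1 / (2 * ((4 * d / 3 + 2) ^ 2 + K)) := by positivity
  refine ⟨min μ1 (min (1 / (8 * (4 * d / 3 + 2))) (1 / (2 * ((4 * d / 3 + 2) ^ 2 + K)))),
    lt_min hμ1 (lt_min hq1 hq2), (min_le_left _ _).trans hμ1', ?_⟩
  intro μ k hμ hμ0 hk hkK Φ hΦ
  have m1 : μ ≤ μ1 := hμ0.trans (min_le_left _ _)
  have m2 : μ ≤ 1 / (8 * (4 * d / 3 + 2)) := hμ0.trans ((min_le_right _ _).trans (min_le_left _ _))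
  have m3 : μ ≤ 1 / (2 * ((4 * d / 3 + 2) ^ 2 + K)) := hμ0.trans ((min_le_right _ _).trans (min_le_right _ _))
  have h1 : μ * (4 * d / 3 + 2) ≤ 1 / 8 := by
    rw [le_div_iff₀ (by positivity)] at m2
    linarith
  have h2 : μ * ((4 * d / 3 + 2) ^ 2 + K) ≤ 1 / 2 := by
    rw [le_div_iff₀ (by positivity)] at m3
    linarith
  obtain ⟨ΦA, ΦB, hgap, hho0⟩ := hH hμ m1 hk hkK
  have hho : HOFacts μ k d ΦA ΦB := by
    intro x t₁ hret hV
    obtain ⟨c1, c2, c3, c4, c5, c6⟩ := hho0 x t₁ hret hV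
    refine ⟨c1, c2, c3, ?_, c5, c6⟩
    have e : (d : ℂ) = 2 * JJ.re := by rw [hd0]; push_cast; ring
    rw [e]
    exact c4
  obtain ⟨V, hVc, hVr, hV0, hV1⟩ := exists_path hd
  have hVb : ∀ s, ‖V s‖ ≤ 4 * d / 3 := fun s => (hVr s).hi
  obtain ⟨f, P, hP, fV, fz, fw, fzt, fρ⟩ := exists_fam hμ (m1.trans hμ1') hk hkK hb.le h1 h2 hΦ hVc hVb
  have hT : 0 < 1 + 40 / (μ * k) ^ 3 := by positivity
  refine ⟨1 + 40 / (μ * k) ^ 3, hT, ?_⟩
  intro n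
  let ext : (Fin n → Bool) → ℕ → Bool := fun u m => if h : m < n then u ⟨m, h⟩ else false
  have hit : ∀ u : Fin n → Bool, ∃ s ∈ Set.Icc (0:ℝ) 1, ∃ t : ℕ → ℝ, Itin (f.x s) d ΦB n (ext u) t := by
    intro u
    refine f.exists_itin hμ (m1.trans hμ1') hk hd hgap hho (fun s _ => fz s) (fun s _ => fw s) ?_ ?_ n (ext u)
    · intro s _
      rw [fV]
      exact hVr s
    · rw [fV, fV]
      exact Or.inl ⟨hV0, hV1⟩
  choose s hs t ht using hit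
  refine ⟨fun u => P (s u), fun u => hP _, ?_⟩
  intro u v huv
  have hne : ∃ m < n, ext u m ≠ ext v m := by
    by_contra hcon
    push Not at hcon
    apply huv
    funext i
    have := hcon i.1 i.2
    simpa [ext] using this
  obtain ⟨τ, hτ, hsep⟩ := separated hμ (m1.trans hμ1') hk (ht u) (ht v) hne
  refine ⟨τ, hτ, ?_⟩
  rcases hsep with h | h
  · rw [fzt, fzt] at h
    refine h.trans ?_
    rw [← Real.dist_eq]
    have e1 : dist (Φ τ (P (s u))).2.2.1 (Φ τ (P (s v))).2.2.1 ≤ dist (Φ τ (P (s u))).2.2 (Φ τ (P (s v))).2.2 := by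
      rw [Prod.dist_eq]; exact le_max_left _ _
    have e2 : dist (Φ τ (P (s u))).2.2 (Φ τ (P (s v))).2.2 ≤ dist (Φ τ (P (s u))).2 (Φ τ (P (s v))).2 := by
      rw [Prod.dist_eq (x := (Φ τ (P (s u))).2)]; exact le_max_right _ _
    have e3 : dist (Φ τ (P (s u))).2 (Φ τ (P (s v))).2 ≤ dist (Φ τ (P (s u))) (Φ τ (P (s v))) := by
      rw [Prod.dist_eq (x := (Φ τ (P (s u))))]; exact le_max_right _ _
    exact e1.trans (e2.trans e3)
  · rw [← fρ, ← fρ] at h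
    refine h.trans ?_
    rw [← dist_eq_norm, Prod.dist_eq (x := (Φ τ (P (s u))))]
    exact le_max_left _ _

end IsoTB
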