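import Mathlib

/-!
# MP_3f23fb_mp, isosceles three-body problem: reduced orbits (module Defs)

Masses 1, 1, μ, angular momentum 1, energy -1/4 - μ²k. r = distance of bodies 1, 2 from the axis, p = r', z = height of body 3
above the plane of bodies 1, 2, w = z'. The binary is described by the complex amplitude Y = ((1 - 1/r)/2 + i p)/μ, which
satisfies Y' = -i Ω Y - i F exactly, Ω = 1/(2r²), F = r/(r² + z²)^(3/2).
-/

set_option autoImplicit false
set_option linter.unusedVariables false

open MeasureTheory intervalIntegral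

namespace IsoTB

/-- The distance of body 3 from bodies 1 and 2. -/
noncomputable def dd (r z : ℝ) : ℝ := √(r ^ 2 + z ^ 2)

theorem dd_neg (r z : ℝ) : dd r (-z) = dd r z := by simp [dd]

/-- Complete orbits of the reduced isosceles problem (masses 1, 1, μ, angular momentum 1, energy -1/4 - μ²k). -/
structure Orb (μ k : ℝ) where
  r : ℝ → ℝ
  p : ℝ → ℝ
  z : ℝ → ℝ
  w : ℝ → ℝ
  r_pos : ∀ t, 0 < r t
  dr : ∀ t, HasDerivAt r (p t) t
  dp : ∀ t, HasDerivAt p (1 / (4 * r t ^ 3) - 1 / (4 * r t ^ 2) - μ * (r t / dd (r t) (z t) ^ 3)) t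
  dz : ∀ t, HasDerivAt z (w t) t
  dw : ∀ t, HasDerivAt w (-((2 + μ) * (z t / dd (r t) (z t) ^ 3))) t
  en : ∀ t, p t ^ 2 + (1 - 1 / r t) ^ 2 / 4 + μ * (w t ^ 2 / (2 + μ) - 2 / dd (r t) (z t)) = -(μ ^ 2 * k)

namespace Orb

variable {μ k : ℝ} (x : Orb μ k)

/-- The distance of body 3 from bodies 1 and 2 at time t. -/
noncomputable def D (t : ℝ) : ℝ := dd (x.r t) (x.z t)

/-- The horizontal pull of body 3. -/
noncomputable def F (t : ℝ) : ℝ := x.r t / dd (x.r t) (x.z t) ^ 3

/-- The angular velocity of the binary. -/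
noncomputable def Om (t : ℝ) : ℝ := 1 / (2 * x.r t ^ 2)

/-- The complex amplitude of the binary, in units of μ. -/
noncomputable def Y (t : ℝ) : ℂ := ⟨(1 - 1 / x.r t) / (2 * μ), x.p t / μ⟩

/-- The angle swept by the binary between times 0 and t. -/
noncomputable def ph (t : ℝ) : ℝ := ∫ s in (0:ℝ)..t, x.Om s

/-- Time shift. -/
def shift (a : ℝ) : Orb μ k where
  r t := x.r (t + a)
  p t := x.p (t + a)
  z t := x.z (t + a)
  w t := x.w (t + a)
  r_pos _ := x.r_pos _
  dr t := (x.dr (t + a)).comp_add_const t a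
  dp t := (x.dp (t + a)).comp_add_const t a
  dz t := (x.dz (t + a)).comp_add_const t a
  dw t := (x.dw (t + a)).comp_add_const t a
  en _ := x.en _

/-- Time reversal t ↦ a - t. -/
def rev (a : ℝ) : Orb μ k where
  r t := x.r (a - t)
  p t := -x.p (a - t)
  z t := x.z (a - t)
  w t := -x.w (a - t)
  r_pos _ := x.r_pos _
  dr t := by
    have h := (x.dr (a - t)).comp_const_sub a t
    exact h
  dp t := by
    have h := ((x.dp (a - t)).comp_const_sub a t).neg
    rw [neg_neg] at h
    exact h
  dz t := by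
    have h := (x.dz (a - t)).comp_const_sub a t
    exact h
  dw t := by
    have h := ((x.dw (a - t)).comp_const_sub a t).neg
    rw [neg_neg] at h
    exact h
  en t := by
    have h := x.en (a - t)
    simp only [neg_sq]
    exact h

/-- Reflection z ↦ -z. -/
def refl : Orb μ k where
  r := x.r
  p := x.p
  z t := -x.z t
  w t := -x.w t
  r_pos := x.r_pos
  dr := x.dr
  dp t := by
    have h := x.dp t
    rw [dd_neg]
    exact h
  dz t := (x.dz t).neg
  dw t := by
    have h := (x.dw t).neg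
    rw [dd_neg]
    have e : -((2 + μ) * (-x.z t / dd (x.r t) (x.z t) ^ 3)) = - -((2 + μ) * (x.z t / dd (x.r t) (x.z t) ^ 3)) := by
      rw [neg_div, mul_neg]
    rw [e]
    exact h
  en t := by
    have h := x.en t
    rw [dd_neg, neg_sq]
    exact h

/-- x is a half orbit on [0, t₁]: it starts in the plane z = 0 upwards and t₁ is the first return. -/
structure IsRet (x : Orb μ k) (t₁ : ℝ) : Prop where
  pos : 0 < t₁
  z0 : x.z 0 = 0
  w0 : 0 < x.w 0
  z1 : x.z t₁ = 0
  w1 : x.w t₁ < 0
  zpos : ∀ t, 0 < t → t < t₁ → 0 < x.z t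

end Orb

end IsoTB
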