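import Mathlib

/-!
# MP_3f23fb_mp, module E1: separated families give positive entropy

X compact metric, Φ a flow on X, T > 0, ε > 0 and for every n a family (P u), u ∈ (Fin n → Bool), such that different points are ε-separated by Φ at some time in [0, nT].
(1) Uniform continuity of (t,x) ↦ Φ t x on the compact [0,1] × X gives ε' > 0: dist x y < ε' ⟹ dist (Φ t x) (Φ t y) < ε for all t ∈ [0,1].
(2) Let t ∈ [0,nT], j = ⌊t⌋: Φ t = Φ (t-j) ∘ Φ j, so dist (Φ j (P u)) (Φ j (P v)) ≥ ε' for some natural j ≤ nT; (Φ 1)^[j] = Φ j. Let q be a natural number ≥ T + 1, so j < n q + 1 ≤ n(q+1) for n ≥ 1.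
(3) With U = {dist < ε'/2} the dynamical balls of order N = n(q+1) around the points P u are disjoint, so netMaxcard (Φ 1) univ U N ≥ 2^n (P is injective).
(4) Growth: N = n(q+1), netMaxcard(N) ≥ 2^(N/(q+1)); for general N take n = N/(q+1) (floor) and monotonicity in time (netMaxcard_monotone_time). So
netEntropyEntourage ≥ (log 2)/(q+1) > 0 (ExpGrowth API: expGrowthSup of b^n; or the limsup of log(netMaxcard)/n along the subsequence N = n(q+1) is ≥ log 2/(q+1)), and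
netEntropyEntourage_le_coverEntropy.
-/

set_option autoImplicit false
set_option linter.unusedVariables false

open Filter Topology Set

namespace IsoTB

private theorem E1_iter {X : Type*} [MetricSpace X] (Φ : Flow ℝ X) (j : ℕ) (x : X) :
    (Φ 1)^[j] x = Φ j x := by
  induction j with
  | zero =>
    rw [Function.iterate_zero, Nat.cast_zero, Φ.map_zero]
  | succ j ih =>
    rw [Function.iterate_succ_apply', ih, ← Φ.map_add]
    congr 1
    push_cast
    ring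

private theorem E1_unif {X : Type*} [MetricSpace X] [CompactSpace X] (Φ : Flow ℝ X) {ε : ℝ}
    (hε : 0 < ε) : ∃ δ : ℝ, 0 < δ ∧ ∀ t ∈ Set.Icc (0 : ℝ) 1, ∀ x y : X, dist x y < δ →
      dist (Φ t x) (Φ t y) < ε := by
  have hc : IsCompact (Set.Icc (0 : ℝ) 1 ×ˢ (Set.univ : Set X)) := isCompact_Icc.prod isCompact_univ
  have hcont : Continuous fun q : ℝ × X => Φ q.1 q.2 := Φ.continuous continuous_fst continuous_snd
  have hu := hc.uniformContinuousOn_of_continuous hcont.continuousOn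
  rw [Metric.uniformContinuousOn_iff] at hu
  obtain ⟨δ, hδ, h⟩ := hu ε hε
  refine ⟨δ, hδ, fun t ht x y hxy => ?_⟩
  refine h (t, x) ⟨ht, Set.mem_univ _⟩ (t, y) ⟨ht, Set.mem_univ _⟩ ?_
  rw [Prod.dist_eq]
  show max (dist t t) (dist x y) < δ
  rw [dist_self, max_eq_right dist_nonneg]
  exact hxy

private theorem E1_net {X : Type*} [MetricSpace X] [CompactSpace X] (Φ : Flow ℝ X) {T ε δ : ℝ}
    (hT : 0 < T) (hε : 0 < ε) (hδ : ∀ t ∈ Set.Icc (0 : ℝ) 1, ∀ x y : X, dist x y < δ →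
      dist (Φ t x) (Φ t y) < ε) {m : ℕ} (hm : T < m) (n : ℕ) (P : (Fin n → Bool) → X)
    (h : ∀ u v, u ≠ v → ∃ t ∈ Set.Icc 0 (n * T), ε ≤ dist (Φ t (P u)) (Φ t (P v))) :
    ((2 ^ n : ℕ) : ℕ∞) ≤ Dynamics.netMaxcard (Φ 1) Set.univ {p : X × X | dist p.1 p.2 < δ / 2}
      (m * n) := by
  classical
  have hinj : Function.Injective P := by
    intro u v huv
    by_contra hne
    obtain ⟨t, -, ht⟩ := h u v hne
    rw [huv, dist_self] at ht
    linarith
  have hcard : (Finset.univ.image P).card = 2 ^ n := by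
    rw [Finset.card_image_of_injective _ hinj, Finset.card_univ]
    simp
  rw [← hcard]
  refine Dynamics.IsDynNetIn.card_le_netMaxcard ⟨Set.subset_univ _, ?_⟩
  rintro x hx y hy hxy
  rw [Finset.mem_coe, Finset.mem_image] at hx hy
  obtain ⟨u, -, rfl⟩ := hx
  obtain ⟨v, -, rfl⟩ := hy
  have huv : u ≠ v := fun e => hxy (by rw [e])
  obtain ⟨t, ht, hdist⟩ := h u v huv
  rw [Function.onFun, Set.disjoint_left]
  intro z hz1 hz2
  rw [Dynamics.mem_ball_dynEntourage] at hz1 hz2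
  have hj1 : ((⌊t⌋₊ : ℕ) : ℝ) ≤ t := Nat.floor_le ht.1
  have hj2 : t < (⌊t⌋₊ : ℝ) + 1 := Nat.lt_floor_add_one t
  have hn0 : 0 < n := by
    rcases Nat.eq_zero_or_pos n with h0 | h0
    · subst h0
      exact absurd (Subsingleton.elim u v) huv
    · exact h0
  have hn' : (0 : ℝ) < n := by exact_mod_cast hn0
  have hj : ⌊t⌋₊ < m * n := by
    have h1 : ((⌊t⌋₊ : ℕ) : ℝ) < ((m * n : ℕ) : ℝ) := by
      push_cast
      calc ((⌊t⌋₊ : ℕ) : ℝ) ≤ n * T := hj1.trans ht.2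
        _ < n * m := mul_lt_mul_of_pos_left hm hn'
        _ = m * n := mul_comm _ _
    exact_mod_cast h1
  have g1 : dist ((Φ 1)^[⌊t⌋₊] (P u)) ((Φ 1)^[⌊t⌋₊] z) < δ / 2 := hz1 _ hj
  have g2 : dist ((Φ 1)^[⌊t⌋₊] (P v)) ((Φ 1)^[⌊t⌋₊] z) < δ / 2 := hz2 _ hj
  have g3 : dist ((Φ 1)^[⌊t⌋₊] (P u)) ((Φ 1)^[⌊t⌋₊] (P v)) < δ := by
    have := dist_triangle_right ((Φ 1)^[⌊t⌋₊] (P u)) ((Φ 1)^[⌊t⌋₊] (P v)) ((Φ 1)^[⌊t⌋₊] z)
    linarith
  rw [E1_iter, E1_iter] at g3
  have g4 := hδ (t - ⌊t⌋₊) ⟨by linarith, by linarith⟩ _ _ g3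
  rw [← Φ.map_add, ← Φ.map_add, sub_add_cancel] at g4
  linarith

theorem entropy_pos {X : Type*} [MetricSpace X] [CompactSpace X] (Φ : Flow ℝ X) {T ε : ℝ} (hT : 0 < T) (hε : 0 < ε)
    (h : ∀ n : ℕ, ∃ P : (Fin n → Bool) → X, ∀ u v, u ≠ v → ∃ t ∈ Set.Icc 0 (n * T), ε ≤ dist (Φ t (P u)) (Φ t (P v))) :
    0 < Dynamics.coverEntropy (Φ 1) Set.univ := by
  obtain ⟨δ, hδ0, hδ⟩ := E1_unif Φ hε
  set U : Set (X × X) := {p : X × X | dist p.1 p.2 < δ / 2} with hU
  have hUm : U ∈ uniformity X := Metric.dist_mem_uniformity (half_pos hδ0)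
  obtain ⟨m, hm⟩ := exists_nat_gt T
  have hm0 : m ≠ 0 := by
    rintro rfl
    rw [Nat.cast_zero] at hm
    linarith
  refine lt_of_lt_of_le ?_ (Dynamics.netEntropyEntourage_le_coverEntropy (Φ 1) Set.univ hUm)
  unfold Dynamics.netEntropyEntourage
  set u : ℕ → ENNReal := fun n : ℕ =>
    ((Dynamics.netMaxcard (Φ 1) Set.univ U n : ℕ∞) : ENNReal) with hu
  have hmono : Monotone u := fun a b hab =>
    ENat.toENNReal_mono (Dynamics.netMaxcard_monotone_time (Φ 1) Set.univ U hab)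
  have h1 : ∀ n : ℕ, (2 : ENNReal) ^ n ≤ u (m * n) := by
    intro n
    obtain ⟨P, hP⟩ := h n
    have h2 := E1_net Φ hT hε hδ hm n P hP
    have h3 := ENat.toENNReal_mono h2
    refine le_trans (le_of_eq ?_) h3
    push_cast
    rfl
  have h2 : ExpGrowth.expGrowthSup (fun n => (2 : ENNReal) ^ n) ≤
      ExpGrowth.expGrowthSup (fun n => u (m * n)) := ExpGrowth.expGrowthSup_monotone h1
  rw [ExpGrowth.expGrowthSup_pow, hmono.expGrowthSup_comp_mul hm0] at h2
  have h3 : 0 < ENNReal.log 2 := by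
    rw [ENNReal.zero_lt_log_iff]
    exact ENNReal.one_lt_two
  have h4 : 0 < (m : EReal) * ExpGrowth.expGrowthSup u := lt_of_lt_of_le h3 h2
  by_contra hneg
  rw [not_lt] at hneg
  have h5 : (m : EReal) * ExpGrowth.expGrowthSup u ≤ 0 :=
    EReal.mul_nonpos_iff.mpr (Or.inl ⟨by positivity, hneg⟩)
  exact absurd h4 (not_lt.mpr h5)

end IsoTB
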