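import Pool.Agent.Lib.MP_3f23fb_mp.L0

/-!
# MP_3f23fb_mp, module L1: energy, angular momentum and the level under emb

Distances: ‖q₀ - q₁‖ = 2a‖ρ‖, ‖q₀ - q₂‖ = ‖q₁ - q₂‖ = a·dd ‖ρ‖ z ((κ + (1-κ)) z = z; EuclideanSpace.norm_eq, sg² = 1). With κ = m₃/(2m+m₃), μ = m₃/m: ‖v₀‖² = ‖v₁‖² = (ab)²(‖ν‖² + κ²w²),
‖v₂‖² = (ab)²(1-κ)²w², κ² + (μ/2)(1-κ)² = μ/(2+μ); if a³b² = m then m(ab)² = m²/a and energy = (m²/a)·en6 μ x. Angular momentum: bodies 0 and 1 have the same third component a²b sg Im(conj ρ ν) and opposite horizontal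
components, body 2 contributes 0: angMom = (2 m a² b sg am6 x) • eL.
`emb_mem_level`, `level_eq`: h = (m²/a)(-1/4 - μ²k), c = m a² b sg. ρ ≠ 0 ⟺ no collision (q₀ ≠ q₁ iff ρ ≠ 0; q₀ = q₂ would give ρ = 0). For y ∈ level: y = emb (prj y) (emb_prj_of_isIso); energy and angular momentum give prj y ∈ lev
(m²/a ≠ 0, 2 m a² b sg am6 = c = m a² b sg).
-/

set_option autoImplicit false
set_option linter.unusedVariables false

namespace IsoTB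

variable {m m₃ sg a b : ℝ}

/-- The norm of a vector of `E3` in coordinates. -/
theorem L1_norm_sq (x y z : ℝ) : ‖(!₂[x, y, z] : E3)‖ ^ 2 = x ^ 2 + y ^ 2 + z ^ 2 := by
  rw [EuclideanSpace.real_norm_sq_eq, Fin.sum_univ_three]
  rfl

private theorem L1_norm_eq {v : E3} {c : ℝ} (hc : 0 ≤ c) (h : (v 0) ^ 2 + (v 1) ^ 2 + (v 2) ^ 2 = c ^ 2) : ‖v‖ = c := by
  have h1 : ‖v‖ ^ 2 = c ^ 2 := by
    rw [EuclideanSpace.real_norm_sq_eq, Fin.sum_univ_three, h]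
  exact (pow_left_inj₀ (norm_nonneg _) hc two_ne_zero).mp h1

private theorem L1_cnorm_sq (ρ : ℂ) : ‖ρ‖ ^ 2 = ρ.re ^ 2 + ρ.im ^ 2 := by
  rw [← Complex.normSq_eq_norm_sq, Complex.normSq_apply]; ring

private theorem L1_dist01 (hsg : sg ^ 2 = 1) (ha : 0 < a) (ρ : ℂ) (z : ℝ) :
    ‖tri m m₃ sg a ρ z 0 - tri m m₃ sg a ρ z 1‖ = 2 * a * ‖ρ‖ := by
  apply L1_norm_eq (by positivity)
  have h := L1_cnorm_sq ρ
  simp only [tri, PiLp.sub_apply, Matrix.cons_val_zero, Matrix.cons_val_one, Matrix.cons_val]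
  rw [mul_pow, h]
  linear_combination 4 * a ^ 2 * ρ.im ^ 2 * hsg

private theorem L1_dd (ρ : ℂ) (z : ℝ) : dd ‖ρ‖ z ^ 2 = ρ.re ^ 2 + ρ.im ^ 2 + z ^ 2 := by
  rw [dd, Real.sq_sqrt (by positivity), L1_cnorm_sq]

private theorem L1_dist02 (hm : 0 < m) (hm₃ : 0 < m₃) (hsg : sg ^ 2 = 1) (ha : 0 < a) (ρ : ℂ) (z : ℝ) :
    ‖tri m m₃ sg a ρ z 0 - tri m m₃ sg a ρ z 2‖ = a * dd ‖ρ‖ z := by
  have hdd : 0 ≤ dd ‖ρ‖ z := Real.sqrt_nonneg _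
  apply L1_norm_eq (mul_nonneg ha.le hdd)
  have h := L1_dd ρ z
  simp only [tri, PiLp.sub_apply, Matrix.cons_val_zero, Matrix.cons_val_one, Matrix.cons_val]
  rw [mul_pow, h]
  have hk : m₃ / (2 * m + m₃) + 2 * m / (2 * m + m₃) = 1 := by field_simp; ring
  linear_combination a ^ 2 * ρ.im ^ 2 * hsg + a ^ 2 * z ^ 2 * (m₃ / (2 * m + m₃) + 2 * m / (2 * m + m₃) + 1) * hk

private theorem L1_dist12 (hm : 0 < m) (hm₃ : 0 < m₃) (hsg : sg ^ 2 = 1) (ha : 0 < a) (ρ : ℂ) (z : ℝ) :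
    ‖tri m m₃ sg a ρ z 1 - tri m m₃ sg a ρ z 2‖ = a * dd ‖ρ‖ z := by
  have hdd : 0 ≤ dd ‖ρ‖ z := Real.sqrt_nonneg _
  apply L1_norm_eq (mul_nonneg ha.le hdd)
  have h := L1_dd ρ z
  simp only [tri, PiLp.sub_apply, Matrix.cons_val_zero, Matrix.cons_val_one, Matrix.cons_val]
  rw [mul_pow, h]
  have hk : m₃ / (2 * m + m₃) + 2 * m / (2 * m + m₃) = 1 := by field_simp; ring
  linear_combination a ^ 2 * ρ.im ^ 2 * hsg + a ^ 2 * z ^ 2 * (m₃ / (2 * m + m₃) + 2 * m / (2 * m + m₃) + 1) * hk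

private theorem L1_tri0 (hsg : sg ^ 2 = 1) (c : ℝ) (ρ : ℂ) (z : ℝ) :
    ‖tri m m₃ sg c ρ z 0‖ ^ 2 = c ^ 2 * (‖ρ‖ ^ 2 + (m₃ / (2 * m + m₃)) ^ 2 * z ^ 2) := by
  have h := L1_cnorm_sq ρ
  rw [EuclideanSpace.real_norm_sq_eq, Fin.sum_univ_three, h]
  simp only [tri, Matrix.cons_val_zero, Matrix.cons_val_one, Matrix.cons_val]
  linear_combination c ^ 2 * ρ.im ^ 2 * hsg

private theorem L1_tri1 (hsg : sg ^ 2 = 1) (c : ℝ) (ρ : ℂ) (z : ℝ) :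
    ‖tri m m₃ sg c ρ z 1‖ ^ 2 = c ^ 2 * (‖ρ‖ ^ 2 + (m₃ / (2 * m + m₃)) ^ 2 * z ^ 2) := by
  have h := L1_cnorm_sq ρ
  rw [EuclideanSpace.real_norm_sq_eq, Fin.sum_univ_three, h]
  simp only [tri, Matrix.cons_val_zero, Matrix.cons_val_one, Matrix.cons_val]
  linear_combination c ^ 2 * ρ.im ^ 2 * hsg

private theorem L1_tri2 (c : ℝ) (ρ : ℂ) (z : ℝ) :
    ‖tri m m₃ sg c ρ z 2‖ ^ 2 = c ^ 2 * ((2 * m / (2 * m + m₃)) ^ 2 * z ^ 2) := by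
  rw [EuclideanSpace.real_norm_sq_eq, Fin.sum_univ_three]
  simp only [tri, Matrix.cons_val_zero, Matrix.cons_val_one, Matrix.cons_val]
  ring

theorem energy_emb (hm : 0 < m) (hm₃ : 0 < m₃) (hsg : sg ^ 2 = 1) (ha : 0 < a) (hb : 0 < b) (hab : a ^ 3 * b ^ 2 = m)
    (x : E6) : energy (mass m m₃) (emb m m₃ sg a b x) = m ^ 2 / a * en6 (m₃ / m) x := by
  obtain ⟨ρ, ν, z, w⟩ := x
  simp only [energy, emb, mass, Fin.sum_univ_three, Matrix.cons_val_zero, Matrix.cons_val_one, Matrix.cons_val, en6]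
  rw [L1_dist01 hsg ha, L1_dist02 hm hm₃ hsg ha, L1_dist12 hm hm₃ hsg ha, L1_tri0 hsg, L1_tri1 hsg, L1_tri2]
  have hk : (m₃ / (2 * m + m₃)) ^ 2 + m₃ / m / 2 * (2 * m / (2 * m + m₃)) ^ 2 = (m₃ / m) / (2 + m₃ / m) := by
    field_simp
    ring
  have hmab : m * (a * b) ^ 2 = m ^ 2 / a := by
    field_simp
    linear_combination hab
  have e1 : m * m / (2 * a * ‖ρ‖) = m ^ 2 / a * (1 / (2 * ‖ρ‖)) := by
    rw [div_mul_div_comm, mul_one]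
    congr 1 <;> ring
  have e2 : m * m₃ / (a * dd ‖ρ‖ z) = m ^ 2 / a * (m₃ / m * (1 / dd ‖ρ‖ z)) := by
    rw [div_mul_div_comm, div_mul_div_comm, mul_one]
    rw [show m ^ 2 * m₃ = m * (m * m₃) by ring, show a * (m * dd ‖ρ‖ z) = m * (a * dd ‖ρ‖ z) by ring,
      mul_div_mul_left _ _ hm.ne']
  rw [e1, e2]
  have e3 : m₃ = m * (m₃ / m) := by field_simp
  have e4 : 1 / 2 * (m * ((a * b) ^ 2 * (‖ν‖ ^ 2 + (m₃ / (2 * m + m₃)) ^ 2 * w ^ 2)) +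
      m * ((a * b) ^ 2 * (‖ν‖ ^ 2 + (m₃ / (2 * m + m₃)) ^ 2 * w ^ 2)) +
      m₃ * ((a * b) ^ 2 * ((2 * m / (2 * m + m₃)) ^ 2 * w ^ 2))) =
      m ^ 2 / a * (‖ν‖ ^ 2 + (m₃ / m) / (2 + m₃ / m) * w ^ 2) := by
    rw [← hmab, ← hk]
    field_simp
    ring
  rw [e4]
  ring

theorem angMom_emb (x : E6) : angMom (mass m m₃) (emb m m₃ sg a b x) = (2 * m * a ^ 2 * b * sg * am6 x) • eL := by
  obtain ⟨ρ, ν, z, w⟩ := x
  simp only [angMom, emb, mass, Fin.sum_univ_three, Matrix.cons_val_zero, Matrix.cons_val_one, Matrix.cons_val, am6]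
  ext i
  fin_cases i <;>
    simp [crossProd, tri, eL] <;> ring

theorem noColl_emb (hm : 0 < m) (hm₃ : 0 < m₃) (hsg : sg ^ 2 = 1) (ha : 0 < a) (x : E6) :
    (∀ i j, i ≠ j → (emb m m₃ sg a b x).1 i ≠ (emb m m₃ sg a b x).1 j) ↔ x.1 ≠ 0 := by
  obtain ⟨ρ, ν, z, w⟩ := x
  simp only [emb]
  have hsg0 : sg ≠ 0 := by rintro rfl; norm_num at hsg
  constructor
  · intro h h0
    apply h 0 1 (by decide)
    have h0' : ρ = 0 := h0
    rw [h0']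
    simp [tri]
  · intro h i j hij heq
    apply h
    have h0 := congrArg (fun v : E3 => v 0) heq
    have h1 := congrArg (fun v : E3 => v 1) heq
    have k0 : ∀ u : ℝ, a * u = -(a * u) → u = 0 := by
      intro u hu
      have : a * u = 0 := by linarith
      exact (mul_eq_zero.mp this).resolve_left ha.ne'
    have k1 : sg * ρ.im = 0 → ρ.im = 0 := fun hu => (mul_eq_zero.mp hu).resolve_left hsg0
    have k2 : (a = 0 ∨ sg = 0 ∨ ρ.im = 0) → ρ.im = 0 := fun hu => (hu.resolve_left ha.ne').resolve_left hsg0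
    have k3 : (a = 0 ∨ ρ.re = 0) → ρ.re = 0 := fun hu => hu.resolve_left ha.ne'
    have key : ρ.re = 0 ∧ ρ.im = 0 := by
      fin_cases i <;> fin_cases j <;>
        simp [tri] at hij h0 h1 <;>
        first
          | exact ⟨k3 h0, k2 h1⟩
          | exact ⟨k0 _ h0, k1 (k0 _ h1)⟩
          | exact ⟨k0 _ h0.symm, k1 (k0 _ h1.symm)⟩
    apply Complex.ext
    · exact key.1
    · exact key.2

theorem emb_mem_level_iff (hm : 0 < m) (hm₃ : 0 < m₃) (hsg : sg ^ 2 = 1) (ha : 0 < a) (hb : 0 < b)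
    (hab : a ^ 3 * b ^ 2 = m) (k : ℝ) (x : E6) :
    emb m m₃ sg a b x ∈ level m m₃ (m ^ 2 / a * (-(1 / 4) - (m₃ / m) ^ 2 * k)) (m * a ^ 2 * b * sg) ↔ x ∈ lev (m₃ / m) k := by
  have hsg0 : sg ≠ 0 := by rintro rfl; norm_num at hsg
  have hma : m ^ 2 / a ≠ 0 := by positivity
  simp only [level, lev, Set.mem_ofPred_eq, noColl_emb hm hm₃ hsg ha, energy_emb hm hm₃ hsg ha hb hab, angMom_emb]
  constructor
  · rintro ⟨_, h1, h2, h3⟩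
    refine ⟨h1, ?_, mul_left_cancel₀ hma h2⟩
    have h4 := congrArg (fun v : E3 => v 2) h3
    simp only [eL, PiLp.smul_apply, smul_eq_mul, Matrix.cons_val, mul_one] at h4
    have h5 : m * a ^ 2 * b * sg ≠ 0 := by positivity
    apply mul_left_cancel₀ (mul_ne_zero h5 two_ne_zero)
    linear_combination h4
  · rintro ⟨h1, h2, h3⟩
    refine ⟨isIso_emb hm hm₃ x, h1, by rw [h3], ?_⟩
    rw [h2]
    congr 1
    ring

theorem level_eq (hm : 0 < m) (hm₃ : 0 < m₃) (hsg : sg ^ 2 = 1) (ha : 0 < a) (hb : 0 < b)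
    (hab : a ^ 3 * b ^ 2 = m) (k : ℝ) :
    level m m₃ (m ^ 2 / a * (-(1 / 4) - (m₃ / m) ^ 2 * k)) (m * a ^ 2 * b * sg) = emb m m₃ sg a b '' lev (m₃ / m) k := by
  ext y
  constructor
  · intro hy
    have h1 := emb_prj_of_isIso hm hm₃ hsg ha hb hy.1
    refine ⟨prj sg a b y, ?_, h1⟩
    rw [← emb_mem_level_iff hm hm₃ hsg ha hb hab, h1]
    exact hy
  · rintro ⟨x, hx, rfl⟩
    exact (emb_mem_level_iff hm hm₃ hsg ha hb hab k x).mpr hx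

end IsoTB
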