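import Pool.Agent.Lib.MP_3f23fb_mp.L0

/-!
# MP_3f23fb_mp, module L2: Newton's equations

y' = fld μ y at the time b t (μ = m₃/m). Then t ↦ emb (y (b t)) has derivative b · emb-part of fld: the position part is tri a (b ν) (b w) = tri (a b) ν w (the velocities of emb), the velocity part is
tri (a b) (b ρ'') (b z'') = tri (a b²) ρ'' z''. Check that acc(tri a ρ z) = tri (a b²) ρ'' z'' for ρ'' = -(1/(4‖ρ‖³) + μ/D³) ρ, z'' = -(2+μ) z/D³, when a³b² = m, ρ ≠ 0:
body 0: m(q₁-q₀)/‖q₁-q₀‖³ = -m (2aρ*)/(8a³‖ρ‖³), m₃(q₂-q₀)/‖q₂-q₀‖³ = m₃ (-aρ*, a z)/(a³D³); a b² = m/a². Vertical: m₃ z/(a²D³) = -a b² κ z'' because κ(2+μ) = μ. Body 1: mirror image. Body 2: horizontal parts cancel,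
vertical 2m(-a z)/(a³D³) = a b² (1-κ) z'' because (1-κ)(2+μ) = 2. (hasDerivAt_pi, EuclideanSpace coordinates; distances as in L1.)
-/

set_option autoImplicit false
set_option linter.unusedVariables false

namespace IsoTB

variable {m m₃ sg a b : ℝ}

private theorem norm_E3 (v : E3) : ‖v‖ = √(v 0 ^ 2 + v 1 ^ 2 + v 2 ^ 2) := by
  rw [EuclideanSpace.norm_eq, Fin.sum_univ_three]
  simp only [Real.norm_eq_abs, sq_abs]

private theorem acc_zero (m m₃ : ℝ) (q : Fin 3 → E3) : acc (mass m m₃) q 0 =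
    (m / ‖q 1 - q 0‖ ^ 3) • (q 1 - q 0) + (m₃ / ‖q 2 - q 0‖ ^ 3) • (q 2 - q 0) := by
  unfold acc
  rw [show (Finset.univ.erase (0 : Fin 3)) = {1, 2} from by decide,
    Finset.sum_pair (by decide)]
  rfl

private theorem acc_one (m m₃ : ℝ) (q : Fin 3 → E3) : acc (mass m m₃) q 1 =
    (m / ‖q 0 - q 1‖ ^ 3) • (q 0 - q 1) + (m₃ / ‖q 2 - q 1‖ ^ 3) • (q 2 - q 1) := by
  unfold acc
  rw [show (Finset.univ.erase (1 : Fin 3)) = {0, 2} from by decide,
    Finset.sum_pair (by decide)]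
  rfl

private theorem acc_two (m m₃ : ℝ) (q : Fin 3 → E3) : acc (mass m m₃) q 2 =
    (m / ‖q 0 - q 2‖ ^ 3) • (q 0 - q 2) + (m / ‖q 1 - q 2‖ ^ 3) • (q 1 - q 2) := by
  unfold acc
  rw [show (Finset.univ.erase (2 : Fin 3)) = {0, 1} from by decide,
    Finset.sum_pair (by decide)]
  rfl

theorem acc_tri (hm : 0 < m) (hm₃ : 0 < m₃) (hsg : sg ^ 2 = 1) (ha : 0 < a) (hb : 0 < b) (hab : a ^ 3 * b ^ 2 = m)
    {ρ : ℂ} (hρ : ρ ≠ 0) (z : ℝ) :
    acc (mass m m₃) (tri m m₃ sg a ρ z) = tri m m₃ sg (a * b ^ 2)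
      (-((1 / (4 * ‖ρ‖ ^ 3) + (m₃ / m) / dd ‖ρ‖ z ^ 3 : ℝ) : ℂ) * ρ) (-((2 + m₃ / m) * (z / dd ‖ρ‖ z ^ 3))) := by
  have hr : 0 < ‖ρ‖ := norm_pos_iff.2 hρ
  have hD : 0 < dd ‖ρ‖ z := Real.sqrt_pos.2 (by positivity)
  have hrsq : ‖ρ‖ ^ 2 = ρ.re ^ 2 + ρ.im ^ 2 := by
    rw [Complex.sq_norm, Complex.normSq_apply]
    ring
  have hDsq : dd ‖ρ‖ z ^ 2 = ‖ρ‖ ^ 2 + z ^ 2 := Real.sq_sqrt (by positivity)
  have hM : 0 < 2 * m + m₃ := by positivity
  have hk : 2 * m / (2 * m + m₃) + m₃ / (2 * m + m₃) = 1 := by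
    field_simp
  have hb2 : a * b ^ 2 = m / a ^ 2 := by
    rw [← hab]
    field_simp
  set r := ‖ρ‖ with hrdef
  set D := dd r z with hDdef
  set q := tri m m₃ sg a ρ z with hq
  have n10 : ‖q 1 - q 0‖ = 2 * a * r := by
    rw [norm_E3]
    have e : (q 1 - q 0) 0 ^ 2 + (q 1 - q 0) 1 ^ 2 + (q 1 - q 0) 2 ^ 2 = (2 * a * r) ^ 2 := by
      simp only [hq, tri, Matrix.cons_val_zero, Matrix.cons_val_one, PiLp.sub_apply,
        Matrix.cons_val_two, Matrix.head_cons, Matrix.tail_cons]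
      rw [mul_pow, mul_pow, hrsq]
      linear_combination 4 * a ^ 2 * ρ.im ^ 2 * hsg
    rw [e, Real.sqrt_sq (by positivity)]
  have n20 : ‖q 2 - q 0‖ = a * D := by
    rw [norm_E3]
    have e : (q 2 - q 0) 0 ^ 2 + (q 2 - q 0) 1 ^ 2 + (q 2 - q 0) 2 ^ 2 = (a * D) ^ 2 := by
      have e1 : (q 2 - q 0) 0 = -(a * ρ.re) := by
        simp [hq, tri]
      have e2 : (q 2 - q 0) 1 = -(a * (sg * ρ.im)) := by
        simp [hq, tri]
      have e3 : (q 2 - q 0) 2 = a * z := by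
        have : (q 2 - q 0) 2 = a * ((2 * m / (2 * m + m₃) + m₃ / (2 * m + m₃)) * z) := by
          simp [hq, tri]
          ring
        rw [this, hk, one_mul]
      rw [e1, e2, e3]
      linear_combination a ^ 2 * ρ.im ^ 2 * hsg - a ^ 2 * hDsq - a ^ 2 * hrsq
    rw [e, Real.sqrt_sq (by positivity)]
  have n21 : ‖q 2 - q 1‖ = a * D := by
    rw [norm_E3]
    have e : (q 2 - q 1) 0 ^ 2 + (q 2 - q 1) 1 ^ 2 + (q 2 - q 1) 2 ^ 2 = (a * D) ^ 2 := by
      have e1 : (q 2 - q 1) 0 = a * ρ.re := by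
        simp [hq, tri]
      have e2 : (q 2 - q 1) 1 = a * (sg * ρ.im) := by
        simp [hq, tri]
      have e3 : (q 2 - q 1) 2 = a * z := by
        have : (q 2 - q 1) 2 = a * ((2 * m / (2 * m + m₃) + m₃ / (2 * m + m₃)) * z) := by
          simp [hq, tri]
          ring
        rw [this, hk, one_mul]
      rw [e1, e2, e3]
      linear_combination a ^ 2 * ρ.im ^ 2 * hsg - a ^ 2 * hDsq - a ^ 2 * hrsq
    rw [e, Real.sqrt_sq (by positivity)]
  have n01 : ‖q 0 - q 1‖ = 2 * a * r := by rw [norm_sub_rev, n10]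
  have n02 : ‖q 0 - q 2‖ = a * D := by rw [norm_sub_rev, n20]
  have n12 : ‖q 1 - q 2‖ = a * D := by rw [norm_sub_rev, n21]
  have hre : (-((1 / (4 * r ^ 3) + (m₃ / m) / D ^ 3 : ℝ) : ℂ) * ρ).re =
      -(1 / (4 * r ^ 3) + (m₃ / m) / D ^ 3) * ρ.re := by
    rw [← Complex.ofReal_neg, Complex.re_ofReal_mul]
  have him : (-((1 / (4 * r ^ 3) + (m₃ / m) / D ^ 3 : ℝ) : ℂ) * ρ).im =
      -(1 / (4 * r ^ 3) + (m₃ / m) / D ^ 3) * ρ.im := by
    rw [← Complex.ofReal_neg, Complex.im_ofReal_mul]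
  rw [hb2]
  generalize (-((1 / (4 * r ^ 3) + (m₃ / m) / D ^ 3 : ℝ) : ℂ) * ρ) = P at hre him ⊢
  funext i
  fin_cases i
  · change acc (mass m m₃) q 0 = _
    rw [acc_zero, n10, n20]
    ext j
    fin_cases j
    · simp only [hq, tri, Fin.zero_eta, Fin.isValue, Matrix.cons_val_zero, PiLp.add_apply,
        PiLp.smul_apply, PiLp.sub_apply, Matrix.cons_val_one, Matrix.cons_val, smul_eq_mul, hre]
      field_simp
      ring
    · simp only [hq, tri, Fin.mk_one, Fin.zero_eta, Fin.isValue, Matrix.cons_val_zero, PiLp.add_apply,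
        PiLp.smul_apply, PiLp.sub_apply, Matrix.cons_val_one, Matrix.cons_val, smul_eq_mul, him]
      field_simp
      ring
    · simp only [hq, tri, Fin.reduceFinMk, Fin.zero_eta, Fin.isValue, Matrix.cons_val_zero, PiLp.add_apply,
        PiLp.smul_apply, PiLp.sub_apply, Matrix.cons_val_one, Matrix.cons_val, smul_eq_mul]
      field_simp
      ring
  · change acc (mass m m₃) q 1 = _
    rw [acc_one, n01, n21]
    ext j
    fin_cases j
    · simp only [hq, tri, Fin.mk_one, Fin.zero_eta, Fin.isValue, Matrix.cons_val_zero, PiLp.add_apply,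
        PiLp.smul_apply, PiLp.sub_apply, Matrix.cons_val_one, Matrix.cons_val, smul_eq_mul, hre]
      field_simp
      ring
    · simp only [hq, tri, Fin.mk_one, Fin.zero_eta, Fin.isValue, Matrix.cons_val_zero, PiLp.add_apply,
        PiLp.smul_apply, PiLp.sub_apply, Matrix.cons_val_one, Matrix.cons_val, smul_eq_mul, him]
      field_simp
      ring
    · simp only [hq, tri, Fin.reduceFinMk, Fin.mk_one, Fin.zero_eta, Fin.isValue, Matrix.cons_val_zero, PiLp.add_apply,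
        PiLp.smul_apply, PiLp.sub_apply, Matrix.cons_val_one, Matrix.cons_val, smul_eq_mul]
      field_simp
      ring
  · change acc (mass m m₃) q 2 = _
    rw [acc_two, n02, n12]
    ext j
    fin_cases j
    · simp [hq, tri]
    · simp [hq, tri]
    · simp only [hq, tri, Fin.reduceFinMk, Fin.mk_one, Fin.zero_eta, Fin.isValue, Matrix.cons_val_zero, PiLp.add_apply,
        PiLp.smul_apply, PiLp.sub_apply, Matrix.cons_val_one, Matrix.cons_val, smul_eq_mul]
      field_simp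
      ring

private theorem tri_smul (c : ℝ) (ρ : ℂ) (z : ℝ) :
    tri m m₃ sg a (c • ρ) (c * z) = tri m m₃ sg (a * c) ρ z := by
  funext i
  fin_cases i <;> ext j <;> fin_cases j <;> simp [tri] <;> ring

theorem newton_emb (hm : 0 < m) (hm₃ : 0 < m₃) (hsg : sg ^ 2 = 1) (ha : 0 < a) (hb : 0 < b) (hab : a ^ 3 * b ^ 2 = m)
    {y : ℝ → E6} {t : ℝ} (h0 : (y (b * t)).1 ≠ 0) (h : HasDerivAt y (fld (m₃ / m) (y (b * t))) (b * t)) :
    HasDerivAt (fun s => emb m m₃ sg a b (y (b * s))) (newton (mass m m₃) (emb m m₃ sg a b (y (b * t)))) t := by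
  have hz : emb m m₃ sg a b 0 = 0 := by
    have h1 := emb_add_smul (m := m) (m₃ := m₃) (sg := sg) (a := a) (b := b) 0 0 1
    rw [smul_zero, add_zero, one_smul] at h1
    have h2 : emb m m₃ sg a b 0 + emb m m₃ sg a b 0 = emb m m₃ sg a b 0 + 0 := by
      rw [add_zero]
      exact h1.symm
    exact add_left_cancel h2
  let E : E6 →L[ℝ] St :=
    { toFun := emb m m₃ sg a b
      map_add' := fun x u => by
        have h1 := emb_add_smul (m := m) (m₃ := m₃) (sg := sg) (a := a) (b := b) x u 1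
        rwa [one_smul, one_smul] at h1
      map_smul' := fun c u => by
        have h1 := emb_add_smul (m := m) (m₃ := m₃) (sg := sg) (a := a) (b := b) 0 u c
        rw [zero_add, hz, zero_add] at h1
        exact h1
      cont := continuous_emb }
  have hY : HasDerivAt (fun s => y (b * s)) (b • fld (m₃ / m) (y (b * t))) t := by
    have h1 : HasDerivAt (fun s : ℝ => b * s) b t := by
      simpa using (hasDerivAt_id t).const_mul b
    exact h.scomp t h1
  have hE : HasDerivAt (fun s => E (y (b * s))) (E (b • fld (m₃ / m) (y (b * t)))) t :=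
    E.hasFDerivAt.comp_hasDerivAt t hY
  have key : E (b • fld (m₃ / m) (y (b * t))) =
      newton (mass m m₃) (emb m m₃ sg a b (y (b * t))) := by
    set x := y (b * t) with hx
    change (tri m m₃ sg a (b • (fld (m₃ / m) x).1) (b * (fld (m₃ / m) x).2.2.1),
      tri m m₃ sg (a * b) (b • (fld (m₃ / m) x).2.1) (b * (fld (m₃ / m) x).2.2.2)) =
      (tri m m₃ sg (a * b) x.2.1 x.2.2.2, acc (mass m m₃) (tri m m₃ sg a x.1 x.2.2.1))
    rw [tri_smul, tri_smul, acc_tri hm hm₃ hsg ha hb hab h0]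
    have e : a * b * b = a * b ^ 2 := by ring
    rw [e]
    rfl
  rw [key] at hE
  exact hE

end IsoTB
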