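import Pool.Agent.Lib.MP_3f23fb_mp.A5

/-!
# MP_3f23fb_mp, module L3: regular values of the normalised problem

x = (ρ,ν,z,w) ∈ lev μ k, r = ‖ρ‖, D = dd r z. en6 and am6 are differentiable at x (ρ ≠ 0; as in A5); let L, A be the derivatives (linear maps). Directional derivatives (compute along s ↦ x + s u):
u₁ = (0, iρ, 0, 0): A u₁ = r², L u₁ = 2 Re(conj ν · iρ) = 2 Im(conj ρ ν) = 1.    u₂ = (0, ρ, 0, 0): A = 0, L = 2 Re(conj ρ ν).
u₃ = (0,0,0,1): A = 0, L = 2μw/(2+μ).    u₄ = (0,0,1,0): A = 0, L = 2μz/D³.    u₅ = (ρ, -ν, 0, 0): A = 0, L = -2‖ν‖² + 1/(2r) + 2μr²/D³.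
If L u_j ≠ 0 for some j ∈ {2,3,4,5}: u = (β/r²) u₁ + ((α - β/r²)/L u_j) u_j has L u = α, A u = β. Otherwise Re(conj ρ ν) = 0, w = 0, z = 0, D = r, ‖ν‖² = 1/(4r²) (norm_sq_polar), and L u₅ = 0 reads
-1/(2r²) + 1/(2r) + 2μ/r = 0, 1/r = 1 + 4μ, so en6 = 1/(4r²) - 1/(2r) - 2μ/r = -(1+4μ)²/4 = -1/4 - 2μ - 4μ²; but en6 = -1/4 - μ²k and μ k < 2: contradiction.
-/

set_option autoImplicit false
set_option linter.unusedVariables false

open Complex ComplexConjugate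

namespace IsoTB

/-- The derivative of the angular momentum. -/
private def L3_A (x v : E6) : ℝ :=
  v.1.re * x.2.1.im + x.1.re * v.2.1.im - (v.1.im * x.2.1.re + x.1.im * v.2.1.re)

/-- The derivative of the energy. -/
private noncomputable def L3_L (μ : ℝ) (x v : E6) : ℝ :=
  2 * (x.2.1.re * v.2.1.re + x.2.1.im * v.2.1.im) + (x.1.re * v.1.re + x.1.im * v.1.im) / (2 * ‖x.1‖ ^ 3) +
    μ * (2 * x.2.2.2 * v.2.2.2 / (2 + μ) +
      2 * ((x.1.re * v.1.re + x.1.im * v.1.im) + x.2.2.1 * v.2.2.1) / dd ‖x.1‖ x.2.2.1 ^ 3)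

private theorem L3_curve (x v : E6) : HasDerivAt (fun s : ℝ => x + s • v) v 0 := by
  have h := ((hasDerivAt_id (0 : ℝ)).smul_const v).const_add x
  rw [one_smul] at h
  exact h

private theorem L3_am (x v : E6) : HasDerivAt (fun s : ℝ => am6 (x + s • v)) (L3_A x v) 0 := by
  obtain ⟨h1, h2, _, _⟩ := A5_parts (L3_curve x v)
  have r1 : HasDerivAt (fun s : ℝ => ((x + s • v).1).re) v.1.re 0 :=
    Complex.reCLM.hasFDerivAt.comp_hasDerivAt 0 h1
  have i1 : HasDerivAt (fun s : ℝ => ((x + s • v).1).im) v.1.im 0 :=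
    Complex.imCLM.hasFDerivAt.comp_hasDerivAt 0 h1
  have r2 : HasDerivAt (fun s : ℝ => ((x + s • v).2.1).re) v.2.1.re 0 :=
    Complex.reCLM.hasFDerivAt.comp_hasDerivAt 0 h2
  have i2 : HasDerivAt (fun s : ℝ => ((x + s • v).2.1).im) v.2.1.im 0 :=
    Complex.imCLM.hasFDerivAt.comp_hasDerivAt 0 h2
  have e1 : (fun s : ℝ => am6 (x + s • v)) =
      fun s : ℝ => ((x + s • v).1).re * ((x + s • v).2.1).im - ((x + s • v).1).im * ((x + s • v).2.1).re := by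
    funext s
    unfold am6
    rw [Complex.mul_im, Complex.conj_re, Complex.conj_im]
    ring
  rw [e1]
  have h3 : HasDerivAt (fun s : ℝ => ((x + s • v).1).re * ((x + s • v).2.1).im -
      ((x + s • v).1).im * ((x + s • v).2.1).re) _ 0 := (r1.mul i2).sub (i1.mul r2)
  refine h3.congr_deriv ?_
  rw [zero_smul, add_zero]
  rfl

private theorem L3_en {μ : ℝ} (hμ : 0 < μ) {x : E6} (h0 : x.1 ≠ 0) (v : E6) :
    HasDerivAt (fun s : ℝ => en6 μ (x + s • v)) (L3_L μ x v) 0 := by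
  have hr : 0 < ‖x.1‖ := norm_pos_iff.2 h0
  have hD : 0 < dd ‖x.1‖ x.2.2.1 := dd_pos _ hr
  have hc := L3_curve x v
  have hx0 : x + (0 : ℝ) • v = x := by rw [zero_smul, add_zero]
  obtain ⟨_, h2, h3, h4⟩ := A5_parts hc
  have h0' : ((fun s : ℝ => x + s • v) 0).1 ≠ 0 := by
    show (x + (0 : ℝ) • v).1 ≠ 0
    rw [hx0]
    exact h0
  have hn : HasDerivAt (fun s : ℝ => ‖(x + s • v).1‖) ((conj x.1 * v.1).re / ‖x.1‖) 0 := by
    have h := norm_deriv h0' hc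
    rw [hx0] at h
    exact h
  have hν : HasDerivAt (fun s : ℝ => ‖(x + s • v).2.1‖ ^ 2) (2 * (v.2.1 * conj x.2.1).re) 0 := by
    have h := h2.norm_sq
    rw [hx0, Complex.inner] at h
    exact h
  have hd : HasDerivAt (fun s : ℝ => dd ‖(x + s • v).1‖ (x + s • v).2.2.1)
      ((2 * ‖x.1‖ * ((conj x.1 * v.1).re / ‖x.1‖) + 2 * x.2.2.1 * v.2.2.1) / (2 * dd ‖x.1‖ x.2.2.1)) 0 := by
    unfold dd
    have hp : HasDerivAt (fun s : ℝ => ‖(x + s • v).1‖ ^ 2 + (x + s • v).2.2.1 ^ 2) _ 0 := (hn.pow 2).add (h3.pow 2)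
    have h5 := hp.sqrt (by rw [hx0]; positivity)
    refine h5.congr_deriv ?_
    rw [hx0]
    simp
  have h5 : HasDerivAt (fun s : ℝ => 1 / (2 * ‖(x + s • v).1‖))
      (-((conj x.1 * v.1).re / ‖x.1‖) / (2 * ‖x.1‖ ^ 2)) 0 := by
    have h6 := (hn.const_mul 2).inv (by rw [hx0]; positivity)
    have e : (fun s : ℝ => 1 / (2 * ‖(x + s • v).1‖)) = fun s : ℝ => (2 * ‖(x + s • v).1‖)⁻¹ :=
      funext fun s => one_div _
    rw [e]
    refine h6.congr_deriv ?_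
    rw [hx0]
    generalize (conj x.1 * v.1).re = q
    field_simp
    try ring
  have h7 : HasDerivAt (fun s : ℝ => 2 / dd ‖(x + s • v).1‖ (x + s • v).2.2.1)
      (-(2 * ((2 * ‖x.1‖ * ((conj x.1 * v.1).re / ‖x.1‖) + 2 * x.2.2.1 * v.2.2.1) / (2 * dd ‖x.1‖ x.2.2.1))) /
          dd ‖x.1‖ x.2.2.1 ^ 2) 0 := by
    have e : (fun s : ℝ => 2 / dd ‖(x + s • v).1‖ (x + s • v).2.2.1) =
        fun s : ℝ => 2 * (dd ‖(x + s • v).1‖ (x + s • v).2.2.1)⁻¹ :=
      funext fun s => div_eq_mul_inv _ _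
    rw [e]
    have h6 := (hd.inv (by rw [hx0]; exact hD.ne')).const_mul 2
    refine h6.congr_deriv ?_
    rw [hx0]
    ring
  have h8 := (hν.sub h5).add (((h4.pow 2).div_const (2 + μ)).sub h7 |>.const_mul μ)
  have h9 : HasDerivAt (fun s : ℝ => en6 μ (x + s • v)) _ 0 := h8
  refine h9.congr_deriv ?_
  rw [hx0]
  unfold L3_L
  have e1 : (conj x.1 * v.1).re = x.1.re * v.1.re + x.1.im * v.1.im := by
    rw [Complex.mul_re, Complex.conj_re, Complex.conj_im]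
    ring
  have e2 : (v.2.1 * conj x.2.1).re = x.2.1.re * v.2.1.re + x.2.1.im * v.2.1.im := by
    rw [Complex.mul_re, Complex.conj_re, Complex.conj_im]
    ring
  rw [e1, e2]
  have hμ2 : (2 + μ) ≠ 0 := by positivity
  have hDD : dd ‖x.1‖ x.2.2.1 ≠ 0 := hD.ne'
  have hrr : ‖x.1‖ ≠ 0 := hr.ne'
  generalize dd ‖x.1‖ x.2.2.1 = D at *
  generalize ‖x.1‖ = r at *
  simp only [Nat.cast_ofNat, Nat.add_one_sub_one, pow_one]
  field_simp
  ring

/-- If the angular momentum has derivative 0 and the energy has a nonzero derivative in the direction v, all values occur. -/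
private theorem L3_comb {μ : ℝ} (hμ : 0 < μ) {x : E6} (h0 : x.1 ≠ 0) (ham : am6 x = 1 / 2) (α β : ℝ) {v : E6}
    (hA : L3_A x v = 0) (hL : L3_L μ x v ≠ 0) :
    ∃ u : E6, HasDerivAt (fun s : ℝ => en6 μ (x + s • u)) α 0 ∧ HasDerivAt (fun s : ℝ => am6 (x + s • u)) β 0 := by
  have hr : 0 < ‖x.1‖ := norm_pos_iff.2 h0
  have hr2 : ‖x.1‖ ^ 2 = x.1.re * x.1.re + x.1.im * x.1.im := by
    rw [Complex.sq_norm, Complex.normSq_apply]
  have hrr : x.1.re * x.1.re + x.1.im * x.1.im ≠ 0 := by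
    rw [← hr2]
    positivity
  have ham' : x.1.re * x.2.1.im - x.1.im * x.2.1.re = 1 / 2 := by
    unfold am6 at ham
    rw [Complex.mul_im, Complex.conj_re, Complex.conj_im] at ham
    linarith
  set R : ℝ := x.1.re * x.1.re + x.1.im * x.1.im with hR
  let u₁ : E6 := (0, ⟨-x.1.im, x.1.re⟩, 0, 0)
  let u : E6 := (β / R) • u₁ + ((α - β / R) / L3_L μ x v) • v
  have hAu : L3_A x u = (β / R) * R + ((α - β / R) / L3_L μ x v) * L3_A x v := by
    simp only [u, u₁, L3_A, Prod.fst_add, Prod.snd_add, Prod.smul_fst, Prod.smul_snd, Complex.add_re, Complex.add_im,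
      Complex.real_smul, Complex.re_ofReal_mul, Complex.im_ofReal_mul, Complex.zero_re, Complex.zero_im]
    rw [hR]
    ring
  have hLu : L3_L μ x u = (β / R) * (2 * (x.1.re * x.2.1.im - x.1.im * x.2.1.re)) +
      ((α - β / R) / L3_L μ x v) * L3_L μ x v := by
    have h1 : ∀ c e : ℝ, L3_L μ x (c • u₁ + e • v) =
        c * (2 * (x.1.re * x.2.1.im - x.1.im * x.2.1.re)) + e * L3_L μ x v := by
      intro c e
      simp only [u₁, L3_L, Prod.fst_add, Prod.snd_add, Prod.smul_fst, Prod.smul_snd, Complex.add_re, Complex.add_im,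
        Complex.real_smul, Complex.re_ofReal_mul, Complex.im_ofReal_mul, Complex.zero_re, Complex.zero_im, smul_eq_mul]
      ring
    exact h1 _ _
  refine ⟨u, ?_, ?_⟩
  · refine (L3_en hμ h0 u).congr_deriv ?_
    rw [hLu, ham']
    field_simp
    ring
  · refine (L3_am x u).congr_deriv ?_
    rw [hAu, hA]
    field_simp
    ring

theorem regular6 {μ k : ℝ} (hμ : 0 < μ) (hk : 0 < k) (hμk : μ * k < 2) {x : E6} (hx : x ∈ lev μ k) (α β : ℝ) :
    ∃ u : E6, HasDerivAt (fun s : ℝ => en6 μ (x + s • u)) α 0 ∧ HasDerivAt (fun s : ℝ => am6 (x + s • u)) β 0 := by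
  obtain ⟨h0, ham, hen⟩ := hx
  have hr : 0 < ‖x.1‖ := norm_pos_iff.2 h0
  have hD : 0 < dd ‖x.1‖ x.2.2.1 := dd_pos _ hr
  have hr2 : ‖x.1‖ ^ 2 = x.1.re * x.1.re + x.1.im * x.1.im := by
    rw [Complex.sq_norm, Complex.normSq_apply]
  have hμ2 : 0 < 2 + μ := by positivity
  by_cases c2 : L3_L μ x (0, x.1, 0, 0) ≠ 0
  · refine L3_comb hμ h0 ham α β ?_ c2
    simp only [L3_A, Complex.zero_re, Complex.zero_im]
    ring
  by_cases c3 : L3_L μ x (0, 0, 0, 1) ≠ 0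
  · refine L3_comb hμ h0 ham α β ?_ c3
    simp only [L3_A, Complex.zero_re, Complex.zero_im]
    ring
  by_cases c4 : L3_L μ x (0, 0, 1, 0) ≠ 0
  · refine L3_comb hμ h0 ham α β ?_ c4
    simp only [L3_A, Complex.zero_re, Complex.zero_im]
    ring
  by_cases c5 : L3_L μ x (x.1, -x.2.1, 0, 0) ≠ 0
  · refine L3_comb hμ h0 ham α β ?_ c5
    simp only [L3_A, Complex.neg_re, Complex.neg_im]
    ring
  exfalso
  push Not at c2 c3 c4 c5
  simp only [L3_L, Complex.zero_re, Complex.zero_im, Complex.neg_re, Complex.neg_im] at c2 c3 c4 c5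
  have hw : x.2.2.2 = 0 := by
    have h1 : μ * (2 * x.2.2.2 / (2 + μ)) = 0 := by
      linear_combination c3
    have h2 : 2 * x.2.2.2 / (2 + μ) = 0 := (mul_eq_zero.1 h1).resolve_left hμ.ne'
    rw [div_eq_zero_iff] at h2
    rcases h2 with h2 | h2
    · linarith
    · exact absurd h2 hμ2.ne'
  have hz : x.2.2.1 = 0 := by
    have h1 : μ * (2 * x.2.2.1 / dd ‖x.1‖ x.2.2.1 ^ 3) = 0 := by
      linear_combination c4
    have h2 : 2 * x.2.2.1 / dd ‖x.1‖ x.2.2.1 ^ 3 = 0 := (mul_eq_zero.1 h1).resolve_left hμ.ne'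
    rw [div_eq_zero_iff] at h2
    rcases h2 with h2 | h2
    · linarith
    · exact absurd h2 (pow_pos hD 3).ne'
  have hq : (conj x.1 * x.2.1).re = 0 := by
    rw [Complex.mul_re, Complex.conj_re, Complex.conj_im]
    linear_combination c2 / 2
  have hpol := norm_sq_polar h0 ham
  rw [hq] at hpol
  have hDr : dd ‖x.1‖ x.2.2.1 = ‖x.1‖ := by
    rw [hz]
    unfold dd
    rw [zero_pow two_ne_zero, add_zero, Real.sqrt_sq hr.le]
  rw [hDr] at c5
  have hν2 : ‖x.2.1‖ ^ 2 = x.2.1.re * x.2.1.re + x.2.1.im * x.2.1.im := by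
    rw [Complex.sq_norm, Complex.normSq_apply]
  unfold en6 at hen
  rw [hDr, hw, hpol] at hen
  have c5' : -2 * ‖x.2.1‖ ^ 2 + ‖x.1‖ ^ 2 / (2 * ‖x.1‖ ^ 3) + μ * (2 * ‖x.1‖ ^ 2 / ‖x.1‖ ^ 3) = 0 := by
    rw [hν2, hr2]
    linear_combination c5
  rw [hpol] at c5'
  generalize ‖x.1‖ = r at *
  have hinv : r * r⁻¹ = 1 := mul_inv_cancel₀ hr.ne'
  have k1 : -1 + r + 4 * μ * r = 0 := by
    field_simp at c5'
    nlinarith [c5']
  have k2 : 1 / r = 1 + 4 * μ := by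
    rw [div_eq_iff hr.ne']
    linear_combination -k1
  have k3 : (0 / r) ^ 2 + 1 / (4 * r ^ 2) - 1 / (2 * r) + μ * (0 ^ 2 / (2 + μ) - 2 / r) =
      (1 / r) ^ 2 / 4 - (1 / r) / 2 - 2 * μ * (1 / r) := by
    field_simp
    ring
  rw [k3, k2] at hen
  have k4 : 2 * μ + 4 * μ ^ 2 = μ ^ 2 * k := by
    linear_combination -hen
  have k5 : 2 + 4 * μ = μ * k := by
    have h6 : μ * (2 + 4 * μ) = μ * (μ * k) := by
      linear_combination k4
    exact mul_left_cancel₀ hμ.ne' h6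
  linarith

end IsoTB
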