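import Pool.Agent.Lib.MP_3f23fb_mp.B2
import Pool.Agent.Lib.MP_3f23fb_mp.E1
import Pool.Agent.Lib.MP_3f23fb_mp.L1
import Pool.Agent.Lib.MP_3f23fb_mp.L2
import Pool.Agent.Lib.MP_3f23fb_mp.L3

/-!
# MP_3f23fb_mp, module Fin: final assembly

Given K take K' = K/4, chaos6 K' gives μ₀'; μ₀ = min μ₀' (1/(K'+1)) (so μ k ≤ μ K' < 2). Given m, m₃, c, h put μ = m₃/m, a = c²/m³, b = m⁵/|c|³, sg = sign c (= c/|c|), k = (-1/4 - h c²/m⁵)/μ². Then
a³b² = m, m²/a = m⁵/c², m a² b sg = c, h = (m²/a)(-1/4 - μ²k), 0 < k ≤ K/4. 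
level = emb '' lev (level_eq): compact (isCompact_lev, continuous_emb). Regular: x = emb x₆, energy (x + s emb u) = (m²/a) en6(x₆ + s u) (emb_add_smul, energy_emb), third component of angMom = 2 m a² b sg am6; regular6.
Flow: Φ t ⟨y, _⟩ = ⟨emb (Φ₆ (b t) (prj y)), _⟩ with Φ₆ from exists_flow6; group law and Φ 0 = id from prj_emb and emb (prj y) = y on the level; continuity: composition. Newton: newton_emb for s ↦ Φ₆ s (prj y). 
Entropy: entropy_pos with T' = T/b, ε = (1/10)/C (exists_prj_lip): P u = emb (P₆ u).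
-/

set_option autoImplicit false
set_option linter.unusedVariables false

open Complex ComplexConjugate

namespace IsoTB

/-- All conclusions for one level in normalised parameters. -/
theorem level_conclusions {K μ₀ : ℝ}
    (hchaos : ∀ {μ k : ℝ}, 0 < μ → μ ≤ μ₀ → 0 < k → k ≤ K → ∀ Φ : ℝ → E6 → E6, IsFlow6 μ k Φ →
      ∃ T : ℝ, 0 < T ∧ ∀ n : ℕ, ∃ P : (Fin n → Bool) → E6, (∀ u, P u ∈ lev μ k) ∧
        ∀ u v, u ≠ v → ∃ t ∈ Set.Icc 0 (n * T), 1 / 10 ≤ dist (Φ t (P u)) (Φ t (P v)))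
    (hμ₀ : μ₀ ≤ 1 / 64) {m m₃ sg a b k : ℝ} (hm : 0 < m) (hm₃ : 0 < m₃) (hsg : sg ^ 2 = 1) (ha : 0 < a) (hb : 0 < b)
    (hab : a ^ 3 * b ^ 2 = m) (hμ : m₃ / m ≤ μ₀) (hk : 0 < k) (hkK : k ≤ K) (hμk : m₃ / m * k < 2)
    {h c : ℝ} (hh : h = m ^ 2 / a * (-(1 / 4) - (m₃ / m) ^ 2 * k)) (hc : c = m * a ^ 2 * b * sg) :
    IsCompact (level m m₃ h c) ∧ IsRegularLevel m m₃ h c ∧
      ∃ Φ : Flow ℝ ↥(level m m₃ h c),
        (∀ (x : ↥(level m m₃ h c)) (t : ℝ), HasDerivAt (fun s => (Φ s x : St)) (newton (mass m m₃) (Φ t x)) t) ∧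
        0 < Dynamics.coverEntropy (Φ 1) Set.univ := by
  have hμ0 : 0 < m₃ / m := div_pos hm₃ hm
  have hμ64 : m₃ / m ≤ 1 / 64 := hμ.trans hμ₀
  have hsg0 : sg ≠ 0 := by
    rintro rfl
    norm_num at hsg
  have hlev : level m m₃ h c = emb m m₃ sg a b '' lev (m₃ / m) k := by
    rw [hh, hc]
    exact level_eq hm hm₃ hsg ha hb hab k
  have hcomp : IsCompact (level m m₃ h c) := by
    rw [hlev]
    exact (isCompact_lev hμ0 hμ64 hk).image continuous_emb
  refine ⟨hcomp, ?_, ?_⟩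
  · intro x hx α β
    rw [hlev] at hx
    obtain ⟨x6, hx6, rfl⟩ := hx
    have hA : m ^ 2 / a ≠ 0 := by positivity
    have hB : 2 * m * a ^ 2 * b * sg ≠ 0 := mul_ne_zero (by positivity) hsg0
    obtain ⟨u6, hu1, hu2⟩ := regular6 hμ0 hk hμk hx6 (α / (m ^ 2 / a)) (β / (2 * m * a ^ 2 * b * sg))
    refine ⟨emb m m₃ sg a b u6, isIso_emb hm hm₃ u6, ?_, ?_⟩
    · have e1 : (fun s : ℝ => energy (mass m m₃) (emb m m₃ sg a b x6 + s • emb m m₃ sg a b u6)) =
          fun s : ℝ => m ^ 2 / a * en6 (m₃ / m) (x6 + s • u6) := by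
        funext s
        rw [← emb_add_smul, energy_emb hm hm₃ hsg ha hb hab]
      rw [e1]
      have h1 := hu1.const_mul (m ^ 2 / a)
      rw [mul_div_cancel₀ _ hA] at h1
      exact h1
    · have e1 : (fun s : ℝ => angMom (mass m m₃) (emb m m₃ sg a b x6 + s • emb m m₃ sg a b u6) 2) =
          fun s : ℝ => 2 * m * a ^ 2 * b * sg * am6 (x6 + s • u6) := by
        funext s
        rw [← emb_add_smul, angMom_emb]
        simp [eL]
      rw [e1]
      have h1 := hu2.const_mul (2 * m * a ^ 2 * b * sg)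
      rw [mul_div_cancel₀ _ hB] at h1
      exact h1
  · obtain ⟨Φ6, hΦ6⟩ := exists_flow6 hμ0 hμ64 hk
    have hprj : ∀ y ∈ level m m₃ h c, prj sg a b y ∈ lev (m₃ / m) k := by
      intro y hy
      rw [hlev] at hy
      obtain ⟨x6, hx6, rfl⟩ := hy
      rw [prj_emb hm hm₃ hsg ha hb]
      exact hx6
    have hmem : ∀ x6 ∈ lev (m₃ / m) k, emb m m₃ sg a b x6 ∈ level m m₃ h c := by
      intro x6 hx6
      rw [hlev]
      exact ⟨x6, hx6, rfl⟩
    let F : Flow ℝ ↥(level m m₃ h c) :=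
      { toFun := fun t y => ⟨emb m m₃ sg a b (Φ6 (b * t) (prj sg a b y)),
          hmem _ (hΦ6.mem _ (hprj _ y.2) _)⟩
        cont' := by
          refine Continuous.subtype_mk ?_ _
          refine continuous_emb.comp ?_
          refine hΦ6.cont.comp (Continuous.prodMk ?_ ?_)
          · exact continuous_const.mul continuous_fst
          · exact continuous_prj.comp (continuous_subtype_val.comp continuous_snd)
        map_add' := by
          intro s t y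
          apply Subtype.ext
          show emb m m₃ sg a b (Φ6 (b * (s + t)) (prj sg a b y)) =
            emb m m₃ sg a b (Φ6 (b * s) (prj sg a b (emb m m₃ sg a b (Φ6 (b * t) (prj sg a b y)))))
          rw [prj_emb hm hm₃ hsg ha hb, mul_add, hΦ6.add]
        map_zero' := by
          intro y
          apply Subtype.ext
          show emb m m₃ sg a b (Φ6 (b * 0) (prj sg a b y)) = (y : St)
          rw [mul_zero, hΦ6.zero]
          exact emb_prj_of_isIso hm hm₃ hsg ha hb y.2.1 }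
    have hF : ∀ t y, ((F t y : ↥(level m m₃ h c)) : St) = emb m m₃ sg a b (Φ6 (b * t) (prj sg a b y)) :=
      fun t y => rfl
    refine ⟨F, ?_, ?_⟩
    · intro x t
      have h1 := hΦ6.deriv _ (hprj _ x.2) (b * t)
      have h2 := (hΦ6.mem _ (hprj _ x.2) (b * t)).1
      exact newton_emb (y := fun s => Φ6 s (prj sg a b x)) hm hm₃ hsg ha hb hab h2 h1
    · have hcs : CompactSpace ↥(level m m₃ h c) := isCompact_iff_compactSpace.1 hcomp
      obtain ⟨T, hT, hch⟩ := hchaos hμ0 hμ hk hkK Φ6 hΦ6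
      obtain ⟨C, hC, hlip⟩ := exists_prj_lip (sg := sg) ha hb
      refine entropy_pos F (T := T / b) (ε := 1 / (10 * C)) (by positivity) (by positivity) ?_
      intro n
      obtain ⟨P, hP, hsep⟩ := hch n
      refine ⟨fun u => ⟨emb m m₃ sg a b (P u), hmem _ (hP u)⟩, ?_⟩
      intro u v huv
      obtain ⟨t, ht, hd⟩ := hsep u v huv
      refine ⟨t / b, ⟨div_nonneg ht.1 hb.le, ?_⟩, ?_⟩
      · rw [← mul_div_assoc]
        exact div_le_div_of_nonneg_right ht.2 hb.le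
      · have e1 : ∀ w, ((F (t / b) ⟨emb m m₃ sg a b (P w), hmem _ (hP w)⟩ : ↥(level m m₃ h c)) : St) =
            emb m m₃ sg a b (Φ6 t (P w)) := by
          intro w
          rw [hF, mul_div_cancel₀ _ hb.ne', prj_emb hm hm₃ hsg ha hb]
        rw [Subtype.dist_eq, e1, e1]
        have h1 := hlip (emb m m₃ sg a b (Φ6 t (P u))) (emb m m₃ sg a b (Φ6 t (P v)))
        rw [prj_emb hm hm₃ hsg ha hb, prj_emb hm hm₃ hsg ha hb] at h1
        rw [div_le_iff₀ (by positivity)]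
        linarith

theorem main_theorem : ∀ K : ℝ, 0 < K → ∃ μ₀ : ℝ, 0 < μ₀ ∧ ∀ m m₃ c h : ℝ, 0 < m → 0 < m₃ → m₃ < μ₀ * m → c ≠ 0 →
    -(m ^ 5 / (4 * c ^ 2)) * (1 + K * (m₃ / m) ^ 2) ≤ h → h < -(m ^ 5 / (4 * c ^ 2)) →
    IsCompact (level m m₃ h c) ∧ IsRegularLevel m m₃ h c ∧
      ∃ Φ : Flow ℝ ↥(level m m₃ h c),
        (∀ (x : ↥(level m m₃ h c)) (t : ℝ), HasDerivAt (fun s => (Φ s x : St)) (newton (mass m m₃) (Φ t x)) t) ∧
        0 < Dynamics.coverEntropy (Φ 1) Set.univ := by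
  intro K hK
  obtain ⟨μ₁, hμ₁, hμ₁', hch⟩ := chaos6 (K / 4) (by positivity)
  refine ⟨min μ₁ (1 / (K + 1)), lt_min hμ₁ (by positivity), ?_⟩
  intro m m₃ c h hm hm₃ hlt hc h1 h2
  have hμ : m₃ / m < min μ₁ (1 / (K + 1)) := (div_lt_iff₀ hm).2 hlt
  have hμ0 : 0 < m₃ / m := div_pos hm₃ hm
  have hμa : m₃ / m ≤ μ₁ := (hμ.trans_le (min_le_left _ _)).le
  have hμb : m₃ / m < 1 / (K + 1) := hμ.trans_le (min_le_right _ _)
  have hc0 : 0 < |c| := abs_pos.2 hc
  have hc2 : |c| ^ 2 = c ^ 2 := sq_abs c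
  have hcc : 0 < c ^ 2 := by positivity
  set μ := m₃ / m with hμdef
  set k : ℝ := (-(1 / 4) - h * c ^ 2 / m ^ 5) / μ ^ 2 with hk
  have hkμ : μ ^ 2 * k = -(1 / 4) - h * c ^ 2 / m ^ 5 := by
    rw [hk]
    field_simp
  have hm5 : 0 < m ^ 5 := by positivity
  have hkpos : 0 < k := by
    rw [hk]
    apply div_pos _ (by positivity)
    have h3 : h * c ^ 2 / m ^ 5 < -(1 / 4) := by
      rw [div_lt_iff₀ hm5]
      have h4 : h * c ^ 2 < -(m ^ 5 / (4 * c ^ 2)) * c ^ 2 := mul_lt_mul_of_pos_right h2 hcc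
      have h5 : -(m ^ 5 / (4 * c ^ 2)) * c ^ 2 = -(1 / 4) * m ^ 5 := by
        field_simp
      linarith
    linarith
  have hkK : k ≤ K / 4 := by
    rw [hk, div_le_iff₀ (by positivity)]
    have h3 : -(1 / 4) * (1 + K * μ ^ 2) ≤ h * c ^ 2 / m ^ 5 := by
      rw [le_div_iff₀ hm5]
      have h4 : -(m ^ 5 / (4 * c ^ 2)) * (1 + K * μ ^ 2) * c ^ 2 ≤ h * c ^ 2 :=
        mul_le_mul_of_nonneg_right h1 hcc.le
      have h5 : -(m ^ 5 / (4 * c ^ 2)) * (1 + K * μ ^ 2) * c ^ 2 = -(1 / 4) * (1 + K * μ ^ 2) * m ^ 5 := by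
        field_simp
      linarith
    linarith
  have hμk : μ * k < 2 := by
    have h3 : μ * (K + 1) < 1 := by
      rw [lt_div_iff₀ (by positivity)] at hμb
      exact hμb
    have h4 : μ * k ≤ μ * (K / 4) := mul_le_mul_of_nonneg_left hkK hμ0.le
    nlinarith
  refine level_conclusions (K := K / 4) (μ₀ := μ₁) hch hμ₁' (sg := c / |c|) (a := c ^ 2 / m ^ 3)
    (b := m ^ 5 / |c| ^ 3) (k := k) hm hm₃ ?_ (by positivity) (by positivity) ?_ hμa hkpos hkK hμk ?_ ?_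
  · rw [div_pow, hc2, div_self hcc.ne']
  · have e1 : (m ^ 5 / |c| ^ 3) ^ 2 = m ^ 10 / (c ^ 2) ^ 3 := by
      rw [← hc2]
      ring
    rw [e1]
    field_simp
  · rw [← hμdef, hkμ]
    field_simp
    ring
  · have e1 : m * (c ^ 2 / m ^ 3) ^ 2 * (m ^ 5 / |c| ^ 3) * (c / |c|) = c ^ 4 * c / (|c| ^ 2) ^ 2 := by
      field_simp
    rw [e1, hc2]
    field_simp

end IsoTB
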