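import Mathlib

/-!
# MP_3f23fb_mp, module G1: the cycloid function

gg u = arccos(1-u) - √(u(2-u)) on [0,2]. gg 0 = arccos 1 = 0, gg 2 = arccos(-1) = π, continuous; on (0,2): derivative
1/√(u(2-u)) - (1-u)/√(u(2-u)) = u/√(u(2-u)) = √(u/(2-u)) (1-(1-u)² = u(2-u)); so gg is monotone on [0,2] with values in [0,π].
pw y = y√y = y^(3/2).
-/

set_option autoImplicit false
set_option linter.unusedVariables false

namespace IsoTB

/-- The cycloid function. -/
noncomputable def gg (u : ℝ) : ℝ := Real.arccos (1 - u) - √(u * (2 - u))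

/-- y^(3/2). -/
noncomputable def pw (y : ℝ) : ℝ := y * √y

theorem continuous_gg : Continuous gg := by
  unfold gg
  exact (Real.continuous_arccos.comp (continuous_const.sub continuous_id)).sub
    (continuous_id.mul (continuous_const.sub continuous_id)).sqrt

theorem gg_zero : gg 0 = 0 := by
  simp [gg]

theorem gg_two : gg 2 = Real.pi := by
  have h : (1 : ℝ) - 2 = -1 := by norm_num
  simp [gg, h]

theorem gg_deriv {u : ℝ} (h0 : 0 < u) (h2 : u < 2) : HasDerivAt gg (√(u / (2 - u))) u := by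
  have h3 : 0 < 2 - u := by linarith
  have h4 : 0 < u * (2 - u) := mul_pos h0 h3
  have e1 : HasDerivAt (fun v : ℝ => 1 - v) (-1) u := by
    simpa using (hasDerivAt_id u).const_sub 1
  have e2 : HasDerivAt (fun v : ℝ => Real.arccos (1 - v))
      (-(1 / √(1 - (1 - u) ^ 2)) * (-1)) u :=
    (Real.hasDerivAt_arccos (by linarith) (by linarith)).comp u e1
  have e3 : HasDerivAt (fun v : ℝ => v * (2 - v)) (1 * (2 - u) + u * (-1)) u := by
    have e4 : HasDerivAt (fun v : ℝ => 2 - v) (-1) u := by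
      simpa using (hasDerivAt_id u).const_sub 2
    exact (hasDerivAt_id u).mul e4
  have e5 := e2.sub (e3.sqrt h4.ne')
  have e6 : (1 : ℝ) - (1 - u) ^ 2 = u * (2 - u) := by ring
  rw [e6] at e5
  have e7 : -(1 / √(u * (2 - u))) * (-1) - (1 * (2 - u) + u * (-1)) / (2 * √(u * (2 - u))) =
      √(u / (2 - u)) := by
    rw [Real.sqrt_mul h0.le, Real.sqrt_div h0.le]
    have a1 : 0 < √u := Real.sqrt_pos.2 h0
    have a2 : 0 < √(2 - u) := Real.sqrt_pos.2 h3
    have a3 : √u * √u = u := Real.mul_self_sqrt h0.le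
    field_simp
    rw [sq, a3]
    ring
  rw [e7] at e5
  exact e5

theorem gg_mono {u v : ℝ} (h0 : 0 ≤ u) (huv : u ≤ v) (h2 : v ≤ 2) : gg u ≤ gg v := by
  have h : MonotoneOn gg (Set.Icc 0 2) := by
    refine monotoneOn_of_deriv_nonneg (convex_Icc 0 2) continuous_gg.continuousOn ?_ ?_
    · intro x hx
      rw [interior_Icc] at hx
      exact (gg_deriv hx.1 hx.2).differentiableAt.differentiableWithinAt
    · intro x hx
      rw [interior_Icc] at hx
      rw [(gg_deriv hx.1 hx.2).deriv]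
      exact Real.sqrt_nonneg _
  exact h ⟨h0, huv.trans h2⟩ ⟨h0.trans huv, h2⟩ huv

theorem gg_nonneg {u : ℝ} (h0 : 0 ≤ u) (h2 : u ≤ 2) : 0 ≤ gg u := by
  rw [← gg_zero]
  exact gg_mono le_rfl h0 h2

theorem gg_le_pi {u : ℝ} (h0 : 0 ≤ u) (h2 : u ≤ 2) : gg u ≤ Real.pi := by
  rw [← gg_two]
  exact gg_mono h0 h2 le_rfl

theorem pw_pos {y : ℝ} (hy : 0 < y) : 0 < pw y :=
  mul_pos hy (Real.sqrt_pos.2 hy)

theorem pw_mono {x y : ℝ} (hx : 0 ≤ x) (hxy : x ≤ y) : pw x ≤ pw y :=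
  mul_le_mul hxy (Real.sqrt_le_sqrt hxy) (Real.sqrt_nonneg _) (hx.trans hxy)

theorem pw_mul {x y : ℝ} (hx : 0 ≤ x) (hy : 0 ≤ y) : pw (x * y) = pw x * pw y := by
  unfold pw
  rw [Real.sqrt_mul hx]
  ring

theorem continuous_pw : Continuous pw := by
  unfold pw
  exact continuous_id.mul Real.continuous_sqrt

theorem pw_sq {y : ℝ} (hy : 0 ≤ y) : pw y ^ 2 = y ^ 3 := by
  unfold pw
  rw [mul_pow, Real.sq_sqrt hy]
  ring

end IsoTB
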