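import Pool.Agent.Lib.MP_3f23fb_mp.O1
import Pool.Agent.Lib.MP_3f23fb_mp.G1

/-!
# MP_3f23fb_mp, module G2: lower bound for the time of a branch

On [a,b]: 0 < z, 0 < s ≤ ‖Y‖² + k. Put u = μ s z. By energy_le μ s ≤ μ(‖Y‖²+k) ≤ 2/D < 2/z (D > z because r > 0), so u ∈ (0,2).
w_sq: w² = (2+μ)(2/D - μ(‖Y‖²+k)) ≤ (2+μ)(2/z - μs) = (2+μ) μs (2-u)/u. So |d/dt gg(u)| = √(u/(2-u)) μ s |w| ≤ √(2+μ) (μs)^{3/2} = √(2+μ) pw(μ s)
(multiply the square roots). Mean value theorem (Convex.norm_image_sub_le_of_norm_hasDerivWithin_le or image_sub_le).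
-/

set_option autoImplicit false
set_option linter.unusedVariables false

namespace IsoTB

namespace Orb

variable {μ k : ℝ} (x : Orb μ k)

private theorem g2_bd (hμ : 0 < μ) {s t : ℝ} (hs : 0 < s) (hz : 0 < x.z t) (hY : s ≤ ‖x.Y t‖ ^ 2 + k) :
    μ * s * x.z t < 2 ∧ x.w t ^ 2 * x.z t ≤ (2 + μ) * (2 - μ * s * x.z t) := by
  have hD := x.D_pos t
  have hDz : x.z t < x.D t := by
    have h1 : x.D t ^ 2 = x.r t ^ 2 + x.z t ^ 2 := dd_sq _ _
    have h2 := x.r_pos t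
    nlinarith [sq_pos_of_pos h2]
  have hw := x.w_sq hμ t
  have h1 : 2 / x.D t < 2 / x.z t := div_lt_div_of_pos_left (by norm_num) hz hDz
  have h2 : μ * s ≤ μ * (‖x.Y t‖ ^ 2 + k) := mul_le_mul_of_nonneg_left hY hμ.le
  have h3 : 0 ≤ 2 / x.D t - μ * (‖x.Y t‖ ^ 2 + k) := by
    by_contra h
    push Not at h
    have h4 : (2 + μ) * (2 / x.D t - μ * (‖x.Y t‖ ^ 2 + k)) < 0 := mul_neg_of_pos_of_neg (by linarith) h
    nlinarith [sq_nonneg (x.w t)]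
  have h5 : μ * s < 2 / x.z t := by linarith
  have h6 : x.w t ^ 2 ≤ (2 + μ) * (2 / x.z t - μ * s) := by
    rw [hw]
    exact mul_le_mul_of_nonneg_left (by linarith) (by linarith)
  refine ⟨(lt_div_iff₀ hz).1 h5, ?_⟩
  calc x.w t ^ 2 * x.z t ≤ (2 + μ) * (2 / x.z t - μ * s) * x.z t := mul_le_mul_of_nonneg_right h6 hz.le
    _ = (2 + μ) * (2 - μ * s * x.z t) := by
      field_simp

theorem branch_lower (hμ : 0 < μ) {a b s : ℝ} (hab : a ≤ b) (hs : 0 < s)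
    (hz : ∀ t ∈ Set.Icc a b, 0 < x.z t) (hY : ∀ t ∈ Set.Icc a b, s ≤ ‖x.Y t‖ ^ 2 + k) :
    |gg (μ * s * x.z b) - gg (μ * s * x.z a)| ≤ √(2 + μ) * pw (μ * s) * (b - a) := by
  have hms : 0 < μ * s := mul_pos hμ hs
  have hd : ∀ t ∈ Set.Icc a b, HasDerivWithinAt (fun t => gg (μ * s * x.z t))
      (√(μ * s * x.z t / (2 - μ * s * x.z t)) * (μ * s * x.w t)) (Set.Icc a b) t := by
    intro t ht
    have h1 := x.g2_bd hμ hs (hz t ht) (hY t ht)
    have h2 := gg_deriv (mul_pos hms (hz t ht)) h1.1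
    exact (h2.comp t ((x.dz t).const_mul (μ * s))).hasDerivWithinAt
  have hb : ∀ t ∈ Set.Icc a b, ‖√(μ * s * x.z t / (2 - μ * s * x.z t)) * (μ * s * x.w t)‖ ≤
      √(2 + μ) * pw (μ * s) := by
    intro t ht
    obtain ⟨h1, h2⟩ := x.g2_bd hμ hs (hz t ht) (hY t ht)
    have hzt := hz t ht
    have hu : 0 < μ * s * x.z t := mul_pos hms hzt
    have h3 : 0 < 2 - μ * s * x.z t := by linarith
    have hR : 0 ≤ √(2 + μ) * pw (μ * s) := by
      unfold pw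
      positivity
    rw [Real.norm_eq_abs]
    refine abs_le_of_sq_le_sq ?_ hR
    have e1 : (√(2 + μ) * pw (μ * s)) ^ 2 = (2 + μ) * (μ * s) ^ 3 := by
      unfold pw
      rw [mul_pow, mul_pow, Real.sq_sqrt (by linarith), Real.sq_sqrt hms.le]
      ring
    rw [e1, mul_pow, Real.sq_sqrt (div_nonneg hu.le h3.le), div_mul_eq_mul_div, div_le_iff₀ h3]
    have e2 : μ * s * x.z t * (μ * s * x.w t) ^ 2 = (μ * s) ^ 3 * (x.w t ^ 2 * x.z t) := by ring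
    rw [e2]
    calc (μ * s) ^ 3 * (x.w t ^ 2 * x.z t) ≤ (μ * s) ^ 3 * ((2 + μ) * (2 - μ * s * x.z t)) :=
          mul_le_mul_of_nonneg_left h2 (by positivity)
      _ = (2 + μ) * (μ * s) ^ 3 * (2 - μ * s * x.z t) := by ring
  have h := Convex.norm_image_sub_le_of_norm_hasDerivWithin_le hd hb (convex_Icc a b)
    (Set.left_mem_Icc.2 hab) (Set.right_mem_Icc.2 hab)
  rw [Real.norm_eq_abs, Real.norm_eq_abs, abs_of_nonneg (sub_nonneg.2 hab)] at h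
  exact h

end Orb

end IsoTB
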