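import Pool.Agent.Lib.MP_3f23fb_mp.O1
import Pool.Agent.Lib.MP_3f23fb_mp.G1

/-!
# MP_3f23fb_mp, module G3: upper bound for the time of a rising branch

θ = 1 - 9/(8Z²) ∈ (0,1) (Z ≥ 2), s' = s/θ. On [a,b] w ≥ 0, so z is monotone, Z ≤ z ≤ z(b), u = μ s' z ∈ (0, 2).
D = √(r²+z²) ≤ z + r²/(2z) ≤ z (1 + 9/(8Z²)) (r ≤ 3/2), so 2/D ≥ (2/z) θ ((1+x)(1-x) ≤ 1). w_sq: w² ≥ (2+μ)((2/z)θ - μ s) = (2+μ) θ (2/z - μ s')
= (2+μ) θ μ s' (2-u)/u ≥ 0. w ≥ 0: w ≥ √((2+μ)θ) √(μ s') √((2-u)/u). d/dt gg(u) = √(u/(2-u)) μ s' w ≥ √(2+μ) √θ (μs')^{3/2}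
≥ √2 (μs)^{3/2} (√θ θ^{-3/2} = 1/θ ≥ 1). So √2 pw(μ s)(b-a) ≤ gg(u(b)) - gg(u(a)) ≤ π.
-/

set_option autoImplicit false
set_option linter.unusedVariables false

namespace IsoTB

namespace Orb

variable {μ k : ℝ} (x : Orb μ k)

private theorem g3_bd (hμ : 0 < μ) (hμ' : μ ≤ 1 / 64) (hk : 0 < k) {s t Z : ℝ} (hZ : 2 ≤ Z) (hz : Z ≤ x.z t)
    (hY : ‖x.Y t‖ ^ 2 + k ≤ s) :
    (2 + μ) * (2 * (1 - 9 / (8 * Z ^ 2)) - μ * s * x.z t) ≤ x.w t ^ 2 * x.z t := by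
  have hD := x.D_pos t
  have hr := (x.r_bounds hμ hμ' hk t).2
  have hr0 := x.r_pos t
  have hzt : 0 < x.z t := by linarith
  have hZ0 : 0 < Z := by linarith
  set q : ℝ := 9 / (8 * Z ^ 2) with hq
  have hq0 : 0 < q := by positivity
  have hqZ : q * Z ^ 2 = 9 / 8 := by
    rw [hq]
    field_simp
  have hDz : x.D t ≤ x.z t * (1 + q) := by
    have h1 : x.D t ^ 2 = x.r t ^ 2 + x.z t ^ 2 := dd_sq _ _
    have h2 : x.r t ^ 2 ≤ 9 / 4 := by nlinarith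
    have h3 : q * Z ^ 2 ≤ q * x.z t ^ 2 := by
      apply mul_le_mul_of_nonneg_left _ hq0.le
      nlinarith
    have h4 : x.D t ^ 2 ≤ (x.z t * (1 + q)) ^ 2 := by
      have : (x.z t * (1 + q)) ^ 2 = x.z t ^ 2 + 2 * (q * x.z t ^ 2) + (x.z t * q) ^ 2 := by ring
      rw [this, h1]
      nlinarith [sq_nonneg (x.z t * q)]
    exact abs_le_of_sq_le_sq' h4 (by positivity) |>.2
  have h1 : 2 * (1 - q) ≤ 2 / x.D t * x.z t := by
    rw [div_mul_eq_mul_div, le_div_iff₀ hD]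
    by_cases h : 1 - q ≤ 0
    · have : 2 * (1 - q) * x.D t ≤ 0 := mul_nonpos_of_nonpos_of_nonneg (by linarith) hD.le
      linarith
    · push Not at h
      have h2 : (1 - q) * x.D t ≤ (1 - q) * (x.z t * (1 + q)) := mul_le_mul_of_nonneg_left hDz h.le
      have h3 : (1 - q) * (x.z t * (1 + q)) = x.z t - x.z t * q ^ 2 := by ring
      have h4 : 0 ≤ x.z t * q ^ 2 := by positivity
      linarith
  rw [x.w_sq hμ t]
  have h2 : μ * (‖x.Y t‖ ^ 2 + k) * x.z t ≤ μ * s * x.z t :=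
    mul_le_mul_of_nonneg_right (mul_le_mul_of_nonneg_left hY hμ.le) hzt.le
  have h3 : (2 + μ) * (2 / x.D t - μ * (‖x.Y t‖ ^ 2 + k)) * x.z t =
      (2 + μ) * (2 / x.D t * x.z t - μ * (‖x.Y t‖ ^ 2 + k) * x.z t) := by ring
  rw [h3]
  exact mul_le_mul_of_nonneg_left (by linarith) (by linarith)

theorem branch_upper (hμ : 0 < μ) (hμ' : μ ≤ 1 / 64) (hk : 0 < k) {a b s Z : ℝ} (hab : a ≤ b) (hs : 0 < s) (hZ : 2 ≤ Z)
    (hz : ∀ t ∈ Set.Icc a b, Z ≤ x.z t) (hw : ∀ t ∈ Set.Icc a b, 0 ≤ x.w t)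
    (hY : ∀ t ∈ Set.Icc a b, ‖x.Y t‖ ^ 2 + k ≤ s) (hu : μ * (s / (1 - 9 / (8 * Z ^ 2))) * x.z b < 2) :
    √2 * pw (μ * s) * (b - a) ≤ Real.pi := by
  have hZ0 : 0 < Z := by linarith
  set q : ℝ := 9 / (8 * Z ^ 2) with hq
  have hq0 : 0 < q := by positivity
  have hq1 : q < 1 := by
    rw [hq, div_lt_one (by positivity)]
    nlinarith
  set θ : ℝ := 1 - q with hθ
  have hθ0 : 0 < θ := by linarith
  have hθ1 : θ ≤ 1 := by linarith
  set s' : ℝ := s / θ with hs'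
  have hs'0 : 0 < s' := div_pos hs hθ0
  have hsθ : s = s' * θ := by
    rw [hs']
    field_simp
  have hms : 0 < μ * s' := mul_pos hμ hs'0
  have hmono : MonotoneOn x.z (Set.Icc a b) := by
    refine monotoneOn_of_deriv_nonneg (convex_Icc a b) x.continuous_z.continuousOn ?_ ?_
    · intro t _
      exact (x.dz t).differentiableAt.differentiableWithinAt
    · intro t ht
      rw [interior_Icc] at ht
      rw [(x.dz t).deriv]
      exact hw t ⟨ht.1.le, ht.2.le⟩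
  have hub : ∀ t ∈ Set.Icc a b, 0 < μ * s' * x.z t ∧ μ * s' * x.z t < 2 := by
    intro t ht
    have h1 := hz t ht
    refine ⟨mul_pos hms (by linarith), lt_of_le_of_lt ?_ hu⟩
    exact mul_le_mul_of_nonneg_left (hmono ht (Set.right_mem_Icc.2 hab) ht.2) hms.le
  have hd : ∀ t ∈ Set.Icc a b, HasDerivAt (fun t => gg (μ * s' * x.z t))
      (√(μ * s' * x.z t / (2 - μ * s' * x.z t)) * (μ * s' * x.w t)) t := by
    intro t ht
    have h1 := hub t ht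
    have h2 := gg_deriv h1.1 h1.2
    exact h2.comp t ((x.dz t).const_mul (μ * s'))
  have hb : ∀ t ∈ Set.Icc a b, √2 * pw (μ * s) ≤ √(μ * s' * x.z t / (2 - μ * s' * x.z t)) * (μ * s' * x.w t) := by
    intro t ht
    obtain ⟨h1, h2⟩ := hub t ht
    have hzt := hz t ht
    have hz0 : 0 < x.z t := by linarith
    have h3 : 0 < 2 - μ * s' * x.z t := by linarith
    have hms0 : 0 < μ * s := mul_pos hμ hs
    refine abs_le_of_sq_le_sq' (b := _) ?_ (mul_nonneg (Real.sqrt_nonneg _) (mul_nonneg hms.le (hw t ht))) |>.2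
    have e1 : (√2 * pw (μ * s)) ^ 2 = 2 * (μ * s) ^ 3 := by
      rw [mul_pow, Real.sq_sqrt (by norm_num), pw_sq hms0.le]
    have e0 : (√(μ * s' * x.z t / (2 - μ * s' * x.z t)) * (μ * s' * x.w t)) ^ 2 =
        μ * s' * x.z t / (2 - μ * s' * x.z t) * (μ * s' * x.w t) ^ 2 := by
      rw [mul_pow, Real.sq_sqrt (div_nonneg h1.le h3.le)]
    rw [e1, e0, div_mul_eq_mul_div, le_div_iff₀ h3]
    have e2 : μ * s' * x.z t * (μ * s' * x.w t) ^ 2 = (μ * s') ^ 3 * (x.w t ^ 2 * x.z t) := by ring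
    rw [e2]
    have h4 := x.g3_bd hμ hμ' hk hZ hzt (hY t ht)
    rw [← hq, ← hθ] at h4
    have h5 : (2 + μ) * (2 * θ - μ * s * x.z t) = (2 + μ) * θ * (2 - μ * s' * x.z t) := by
      rw [hsθ]; ring
    rw [h5] at h4
    have h6 : 2 * (μ * s) ^ 3 ≤ (μ * s') ^ 3 * ((2 + μ) * θ) := by
      have : (μ * s) ^ 3 = (μ * s') ^ 3 * (θ * θ ^ 2) := by rw [hsθ]; ring
      rw [this]
      have h7 : 0 < (μ * s') ^ 3 := by positivity
      have h8 : θ ^ 2 ≤ 1 := by nlinarith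
      have h9 : 2 * (θ * θ ^ 2) ≤ (2 + μ) * θ := by nlinarith
      nlinarith
    calc 2 * (μ * s) ^ 3 * (2 - μ * s' * x.z t) ≤ (μ * s') ^ 3 * ((2 + μ) * θ) * (2 - μ * s' * x.z t) :=
          mul_le_mul_of_nonneg_right h6 h3.le
      _ = (μ * s') ^ 3 * ((2 + μ) * θ * (2 - μ * s' * x.z t)) := by ring
      _ ≤ (μ * s') ^ 3 * (x.w t ^ 2 * x.z t) := mul_le_mul_of_nonneg_left h4 (by positivity)
  have h := Convex.mul_sub_le_image_sub_of_le_deriv (convex_Icc a b)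
    (f := fun t => gg (μ * s' * x.z t)) (C := √2 * pw (μ * s))
    (fun t ht => (hd t ht).continuousAt.continuousWithinAt)
    (fun t ht => (hd t (interior_subset ht)).differentiableAt.differentiableWithinAt)
    (fun t ht => by
      rw [(hd t (interior_subset ht)).deriv]
      exact hb t (interior_subset ht))
    a (Set.left_mem_Icc.2 hab) b (Set.right_mem_Icc.2 hab) hab
  have h1 := hub a (Set.left_mem_Icc.2 hab)
  have h2 := hub b (Set.right_mem_Icc.2 hab)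
  have h3 := gg_nonneg h1.1.le h1.2.le
  have h4 := gg_le_pi h2.1.le h2.2.le
  linarith

end Orb

end IsoTB
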