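import Pool.Agent.Lib.MP_3f23fb_mp.O1
import Pool.Agent.Lib.MP_3f23fb_mp.G1

/-!
# MP_3f23fb_mp, module G4: time near the apex

M = 2/(μ s). On [tb, ta]: D ≤ M (energy_le: μ s ≤ μ(‖Y‖²+k) ≤ 2/D). -w' = (2+μ) z/D³ ≥ 2 (1-δ) z_a/M³ ≥ z_a/M³ (z_a = z(ta), δ ≤ 1/2). w(ta) = 0, so
w(t) ≥ (z_a/M³)(ta - t) on [tb,ta] (monotonicity of w + (z_a/M³) t), z(ta) - z(tb) ≥ (z_a/M³)(ta-tb)²/2 (monotonicity of z + (z_a/M³)(ta-t)²/2),
and z(ta) - z(tb) ≤ δ z_a. So (ta-tb)² ≤ 2δM³; M³ = pw(M)², so ta - tb ≤ √(2δ) pw(M).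
-/

set_option autoImplicit false
set_option linter.unusedVariables false

namespace IsoTB

namespace Orb

variable {μ k : ℝ} (x : Orb μ k)

theorem apex_time (hμ : 0 < μ) {tb ta s δ : ℝ} (hab : tb ≤ ta) (hs : 0 < s) (hδ : 0 < δ) (hδ' : δ ≤ 1 / 2)
    (hw : x.w ta = 0) (hza : 0 < x.z ta) (hz : ∀ t ∈ Set.Icc tb ta, (1 - δ) * x.z ta ≤ x.z t)
    (hY : ∀ t ∈ Set.Icc tb ta, s ≤ ‖x.Y t‖ ^ 2 + k) :
    ta - tb ≤ √(2 * δ) * pw (2 / (μ * s)) := by
  set M : ℝ := 2 / (μ * s) with hM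
  have hM0 : 0 < M := by positivity
  have hD : ∀ t ∈ Set.Icc tb ta, x.D t ≤ M := by
    intro t ht
    have h1 := x.energy_le hμ t
    have h2 : μ * s ≤ 2 / x.D t := (mul_le_mul_of_nonneg_left (hY t ht) hμ.le).trans h1
    rw [le_div_iff₀ (x.D_pos t)] at h2
    rw [hM, le_div_iff₀ (by positivity)]
    linarith
  set c : ℝ := x.z ta / M ^ 3 with hc
  have hc0 : 0 < c := by positivity
  have hacc : ∀ t ∈ Set.Icc tb ta, c ≤ (2 + μ) * (x.z t / dd (x.r t) (x.z t) ^ 3) := by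
    intro t ht
    have h1 := hz t ht
    have hDp := x.D_pos t
    have h2 : x.D t ^ 3 ≤ M ^ 3 := pow_le_pow_left₀ hDp.le (hD t ht) 3
    have h3 : x.z ta / 2 ≤ x.z t := by nlinarith
    have h4 : x.z ta / 2 / M ^ 3 ≤ x.z t / x.D t ^ 3 :=
      div_le_div₀ (by linarith) h3 (pow_pos hDp 3) h2
    have h5 : dd (x.r t) (x.z t) = x.D t := rfl
    rw [h5]
    have h6 : 0 ≤ x.z t / x.D t ^ 3 := div_nonneg (by linarith) (pow_pos hDp 3).le
    have h7 : c = 2 * (x.z ta / 2 / M ^ 3) := by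
      rw [hc]
      ring
    rw [h7]
    nlinarith
  have hw1 : ∀ t ∈ Set.Icc tb ta, c * (ta - t) ≤ x.w t := by
    have hder : ∀ t, HasDerivAt (fun t => x.w t + c * t)
        (-((2 + μ) * (x.z t / dd (x.r t) (x.z t) ^ 3)) + c * 1) t := fun t =>
      (x.dw t).add ((hasDerivAt_id t).const_mul c)
    have hanti : AntitoneOn (fun t => x.w t + c * t) (Set.Icc tb ta) := by
      refine antitoneOn_of_deriv_nonpos (convex_Icc tb ta)
        (fun t _ => (hder t).continuousAt.continuousWithinAt)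
        (fun t _ => (hder t).differentiableAt.differentiableWithinAt) ?_
      intro t ht
      rw [(hder t).deriv]
      have := hacc t (interior_subset ht)
      linarith
    intro t ht
    have h1 := hanti ht (Set.right_mem_Icc.2 hab) ht.2
    simp only [hw] at h1
    linarith
  have hz1 : c * (ta - tb) ^ 2 / 2 ≤ x.z ta - x.z tb := by
    have hder : ∀ t, HasDerivAt (fun t => x.z t + c / 2 * (ta - t) ^ 2)
        (x.w t + c / 2 * (2 * (ta - t) ^ 1 * (-1))) t := by
      intro t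
      have h1 : HasDerivAt (fun t => ta - t) (-1) t := by
        simpa using (hasDerivAt_id t).const_sub ta
      have h2 : HasDerivAt (fun t => (ta - t) ^ 2) (2 * (ta - t) ^ 1 * (-1)) t := by
        have h3 := h1.pow 2
        have e : (((2 : ℕ) : ℝ) * (ta - t) ^ (2 - 1) * (-1)) = 2 * (ta - t) ^ 1 * (-1) := by
          norm_num
        rw [e] at h3
        exact h3
      exact (x.dz t).add (h2.const_mul (c / 2))
    have hmono : MonotoneOn (fun t => x.z t + c / 2 * (ta - t) ^ 2) (Set.Icc tb ta) := by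
      refine monotoneOn_of_deriv_nonneg (convex_Icc tb ta)
        (fun t _ => (hder t).continuousAt.continuousWithinAt)
        (fun t _ => (hder t).differentiableAt.differentiableWithinAt) ?_
      intro t ht
      rw [(hder t).deriv]
      have := hw1 t (interior_subset ht)
      linarith
    have h1 := hmono (Set.left_mem_Icc.2 hab) (Set.right_mem_Icc.2 hab) hab
    simp only [sub_self] at h1
    nlinarith
  have hsq : (ta - tb) ^ 2 ≤ (√(2 * δ) * pw M) ^ 2 := by
    rw [mul_pow, Real.sq_sqrt (by positivity), pw_sq hM0.le]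
    have h1 := hz tb (Set.left_mem_Icc.2 hab)
    have h2 : c * (ta - tb) ^ 2 / 2 ≤ δ * x.z ta := by linarith
    have h3 : c * M ^ 3 = x.z ta := by
      rw [hc]
      field_simp
    have h4 : c * (ta - tb) ^ 2 ≤ c * (2 * δ * M ^ 3) := by
      have : c * (2 * δ * M ^ 3) = 2 * δ * (c * M ^ 3) := by ring
      rw [this, h3]
      linarith
    exact le_of_mul_le_mul_left h4 hc0
  exact (le_abs_self _).trans (abs_le_of_sq_le_sq hsq
    (mul_nonneg (Real.sqrt_nonneg _) (pw_pos hM0).le))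

end Orb

end IsoTB
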