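import Pool.Agent.Lib.MP_3f23fb_mp.G3
import Pool.Agent.Lib.MP_3f23fb_mp.G4

/-!
# MP_3f23fb_mp, module G5: upper bound for the rising half of the far zone

On [τ, ta] w ≥ 0 (z monotone), w(ta) = 0, z ≥ Z ≥ 2, s₁ ≤ ‖Y‖² + k ≤ s₂, and (1-δ) s₂ < (1 - 9/(8Z²)) s₁. z_a = z(ta) ≤ D(ta) ≤ 2/(μ s₁) (energy_le).
tb = inf {t ∈ [τ,ta] : z(t) ≥ (1-δ) z_a} (closed, contains ta); by monotonicity z ≥ (1-δ) z_a on [tb,ta]. apex_time: ta - tb ≤ √(2δ) pw(2/(μ s₁)).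
If tb = τ we are done. Otherwise z(tb) ≤ (1-δ) z_a ((1-δ) z_a is not reached before tb, continuity), and
μ (s₂/θ) z(tb) ≤ μ (s₂/θ)(1-δ) 2/(μ s₁) = 2 (1-δ) s₂/(θ s₁) < 2, θ = 1 - 9/(8Z²). branch_upper on [τ,tb] with s = s₂: tb - τ ≤ π/(√2 pw(μ s₂)).
-/

set_option autoImplicit false
set_option linter.unusedVariables false

namespace IsoTB

namespace Orb

variable {μ k : ℝ} (x : Orb μ k)

theorem half_upper (hμ : 0 < μ) (hμ' : μ ≤ 1 / 64) (hk : 0 < k) {τ ta s₁ s₂ δ Z : ℝ} (hab : τ ≤ ta) (hs : 0 < s₁)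
    (hδ : 0 < δ) (hδ' : δ ≤ 1 / 2) (hZ : 2 ≤ Z)
    (hz : ∀ t ∈ Set.Icc τ ta, Z ≤ x.z t) (hw : ∀ t ∈ Set.Icc τ ta, 0 ≤ x.w t) (hwa : x.w ta = 0)
    (hY₁ : ∀ t ∈ Set.Icc τ ta, s₁ ≤ ‖x.Y t‖ ^ 2 + k) (hY₂ : ∀ t ∈ Set.Icc τ ta, ‖x.Y t‖ ^ 2 + k ≤ s₂)
    (h12 : (1 - δ) * s₂ < (1 - 9 / (8 * Z ^ 2)) * s₁) :
    ta - τ ≤ Real.pi / (√2 * pw (μ * s₂)) + √(2 * δ) * pw (2 / (μ * s₁)) := by
  have hs2 : 0 < s₂ := hs.trans_le ((hY₁ τ ⟨le_rfl, hab⟩).trans (hY₂ τ ⟨le_rfl, hab⟩))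
  have hpw : 0 < pw (μ * s₂) := mul_pos (by positivity) (Real.sqrt_pos.2 (by positivity))
  have hmono : MonotoneOn x.z (Set.Icc τ ta) := by
    refine monotoneOn_of_deriv_nonneg (convex_Icc _ _) x.continuous_z.continuousOn
      (fun t _ => (x.dz t).differentiableAt.differentiableWithinAt) fun t ht => ?_
    rw [(x.dz t).deriv]
    exact hw t (interior_subset ht)
  have hza : 0 < x.z ta := by
    have := hz ta ⟨hab, le_rfl⟩
    linarith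
  have hle : x.z ta ≤ 2 / (μ * s₁) := by
    have h1 := x.energy_le hμ ta
    have h2 : μ * s₁ ≤ 2 / x.D ta :=
      (mul_le_mul_of_nonneg_left (hY₁ ta ⟨hab, le_rfl⟩) hμ.le).trans h1
    rw [le_div_iff₀ (x.D_pos ta)] at h2
    have h3 : x.z ta ≤ x.D ta := (le_abs_self _).trans (abs_le_dd_right _ _)
    rw [le_div_iff₀ (by positivity)]
    nlinarith [mul_pos hμ hs]
  by_cases hcase : (1 - δ) * x.z ta ≤ x.z τ
  · have h1 := x.apex_time hμ hab hs hδ hδ' hwa hza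
      (fun t ht => hcase.trans (hmono ⟨le_rfl, hab⟩ ht ht.1)) hY₁
    have h2 : 0 ≤ Real.pi / (√2 * pw (μ * s₂)) := by positivity
    linarith
  · have hcase' := not_le.1 hcase
    have h1 : (1 - δ) * x.z ta ≤ x.z ta := by nlinarith
    obtain ⟨tb, htb, hztb⟩ := intermediate_value_Icc hab x.continuous_z.continuousOn
      (Set.mem_Icc.2 ⟨hcase'.le, h1⟩)
    have h2 := x.apex_time hμ htb.2 hs hδ hδ' hwa hza
      (fun t ht => by
        rw [← hztb]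
        exact hmono htb ⟨htb.1.trans ht.1, ht.2⟩ ht.1)
      (fun t ht => hY₁ t ⟨htb.1.trans ht.1, ht.2⟩)
    have hθ : 0 < 1 - 9 / (8 * Z ^ 2) := by
      have : 9 / (8 * Z ^ 2) < 1 := by
        rw [div_lt_one (by positivity)]
        nlinarith
      linarith
    have h3 := x.branch_upper hμ hμ' hk (b := tb) htb.1 hs2 hZ
      (fun t ht => hz t ⟨ht.1, ht.2.trans htb.2⟩) (fun t ht => hw t ⟨ht.1, ht.2.trans htb.2⟩)
      (fun t ht => hY₂ t ⟨ht.1, ht.2.trans htb.2⟩) (by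
        rw [hztb]
        have e1 : μ * (s₂ / (1 - 9 / (8 * Z ^ 2))) * ((1 - δ) * x.z ta) ≤
            μ * (s₂ / (1 - 9 / (8 * Z ^ 2))) * ((1 - δ) * (2 / (μ * s₁))) := by
          refine mul_le_mul_of_nonneg_left (mul_le_mul_of_nonneg_left hle (by linarith)) ?_
          positivity
        refine lt_of_le_of_lt e1 ?_
        have e2 : μ * (s₂ / (1 - 9 / (8 * Z ^ 2))) * ((1 - δ) * (2 / (μ * s₁))) =
            2 * (((1 - δ) * s₂) / ((1 - 9 / (8 * Z ^ 2)) * s₁)) := by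
          set θ := 1 - 9 / (8 * Z ^ 2) with hθd
          field_simp
        rw [e2]
        have e3 : ((1 - δ) * s₂) / ((1 - 9 / (8 * Z ^ 2)) * s₁) < 1 := by
          rw [div_lt_one (by positivity)]
          exact h12
        linarith)
    have h4 : tb - τ ≤ Real.pi / (√2 * pw (μ * s₂)) := by
      rw [le_div_iff₀ (by positivity)]
      linarith
    linarith

end Orb

end IsoTB
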