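import Pool.Agent.Lib.MP_3f23fb_mp.N3
import Pool.Agent.Lib.MP_3f23fb_mp.G2

/-!
# MP_3f23fb_mp, module G6: lower bound of the return time

WLOG η ≤ 1. gg is continuous: choose δ₁ ∈ (0,1) with gg(u) ≥ π - η/8 for u ∈ [2-δ₁, 2] and gg(u) ≤ η/8 for u ∈ [0,δ₁]. Write v = ‖V(0)‖ ∈ [a,b],
s = v² + k, s₁ = (v-ε)² + k, s₂ = (v+ε)² + k with ε ≤ a/2, ε ≤ δ₁a²/(16 b), ε ≤ 1. R = b + 2, so ‖Y(0)‖ ≤ R (norm_JJ_le). Let τ, μ₀' be given by
scatter R K ε. On [τ,t₁-τ] s₁ ≤ ‖Y‖² + k ≤ s₂. s₂ - s₁ = 4εv ≤ 4εb and s₂ ≥ a², so s₁/s₂ ≥ 1 - δ₁/4. 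
Apex ta (IsRet.exists_apex) lies in [τ,t₁-τ] (signs of w). w(ta) = 0: D(ta) = 2/(μ(‖Y‖²+k)) ≥ 2/(μ s₂), z_a ≥ D(ta) - r ≥ 2/(μs₂) - 3/2, so
2 > μ s₁ z_a ≥ 2 s₁/s₂ - (3/2) μ s₁ ≥ 2 - δ₁/2 - δ₁/2 if (3/2) μ ((b+1)²+K) ≤ δ₁/2. z(τ) ≤ (5/2) τ, z(t₁-τ) ≤ (5/2)τ (|w| ≤ 5/2), so μ s₁ z ≤ δ₁ at both points
if μ ((b+1)²+K)(5/2)τ ≤ δ₁. branch_lower on [τ,ta] and [ta,t₁-τ] with s = s₁ (z > 0 there):
√(2+μ) pw(μ s₁)(t₁ - 2τ) ≥ 2(π - η/4). pw(μ s) ≥ pw(μ s₁), so t₁ pw(μ s) ≥ 2(π-η/4)/√(2+μ) ≥ √2 π - η for μ small (at μ = 0 it is √2π - η/(2√2)·... > √2π - η).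
-/

set_option autoImplicit false
set_option linter.unusedVariables false

open Complex

namespace IsoTB

/-- choice of `δ₁` -/
private theorem G6_delta {η : ℝ} (hη : 0 < η) : ∃ δ : ℝ, 0 < δ ∧ δ < 1 ∧ Real.pi - η ≤ gg (2 - δ) ∧ gg δ ≤ η := by
  have h1 : ∀ᶠ u in nhds (0 : ℝ), gg u < η := by
    have h := continuous_gg.continuousAt (x := (0 : ℝ))
    exact h.eventually_lt_const (by rw [gg_zero]; exact hη)
  have h2 : ∀ᶠ u in nhds (0 : ℝ), Real.pi - η < gg (2 - u) := by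
    have h : ContinuousAt (fun u : ℝ => gg (2 - u)) 0 :=
      (continuous_gg.comp (continuous_const.sub continuous_id)).continuousAt
    exact h.eventually_const_lt (by
      show Real.pi - η < gg (2 - 0)
      rw [sub_zero, gg_two]
      linarith)
  obtain ⟨r, hr, hb⟩ := Metric.eventually_nhds_iff.1 (h1.and h2)
  refine ⟨min (r / 2) (1 / 2), by positivity, lt_of_le_of_lt (min_le_right _ _) (by norm_num), ?_, ?_⟩
  · refine (hb ?_).2.le
    rw [dist_zero_right, Real.norm_eq_abs, abs_of_pos (by positivity)]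
    exact lt_of_le_of_lt (min_le_left _ _) (by linarith)
  · refine (hb ?_).1.le
    rw [dist_zero_right, Real.norm_eq_abs, abs_of_pos (by positivity)]
    exact lt_of_le_of_lt (min_le_left _ _) (by linarith)

/-- the final numerical inequality -/
private theorem G6_final {μ η P : ℝ} (hμ : 0 < μ) (hη : 0 < η) (hη1 : η ≤ 1) (h4 : μ ≤ η / 4) (hP : 0 ≤ P)
    (h : 2 * (Real.pi - η / 4) ≤ √(2 + μ) * P) : √2 * Real.pi - η ≤ P := by
  have h1 : √(2 + μ) ≤ √2 * (1 + μ / 4) := by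
    rw [show √2 * (1 + μ / 4) = √(2 * (1 + μ / 4) ^ 2) by
      rw [Real.sqrt_mul (by norm_num), Real.sqrt_sq (by positivity)]]
    refine Real.sqrt_le_sqrt ?_
    nlinarith [sq_nonneg μ]
  have h2 : 2 * (Real.pi - η / 4) ≤ √2 * (1 + μ / 4) * P := h.trans (mul_le_mul_of_nonneg_right h1 hP)
  have hs : √2 * √2 = 2 := Real.mul_self_sqrt (by norm_num)
  have hs1 : √2 ≤ 3 / 2 := by
    rw [Real.sqrt_le_left (by norm_num)]
    norm_num
  have hs0 : 1 ≤ √2 := by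
    rw [Real.one_le_sqrt]
    norm_num
  have hpi := Real.pi_lt_d2
  have hpi3 := Real.pi_gt_three
  by_contra hc
  rw [not_le] at hc
  have h3 : √2 * (1 + μ / 4) * P < √2 * (1 + μ / 4) * (√2 * Real.pi - η) :=
    mul_lt_mul_of_pos_left hc (by positivity)
  have h5 : √2 * (1 + μ / 4) * (√2 * Real.pi - η) =
      2 * Real.pi + 2 * Real.pi * (μ / 4) - √2 * η * (1 + μ / 4) := by
    have : √2 * (1 + μ / 4) * (√2 * Real.pi - η) =
        (√2 * √2) * Real.pi * (1 + μ / 4) - √2 * η * (1 + μ / 4) := by ring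
    rw [this, hs]
    ring
  have h6 : 2 * Real.pi * (μ / 4) ≤ η / 2 := by nlinarith
  have h7 : η ≤ √2 * η * (1 + μ / 4) := by
    have : 0 ≤ μ * η := by positivity
    nlinarith [mul_nonneg (sub_nonneg.2 hs0) hη.le, mul_nonneg (mul_nonneg (sub_nonneg.2 hs0) hη.le) hμ.le]
  linarith

theorem time_lower (a b K η : ℝ) (ha : 0 < a) (hab : a ≤ b) (hK : 0 ≤ K) (hη : 0 < η) : ∃ μ₀ : ℝ, 0 < μ₀ ∧ μ₀ ≤ 1 / 64 ∧
    ∀ {μ k : ℝ}, 0 < μ → μ ≤ μ₀ → 0 < k → k ≤ K → ∀ (x : Orb μ k) (t₁ : ℝ), x.IsRet t₁ → a ≤ ‖x.V 0‖ → ‖x.V 0‖ ≤ b →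
      √2 * Real.pi - η ≤ t₁ * pw (μ * (‖x.V 0‖ ^ 2 + k)) := by
  obtain ⟨η', hη', hη'1, hη'2⟩ : ∃ η' : ℝ, 0 < η' ∧ η' ≤ 1 ∧ η' ≤ η :=
    ⟨min η 1, lt_min hη one_pos, min_le_right _ _, min_le_left _ _⟩
  obtain ⟨δ, hδ, hδ1, hg2, hg0⟩ := G6_delta (η := η' / 8) (by positivity)
  have hb : 0 < b := by linarith
  obtain ⟨ε, hε, hε1, hε2, hε3⟩ : ∃ ε : ℝ, 0 < ε ∧ ε ≤ a / 2 ∧ ε ≤ δ * a ^ 2 / (16 * b) ∧ ε ≤ 1 :=
    ⟨min (a / 2) (min (δ * a ^ 2 / (16 * b)) 1), by positivity, min_le_left _ _,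
      (min_le_right _ _).trans (min_le_left _ _), (min_le_right _ _).trans (min_le_right _ _)⟩
  obtain ⟨τ, μs, hτ, hμs, hμs64, H⟩ := scatter (b + 2) K ε (by linarith) hK hε
  set C : ℝ := (b + 1) ^ 2 + K with hC
  have hC0 : 0 < C := by positivity
  refine ⟨min μs (min (δ / (3 * C)) (min (2 * δ / (5 * τ * C)) (η' / 4))), by positivity,
    (min_le_left _ _).trans hμs64, ?_⟩
  intro μ k hμ hμ0 hk hkK x t₁ hret hva hvb
  have m1 : μ ≤ μs := hμ0.trans (min_le_left _ _)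
  have m2 : μ ≤ δ / (3 * C) := hμ0.trans ((min_le_right _ _).trans (min_le_left _ _))
  have m3 : μ ≤ 2 * δ / (5 * τ * C) :=
    hμ0.trans ((min_le_right _ _).trans ((min_le_right _ _).trans (min_le_left _ _)))
  have m4 : μ ≤ η' / 4 :=
    hμ0.trans ((min_le_right _ _).trans ((min_le_right _ _).trans (min_le_right _ _)))
  have hμ64 : μ ≤ 1 / 64 := m1.trans hμs64
  set v : ℝ := ‖x.V 0‖ with hv
  have hY0 : ‖x.Y 0‖ ≤ b + 2 := by
    have e : x.Y 0 = x.V 0 + I * JJ := by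
      rw [Orb.V]
      ring
    rw [e]
    refine (norm_add_le _ _).trans ?_
    rw [norm_mul, Complex.norm_I, one_mul]
    linarith [norm_JJ_le]
  obtain ⟨_, h2τ, hwp, hwm, hmid⟩ := H hμ m1 hk hkK x t₁ hret hY0
  have hv0 : 0 < v := by linarith
  set s₁ : ℝ := (v - ε) ^ 2 + k with hs₁
  set s₂ : ℝ := (v + ε) ^ 2 + k with hs₂
  have hs1 : 0 < s₁ := by positivity
  have hs2 : 0 < s₂ := by positivity
  have hs12 : s₁ ≤ v ^ 2 + k := by
    rw [hs₁]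
    have := pow_le_pow_left₀ (show 0 ≤ v - ε by linarith) (show v - ε ≤ v by linarith) 2
    linarith
  have hs1C : s₁ ≤ C := by
    refine hs12.trans ?_
    rw [hC]
    have := pow_le_pow_left₀ hv0.le (show v ≤ b + 1 by linarith) 2
    linarith
  have hYmid : ∀ t ∈ Set.Icc τ (t₁ - τ), s₁ ≤ ‖x.Y t‖ ^ 2 + k ∧ ‖x.Y t‖ ^ 2 + k ≤ s₂ := by
    intro t ht
    have h1 := abs_le.1 (hmid t ht).2
    have h0 := norm_nonneg (x.Y t)
    constructor
    · rw [hs₁]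
      have := pow_le_pow_left₀ (show 0 ≤ v - ε by linarith) (show v - ε ≤ ‖x.Y t‖ by linarith) 2
      linarith
    · rw [hs₂]
      have := pow_le_pow_left₀ h0 (show ‖x.Y t‖ ≤ v + ε by linarith) 2
      linarith
  have hzmid : ∀ t ∈ Set.Icc τ (t₁ - τ), 0 < x.z t := by
    intro t ht
    exact lt_of_lt_of_le (by positivity) (hmid t ht).1
  obtain ⟨ta, hta0, hta1, hwa, hwa1, hwa2⟩ := hret.exists_apex hμ
  have hta2 : τ < ta := by
    by_contra hc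
    rw [not_lt] at hc
    have := hwp ta ⟨hta0.le, hc⟩
    linarith
  have hta3 : ta < t₁ - τ := by
    by_contra hc
    rw [not_lt] at hc
    have := hwm ta ⟨hc, hta1.le⟩
    linarith
  have hτm : τ ∈ Set.Icc τ (t₁ - τ) := ⟨le_rfl, by linarith⟩
  have hτm' : t₁ - τ ∈ Set.Icc τ (t₁ - τ) := ⟨by linarith, le_rfl⟩
  have htam : ta ∈ Set.Icc τ (t₁ - τ) := ⟨hta2.le, hta3.le⟩
  -- the apex
  have hD0 := x.D_pos ta
  have hDa : 2 / (μ * s₂) ≤ x.D ta := by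
    have h1 := x.w_sq hμ ta
    rw [hwa] at h1
    have h2 : 2 / x.D ta = μ * (‖x.Y ta‖ ^ 2 + k) := by
      have h3 : (2 + μ) * (2 / x.D ta - μ * (‖x.Y ta‖ ^ 2 + k)) = 0 := by
        rw [← h1]
        norm_num
      have h4 : 2 / x.D ta - μ * (‖x.Y ta‖ ^ 2 + k) = 0 := by
        rcases mul_eq_zero.1 h3 with h | h
        · linarith
        · exact h
      linarith
    have h5 : 2 / x.D ta ≤ μ * s₂ := by
      rw [h2]
      exact mul_le_mul_of_nonneg_left (hYmid ta htam).2 hμ.le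
    rw [div_le_iff₀ hD0] at h5
    rw [div_le_iff₀ (by positivity)]
    linarith
  have hza : 2 / (μ * s₂) - 3 / 2 ≤ x.z ta := by
    have h1 : x.D ta ≤ x.r ta + |x.z ta| := dd_le_add _ (x.r_pos ta)
    rw [abs_of_pos (hzmid ta htam)] at h1
    have h2 := (x.r_bounds hμ hμ64 hk ta).2
    linarith
  have hs12' : s₂ * (1 - δ / 4) ≤ s₁ := by
    have e : s₂ - s₁ = 4 * ε * v := by
      rw [hs₁, hs₂]
      ring
    have h1 : ε * (16 * b) ≤ δ * a ^ 2 := by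
      rw [le_div_iff₀ (by positivity)] at hε2
      exact hε2
    have h2 : a ^ 2 ≤ s₂ := by
      rw [hs₂]
      have := pow_le_pow_left₀ ha.le (show a ≤ v + ε by linarith) 2
      linarith
    have h3 : 4 * ε * v ≤ δ / 4 * s₂ := by
      have h4 : 4 * ε * v ≤ 4 * ε * b := mul_le_mul_of_nonneg_left hvb (by positivity)
      have h5 : δ / 4 * a ^ 2 ≤ δ / 4 * s₂ := mul_le_mul_of_nonneg_left h2 (by positivity)
      linarith
    linarith
  have hua : 2 - δ ≤ μ * s₁ * x.z ta := by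
    have h1 : μ * s₁ * (2 / (μ * s₂) - 3 / 2) ≤ μ * s₁ * x.z ta :=
      mul_le_mul_of_nonneg_left hza (by positivity)
    have h2 : μ * s₁ * (2 / (μ * s₂) - 3 / 2) = 2 * (s₁ / s₂) - 3 / 2 * (μ * s₁) := by
      field_simp
    have h3 : 1 - δ / 4 ≤ s₁ / s₂ := by
      rw [le_div_iff₀ hs2]
      linarith
    have h4 : μ * s₁ ≤ δ / 3 := by
      have h5 : μ * s₁ ≤ μ * C := mul_le_mul_of_nonneg_left hs1C hμ.le
      have h6 : μ * (3 * C) ≤ δ := by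
        rw [le_div_iff₀ (by positivity)] at m2
        exact m2
      linarith
    linarith
  have hua2 : μ * s₁ * x.z ta ≤ 2 := by
    have h1 := x.energy_le hμ ta
    have h2 : μ * s₁ ≤ 2 / x.D ta := (mul_le_mul_of_nonneg_left (hYmid ta htam).1 hμ.le).trans h1
    have h3 : x.z ta ≤ x.D ta := (le_abs_self _).trans (abs_le_dd_right _ _)
    have h4 : μ * s₁ * x.z ta ≤ 2 / x.D ta * x.D ta :=
      mul_le_mul h2 h3 (hzmid ta htam).le (by positivity)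
    rwa [div_mul_cancel₀ _ hD0.ne'] at h4
  have hga : Real.pi - η' / 8 ≤ gg (μ * s₁ * x.z ta) := hg2.trans (gg_mono (by linarith) hua hua2)
  -- the ends
  have hend : ∀ z : ℝ, 0 < z → z ≤ 5 / 2 * τ → gg (μ * s₁ * z) ≤ η' / 8 := by
    intro z hz0 hz
    refine (gg_mono (by positivity) ?_ (by linarith)).trans hg0
    have h1 : μ * s₁ * z ≤ μ * C * (5 / 2 * τ) :=
      mul_le_mul (mul_le_mul_of_nonneg_left hs1C hμ.le) hz hz0.le (by positivity)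
    have h2 : μ * (5 * τ * C) ≤ 2 * δ := by
      rw [le_div_iff₀ (by positivity)] at m3
      exact m3
    linarith
  have hz1 : x.z τ ≤ 5 / 2 * τ := by
    have h1 := O6_up x.dz hτ.le (c := 5 / 2) fun s hs => (le_abs_self _).trans (x.abs_w_le hμ hμ64 hk s)
    rw [hret.z0] at h1
    linarith
  have hz2 : x.z (t₁ - τ) ≤ 5 / 2 * τ := by
    have h1 := O6_low x.dz (a := t₁ - τ) (b := t₁) (by linarith) (c := -(5 / 2)) fun s hs =>
      neg_le_of_abs_le (x.abs_w_le hμ hμ64 hk s)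
    rw [hret.z1] at h1
    linarith
  have hg1 := hend _ (hzmid τ hτm) hz1
  have hg3 := hend _ (hzmid _ hτm') hz2
  have hb1 := x.branch_lower hμ hta2.le hs1 (fun t ht => hzmid t ⟨ht.1, by linarith [ht.2]⟩)
    (fun t ht => (hYmid t ⟨ht.1, by linarith [ht.2]⟩).1)
  have hb2 := x.branch_lower hμ hta3.le hs1 (fun t ht => hzmid t ⟨by linarith [ht.1], ht.2⟩)
    (fun t ht => (hYmid t ⟨by linarith [ht.1], ht.2⟩).1)
  have hb1' := (abs_le.1 hb1).2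
  have hb2' := (abs_le.1 hb2).1
  have hpw : pw (μ * s₁) ≤ pw (μ * (v ^ 2 + k)) :=
    pw_mono (by positivity) (mul_le_mul_of_nonneg_left hs12 hμ.le)
  have hpw0 : 0 < pw (μ * (v ^ 2 + k)) := pw_pos (by positivity)
  have ht1 : 0 < t₁ := hret.pos
  have hsum : 2 * (Real.pi - η' / 4) ≤ √(2 + μ) * (t₁ * pw (μ * (v ^ 2 + k))) := by
    have h1 : 2 * (Real.pi - η' / 4) ≤ √(2 + μ) * (pw (μ * s₁) * (t₁ - 2 * τ)) := by
      have e : √(2 + μ) * (pw (μ * s₁) * (t₁ - 2 * τ)) =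
          √(2 + μ) * pw (μ * s₁) * (ta - τ) + √(2 + μ) * pw (μ * s₁) * (t₁ - τ - ta) := by ring
      rw [e]
      linarith
    have h2 : pw (μ * s₁) * (t₁ - 2 * τ) ≤ pw (μ * (v ^ 2 + k)) * t₁ :=
      mul_le_mul hpw (by linarith) (by linarith) hpw0.le
    refine h1.trans (mul_le_mul_of_nonneg_left ?_ (Real.sqrt_nonneg _))
    linarith
  have hfin := G6_final hμ hη' hη'1 m4 (by positivity) hsum
  linarith

end IsoTB
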