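import Pool.Agent.Lib.MP_3f23fb_mp.N3
import Pool.Agent.Lib.MP_3f23fb_mp.G5

/-!
# MP_3f23fb_mp, module G7: upper bound of the return time

Choose δ ∈ (0,1/2] with 16√(2δ) ≤ η/2. v = ‖V(0)‖ ∈ [a,b], s = v² + k, s₁ = (v-ε)² + k, s₂ = (v+ε)² + k; ε ≤ min(a/4, 1/2), so small that
(1-δ)(1 + 16εb/a²) < 1 - 9ε²/8 (possible: at ε = 0 it reads 1-δ < 1). s₂ - s₁ = 4εv ≤ 4εb, s₁ ≥ a²/4: s₂/s₁ ≤ 1 + 16εb/a², and s ≤ 2 s₁ (s - s₁ ≤ 2εv ≤ v²/2, s₁ ≥ v²/2 + k).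
R = b + 2, τ, μ₀' from scatter R K ε, Z = 1/ε ≥ 2. Apex ta ∈ [τ,t₁-τ]. half_upper for x on [τ,ta] and for x.rev t₁ on [τ, t₁-ta] (IsRet.rev, Y_rev: norms are the same
at t₁-t) with these s₁, s₂, δ, Z: t₁ ≤ 2τ + 2(π/(√2 pw(μ s₂)) + √(2δ) pw(2/(μ s₁))).
Multiply by pw(μ s): pw(μ s) ≤ pw(μ s₂); pw(μ s) pw(2/(μ s₁)) = pw(2s/s₁) ≤ pw 4 = 8 (pw_mul). So t₁ pw(μ s) ≤ 2τ pw(μ s) + √2π + 16√(2δ) ≤ √2π + η when
2τ pw(μ(b²+K)) ≤ η/2, which holds for small μ (continuity of pw at 0).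
-/

set_option autoImplicit false
set_option linter.unusedVariables false

open Complex

namespace IsoTB

theorem G7_pw_le {y : ℝ} (h0 : 0 ≤ y) (h1 : y ≤ 1) : pw y ≤ y := by
  unfold pw
  have h2 : √y ≤ 1 := by
    rw [Real.sqrt_le_one]
    exact h1
  calc y * √y ≤ y * 1 := mul_le_mul_of_nonneg_left h2 h0
    _ = y := mul_one y

theorem G7_pw_four : pw 4 = 8 := by
  unfold pw
  have : √(4 : ℝ) = 2 := by
    rw [show (4 : ℝ) = 2 ^ 2 by norm_num]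
    exact Real.sqrt_sq (by norm_num)
  rw [this]
  norm_num

/-- The arithmetic of the last step. -/
theorem G7_arith {μ s s₁ s₂ τ t₁ δ η ta : ℝ} (hμ : 0 < μ) (hs : 0 < s) (hs₁ : 0 < s₁)
    (h12 : s ≤ s₂) (h21 : s ≤ 2 * s₁) (hδ : 16 * √(2 * δ) ≤ η / 2)
    (hτ : 2 * τ * pw (μ * s) ≤ η / 2)
    (h1 : ta - τ ≤ Real.pi / (√2 * pw (μ * s₂)) + √(2 * δ) * pw (2 / (μ * s₁)))
    (h2 : t₁ - ta - τ ≤ Real.pi / (√2 * pw (μ * s₂)) + √(2 * δ) * pw (2 / (μ * s₁))) :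
    t₁ * pw (μ * s) ≤ √2 * Real.pi + η := by
  have hP : 0 < pw (μ * s) := pw_pos (mul_pos hμ hs)
  have hs₂ : 0 < s₂ := hs.trans_le h12
  have hP2 : 0 < pw (μ * s₂) := pw_pos (mul_pos hμ hs₂)
  have hPP : pw (μ * s) ≤ pw (μ * s₂) :=
    pw_mono (mul_pos hμ hs).le (mul_le_mul_of_nonneg_left h12 hμ.le)
  have h3 : t₁ ≤ 2 * τ + 2 * (Real.pi / (√2 * pw (μ * s₂)) + √(2 * δ) * pw (2 / (μ * s₁))) := by
    linarith
  have h4 := mul_le_mul_of_nonneg_right h3 hP.le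
  have hsq2 : √(2 : ℝ) ^ 2 = 2 := Real.sq_sqrt (by norm_num)
  have hsq0 : 0 < √(2 : ℝ) := Real.sqrt_pos.2 (by norm_num)
  have h5 : 2 * (Real.pi / (√2 * pw (μ * s₂))) * pw (μ * s) ≤ √2 * Real.pi := by
    have e1 : 2 * (Real.pi / (√2 * pw (μ * s₂))) * pw (μ * s)
        = √2 * Real.pi * (pw (μ * s) / pw (μ * s₂)) := by
      obtain ⟨g, hg⟩ : ∃ g, g = √(2 : ℝ) := ⟨_, rfl⟩
      rw [← hg] at hsq2 hsq0 ⊢
      rw [← hsq2]
      field_simp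
    rw [e1]
    have e3 : pw (μ * s) / pw (μ * s₂) ≤ 1 := by
      rw [div_le_one hP2]
      exact hPP
    have e4 : 0 ≤ √2 * Real.pi := by positivity
    calc √2 * Real.pi * (pw (μ * s) / pw (μ * s₂)) ≤ √2 * Real.pi * 1 :=
          mul_le_mul_of_nonneg_left e3 e4
      _ = √2 * Real.pi := mul_one _
  have h6 : pw (2 / (μ * s₁)) * pw (μ * s) ≤ 8 := by
    rw [← pw_mul (by positivity) (by positivity), ← G7_pw_four]
    refine pw_mono (by positivity) ?_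
    have e1 : 2 / (μ * s₁) * (μ * s) = 2 * s / s₁ := by
      field_simp
    rw [e1, div_le_iff₀ hs₁]
    linarith
  have h7 : 2 * (√(2 * δ) * pw (2 / (μ * s₁))) * pw (μ * s) ≤ 16 * √(2 * δ) := by
    have e1 : 0 ≤ 2 * √(2 * δ) := by positivity
    have e2 := mul_le_mul_of_nonneg_left h6 e1
    have e3 : 2 * (√(2 * δ) * pw (2 / (μ * s₁))) * pw (μ * s)
        = 2 * √(2 * δ) * (pw (2 / (μ * s₁)) * pw (μ * s)) := by ring
    rw [e3]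
    linarith
  have h8 : (2 * τ + 2 * (Real.pi / (√2 * pw (μ * s₂)) + √(2 * δ) * pw (2 / (μ * s₁)))) * pw (μ * s)
      = 2 * τ * pw (μ * s) + 2 * (Real.pi / (√2 * pw (μ * s₂))) * pw (μ * s)
        + 2 * (√(2 * δ) * pw (2 / (μ * s₁))) * pw (μ * s) := by ring
  rw [h8] at h4
  linarith

theorem time_upper (a b K η : ℝ) (ha : 0 < a) (hab : a ≤ b) (hK : 0 ≤ K) (hη : 0 < η) : ∃ μ₀ : ℝ, 0 < μ₀ ∧ μ₀ ≤ 1 / 64 ∧
    ∀ {μ k : ℝ}, 0 < μ → μ ≤ μ₀ → 0 < k → k ≤ K → ∀ (x : Orb μ k) (t₁ : ℝ), x.IsRet t₁ → a ≤ ‖x.V 0‖ → ‖x.V 0‖ ≤ b →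
      t₁ * pw (μ * (‖x.V 0‖ ^ 2 + k)) ≤ √2 * Real.pi + η := by
  have hb : 0 < b := ha.trans_le hab
  -- δ
  obtain ⟨δ, hδ0, hδ2, hδη⟩ : ∃ δ : ℝ, 0 < δ ∧ δ ≤ 1 / 2 ∧ 16 * √(2 * δ) ≤ η / 2 := by
    refine ⟨min (1 / 2) ((η / 32) ^ 2 / 2), by positivity, min_le_left _ _, ?_⟩
    have h1 : √(2 * min (1 / 2) ((η / 32) ^ 2 / 2)) ≤ η / 32 := by
      refine Real.sqrt_le_iff.2 ⟨by positivity, ?_⟩
      have := min_le_right (1 / 2 : ℝ) ((η / 32) ^ 2 / 2)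
      linarith
    linarith
  -- ε
  obtain ⟨c, hc⟩ : ∃ c, c = 16 * b / a ^ 2 := ⟨_, rfl⟩
  have hc0 : 0 < c := by rw [hc]; positivity
  obtain ⟨ε, hε0, hεa, hε2, hεc⟩ : ∃ ε : ℝ, 0 < ε ∧ ε ≤ a / 4 ∧ ε ≤ 1 / 2 ∧
      (c + 1) * ε < δ := by
    refine ⟨min (min (a / 4) (1 / 2)) (δ / (2 * (c + 1))), by positivity,
      (min_le_left _ _).trans (min_le_left _ _), (min_le_left _ _).trans (min_le_right _ _), ?_⟩
    have h1 : min (min (a / 4) (1 / 2)) (δ / (2 * (c + 1))) ≤ δ / (2 * (c + 1)) := min_le_right _ _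
    have h2 : (c + 1) * (δ / (2 * (c + 1))) = δ / 2 := by
      field_simp
    have h3 := mul_le_mul_of_nonneg_left h1 (show 0 ≤ c + 1 by positivity)
    linarith
  obtain ⟨τ, μ₀', hτ, hμ₀', hμ₀64, hsc⟩ := scatter (b + 2) K ε (by positivity) hK hε0
  have hB : 0 < b ^ 2 + K + 1 := by positivity
  refine ⟨min μ₀' (min (1 / (b ^ 2 + K + 1)) (η / (4 * τ * (b ^ 2 + K + 1)))), by positivity,
    (min_le_left _ _).trans hμ₀64, ?_⟩
  intro μ k hμ hμ₀ hk hkK x t₁ hret hav hvb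
  have hμ1 : μ ≤ μ₀' := hμ₀.trans (min_le_left _ _)
  have hμ64 : μ ≤ 1 / 64 := hμ1.trans hμ₀64
  have hμ2 : μ * (b ^ 2 + K + 1) ≤ 1 := by
    have := hμ₀.trans ((min_le_right _ _).trans (min_le_left _ _))
    rwa [le_div_iff₀ hB] at this
  have hμ3 : μ * (4 * τ * (b ^ 2 + K + 1)) ≤ η := by
    have := hμ₀.trans ((min_le_right _ _).trans (min_le_right _ _))
    rwa [le_div_iff₀ (by positivity)] at this
  obtain ⟨v, hv⟩ : ∃ v, v = ‖x.V 0‖ := ⟨_, rfl⟩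
  rw [← hv] at hav hvb ⊢
  have hv0 : 0 < v := ha.trans_le hav
  have hY0 : ‖x.Y 0‖ ≤ b + 2 := by
    have h1 : x.Y 0 = x.V 0 + I * JJ := by
      unfold Orb.V
      ring
    rw [h1]
    refine (norm_add_le _ _).trans ?_
    rw [norm_mul, Complex.norm_I, one_mul, ← hv]
    exact add_le_add hvb norm_JJ_le
  obtain ⟨-, h2τ, hw1, hw2, hfar⟩ := hsc hμ hμ1 hk hkK x t₁ hret hY0
  rw [← hv] at hfar
  obtain ⟨ta, hta0, hta1, hwa, hwpos, hwneg⟩ := hret.exists_apex hμ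
  have hτta : τ ≤ ta := by
    by_contra hcon
    rw [not_le] at hcon
    have := hw1 ta ⟨hta0.le, hcon.le⟩
    linarith
  have htaτ : ta ≤ t₁ - τ := by
    by_contra hcon
    rw [not_le] at hcon
    have := hw2 ta ⟨hcon.le, hta1.le⟩
    linarith
  have hvε : 0 < v - ε := by linarith
  have hYb : ∀ t ∈ Set.Icc τ (t₁ - τ), (v - ε) ^ 2 + k ≤ ‖x.Y t‖ ^ 2 + k ∧
      ‖x.Y t‖ ^ 2 + k ≤ (v + ε) ^ 2 + k := by
    intro t ht
    have h1 := abs_le.1 (hfar t ht).2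
    have h2 : v - ε ≤ ‖x.Y t‖ := by linarith [h1.1]
    have h3 : ‖x.Y t‖ ≤ v + ε := by linarith [h1.2]
    have h4 := pow_le_pow_left₀ hvε.le h2 2
    have h5 := pow_le_pow_left₀ (norm_nonneg _) h3 2
    exact ⟨by linarith, by linarith⟩
  have hZ2 : 2 ≤ 1 / ε := by
    rw [le_div_iff₀ hε0]
    linarith
  have hs₁0 : 0 < (v - ε) ^ 2 + k := by positivity
  have h12 : (1 - δ) * ((v + ε) ^ 2 + k) < (1 - 9 / (8 * (1 / ε) ^ 2)) * ((v - ε) ^ 2 + k) := by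
    have e1 : 9 / (8 * (1 / ε) ^ 2) = 9 * ε ^ 2 / 8 := by
      field_simp
    rw [e1]
    have e2 : a ^ 2 / 4 ≤ (v - ε) ^ 2 + k := by
      have : (a / 2) ^ 2 ≤ (v - ε) ^ 2 := pow_le_pow_left₀ (by positivity) (by linarith) 2
      nlinarith
    have e3 : (v + ε) ^ 2 + k ≤ (1 + c * ε) * ((v - ε) ^ 2 + k) := by
      have e4 : 4 * ε * b ≤ c * ε * ((v - ε) ^ 2 + k) := by
        have e5 : c * ε * (a ^ 2 / 4) = 4 * ε * b := by
          rw [hc]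
          field_simp
          ring
        rw [← e5]
        exact mul_le_mul_of_nonneg_left e2 (by positivity)
      have e6 : 4 * ε * v ≤ 4 * ε * b := mul_le_mul_of_nonneg_left hvb (by positivity)
      nlinarith
    have e7 : (1 - δ) * ((v + ε) ^ 2 + k) ≤ (1 - δ) * ((1 + c * ε) * ((v - ε) ^ 2 + k)) :=
      mul_le_mul_of_nonneg_left e3 (by linarith)
    have e8 : (1 - δ) * (1 + c * ε) < 1 - 9 * ε ^ 2 / 8 := by
      have e9 : 0 ≤ δ * (c * ε) := by positivity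
      have e10 : 9 * ε ^ 2 / 8 ≤ ε := by nlinarith
      nlinarith
    have e11 := mul_lt_mul_of_pos_right e8 hs₁0
    linarith
  have hH1 := x.half_upper hμ hμ64 hk hτta hs₁0 hδ0 hδ2 hZ2
    (fun t ht => (hfar t ⟨ht.1, ht.2.trans htaτ⟩).1)
    (fun t ht => by
      rcases ht.2.lt_or_eq with h | h
      · exact (hwpos t (by linarith [ht.1]) h).le
      · rw [h, hwa]) hwa
    (fun t ht => (hYb t ⟨ht.1, ht.2.trans htaτ⟩).1)
    (fun t ht => (hYb t ⟨ht.1, ht.2.trans htaτ⟩).2) h12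
  have hin : ∀ t ∈ Set.Icc τ (t₁ - ta), t₁ - t ∈ Set.Icc τ (t₁ - τ) := fun t ht =>
    ⟨by linarith [ht.2], by linarith [ht.1]⟩
  have hYn : ∀ t, ‖(x.rev t₁).Y t‖ = ‖x.Y (t₁ - t)‖ := fun t => by
    rw [x.Y_rev]
    exact Complex.norm_conj _
  have hH2 := (x.rev t₁).half_upper hμ hμ64 hk (τ := τ) (ta := t₁ - ta) (by linarith) hs₁0 hδ0 hδ2
    hZ2 (fun t ht => (hfar _ (hin t ht)).1)
    (fun t ht => by
      change 0 ≤ -x.w (t₁ - t)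
      have h1 : ta ≤ t₁ - t := by linarith [ht.2]
      rcases h1.lt_or_eq with h | h
      · have := hwneg (t₁ - t) h (by linarith [ht.1])
        linarith
      · rw [← h, hwa, neg_zero])
    (by
      change -x.w (t₁ - (t₁ - ta)) = 0
      rw [sub_sub_cancel, hwa, neg_zero])
    (fun t ht => by
      rw [hYn]
      exact (hYb _ (hin t ht)).1)
    (fun t ht => by
      rw [hYn]
      exact (hYb _ (hin t ht)).2) h12
  refine G7_arith hμ (by positivity : 0 < v ^ 2 + k) hs₁0 ?_ ?_ hδη ?_ hH1 hH2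
  · nlinarith
  · nlinarith
  · have h1 : μ * (v ^ 2 + k) ≤ μ * (b ^ 2 + K) := by
      refine mul_le_mul_of_nonneg_left ?_ hμ.le
      have := pow_le_pow_left₀ hv0.le hvb 2
      linarith
    have h2 : μ * (b ^ 2 + K) ≤ μ * (b ^ 2 + K + 1) := mul_le_mul_of_nonneg_left (by linarith) hμ.le
    have h3 : pw (μ * (v ^ 2 + k)) ≤ μ * (v ^ 2 + k) :=
      G7_pw_le (by positivity) (by linarith)
    have h4 : pw (μ * (v ^ 2 + k)) ≤ μ * (b ^ 2 + K + 1) := by linarith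
    have h5 := mul_le_mul_of_nonneg_left h4 (show 0 ≤ 2 * τ by positivity)
    have h6 : 2 * τ * (μ * (b ^ 2 + K + 1)) = μ * (4 * τ * (b ^ 2 + K + 1)) / 2 := by ring
    rw [h6] at h5
    linarith

end IsoTB
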