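import Pool.Agent.Lib.MP_3f23fb_mp.G6
import Pool.Agent.Lib.MP_3f23fb_mp.G7

/-!
# MP_3f23fb_mp, module G8: the phase and the phase gap

`phase`: with time_lower, time_upper (η/2... any small η') : T := t₁ pw(μ s) ∈ [√2π - η', √2π + η']. ph t₁ = ∫_0^{t₁} Ω and |Ω - 1/2| ≤ (5/2) μ ‖Y‖ ≤ (5/2) μ (R+9) on [0,t₁]
(cross with R = b + 2), so |ph t₁ - t₁/2| ≤ (5/2) μ (R+9) t₁ and |ph t₁ pw(μ s) - π/√2| ≤ η'/2 + (5/2) μ (R+9)(√2π + η') ≤ η for small μ.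
`phase_gap`: q₀ = pw((b²+K)/(a²+K)) > 1. For k ≤ K, (b²+k)/(a²+k) ≥ (b²+K)/(a²+K), so pw(μ(b²+k)) ≥ q₀ pw(μ(a²+k)). Choose η with (π/√2 - η) q₀ ≥ π/√2 + η + c, c > 0
(e.g. η = c = (π/√2)(q₀-1)/(q₀+2)). ΦA = (π/√2 - η)/pw(μ(a²+k)), ΦB = (π/√2 + η)/pw(μ(b²+k)):
ΦA - ΦB ≥ ((π/√2 - η) q₀ - (π/√2+η))/pw(μ(b²+k)) ≥ c/pw(μ(b²+K)) ≥ 8π for small μ (pw(μ(b²+K)) → 0).
-/

set_option autoImplicit false
set_option linter.unusedVariables false

open Complex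

namespace IsoTB

theorem phase (a b K η : ℝ) (ha : 0 < a) (hab : a ≤ b) (hK : 0 ≤ K) (hη : 0 < η) : ∃ μ₀ : ℝ, 0 < μ₀ ∧ μ₀ ≤ 1 / 64 ∧
    ∀ {μ k : ℝ}, 0 < μ → μ ≤ μ₀ → 0 < k → k ≤ K → ∀ (x : Orb μ k) (t₁ : ℝ), x.IsRet t₁ → a ≤ ‖x.V 0‖ → ‖x.V 0‖ ≤ b →
      |x.ph t₁ * pw (μ * (‖x.V 0‖ ^ 2 + k)) - Real.pi / √2| ≤ η := by
  have hb : 0 < b := by linarith
  obtain ⟨μ1, hμ1, hμ164, H1⟩ := time_lower a b K η ha hab hK hη
  obtain ⟨μ2, hμ2, hμ264, H2⟩ := time_upper a b K η ha hab hK hη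
  obtain ⟨μ3, hμ3, hμ364, H3⟩ := cross (b + 2) K (by linarith) hK
  refine ⟨min μ1 (min μ2 (min μ3 (η / (5 * (b + 11) * (5 + η))))), by positivity,
    (min_le_left _ _).trans hμ164, ?_⟩
  intro μ k hμ hμ0 hk hkK x t₁ hret hva hvb
  have m1 : μ ≤ μ1 := hμ0.trans (min_le_left _ _)
  have m2 : μ ≤ μ2 := hμ0.trans ((min_le_right _ _).trans (min_le_left _ _))
  have m3 : μ ≤ μ3 := hμ0.trans ((min_le_right _ _).trans ((min_le_right _ _).trans (min_le_left _ _)))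
  have m4 : μ ≤ η / (5 * (b + 11) * (5 + η)) :=
    hμ0.trans ((min_le_right _ _).trans ((min_le_right _ _).trans (min_le_right _ _)))
  have hμ64 : μ ≤ 1 / 64 := m1.trans hμ164
  have h1 := H1 hμ m1 hk hkK x t₁ hret hva hvb
  have h2 := H2 hμ m2 hk hkK x t₁ hret hva hvb
  have hY0 : ‖x.Y 0‖ ≤ b + 2 := by
    have e : x.Y 0 = x.V 0 + I * JJ := by
      rw [Orb.V]
      ring
    rw [e]
    refine (norm_add_le _ _).trans ?_
    rw [norm_mul, Complex.norm_I, one_mul]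
    linarith [norm_JJ_le]
  have h3 := (H3 hμ m3 hk hkK x t₁ hret hY0).1
  have ht1 : 0 < t₁ := hret.pos
  have hpw0 : 0 < pw (μ * (‖x.V 0‖ ^ 2 + k)) := pw_pos (by positivity)
  set w : ℝ := pw (μ * (‖x.V 0‖ ^ 2 + k)) with hw
  -- the phase and the time
  have hph : |x.ph t₁ - t₁ / 2| ≤ 5 / 2 * μ * (b + 11) * t₁ := by
    have e : x.ph t₁ - t₁ / 2 = ∫ s in (0 : ℝ)..t₁, (x.Om s - 1 / 2) := by
      rw [intervalIntegral.integral_sub (x.continuous_Om.intervalIntegrable _ _)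
        (continuous_const.intervalIntegrable _ _), intervalIntegral.integral_const]
      rw [Orb.ph]
      simp only [smul_eq_mul]
      ring
    rw [e]
    have h4 := intervalIntegral.norm_integral_le_of_norm_le_const (a := (0 : ℝ)) (b := t₁)
      (f := fun s => x.Om s - 1 / 2) (C := 5 / 2 * μ * (b + 11)) (by
        intro s hs
        rw [Set.uIoc_of_le ht1.le] at hs
        rw [Real.norm_eq_abs]
        refine (x.abs_Om_sub_half_le hμ hμ64 hk s).trans ?_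
        refine mul_le_mul_of_nonneg_left ?_ (by positivity)
        have := h3 s ⟨hs.1.le, hs.2⟩
        linarith)
    rw [Real.norm_eq_abs, sub_zero, abs_of_pos ht1] at h4
    exact h4
  have hs : √2 * √2 = 2 := Real.mul_self_sqrt (by norm_num)
  have hs0 : 0 < √2 := Real.sqrt_pos.2 (by norm_num)
  have e2 : Real.pi / √2 = √2 * Real.pi / 2 := by
    rw [div_eq_div_iff hs0.ne' (by norm_num)]
    linear_combination -Real.pi * hs
  have hs1 : √2 ≤ 3 / 2 := by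
    rw [Real.sqrt_le_left (by norm_num)]
    norm_num
  have hpi := Real.pi_lt_d2
  have hsp : √2 * Real.pi ≤ 5 := by
    have := mul_le_mul hs1 hpi.le Real.pi_pos.le (by norm_num)
    linarith
  rw [e2]
  have e3 : x.ph t₁ * w - √2 * Real.pi / 2 = (x.ph t₁ - t₁ / 2) * w + (t₁ * w - √2 * Real.pi) / 2 := by ring
  rw [e3]
  refine (abs_add_le _ _).trans ?_
  have h5 : |(x.ph t₁ - t₁ / 2) * w| ≤ η / 2 := by
    rw [abs_mul, abs_of_pos hpw0]
    have h6 : |x.ph t₁ - t₁ / 2| * w ≤ 5 / 2 * μ * (b + 11) * t₁ * w := mul_le_mul_of_nonneg_right hph hpw0.le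
    have h7 : 5 / 2 * μ * (b + 11) * t₁ * w = 5 / 2 * μ * (b + 11) * (t₁ * w) := by ring
    have h8 : 5 / 2 * μ * (b + 11) * (t₁ * w) ≤ 5 / 2 * μ * (b + 11) * (5 + η) :=
      mul_le_mul_of_nonneg_left (by linarith) (by positivity)
    have h9 : μ * (5 * (b + 11) * (5 + η)) ≤ η := by
      rw [le_div_iff₀ (by positivity)] at m4
      exact m4
    linarith
  have h6 : |(t₁ * w - √2 * Real.pi) / 2| ≤ η / 2 := by
    rw [abs_div, abs_of_pos (show (0 : ℝ) < 2 by norm_num)]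
    refine div_le_div_of_nonneg_right ?_ (by norm_num)
    rw [abs_le]
    constructor <;> linarith
  linarith

theorem phase_gap (a b K : ℝ) (ha : 0 < a) (hab : a < b) (hK : 0 ≤ K) : ∃ μ₀ : ℝ, 0 < μ₀ ∧ μ₀ ≤ 1 / 64 ∧
    ∀ {μ k : ℝ}, 0 < μ → μ ≤ μ₀ → 0 < k → k ≤ K → ∃ ΦA ΦB : ℝ, 8 * Real.pi ≤ ΦA - ΦB ∧
      ∀ (x : Orb μ k) (t₁ : ℝ), x.IsRet t₁ →
        (‖x.V 0‖ = a → ΦA ≤ x.ph t₁) ∧ (‖x.V 0‖ = b → x.ph t₁ ≤ ΦB) := by
  have hb : 0 < b := by linarith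
  have hA0 : 0 < a ^ 2 + K := by positivity
  have hB0 : 0 < b ^ 2 + K := by positivity
  have hab2 : a ^ 2 < b ^ 2 := pow_lt_pow_left₀ hab ha.le (by norm_num)
  set q : ℝ := pw ((b ^ 2 + K) / (a ^ 2 + K)) with hq
  have hratio : 1 < (b ^ 2 + K) / (a ^ 2 + K) := by
    rw [one_lt_div hA0]
    linarith
  have hq1 : 1 < q := by
    rw [hq, pw]
    have h1 : 1 ≤ √((b ^ 2 + K) / (a ^ 2 + K)) := by
      rw [Real.one_le_sqrt]
      exact hratio.le
    nlinarith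
  set P : ℝ := Real.pi / √2 with hP
  have hP0 : 0 < P := div_pos Real.pi_pos (Real.sqrt_pos.2 (by norm_num))
  obtain ⟨η, hη, c, hc, hηc, hηP⟩ : ∃ η : ℝ, 0 < η ∧ ∃ c : ℝ, 0 < c ∧ P + η + c ≤ (P - η) * q ∧ η < P := by
    refine ⟨P * (q - 1) / (2 * (q + 1)), ?_, P * (q - 1) / 2, ?_, ?_, ?_⟩
    · have : 0 < q - 1 := by linarith
      positivity
    · have : 0 < q - 1 := by linarith
      positivity
    · have h1 : P * (q - 1) / (2 * (q + 1)) * (q + 1) = P * (q - 1) / 2 := by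
        field_simp
      linarith
    · rw [div_lt_iff₀ (by positivity)]
      nlinarith
  obtain ⟨μ1, hμ1, hμ164, H1⟩ := phase a b K η ha hab.le hK hη
  set y₀ : ℝ := min 1 (c / (8 * Real.pi)) with hy₀
  have hpi := Real.pi_pos
  have hy₀0 : 0 < y₀ := by positivity
  refine ⟨min μ1 (y₀ / (b ^ 2 + K)), by positivity, (min_le_left _ _).trans hμ164, ?_⟩
  intro μ k hμ hμ0 hk hkK
  have m1 : μ ≤ μ1 := hμ0.trans (min_le_left _ _)
  have m2 : μ ≤ y₀ / (b ^ 2 + K) := hμ0.trans (min_le_right _ _)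
  have hA : 0 < a ^ 2 + k := by positivity
  have hB : 0 < b ^ 2 + k := by positivity
  have hpA : 0 < pw (μ * (a ^ 2 + k)) := pw_pos (by positivity)
  have hpB : 0 < pw (μ * (b ^ 2 + k)) := pw_pos (by positivity)
  have hqAB : q * pw (μ * (a ^ 2 + k)) ≤ pw (μ * (b ^ 2 + k)) := by
    rw [hq, ← pw_mul (by positivity) (by positivity)]
    refine pw_mono (by positivity) ?_
    have h1 : (b ^ 2 + K) / (a ^ 2 + K) ≤ (b ^ 2 + k) / (a ^ 2 + k) := by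
      rw [div_le_div_iff₀ hA0 hA]
      nlinarith [mul_nonneg (sub_nonneg.2 hab2.le) (sub_nonneg.2 hkK)]
    have h2 : (b ^ 2 + K) / (a ^ 2 + K) * (μ * (a ^ 2 + k)) ≤ (b ^ 2 + k) / (a ^ 2 + k) * (μ * (a ^ 2 + k)) :=
      mul_le_mul_of_nonneg_right h1 (by positivity)
    refine h2.trans (le_of_eq ?_)
    field_simp
  have hpB2 : pw (μ * (b ^ 2 + k)) ≤ c / (8 * Real.pi) := by
    have h1 : μ * (b ^ 2 + k) ≤ y₀ := by
      rw [le_div_iff₀ hB0] at m2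
      have : μ * (b ^ 2 + k) ≤ μ * (b ^ 2 + K) := mul_le_mul_of_nonneg_left (by linarith) hμ.le
      linarith
    have h2 : pw (μ * (b ^ 2 + k)) ≤ pw y₀ := pw_mono (by positivity) h1
    have h3 : pw y₀ ≤ y₀ := by
      rw [pw]
      have h4 : √y₀ ≤ 1 := by
        rw [Real.sqrt_le_left zero_le_one, one_pow]
        exact min_le_left _ _
      nlinarith
    exact h2.trans (h3.trans (min_le_right _ _))
  refine ⟨(P - η) / pw (μ * (a ^ 2 + k)), (P + η) / pw (μ * (b ^ 2 + k)), ?_, ?_⟩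
  · have h1 : (P - η) * q / pw (μ * (b ^ 2 + k)) ≤ (P - η) / pw (μ * (a ^ 2 + k)) := by
      rw [div_le_div_iff₀ hpB hpA]
      have := mul_le_mul_of_nonneg_left hqAB (show 0 ≤ P - η by linarith)
      linarith
    have h2 : c / pw (μ * (b ^ 2 + k)) ≤ (P - η) * q / pw (μ * (b ^ 2 + k)) - (P + η) / pw (μ * (b ^ 2 + k)) := by
      rw [← sub_div]
      exact div_le_div_of_nonneg_right (by linarith) hpB.le
    have h3 : 8 * Real.pi ≤ c / pw (μ * (b ^ 2 + k)) := by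
      rw [le_div_iff₀ hpB]
      rw [le_div_iff₀ (by positivity)] at hpB2
      linarith
    linarith
  · intro x t₁ hret
    constructor
    · intro hv
      have h1 := H1 hμ m1 hk hkK x t₁ hret hv.ge (by rw [hv]; exact hab.le)
      rw [hv] at h1
      rw [div_le_iff₀ hpA]
      linarith [(abs_le.1 h1).1]
    · intro hv
      have h1 := H1 hμ m1 hk hkK x t₁ hret (by rw [hv]; exact hab.le) hv.le
      rw [hv] at h1
      rw [le_div_iff₀ hpB]
      linarith [(abs_le.1 h1).2]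

end IsoTB
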