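import Pool.Agent.Lib.MP_3f23fb_mp.O1

/-!
# MP_3f23fb_mp, module O7: upper bound of the return time

If t₁ ≤ 1 nothing is to be shown. On [1/2, t₁ - 1/2] z ≥ 1/2 and D ≤ 2/(μk), so w' = -(2+μ) z/D³ ≤ -(μk/2)³ =: -c; hence
c (t₁ - 1) ≤ w(1/2) - w(t₁ - 1/2) ≤ 5 (monotonicity of w + c t), so t₁ ≤ 1 + 5/c = 1 + 40/(μk)³.
-/

set_option autoImplicit false
set_option linter.unusedVariables false

open MeasureTheory intervalIntegral

namespace IsoTB

namespace Orb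

variable {μ k : ℝ} (x : Orb μ k)

theorem ret_le (hμ : 0 < μ) (hμ' : μ ≤ 1 / 64) (hk : 0 < k) {t₁ : ℝ}
    (hz : ∀ t ∈ Set.Icc 0 t₁, min (min t (t₁ - t)) 1 ≤ x.z t) : t₁ ≤ 1 + 40 / (μ * k) ^ 3 := by
  have hmk : 0 < μ * k := mul_pos hμ hk
  have hpos : 0 < 40 / (μ * k) ^ 3 := by positivity
  by_cases h1 : t₁ ≤ 1
  · linarith
  push Not at h1
  have hder : ∀ t, HasDerivAt (fun s => x.w s + (μ * k) ^ 3 / 8 * s)
      (-((2 + μ) * (x.z t / dd (x.r t) (x.z t) ^ 3)) + (μ * k) ^ 3 / 8) t := by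
    intro t
    have h2 := (x.dw t).add ((hasDerivAt_id t).const_mul ((μ * k) ^ 3 / 8))
    rw [mul_one] at h2
    exact h2
  have hanti : AntitoneOn (fun s => x.w s + (μ * k) ^ 3 / 8 * s) (Set.Icc (1 / 2) (t₁ - 1 / 2)) := by
    refine antitoneOn_of_deriv_nonpos (convex_Icc _ _)
      (fun t _ => (hder t).continuousAt.continuousWithinAt)
      (fun t _ => (hder t).differentiableAt.differentiableWithinAt) ?_
    intro t ht
    rw [interior_Icc] at ht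
    rw [(hder t).deriv]
    have h2 : 1 / 2 ≤ x.z t := by
      refine le_trans ?_ (hz t ⟨by linarith [ht.1], by linarith [ht.2]⟩)
      refine le_min (le_min ht.1.le ?_) (by norm_num)
      linarith [ht.2]
    have h3 : 0 < dd (x.r t) (x.z t) := dd_pos _ (x.r_pos t)
    have h4 : dd (x.r t) (x.z t) ≤ 2 / (μ * k) := x.D_le hμ hk t
    have h5 : dd (x.r t) (x.z t) * (μ * k) ≤ 2 := by
      rwa [le_div_iff₀ hmk] at h4
    have h6 : (dd (x.r t) (x.z t) * (μ * k)) ^ 3 ≤ 2 ^ 3 :=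
      pow_le_pow_left₀ (by positivity) h5 3
    have h7 : (μ * k) ^ 3 / 8 ≤ (2 + μ) * (x.z t / dd (x.r t) (x.z t) ^ 3) := by
      rw [← mul_div_assoc, le_div_iff₀ (by positivity)]
      have h8 : 1 ≤ (2 + μ) * x.z t := by nlinarith
      rw [mul_pow] at h6
      linarith
    linarith
  have h2 := hanti (a := 1 / 2) (b := t₁ - 1 / 2) ⟨le_rfl, by linarith⟩ ⟨by linarith, le_rfl⟩
    (by linarith)
  have h3 := abs_le.1 (x.abs_w_le hμ hμ' hk (1 / 2))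
  have h4 := abs_le.1 (x.abs_w_le hμ hμ' hk (t₁ - 1 / 2))
  have h5 : (μ * k) ^ 3 / 8 * (t₁ - 1) ≤ 5 := by
    have h6 : x.w (t₁ - 1 / 2) + (μ * k) ^ 3 / 8 * (t₁ - 1 / 2) ≤
        x.w (1 / 2) + (μ * k) ^ 3 / 8 * (1 / 2) := h2
    nlinarith [h3.1, h3.2, h4.1, h4.2]
  have h6 : t₁ - 1 ≤ 40 / (μ * k) ^ 3 := by
    rw [le_div_iff₀ (by positivity)]
    linarith
  linarith

end Orb

end IsoTB
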