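import Pool.Agent.Lib.MP_3f23fb_mp.G8
import Pool.Agent.Lib.MP_3f23fb_mp.O7

/-!
# MP_3f23fb_mp, module HO: everything about half orbits

Combine with R = b + 2 (so ‖V(0)‖ ≤ b gives ‖Y(0)‖ ≤ R by norm_JJ_le): cross, scatter, phase_gap, ret_le; μ₀ = the minimum.
-/

set_option autoImplicit false
set_option linter.unusedVariables false

open Complex

namespace IsoTB

theorem half_orbit (a b K ε : ℝ) (ha : 0 < a) (hab : a < b) (hK : 0 ≤ K) (hε : 0 < ε) : ∃ μ₀ : ℝ, 0 < μ₀ ∧ μ₀ ≤ 1 / 64 ∧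
    ∀ {μ k : ℝ}, 0 < μ → μ ≤ μ₀ → 0 < k → k ≤ K → ∃ ΦA ΦB : ℝ, 8 * Real.pi ≤ ΦA - ΦB ∧
      ∀ (x : Orb μ k) (t₁ : ℝ), x.IsRet t₁ → ‖x.V 0‖ ≤ b →
        1 / 2 ≤ t₁ ∧ t₁ ≤ 1 + 40 / (μ * k) ^ 3 ∧
        (∀ t ∈ Set.Icc 0 t₁, min (min t (t₁ - t)) 1 ≤ x.z t) ∧
        ‖x.V t₁ - (exp (-(I * x.ph t₁)) * x.V 0 - I * (2 * JJ.re))‖ ≤ ε ∧
        (‖x.V 0‖ = a → ΦA ≤ x.ph t₁) ∧ (‖x.V 0‖ = b → x.ph t₁ ≤ ΦB) := by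
  have hb : 0 ≤ b + 2 := by linarith
  obtain ⟨μ1, h1, h1', hcross⟩ := cross (b + 2) K hb hK
  obtain ⟨τ, μ2, hτ, h2, h2', hscat⟩ := scatter (b + 2) K ε hb hK hε
  obtain ⟨μ3, h3, h3', hphase⟩ := phase_gap a b K ha hab hK
  refine ⟨min μ1 (min μ2 μ3), lt_min h1 (lt_min h2 h3), (min_le_left _ _).trans h1', ?_⟩
  intro μ k hμ hμ0 hk hkK
  have m1 : μ ≤ μ1 := hμ0.trans (min_le_left _ _)
  have m2 : μ ≤ μ2 := hμ0.trans ((min_le_right _ _).trans (min_le_left _ _))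
  have m3 : μ ≤ μ3 := hμ0.trans ((min_le_right _ _).trans (min_le_right _ _))
  obtain ⟨ΦA, ΦB, hgap, hΦ⟩ := hphase hμ m3 hk hkK
  refine ⟨ΦA, ΦB, hgap, ?_⟩
  intro x t₁ hret hV
  have hY : ‖x.Y 0‖ ≤ b + 2 := by
    have e : x.Y 0 = x.V 0 + I * JJ := by
      unfold Orb.V
      ring
    rw [e]
    refine (norm_add_le _ _).trans ?_
    rw [norm_mul, norm_I, one_mul]
    have := norm_JJ_le
    linarith
  obtain ⟨c1, c2, c3⟩ := hcross hμ m1 hk hkK x t₁ hret hY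
  obtain ⟨d1, -, -, -, -⟩ := hscat hμ m2 hk hkK x t₁ hret hY
  obtain ⟨e1, e2⟩ := hΦ x t₁ hret
  exact ⟨c2, x.ret_le hμ (m1.trans h1') hk c3, c3, d1, e1, e2⟩

end IsoTB
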