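import Pool.Agent.Lib.MP_3f23fb_mp.Stmt
import Pool.Agent.Lib.MP_3f23fb_mp.A4

/-!
# MP_3f23fb_mp, module L0: embedding of the normalised phase space

emb puts body 0 at (a ρ*, -a κ z), body 1 at (-a ρ*, -a κ z), body 2 at (0, a (1-κ) z), κ = m₃/(2m+m₃), ρ* = (Re ρ, sg Im ρ), sg = ±1; the velocities are the same with
(ν, w) instead of (ρ, z) and a b instead of a (a = length unit, b = frequency). prj is a left inverse. All statements are coordinate computations (ext i; fin_cases i; simp; ring / field_simp).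
-/

set_option autoImplicit false
set_option linter.unusedVariables false

namespace IsoTB

/-- Three positions (or velocities) built from a horizontal vector (u, v) and a height z, with lengths multiplied by a. -/
noncomputable def tri (m m₃ sg a : ℝ) (ρ : ℂ) (z : ℝ) : Fin 3 → E3 :=
  ![!₂[a * ρ.re, a * (sg * ρ.im), -(a * (m₃ / (2 * m + m₃) * z))],
    !₂[-(a * ρ.re), -(a * (sg * ρ.im)), -(a * (m₃ / (2 * m + m₃) * z))],
    !₂[0, 0, a * (2 * m / (2 * m + m₃) * z)]]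

/-- The embedding of the normalised phase space (a = length unit, b = frequency, sg = ±1). -/
noncomputable def emb (m m₃ sg a b : ℝ) (x : E6) : St :=
  (tri m m₃ sg a x.1 x.2.2.1, tri m m₃ sg (a * b) x.2.1 x.2.2.2)

/-- A left inverse of emb. -/
noncomputable def prj (sg a b : ℝ) (y : St) : E6 :=
  (⟨(y.1 0) 0 / a, sg * (y.1 0) 1 / a⟩, ⟨(y.2 0) 0 / (a * b), sg * (y.2 0) 1 / (a * b)⟩,
    ((y.1 2) 2 - (y.1 0) 2) / a, ((y.2 2) 2 - (y.2 0) 2) / (a * b))

variable {m m₃ sg a b : ℝ}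

private theorem l0_ext {u v : E3} (h0 : u 0 = v 0) (h1 : u 1 = v 1) (h2 : u 2 = v 2) : u = v := by
  ext j
  fin_cases j
  · exact h0
  · exact h1
  · exact h2

private theorem l0_ext3 {q q' : Fin 3 → E3} (h0 : q 0 = q' 0) (h1 : q 1 = q' 1) (h2 : q 2 = q' 2) : q = q' := by
  funext j
  fin_cases j
  · exact h0
  · exact h1
  · exact h2

theorem prj_emb (hm : 0 < m) (hm₃ : 0 < m₃) (hsg : sg ^ 2 = 1) (ha : 0 < a) (hb : 0 < b) (x : E6) :
    prj sg a b (emb m m₃ sg a b x) = x := by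
  obtain ⟨ρ, ν, z, w⟩ := x
  have h1 : 2 * m + m₃ ≠ 0 := by positivity
  have hab : a * b ≠ 0 := by positivity
  have ha' := ha.ne'
  have key : ∀ A : ℝ, A ≠ 0 → ∀ (ρ : ℂ) (z : ℝ), (⟨(A * ρ.re) / A, sg * (A * (sg * ρ.im)) / A⟩ : ℂ) = ρ ∧
      (A * (2 * m / (2 * m + m₃) * z) - -(A * (m₃ / (2 * m + m₃) * z))) / A = z := by
    intro A hA ρ z
    constructor
    · apply Complex.ext
      · show (A * ρ.re) / A = ρ.re
        field_simp
      · show sg * (A * (sg * ρ.im)) / A = ρ.im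
        rw [div_eq_iff hA]
        linear_combination A * ρ.im * hsg
    · field_simp
      ring
  refine Prod.ext ?_ (Prod.ext ?_ (Prod.ext ?_ ?_))
  · exact (key a ha' ρ z).1
  · exact (key (a * b) hab ν w).1
  · exact (key a ha' ρ z).2
  · exact (key (a * b) hab ν w).2

private theorem l0_cont3 {X : Type*} [TopologicalSpace X] {f g h : X → ℝ} (hf : Continuous f) (hg : Continuous g)
    (hh : Continuous h) : Continuous fun x => (!₂[f x, g x, h x] : E3) := by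
  refine (PiLp.continuous_toLp 2 _).comp (continuous_pi fun i => ?_)
  fin_cases i
  · exact hf
  · exact hg
  · exact hh

theorem continuous_emb : Continuous (emb m m₃ sg a b) := by
  unfold emb tri
  refine Continuous.prodMk (continuous_pi fun i => ?_) (continuous_pi fun i => ?_)
  · fin_cases i
    · exact l0_cont3 (by fun_prop) (by fun_prop) (by fun_prop)
    · exact l0_cont3 (by fun_prop) (by fun_prop) (by fun_prop)
    · exact l0_cont3 (by fun_prop) (by fun_prop) (by fun_prop)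
  · fin_cases i
    · exact l0_cont3 (by fun_prop) (by fun_prop) (by fun_prop)
    · exact l0_cont3 (by fun_prop) (by fun_prop) (by fun_prop)
    · exact l0_cont3 (by fun_prop) (by fun_prop) (by fun_prop)

private theorem l0_mk (u v : ℝ) : (⟨u, v⟩ : ℂ) = (u : ℂ) + (v : ℂ) * Complex.I := Complex.mk_eq_add_mul_I u v

theorem continuous_prj : Continuous (prj sg a b) := by
  unfold prj
  simp only [l0_mk]
  fun_prop

theorem emb_add_smul (x u : E6) (s : ℝ) :
    emb m m₃ sg a b (x + s • u) = emb m m₃ sg a b x + s • emb m m₃ sg a b u := by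
  have key : ∀ (A : ℝ) (ρ ρ' : ℂ) (z z' : ℝ),
      tri m m₃ sg A (ρ + s • ρ') (z + s • z') = tri m m₃ sg A ρ z + s • tri m m₃ sg A ρ' z' := by
    intro A ρ ρ' z z'
    refine l0_ext3 (l0_ext ?_ ?_ ?_) (l0_ext ?_ ?_ ?_) (l0_ext ?_ ?_ ?_) <;>
      simp [tri] <;> ring
  exact Prod.ext (key _ _ _ _ _) (key _ _ _ _ _)

/-- prj is Lipschitz. -/
theorem exists_prj_lip (ha : 0 < a) (hb : 0 < b) :
    ∃ C : ℝ, 0 < C ∧ ∀ y y' : St, dist (prj sg a b y) (prj sg a b y') ≤ C * dist y y' := by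
  have hlin : IsLinearMap ℝ (prj sg a b) := by
    constructor
    · intro x y
      refine Prod.ext (Complex.ext ?_ ?_) (Prod.ext (Complex.ext ?_ ?_) (Prod.ext ?_ ?_)) <;>
        simp [prj] <;> ring
    · intro c x
      refine Prod.ext (Complex.ext ?_ ?_) (Prod.ext (Complex.ext ?_ ?_) (Prod.ext ?_ ?_)) <;>
        simp [prj] <;> ring
  let L : St →L[ℝ] E6 := ⟨hlin.mk' _, continuous_prj⟩
  refine ⟨‖L‖ + 1, by positivity, fun y y' => ?_⟩
  have h1 := L.dist_le_opNorm y y'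
  have h2 : 0 ≤ dist y y' := dist_nonneg
  calc dist (prj sg a b y) (prj sg a b y') ≤ ‖L‖ * dist y y' := h1
    _ ≤ (‖L‖ + 1) * dist y y' := by nlinarith

theorem isIso_emb (hm : 0 < m) (hm₃ : 0 < m₃) (x : E6) : IsIso (mass m m₃) (emb m m₃ sg a b x) := by
  have h1 : 2 * m + m₃ ≠ 0 := by positivity
  have k1 : ∀ (A : ℝ) (ρ : ℂ) (z : ℝ), tri m m₃ sg A ρ z 1 = rotPi (tri m m₃ sg A ρ z 0) := by
    intro A ρ z
    refine l0_ext ?_ ?_ ?_ <;> simp [tri, rotPi]
  have k2 : ∀ (A : ℝ) (ρ : ℂ) (z : ℝ), ∃ c : ℝ, tri m m₃ sg A ρ z 2 = c • eL := by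
    intro A ρ z
    refine ⟨A * (2 * m / (2 * m + m₃) * z), ?_⟩
    refine l0_ext ?_ ?_ ?_ <;> simp [tri, eL]
  have k3 : ∀ (A : ℝ) (ρ : ℂ) (z : ℝ), ∑ i, mass m m₃ i • tri m m₃ sg A ρ z i = 0 := by
    intro A ρ z
    rw [Fin.sum_univ_three]
    refine l0_ext ?_ ?_ ?_
    · simp [tri, mass]
    · simp [tri, mass]
    · simp [tri, mass]
      field_simp
      ring
  exact ⟨k1 a x.1 x.2.2.1, k1 (a * b) x.2.1 x.2.2.2, k2 a x.1 x.2.2.1, k2 (a * b) x.2.1 x.2.2.2,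
    k3 a x.1 x.2.2.1, k3 (a * b) x.2.1 x.2.2.2⟩

private theorem l0_back (hm : 0 < m) (hm₃ : 0 < m₃) (hsg : sg ^ 2 = 1) {A : ℝ} (hA : A ≠ 0) {q : Fin 3 → E3}
    (h1 : q 1 = rotPi (q 0)) (h2 : ∃ c : ℝ, q 2 = c • eL) (h3 : ∑ i, mass m m₃ i • q i = 0) :
    tri m m₃ sg A ⟨q 0 0 / A, sg * q 0 1 / A⟩ ((q 2 2 - q 0 2) / A) = q := by
  obtain ⟨c, hc⟩ := h2
  have h4 : 2 * m + m₃ ≠ 0 := by positivity
  have e10 : q 1 0 = -q 0 0 := by rw [h1]; simp [rotPi]
  have e11 : q 1 1 = -q 0 1 := by rw [h1]; simp [rotPi]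
  have e12 : q 1 2 = q 0 2 := by rw [h1]; simp [rotPi]
  have e20 : q 2 0 = 0 := by rw [hc]; simp [eL]
  have e21 : q 2 1 = 0 := by rw [hc]; simp [eL]
  have e3 : 2 * m * q 0 2 + m₃ * q 2 2 = 0 := by
    have h5 := congrArg (fun v : E3 => v 2) h3
    rw [Fin.sum_univ_three] at h5
    simp [mass, e12] at h5
    linarith
  have e4 : A * (sg * (sg * q 0 1 / A)) = q 0 1 := by
    field_simp
    linear_combination q 0 1 * hsg
  have e5 : A * (m₃ / (2 * m + m₃) * ((q 2 2 - q 0 2) / A)) = -q 0 2 := by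
    field_simp
    linear_combination e3
  have e6 : A * (2 * m / (2 * m + m₃) * ((q 2 2 - q 0 2) / A)) = q 2 2 := by
    field_simp
    linear_combination -e3
  have e7 : A * (q 0 0 / A) = q 0 0 := by
    field_simp
  refine l0_ext3 (l0_ext ?_ ?_ ?_) (l0_ext ?_ ?_ ?_) (l0_ext ?_ ?_ ?_)
  · exact e7
  · exact e4
  · show -(A * (m₃ / (2 * m + m₃) * ((q 2 2 - q 0 2) / A))) = _
    rw [e5, neg_neg]
  · show -(A * (q 0 0 / A)) = _
    rw [e7, e10]
  · show -(A * (sg * (sg * q 0 1 / A))) = _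
    rw [e4, e11]
  · show -(A * (m₃ / (2 * m + m₃) * ((q 2 2 - q 0 2) / A))) = _
    rw [e5, neg_neg, e12]
  · exact e20.symm
  · exact e21.symm
  · exact e6

theorem emb_prj_of_isIso (hm : 0 < m) (hm₃ : 0 < m₃) (hsg : sg ^ 2 = 1) (ha : 0 < a) (hb : 0 < b) {y : St}
    (hy : IsIso (mass m m₃) y) : emb m m₃ sg a b (prj sg a b y) = y :=
  Prod.ext (l0_back hm hm₃ hsg ha.ne' hy.pos12 hy.pos3 hy.com)
    (l0_back hm hm₃ hsg (mul_pos ha hb).ne' hy.vel12 hy.vel3 hy.mom)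

end IsoTB
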