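import Mathlib

/-!
# MP_3f23fb_mp, module M1: the parabolic MacMillan orbit

θ(y) = ½ ∫_0^y √√(1+s²) ds is C¹ with θ' ≥ 1/2, θ(0) = 0, so it is a strictly increasing bijection of ℝ (|θ(y)| ≥ |y|/2). Its inverse ζ
is continuous (StrictMono.orderIsoOfSurjective, OrderIso.toHomeomorph) and has derivative 1/θ'(ζ) = 2/√√(1+ζ²)
(HasDerivAt.of_local_left_inverse). `vel_deriv`: v = 2/√√(1+ζ²), v² = 4/√(1+ζ²), chain rule:
d/dt √(1+ζ²) = ζ v/√(1+ζ²) =: m, q = √(1+ζ²), d/dt √q = m/(2√q), d/dt (2/√q) = -2·(m/(2√q))/q = -m/(q√q) = -ζ v/(q²√q) = -2ζ/q³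
because v = 2/√q and √q·√q = q.
-/

set_option autoImplicit false
set_option linter.unusedVariables false

open MeasureTheory intervalIntegral

namespace IsoTB

theorem exists_zeta : ∃ ζ : ℝ → ℝ, ζ 0 = 0 ∧ ∀ t, HasDerivAt ζ (2 / √(√(1 + ζ t ^ 2))) t := by
  have hc : Continuous fun s : ℝ => √(√(1 + s ^ 2)) := by fun_prop
  have hge : ∀ y : ℝ, 1 ≤ √(√(1 + y ^ 2)) := by
    intro y
    rw [Real.one_le_sqrt, Real.one_le_sqrt]
    nlinarith [sq_nonneg y]
  have hd : ∀ y : ℝ, HasDerivAt (fun y : ℝ => (1 / 2) * ∫ s in (0:ℝ)..y, √(√(1 + s ^ 2)))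
      ((1 / 2) * √(√(1 + y ^ 2))) y := by
    intro y
    exact (hc.integral_hasStrictDerivAt 0 y).hasDerivAt.const_mul (1 / 2)
  set θ : ℝ → ℝ := fun y : ℝ => (1 / 2) * ∫ s in (0:ℝ)..y, √(√(1 + s ^ 2)) with hθ
  have hcont : Continuous θ := continuous_iff_continuousAt.2 fun y => (hd y).continuousAt
  have hmono : StrictMono θ := by
    refine strictMono_of_deriv_pos fun y => ?_
    rw [(hd y).deriv]
    have := hge y
    linarith
  have hmono2 : Monotone fun y => θ y - y / 2 := by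
    have h1 : ∀ y, HasDerivAt (fun y => θ y - y / 2) ((1 / 2) * √(√(1 + y ^ 2)) - 1 / 2) y := by
      intro y
      exact (hd y).sub ((hasDerivAt_id y).div_const 2)
    refine monotone_of_deriv_nonneg (fun y => (h1 y).differentiableAt) fun y => ?_
    rw [(h1 y).deriv]
    have := hge y
    linarith
  have hθ0 : θ 0 = 0 := by
    rw [hθ]
    simp
  have htop : Filter.Tendsto θ Filter.atTop Filter.atTop := by
    refine Filter.tendsto_atTop_mono' Filter.atTop (f₁ := fun y : ℝ => y / 2) ?_ ?_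
    · filter_upwards [Filter.eventually_ge_atTop (0 : ℝ)] with y hy
      have := hmono2 hy
      simp only [hθ0] at this
      linarith
    · exact Filter.tendsto_id.atTop_div_const (by norm_num)
  have hbot : Filter.Tendsto θ Filter.atBot Filter.atBot := by
    refine Filter.tendsto_atBot_mono' Filter.atBot (f₁ := fun y : ℝ => y / 2) ?_ ?_
    · filter_upwards [Filter.eventually_le_atBot (0 : ℝ)] with y hy
      have := hmono2 hy
      simp only [hθ0] at this
      linarith
    · exact Filter.tendsto_id.atBot_div_const (by norm_num)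
  have hsurj : Function.Surjective θ := hcont.surjective htop hbot
  let e : ℝ ≃o ℝ := hmono.orderIsoOfSurjective θ hsurj
  have he : ∀ y, e y = θ y := fun y => rfl
  have hes : ∀ t, θ (e.symm t) = t := fun t => e.apply_symm_apply t
  refine ⟨fun t => e.symm t, ?_, fun t => ?_⟩
  · have h1 : e.symm (θ 0) = 0 := e.symm_apply_apply 0
    rw [hθ0] at h1
    exact h1
  · have h1 := HasDerivAt.of_local_left_inverse (f := θ) (g := fun t => e.symm t)
      (f' := (1 / 2) * √(√(1 + e.symm t ^ 2))) (a := t) e.symm.continuous.continuousAt (hd (e.symm t))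
      (by
        have := hge (e.symm t)
        positivity) (Filter.Eventually.of_forall hes)
    have h2 : ((1 / 2) * √(√(1 + e.symm t ^ 2)))⁻¹ = 2 / √(√(1 + e.symm t ^ 2)) := by
      have := hge (e.symm t)
      rw [mul_inv, one_div, inv_inv, div_eq_mul_inv]
    rw [h2] at h1
    exact h1

/-- The height of the parabolic MacMillan orbit through the origin. -/
noncomputable def zeta : ℝ → ℝ := Classical.choose exists_zeta

/-- Its velocity. -/
noncomputable def vel (t : ℝ) : ℝ := 2 / √(√(1 + zeta t ^ 2))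

theorem zeta_zero : zeta 0 = 0 := (Classical.choose_spec exists_zeta).1

theorem zeta_deriv (t : ℝ) : HasDerivAt zeta (vel t) t := (Classical.choose_spec exists_zeta).2 t

theorem vel_deriv (t : ℝ) : HasDerivAt vel (-(2 * (zeta t / √(1 + zeta t ^ 2) ^ 3))) t := by
  have h0 : 0 < 1 + zeta t ^ 2 := by positivity
  have hq : 0 < √(1 + zeta t ^ 2) := Real.sqrt_pos.2 h0
  have hs : 0 < √(√(1 + zeta t ^ 2)) := Real.sqrt_pos.2 hq
  have h1 : HasDerivAt (fun t => 1 + zeta t ^ 2) (2 * zeta t * vel t) t := by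
    have h := ((zeta_deriv t).pow 2).const_add 1
    have e : (2 : ℕ) * zeta t ^ (2 - 1) * vel t = 2 * zeta t * vel t := by norm_num
    rw [e] at h
    exact h
  have h2 := h1.sqrt h0.ne'
  have h3 := h2.sqrt hq.ne'
  have h4 := (hasDerivAt_const t (2 : ℝ)).div h3 hs.ne'
  have hv : vel t = 2 / √(√(1 + zeta t ^ 2)) := rfl
  have hss : √(√(1 + zeta t ^ 2)) ^ 2 = √(1 + zeta t ^ 2) := Real.sq_sqrt hq.le
  have e : (0 * √(√(1 + zeta t ^ 2)) - 2 * (2 * zeta t * vel t / (2 * √(1 + zeta t ^ 2)) /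
      (2 * √(√(1 + zeta t ^ 2))))) / √(√(1 + zeta t ^ 2)) ^ 2 =
      -(2 * (zeta t / √(1 + zeta t ^ 2) ^ 3)) := by
    rw [hv, ← hss]
    set s := √(√(1 + zeta t ^ 2)) with hsd
    have hs2 : √(s ^ 2) = s := Real.sqrt_sq hs.le
    try rw [hs2]
    field_simp
    try ring
  rw [e] at h4
  exact h4

end IsoTB
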