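import Pool.Agent.Lib.MP_3f23fb_mp.M1

/-!
# MP_3f23fb_mp, module M2: elementary properties of the MacMillan orbit

0 < vel ≤ 2, so ζ is strictly increasing, ζ ≥ 0 and ζ(t) ≤ 2t for t ≥ 0. vel is antitone on [0,∞) (ζ increasing, nonnegative).
ζ(1) ≥ 1: otherwise ζ < 1 on [0,1], vel ≥ 2/√√2 ≥ 1 there and ζ(1) ≥ 1. 
ζ(π) ≥ 3: otherwise ζ < 3 on [0,π], vel ≥ 2/√√10 ≥ 1.12 (√10 ≤ 3.1623, √3.1623 ≤ 1.7783) and ζ(π) ≥ 1.12·π > 3.
ζ → ∞: if ζ ≤ B on [0,∞) then vel ≥ 2/√√(1+B²) =: c > 0 and ζ(t) ≥ c t: contradiction. (Monotone and unbounded.)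
General tool: if vel ≥ c on [0,T] then ζ(T) ≥ c T (monotoneOn of ζ - c t).
-/

set_option autoImplicit false
set_option linter.unusedVariables false

open MeasureTheory intervalIntegral Filter

namespace IsoTB

theorem vel_pos (t : ℝ) : 0 < vel t := by
  unfold vel
  exact div_pos two_pos (Real.sqrt_pos.2 (Real.sqrt_pos.2 (by positivity)))

theorem M2_one_le (y : ℝ) : 1 ≤ √(√(1 + y ^ 2)) := by
  rw [Real.one_le_sqrt, Real.one_le_sqrt]
  nlinarith [sq_nonneg y]

theorem vel_le_two (t : ℝ) : vel t ≤ 2 := by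
  unfold vel
  exact div_le_self (by norm_num) (M2_one_le _)

theorem continuous_zeta : Continuous zeta :=
  continuous_iff_continuousAt.2 fun t => (zeta_deriv t).continuousAt

theorem continuous_vel : Continuous vel :=
  continuous_iff_continuousAt.2 fun t => (vel_deriv t).continuousAt

theorem zeta_strictMono : StrictMono zeta := by
  refine strictMono_of_deriv_pos fun t => ?_
  rw [(zeta_deriv t).deriv]
  exact vel_pos t

theorem zeta_nonneg {t : ℝ} (ht : 0 ≤ t) : 0 ≤ zeta t := by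
  have h := zeta_strictMono.monotone ht
  rwa [zeta_zero] at h

theorem zeta_le {t : ℝ} (ht : 0 ≤ t) : zeta t ≤ 2 * t := by
  have h1 : ∀ y, HasDerivAt (fun y => 2 * y - zeta y) (2 - vel y) y := by
    intro y
    have h := ((hasDerivAt_id y).const_mul 2).sub (zeta_deriv y)
    rw [mul_one] at h
    exact h
  have h2 : Monotone fun y => 2 * y - zeta y := by
    refine monotone_of_deriv_nonneg (fun y => (h1 y).differentiableAt) fun y => ?_
    rw [(h1 y).deriv]
    have := vel_le_two y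
    linarith
  have h3 := h2 ht
  simp only [zeta_zero] at h3
  linarith

theorem M2_vel_ge {t b : ℝ} (ht : 0 ≤ t) (hb : zeta t ≤ b) : 2 / √(√(1 + b ^ 2)) ≤ vel t := by
  have h0 := zeta_nonneg ht
  unfold vel
  refine div_le_div_of_nonneg_left (by norm_num) (Real.sqrt_pos.2 (Real.sqrt_pos.2 (by positivity))) ?_
  refine Real.sqrt_le_sqrt (Real.sqrt_le_sqrt ?_)
  have := mul_self_le_mul_self h0 hb
  nlinarith

theorem vel_antitone {s t : ℝ} (hs : 0 ≤ s) (hst : s ≤ t) : vel t ≤ vel s :=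
  M2_vel_ge hs (zeta_strictMono.monotone hst)

theorem M2_tool {T : ℝ} (hT : 0 ≤ T) : vel T * T ≤ zeta T := by
  have h := (convex_Icc (0 : ℝ) T).mul_sub_le_image_sub_of_le_deriv (f := zeta) (C := vel T)
    continuous_zeta.continuousOn (fun x _ => (zeta_deriv x).differentiableAt.differentiableWithinAt)
    (fun x hx => by
      rw [interior_Icc] at hx
      rw [(zeta_deriv x).deriv]
      exact vel_antitone hx.1.le hx.2.le)
    0 (Set.left_mem_Icc.2 hT) T (Set.right_mem_Icc.2 hT) hT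
  rw [zeta_zero, sub_zero, sub_zero] at h
  exact h

theorem M2_one_le_vel {t : ℝ} (ht : 0 ≤ t) (h : zeta t ≤ 3) : 1 ≤ vel t := by
  have h1 := M2_vel_ge ht h
  have h2 : √(√(1 + (3:ℝ) ^ 2)) ≤ 2 := by
    rw [Real.sqrt_le_iff]
    refine ⟨by norm_num, ?_⟩
    rw [Real.sqrt_le_iff]
    norm_num
  have h3 : 0 < √(√(1 + (3:ℝ) ^ 2)) := lt_of_lt_of_le one_pos (M2_one_le 3)
  have h4 : 1 ≤ 2 / √(√(1 + (3:ℝ) ^ 2)) := by
    rw [le_div_iff₀ h3, one_mul]
    exact h2
  exact h4.trans h1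

theorem one_le_zeta_one : 1 ≤ zeta 1 := by
  by_contra h
  push Not at h
  have h1 := M2_one_le_vel (zero_le_one) (by linarith : zeta 1 ≤ 3)
  have h2 := M2_tool (zero_le_one : (0:ℝ) ≤ 1)
  linarith

theorem three_le_zeta_pi : 3 ≤ zeta Real.pi := by
  by_contra h
  push Not at h
  have hp := Real.pi_gt_three
  have h1 := M2_one_le_vel (Real.pi_pos.le) h.le
  have h2 := M2_tool Real.pi_pos.le
  have h3 := mul_le_mul_of_nonneg_right h1 Real.pi_pos.le
  linarith

theorem zeta_tendsto : Tendsto zeta atTop atTop := by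
  refine tendsto_atTop_atTop_of_monotone zeta_strictMono.monotone fun b => ?_
  by_contra h
  push Not at h
  have hb : 0 < b := by
    have := h 0
    rwa [zeta_zero] at this
  have hc : 0 < 2 / √(√(1 + b ^ 2)) := div_pos two_pos (lt_of_lt_of_le one_pos (M2_one_le b))
  have ha : 0 ≤ b / (2 / √(√(1 + b ^ 2))) := (div_pos hb hc).le
  have h1 := M2_vel_ge ha (h _).le
  have h2 := M2_tool ha
  have h3 := mul_le_mul_of_nonneg_right h1 ha
  have h4 : 2 / √(√(1 + b ^ 2)) * (b / (2 / √(√(1 + b ^ 2)))) = b := mul_div_cancel₀ b hc.ne'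
  have h5 := h (b / (2 / √(√(1 + b ^ 2))))
  linarith

end IsoTB
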