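import Pool.Agent.Lib.MP_3f23fb_mp.M2

/-!
# MP_3f23fb_mp, module M3: the scattering integral J

G = 1/(√(1+ζ²))³, so vel' = -2 ζ G (vel_deriv). For 0 < σ ≤ τ with ζ(σ) ≥ 1: G = -vel'/(2ζ) ≤ -vel'/(2ζ(σ)) on [σ,τ], so
∫_σ^τ G ≤ (vel σ - vel τ)/(2ζ(σ)) ≤ 2/(2ζ(σ)) = 1/ζ(σ) (`integral_G_le`). Since ‖G e^{it/2}‖ = G, J_τ is Cauchy as τ → ∞
(ζ → ∞), so J_τ → J exists with ‖J_τ - J‖ ≤ 1/ζ(τ) when ζ(τ) ≥ 1 (let the upper limit tend to infinity). 
‖J‖ ≤ ‖J_1‖ + 1/ζ(1) ≤ 1 + 1 (G ≤ 1, ζ(1) ≥ 1).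
-/

set_option autoImplicit false
set_option linter.unusedVariables false

open MeasureTheory intervalIntegral Filter Complex

namespace IsoTB

/-- The pull along the parabolic MacMillan orbit. -/
noncomputable def GG (t : ℝ) : ℝ := 1 / √(1 + zeta t ^ 2) ^ 3

/-- The truncated scattering integral. -/
noncomputable def Jt (τ : ℝ) : ℂ := ∫ t in (0:ℝ)..τ, (GG t : ℂ) * exp (I * (t / 2))

private theorem sq_pos' (t : ℝ) : 0 < √(1 + zeta t ^ 2) :=
  Real.sqrt_pos.2 (by positivity)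

theorem continuous_GG : Continuous GG := by
  unfold GG
  exact continuous_const.div (((continuous_const.add (continuous_zeta.pow 2)).sqrt).pow 3)
    (fun t => pow_ne_zero 3 (sq_pos' t).ne')

theorem GG_pos (t : ℝ) : 0 < GG t :=
  one_div_pos.2 (pow_pos (sq_pos' t) 3)

theorem GG_le_one (t : ℝ) : GG t ≤ 1 := by
  unfold GG
  have h1 : 1 ≤ √(1 + zeta t ^ 2) := by
    rw [Real.one_le_sqrt]
    nlinarith [sq_nonneg (zeta t)]
  rw [div_le_one (pow_pos (sq_pos' t) 3)]
  exact one_le_pow₀ h1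

theorem GG_antitone {s t : ℝ} (hs : 0 ≤ s) (hst : s ≤ t) : GG t ≤ GG s := by
  unfold GG
  have h1 : zeta s ≤ zeta t := zeta_strictMono.monotone hst
  have h2 : 0 ≤ zeta s := zeta_nonneg hs
  have h3 : zeta s ^ 2 ≤ zeta t ^ 2 := pow_le_pow_left₀ h2 h1 2
  have h4 : √(1 + zeta s ^ 2) ≤ √(1 + zeta t ^ 2) := Real.sqrt_le_sqrt (by linarith)
  exact one_div_le_one_div_of_le (pow_pos (sq_pos' s) 3)
    (pow_le_pow_left₀ (sq_pos' s).le h4 3)

theorem integral_GG_le {σ τ : ℝ} (h0 : 0 < σ) (hστ : σ ≤ τ) (hσ : 1 ≤ zeta σ) :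
    ∫ t in σ..τ, GG t ≤ 1 / zeta σ := by
  have hpos : 0 < zeta σ := lt_of_lt_of_le one_pos hσ
  have hc : Continuous (fun t => 2 * (zeta t * GG t)) :=
    continuous_const.mul (continuous_zeta.mul continuous_GG)
  have h1 : ∫ t in σ..τ, GG t ≤ ∫ t in σ..τ, (1 / (2 * zeta σ)) * (2 * (zeta t * GG t)) := by
    refine intervalIntegral.integral_mono_on hστ (continuous_GG.intervalIntegrable _ _)
      ((continuous_const.mul hc).intervalIntegrable _ _) ?_
    intro t ht
    have h2 : zeta σ ≤ zeta t := zeta_strictMono.monotone ht.1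
    have h3 := GG_pos t
    have h4 : zeta σ * GG t ≤ zeta t * GG t := mul_le_mul_of_nonneg_right h2 h3.le
    rw [one_div, ← div_eq_inv_mul, le_div_iff₀ (by positivity)]
    linarith
  have h2 : ∫ t in σ..τ, 2 * (zeta t * GG t) = (-vel) τ - (-vel) σ := by
    refine intervalIntegral.integral_eq_sub_of_hasDerivAt (fun t _ => ?_)
      (hc.intervalIntegrable _ _)
    have h3 := (vel_deriv t).neg
    rw [neg_neg] at h3
    have h4 : 2 * (zeta t / √(1 + zeta t ^ 2) ^ 3) = 2 * (zeta t * GG t) := by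
      unfold GG
      ring
    rw [h4] at h3
    exact h3
  rw [intervalIntegral.integral_const_mul, h2] at h1
  refine h1.trans ?_
  have h5 := vel_pos τ
  have h6 := vel_le_two σ
  have h7 : (-vel) τ - (-vel) σ ≤ 2 := by
    simp only [Pi.neg_apply]
    linarith
  calc 1 / (2 * zeta σ) * ((-vel) τ - (-vel) σ) ≤ 1 / (2 * zeta σ) * 2 :=
        mul_le_mul_of_nonneg_left h7 (by positivity)
    _ = 1 / zeta σ := by
        field_simp

private theorem norm_fn (t : ℝ) : ‖(GG t : ℂ) * exp (I * (t / 2))‖ = GG t := by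
  have h1 : exp (I * ((t : ℂ) / 2)) = exp (((t / 2 : ℝ) : ℂ) * I) := by
    congr 1
    push_cast
    ring
  rw [norm_mul, h1, Complex.norm_exp_ofReal_mul_I, mul_one, Complex.norm_real,
    Real.norm_of_nonneg (GG_pos t).le]

private theorem continuous_fn : Continuous (fun t : ℝ => (GG t : ℂ) * exp (I * (t / 2))) := by
  refine (Complex.continuous_ofReal.comp continuous_GG).mul ?_
  exact Complex.continuous_exp.comp (continuous_const.mul (Complex.continuous_ofReal.div_const 2))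

private theorem Jt_diff {σ τ : ℝ} (h0 : 0 < σ) (hστ : σ ≤ τ) (hσ : 1 ≤ zeta σ) :
    ‖Jt σ - Jt τ‖ ≤ 1 / zeta σ := by
  have h1 : Jt τ - Jt σ = ∫ t in σ..τ, (GG t : ℂ) * exp (I * (t / 2)) :=
    intervalIntegral.integral_interval_sub_left (continuous_fn.intervalIntegrable _ _)
      (continuous_fn.intervalIntegrable _ _)
  rw [norm_sub_rev, h1]
  refine (intervalIntegral.norm_integral_le_integral_norm hστ).trans ?_
  simp only [norm_fn]
  exact integral_GG_le h0 hστ hσ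

private theorem norm_Jt_one : ‖Jt 1‖ ≤ 1 := by
  unfold Jt
  refine (intervalIntegral.norm_integral_le_integral_norm zero_le_one).trans ?_
  simp only [norm_fn]
  have h1 : ∫ t in (0:ℝ)..1, GG t ≤ ∫ t in (0:ℝ)..1, (1 : ℝ) :=
    intervalIntegral.integral_mono_on zero_le_one (continuous_GG.intervalIntegrable _ _)
      (continuous_const.intervalIntegrable _ _) (fun t _ => GG_le_one t)
  simpa using h1

theorem exists_J : ∃ J : ℂ, (∀ τ, 0 < τ → 1 ≤ zeta τ → ‖Jt τ - J‖ ≤ 1 / zeta τ) ∧ ‖J‖ ≤ 2 := by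
  have hI : IntegrableOn (fun t : ℝ => (GG t : ℂ) * exp (I * (t / 2))) (Set.Ioi 0) := by
    refine integrableOn_Ioi_of_intervalIntegral_norm_bounded (b := fun T : ℝ => T) (l := atTop)
      2 0 (fun T => ?_) tendsto_id ?_
    · exact (continuous_fn.integrableOn_Icc (a := 0) (b := T)).mono_set Set.Ioc_subset_Icc_self
    · filter_upwards [eventually_ge_atTop 1] with T hT
      simp only [norm_fn]
      have h1 : ∫ t in (0:ℝ)..T, GG t = (∫ t in (0:ℝ)..1, GG t) + ∫ t in (1:ℝ)..T, GG t :=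
        (intervalIntegral.integral_add_adjacent_intervals
          (continuous_GG.intervalIntegrable _ _) (continuous_GG.intervalIntegrable _ _)).symm
      have h2 : ∫ t in (0:ℝ)..1, GG t ≤ ∫ t in (0:ℝ)..1, (1 : ℝ) :=
        intervalIntegral.integral_mono_on zero_le_one (continuous_GG.intervalIntegrable _ _)
          (continuous_const.intervalIntegrable _ _) (fun t _ => GG_le_one t)
      have h3 := integral_GG_le one_pos hT one_le_zeta_one
      have h4 : 1 / zeta 1 ≤ 1 := by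
        rw [div_le_one (lt_of_lt_of_le one_pos one_le_zeta_one)]
        exact one_le_zeta_one
      have h5 : ∫ t in (0:ℝ)..1, (1 : ℝ) = 1 := by simp
      rw [h5] at h2
      rw [h1]
      linarith
  have hT := intervalIntegral_tendsto_integral_Ioi 0 hI tendsto_id
  set J : ℂ := ∫ t in Set.Ioi (0:ℝ), (GG t : ℂ) * exp (I * (t / 2)) with hJ
  have hT' : Tendsto Jt atTop (nhds J) := hT
  have key : ∀ τ, 0 < τ → 1 ≤ zeta τ → ‖Jt τ - J‖ ≤ 1 / zeta τ := by
    intro τ h0 h1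
    have h2 : Tendsto (fun T => ‖Jt τ - Jt T‖) atTop (nhds ‖Jt τ - J‖) :=
      (tendsto_const_nhds.sub hT').norm
    refine le_of_tendsto h2 ?_
    filter_upwards [eventually_ge_atTop τ] with T hT2
    exact Jt_diff h0 hT2 h1
  refine ⟨J, key, ?_⟩
  have h1 := key 1 one_pos one_le_zeta_one
  have h2 := norm_Jt_one
  have h4 : 1 / zeta 1 ≤ 1 := by
    rw [div_le_one (lt_of_lt_of_le one_pos one_le_zeta_one)]
    exact one_le_zeta_one
  have h5 : J = Jt 1 - (Jt 1 - J) := by ring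
  calc ‖J‖ = ‖Jt 1 - (Jt 1 - J)‖ := by rw [← h5]
    _ ≤ ‖Jt 1‖ + ‖Jt 1 - J‖ := norm_sub_le _ _
    _ ≤ 2 := by linarith

/-- The scattering integral J = ∫_0^∞ (1+ζ²)^(-3/2) e^{it/2} dt. -/
noncomputable def JJ : ℂ := Classical.choose exists_J

theorem Jt_sub_le {τ : ℝ} (h0 : 0 < τ) (h : 1 ≤ zeta τ) : ‖Jt τ - JJ‖ ≤ 1 / zeta τ :=
  (Classical.choose_spec exists_J).1 τ h0 h

theorem norm_JJ_le : ‖JJ‖ ≤ 2 := (Classical.choose_spec exists_J).2

end IsoTB
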