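import Pool.Agent.Lib.MP_3f23fb_mp.N1
import Pool.Agent.Lib.MP_3f23fb_mp.M3

/-!
# MP_3f23fb_mp, module N2: the near kick

C from `near`, R₁ = R + 9τ/4. On [0,τ]: with a = dd r z ≥ 2/3, b = √(1+ζ²) ≥ 1, |a - b| ≤ |r-1| + |z-ζ| ≤ (3R₁ + C)μ,
|a^{-3} - b^{-3}| = |a-b|(a²+ab+b²)/(a³b³) = |a-b|(1/(a b³) + 1/(a²b²) + 1/(a³b)) ≤ 8|a-b|, so
|F - G| ≤ |r-1|/a³ + |a^{-3} - b^{-3}| ≤ C'μ. |φ(t) - t/2| ≤ ∫|Ω - 1/2| ≤ τ (5/2) R₁ μ, |e^{iφ} - e^{it/2}| ≤ |φ - t/2|, G ≤ 1. So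
‖F e^{iφ} - G e^{it/2}‖ ≤ C''μ; integrate over [0,τ].
-/

set_option autoImplicit false
set_option linter.unusedVariables false

open MeasureTheory intervalIntegral Complex

namespace IsoTB

private theorem N2_sqrt {r s z y : ℝ} (hr : 0 < r) (hs : 0 < s) :
    |√(r ^ 2 + z ^ 2) - √(s ^ 2 + y ^ 2)| ≤ |r - s| + |z - y| := by
  set A := √(r ^ 2 + z ^ 2) with hA
  set B := √(s ^ 2 + y ^ 2) with hB
  have hA2 : A ^ 2 = r ^ 2 + z ^ 2 := Real.sq_sqrt (by positivity)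
  have hB2 : B ^ 2 = s ^ 2 + y ^ 2 := Real.sq_sqrt (by positivity)
  have hrA : r ≤ A := le_dd_left z hr
  have hzA : |z| ≤ A := abs_le_dd_right r z
  have hsB : s ≤ B := le_dd_left y hs
  have hyB : |y| ≤ B := abs_le_dd_right s y
  have hAB : 0 < A + B := by linarith
  have e : (A - B) * (A + B) = (r - s) * (r + s) + (z - y) * (z + y) := by
    have : (A - B) * (A + B) = A ^ 2 - B ^ 2 := by ring
    rw [this, hA2, hB2]; ring
  have h1 : |A - B| * (A + B) ≤ (|r - s| + |z - y|) * (A + B) := by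
    calc |A - B| * (A + B) = |(A - B) * (A + B)| := by rw [abs_mul, abs_of_pos hAB]
      _ = |(r - s) * (r + s) + (z - y) * (z + y)| := by rw [e]
      _ ≤ |(r - s) * (r + s)| + |(z - y) * (z + y)| := abs_add_le _ _
      _ = |r - s| * |r + s| + |z - y| * |z + y| := by rw [abs_mul, abs_mul]
      _ ≤ |r - s| * (A + B) + |z - y| * (A + B) := by
          have h2 : |r + s| ≤ A + B := by rw [abs_of_pos (by linarith)]; linarith
          have h3 : |z + y| ≤ A + B := (abs_add_le _ _).trans (by linarith)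
          exact add_le_add (mul_le_mul_of_nonneg_left h2 (abs_nonneg _))
            (mul_le_mul_of_nonneg_left h3 (abs_nonneg _))
      _ = _ := by ring
  exact le_of_mul_le_mul_right h1 hAB

private theorem N2_cube {A B : ℝ} (hA : 2 / 3 ≤ A) (hB : 1 ≤ B) :
    |1 / A ^ 3 - 1 / B ^ 3| ≤ 8 * |A - B| := by
  have hA0 : 0 < A := by linarith
  have hB0 : 0 < B := by linarith
  set a := 1 / A with ha
  set b := 1 / B with hb
  have ha0 : 0 < a := by positivity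
  have hb0 : 0 < b := by positivity
  have haA : a ≤ 3 / 2 := by
    rw [ha, div_le_iff₀ hA0]; linarith
  have hbB : b ≤ 1 := by
    rw [hb, div_le_iff₀ hB0]; linarith
  have e : 1 / A ^ 3 - 1 / B ^ 3 = -((A - B) * (a * b * (a ^ 2 + a * b + b ^ 2))) := by
    rw [ha, hb]; field_simp; ring
  have h1 : 0 < a * b * (a ^ 2 + a * b + b ^ 2) := by positivity
  rw [e, abs_neg, abs_mul, mul_comm (8 : ℝ), abs_of_pos h1]
  apply mul_le_mul_of_nonneg_left _ (abs_nonneg _)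
  have h2 : a ^ 2 + a * b + b ^ 2 ≤ 19 / 4 := by nlinarith
  have h3 : a * b ≤ 3 / 2 := by nlinarith
  calc a * b * (a ^ 2 + a * b + b ^ 2) ≤ 3 / 2 * (19 / 4) :=
        mul_le_mul h3 h2 (by positivity) (by norm_num)
    _ ≤ 8 := by norm_num

private theorem N2_exp (a b : ℝ) : ‖exp (I * a) - exp (I * b)‖ ≤ |a - b| := by
  have e : exp (I * (a : ℂ)) - exp (I * (b : ℂ))
      = exp (I * (b : ℂ)) * (exp (I * ((a - b : ℝ) : ℂ)) - 1) := by
    rw [mul_sub, ← Complex.exp_add, mul_one]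
    congr 2
    push_cast
    ring
  rw [e, norm_mul, norm_exp_I_mul_ofReal, one_mul]
  exact Real.norm_exp_I_mul_ofReal_sub_one_le

private theorem N2_pull {μ k R₁ C : ℝ} (hR₁ : 0 ≤ R₁) (hC : 0 < C) (hμ : 0 < μ)
    (hμ' : μ ≤ 1 / 64) (hk : 0 < k) (x : Orb μ k) (t : ℝ) (hY : ‖x.Y t‖ ≤ R₁)
    (hz : |x.z t - zeta t| ≤ C * μ) : |x.F t - GG t| ≤ (35 * R₁ + 8 * C) * μ := by
  have hr := x.r_pos t
  have hb := (x.r_bounds hμ hμ' hk t).1
  have h2 := x.abs_r_sub_one_le hμ hμ' hk t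
  have h3 : |x.r t - 1| ≤ 3 * μ * R₁ :=
    h2.trans (mul_le_mul_of_nonneg_left hY (by positivity))
  set D := dd (x.r t) (x.z t) with hD
  have hDr : x.r t ≤ D := le_dd_left _ hr
  have hD0 : 0 < D := by linarith
  have h1 : (1 : ℝ) ≤ √(1 + zeta t ^ 2) := by
    rw [Real.one_le_sqrt]; nlinarith [sq_nonneg (zeta t)]
  have hs := N2_sqrt (r := x.r t) (s := 1) (z := x.z t) (y := zeta t) hr one_pos
  rw [one_pow] at hs
  have hs' : |D - √(1 + zeta t ^ 2)| ≤ |x.r t - 1| + |x.z t - zeta t| := hs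
  have hc := N2_cube (A := D) (B := √(1 + zeta t ^ 2)) (by linarith) h1
  have e : x.F t - GG t = (x.r t - 1) * (1 / D ^ 3) + (1 / D ^ 3 - 1 / √(1 + zeta t ^ 2) ^ 3) := by
    unfold Orb.F GG
    rw [← hD]
    ring
  have hD3 : 1 / D ^ 3 ≤ 27 / 8 := by
    rw [div_le_iff₀ (by positivity)]
    have h5 : (2 / 3 : ℝ) ^ 3 ≤ D ^ 3 := pow_le_pow_left₀ (by norm_num) (by linarith) 3
    norm_num at h5
    linarith
  have c1 := abs_add_le ((x.r t - 1) * (1 / D ^ 3)) (1 / D ^ 3 - 1 / √(1 + zeta t ^ 2) ^ 3)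
  rw [← e, abs_mul, abs_of_pos (show 0 < 1 / D ^ 3 by positivity)] at c1
  have c2 : |x.r t - 1| * (1 / D ^ 3) ≤ 3 * μ * R₁ * (27 / 8) :=
    mul_le_mul h3 hD3 (by positivity) (by positivity)
  have c3 : 0 ≤ μ * R₁ := by positivity
  linarith

private theorem N2_phase {μ k R₁ τ : ℝ} (hR₁ : 0 ≤ R₁) (hμ : 0 < μ)
    (hμ' : μ ≤ 1 / 64) (hk : 0 < k) (x : Orb μ k) {s : ℝ} (hs : 0 ≤ s) (hsτ : s ≤ τ)
    (hY : ∀ t ∈ Set.Icc 0 τ, ‖x.Y t‖ ≤ R₁) : |x.ph s - s / 2| ≤ 5 / 2 * τ * R₁ * μ := by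
  have e : x.ph s - s / 2 = ∫ t in (0:ℝ)..s, (x.Om t - 1 / 2) := by
    rw [intervalIntegral.integral_sub (x.continuous_Om.intervalIntegrable _ _)
      (continuous_const.intervalIntegrable _ _)]
    rw [intervalIntegral.integral_const]
    unfold Orb.ph
    simp only [smul_eq_mul]
    ring
  rw [e]
  have h1 : ‖∫ t in (0:ℝ)..s, (x.Om t - 1 / 2)‖ ≤ 5 / 2 * μ * R₁ * |s - 0| := by
    apply intervalIntegral.norm_integral_le_of_norm_le_const
    intro t ht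
    rw [Set.uIoc_of_le hs] at ht
    rw [Real.norm_eq_abs]
    have h2 := x.abs_Om_sub_half_le hμ hμ' hk t
    have h3 : 5 / 2 * μ * ‖x.Y t‖ ≤ 5 / 2 * μ * R₁ :=
      mul_le_mul_of_nonneg_left (hY t ⟨ht.1.le, ht.2.trans hsτ⟩) (by positivity)
    linarith
  rw [Real.norm_eq_abs, sub_zero, abs_of_nonneg hs] at h1
  have h4 : 5 / 2 * μ * R₁ * s ≤ 5 / 2 * μ * R₁ * τ :=
    mul_le_mul_of_nonneg_left hsτ (by positivity)
  linarith

theorem near_int (R K τ : ℝ) (hR : 0 ≤ R) (hK : 0 ≤ K) (hτ : 0 < τ) : ∃ C : ℝ, 0 < C ∧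
    ∀ {μ k : ℝ}, 0 < μ → μ ≤ 1 / 64 → 0 < k → k ≤ K → ∀ (x : Orb μ k), x.z 0 = 0 → 0 < x.w 0 → ‖x.Y 0‖ ≤ R →
      ‖(∫ s in (0:ℝ)..τ, (x.F s : ℂ) * exp (I * x.ph s)) - Jt τ‖ ≤ C * μ := by
  obtain ⟨C, hC, hnear⟩ := near R K τ hR hK hτ
  set R₁ := R + 9 / 4 * τ with hR₁
  have hR₁0 : 0 < R₁ := by positivity
  refine ⟨(35 * R₁ + 8 * C + 5 / 2 * τ * R₁) * τ, by positivity, ?_⟩
  intro μ k hμ hμ' hk hkK x hz hw hY
  have hYt : ∀ s ∈ Set.Icc 0 τ, ‖x.Y s‖ ≤ R₁ := by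
    intro s hs
    have h1 := x.norm_Y_le' hμ hμ' hk hs.1
    have h2 := hs.2
    linarith
  have hc1 : Continuous fun s : ℝ => (x.F s : ℂ) * exp (I * x.ph s) :=
    (continuous_ofReal.comp x.continuous_F).mul
      (continuous_exp.comp (continuous_const.mul (continuous_ofReal.comp x.continuous_ph)))
  have hc2 : Continuous fun s : ℝ => (GG s : ℂ) * exp (I * (s / 2)) :=
    (continuous_ofReal.comp continuous_GG).mul
      (continuous_exp.comp (continuous_const.mul (continuous_ofReal.div_const _)))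
  unfold Jt
  rw [← intervalIntegral.integral_sub (hc1.intervalIntegrable _ _) (hc2.intervalIntegrable _ _)]
  have hmain : ‖∫ s in (0:ℝ)..τ, ((x.F s : ℂ) * exp (I * x.ph s) - (GG s : ℂ) * exp (I * (s / 2)))‖
      ≤ (35 * R₁ + 8 * C + 5 / 2 * τ * R₁) * μ * |τ - 0| := by
    apply intervalIntegral.norm_integral_le_of_norm_le_const
    intro s hs
    rw [Set.uIoc_of_le hτ.le] at hs
    have hs' : s ∈ Set.Icc 0 τ := ⟨hs.1.le, hs.2⟩
    have e : (x.F s : ℂ) * exp (I * x.ph s) - (GG s : ℂ) * exp (I * (s / 2))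
        = ((x.F s - GG s : ℝ) : ℂ) * exp (I * x.ph s)
          + (GG s : ℂ) * (exp (I * x.ph s) - exp (I * ((s / 2 : ℝ) : ℂ))) := by
      push_cast
      ring
    rw [e]
    refine (norm_add_le _ _).trans ?_
    rw [norm_mul, norm_mul, norm_exp_I_mul_ofReal, mul_one, Complex.norm_real, Complex.norm_real,
      Real.norm_eq_abs, Real.norm_eq_abs, abs_of_pos (GG_pos s)]
    have h1 := N2_pull hR₁0.le hC hμ hμ' hk x s (hYt s hs') (hnear hμ hμ' hk hkK x hz hw hY s hs').1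
    have h2 := (N2_exp (x.ph s) (s / 2)).trans (N2_phase hR₁0.le hμ hμ' hk x hs'.1 hs'.2 hYt)
    have h3 : GG s * ‖exp (I * (x.ph s : ℂ)) - exp (I * ((s / 2 : ℝ) : ℂ))‖
        ≤ 1 * (5 / 2 * τ * R₁ * μ) :=
      mul_le_mul (GG_le_one s) h2 (norm_nonneg _) zero_le_one
    linarith
  rw [sub_zero, abs_of_pos hτ] at hmain
  linarith

end IsoTB
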