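import Pool.Agent.Lib.MP_3f23fb_mp.O1

/-!
# MP_3f23fb_mp, module O4: shape of a half orbit

On (0, t₁) z > 0, so w' = -(2+μ)z/D³ < 0: w is strictly decreasing on [0, t₁] (strictAntiOn_of_deriv_neg), z is concave on
[0, t₁] (ConcaveOn from antitone derivative, e.g. AntitoneOn.concaveOn_of_deriv), so z ≥ min(z a, z b) on [a,b]. Apex: w(0) > 0 >
w(t₁), intermediate value theorem and strict monotonicity.
-/

set_option autoImplicit false
set_option linter.unusedVariables false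

open MeasureTheory intervalIntegral

namespace IsoTB

namespace Orb

variable {μ k : ℝ} {x : Orb μ k}

theorem IsRet.w_anti (hμ : 0 < μ) {t₁ : ℝ} (h : x.IsRet t₁) : StrictAntiOn x.w (Set.Icc 0 t₁) := by
  refine strictAntiOn_of_deriv_neg (convex_Icc 0 t₁) x.continuous_w.continuousOn ?_
  intro t ht
  rw [interior_Icc] at ht
  rw [(x.dw t).deriv]
  have h1 := h.zpos t ht.1 ht.2
  have h2 : 0 < dd (x.r t) (x.z t) := dd_pos _ (x.r_pos t)
  have h3 : 0 < (2 + μ) * (x.z t / dd (x.r t) (x.z t) ^ 3) := by positivity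
  linarith

theorem IsRet.z_nonneg {t₁ : ℝ} (h : x.IsRet t₁) {t : ℝ} (h0 : 0 ≤ t) (h1 : t ≤ t₁) : 0 ≤ x.z t := by
  rcases h0.eq_or_lt with rfl | h0'
  · exact h.z0.ge
  rcases h1.eq_or_lt with rfl | h1'
  · exact h.z1.ge
  exact (h.zpos t h0' h1').le

theorem IsRet.min_le (hμ : 0 < μ) {t₁ : ℝ} (h : x.IsRet t₁) {a b t : ℝ} (ha : 0 ≤ a) (hat : a ≤ t) (htb : t ≤ b)
    (hb : b ≤ t₁) : min (x.z a) (x.z b) ≤ x.z t := by
  have hd : deriv x.z = x.w := funext fun s => (x.dz s).deriv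
  have hc : ConcaveOn ℝ (Set.Icc 0 t₁) x.z := by
    refine AntitoneOn.concaveOn_of_deriv (convex_Icc 0 t₁) x.continuous_z.continuousOn
      (fun s _ => (x.dz s).differentiableAt.differentiableWithinAt) ?_
    rw [hd]
    exact (h.w_anti hμ).antitoneOn.mono interior_subset
  have ha' : a ∈ Set.Icc 0 t₁ := ⟨ha, by linarith⟩
  have hb' : b ∈ Set.Icc 0 t₁ := ⟨by linarith, hb⟩
  refine hc.min_le_of_mem_Icc ha' hb' ⟨hat, htb⟩

theorem IsRet.exists_apex (hμ : 0 < μ) {t₁ : ℝ} (h : x.IsRet t₁) :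
    ∃ ta, 0 < ta ∧ ta < t₁ ∧ x.w ta = 0 ∧ (∀ t, 0 ≤ t → t < ta → 0 < x.w t) ∧
      (∀ t, ta < t → t ≤ t₁ → x.w t < 0) := by
  have hp := h.pos
  have hi : (0 : ℝ) ∈ Set.Icc (x.w t₁) (x.w 0) := ⟨h.w1.le, h.w0.le⟩
  obtain ⟨ta, hta, hw⟩ := intermediate_value_Icc' hp.le x.continuous_w.continuousOn hi
  have h0 : (0 : ℝ) ∈ Set.Icc 0 t₁ := ⟨le_refl _, hp.le⟩
  have h1 : t₁ ∈ Set.Icc 0 t₁ := ⟨hp.le, le_refl _⟩
  have ha := h.w_anti hμ
  have hne0 : ta ≠ 0 := by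
    intro e
    rw [e] at hw
    exact absurd hw h.w0.ne'
  have hne1 : ta ≠ t₁ := by
    intro e
    rw [e] at hw
    exact absurd hw h.w1.ne
  refine ⟨ta, lt_of_le_of_ne hta.1 (Ne.symm hne0), lt_of_le_of_ne hta.2 hne1, hw, ?_, ?_⟩
  · intro t ht0 ht
    have := ha (show t ∈ Set.Icc 0 t₁ from ⟨ht0, by linarith [hta.2]⟩) hta ht
    linarith
  · intro t ht ht1
    have := ha hta (show t ∈ Set.Icc 0 t₁ from ⟨by linarith [hta.1], ht1⟩) ht
    linarith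

end Orb

end IsoTB
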