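import Pool.Agent.Lib.MP_3f23fb_mp.O1

/-!
# MP_3f23fb_mp, module O5: the kick of the far zone

If z ≥ Z ≥ 1 on [a,b] then F = r/D³ and -w' = (2+μ) z/D³, so F = (r/((2+μ)z)) (-w') ≤ (3/(4Z)) (-w') (r ≤ 3/2, 2+μ ≥ 2, -w' ≥ 0).
Integrate: ∫ F ≤ (3/(4Z)) (w(a) - w(b)) ≤ (3/(4Z))·5 ≤ 4/Z, because |w| ≤ 5/2.
-/

set_option autoImplicit false
set_option linter.unusedVariables false

open MeasureTheory intervalIntegral

namespace IsoTB

namespace Orb

variable {μ k : ℝ} (x : Orb μ k)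

theorem far_kick (hμ : 0 < μ) (hμ' : μ ≤ 1 / 64) (hk : 0 < k) {a b Z : ℝ} (hab : a ≤ b) (hZ : 1 ≤ Z)
    (hz : ∀ t ∈ Set.Icc a b, Z ≤ x.z t) : ∫ s in a..b, x.F s ≤ 4 / Z := by
  have hZ0 : 0 < Z := by linarith
  have hcont : Continuous fun t => 3 / (4 * Z) * ((2 + μ) * (x.z t / x.D t ^ 3)) := by
    refine continuous_const.mul (continuous_const.mul (x.continuous_z.div (x.continuous_D.pow 3) ?_))
    intro t
    exact pow_ne_zero 3 (x.D_pos t).ne'
  have h1 : ∫ s in a..b, x.F s ≤ ∫ s in a..b, 3 / (4 * Z) * ((2 + μ) * (x.z s / x.D s ^ 3)) := by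
    refine integral_mono_on hab (x.continuous_F.intervalIntegrable _ _)
      (hcont.intervalIntegrable _ _) ?_
    intro t ht
    have hz1 := hz t ht
    have hD := x.D_pos t
    have hr := (x.r_bounds hμ hμ' hk t).2
    have hr0 := x.r_pos t
    have e1 : x.F t = x.r t / x.D t ^ 3 := rfl
    have e2 : 3 / (4 * Z) * ((2 + μ) * (x.z t / x.D t ^ 3)) =
        (3 / (4 * Z) * (2 + μ) * x.z t) / x.D t ^ 3 := by ring
    rw [e1, e2]
    refine div_le_div_of_nonneg_right ?_ (by positivity)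
    have h2 : 3 / (4 * Z) * (2 + μ) * x.z t ≥ 3 / (4 * Z) * 2 * Z := by
      have h3 : 0 < 3 / (4 * Z) := by positivity
      have h4 : 2 * Z ≤ (2 + μ) * x.z t := by nlinarith
      nlinarith
    have h5 : 3 / (4 * Z) * 2 * Z = 3 / 2 := by
      field_simp
      norm_num
    linarith
  have h2 : ∫ s in a..b, (2 + μ) * (x.z s / x.D s ^ 3) = x.w a - x.w b := by
    have h3 : ∫ s in a..b, -((2 + μ) * (x.z s / x.D s ^ 3)) = x.w b - x.w a := by
      refine integral_eq_sub_of_hasDerivAt (fun t _ => x.dw t) ?_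
      refine Continuous.intervalIntegrable ?_ _ _
      refine (continuous_const.mul (x.continuous_z.div (x.continuous_D.pow 3) ?_)).neg
      intro t
      exact pow_ne_zero 3 (x.D_pos t).ne'
    rw [intervalIntegral.integral_neg] at h3
    linarith
  rw [intervalIntegral.integral_const_mul, h2] at h1
  have ha := abs_le.1 (x.abs_w_le hμ hμ' hk a)
  have hb := abs_le.1 (x.abs_w_le hμ hμ' hk b)
  have h3 : 3 / (4 * Z) * (x.w a - x.w b) ≤ 3 / (4 * Z) * 5 :=
    mul_le_mul_of_nonneg_left (by linarith [ha.2, hb.1]) (by positivity)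
  have h4 : 3 / (4 * Z) * 5 ≤ 4 / Z := by
    rw [div_mul_eq_mul_div, div_le_div_iff₀ (by positivity) hZ0]
    nlinarith
  linarith

end Orb

end IsoTB
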