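import Pool.Agent.Lib.MP_3f23fb_mp.Defs

/-!
# MP_3f23fb_mp, module O1: a priori bounds

Let μ ∈ (0, 1/64], k > 0, u = 1/r. From `en`: (1-u)²/4 ≤ 2μ/D - μ²k ≤ 2μ/r = 2μu ≤ u/32 (because D ≥ r), so (1-u)² ≤ u/8;
if u ≥ 3/2 then (u-1)² - u/8 ≥ 1/4 - 3/16 > 0, if u ≤ 2/3 then (1-u)² - u/8 ≥ 1/9 - 1/12 > 0 (nlinarith); hence 2/3 < r < 3/2.
`w_sq`: p² + (1-1/r)²/4 = μ²‖Y‖²; solve `en` for w². All other bounds follow: w² ≤ (2+μ)·2/D ≤ (2 + 1/64)·2·(3/2) ≤ 25/4;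
0 ≤ w² gives 2/D ≥ μ(‖Y‖²+k) ≥ μk; F = r/D³ ≤ r/r³ ≤ 9/4; Ω = 1/(2r²) ≤ 9/8; |1/r - 1| = 2μ|Re Y| ≤ 2μ‖Y‖, so
|r - 1| ≤ r·2μ‖Y‖ ≤ 3μ‖Y‖ and |Ω - 1/2| = |u-1||u+1|/2 ≤ 2μ‖Y‖·(5/2)/2.
-/

set_option autoImplicit false
set_option linter.unusedVariables false

open MeasureTheory intervalIntegral

namespace IsoTB

theorem dd_pos {r : ℝ} (z : ℝ) (hr : 0 < r) : 0 < dd r z :=
  Real.sqrt_pos.2 (by positivity)

theorem dd_sq (r z : ℝ) : dd r z ^ 2 = r ^ 2 + z ^ 2 :=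
  Real.sq_sqrt (by positivity)

theorem le_dd_left {r : ℝ} (z : ℝ) (hr : 0 < r) : r ≤ dd r z :=
  (Real.le_sqrt' hr).2 (by nlinarith [sq_nonneg z])

theorem abs_le_dd_right (r z : ℝ) : |z| ≤ dd r z :=
  Real.abs_le_sqrt (by nlinarith [sq_nonneg r])

theorem dd_le_add {r : ℝ} (z : ℝ) (hr : 0 < r) : dd r z ≤ r + |z| := by
  refine Real.sqrt_le_iff.2 ⟨by positivity, ?_⟩
  have h1 : |z| ^ 2 = z ^ 2 := sq_abs z
  have h2 : 0 ≤ r * |z| := by positivity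
  nlinarith

namespace Orb

variable {μ k : ℝ} (x : Orb μ k)

theorem continuous_r : Continuous x.r :=
  continuous_iff_continuousAt.2 fun t => (x.dr t).continuousAt

theorem continuous_p : Continuous x.p :=
  continuous_iff_continuousAt.2 fun t => (x.dp t).continuousAt

theorem continuous_z : Continuous x.z :=
  continuous_iff_continuousAt.2 fun t => (x.dz t).continuousAt

theorem continuous_w : Continuous x.w :=
  continuous_iff_continuousAt.2 fun t => (x.dw t).continuousAt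

theorem continuous_D : Continuous x.D := by
  unfold D dd
  exact ((x.continuous_r.pow 2).add (x.continuous_z.pow 2)).sqrt

theorem continuous_F : Continuous x.F := by
  unfold F
  exact x.continuous_r.div (x.continuous_D.pow 3)
    (fun t => pow_ne_zero 3 (dd_pos (x.z t) (x.r_pos t)).ne')

theorem continuous_Om : Continuous x.Om := by
  unfold Om
  exact continuous_const.div (continuous_const.mul (x.continuous_r.pow 2))
    (fun t => mul_ne_zero two_ne_zero (pow_ne_zero 2 (x.r_pos t).ne'))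

theorem continuous_Y : Continuous x.Y := by
  have h1 : x.Y = fun t => (((1 - 1 / x.r t) / (2 * μ) : ℝ) : ℂ) +
      ((x.p t / μ : ℝ) : ℂ) * Complex.I := by
    funext t
    exact Complex.mk_eq_add_mul_I _ _
  rw [h1]
  refine Continuous.add ?_ ?_
  · exact Complex.continuous_ofReal.comp ((continuous_const.sub
      (continuous_const.div x.continuous_r (fun t => (x.r_pos t).ne'))).div_const _)
  · exact (Complex.continuous_ofReal.comp (x.continuous_p.div_const _)).mul continuous_const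

theorem ph_deriv (t : ℝ) : HasDerivAt x.ph (x.Om t) t :=
  (x.continuous_Om.integral_hasStrictDerivAt 0 t).hasDerivAt

theorem continuous_ph : Continuous x.ph :=
  continuous_iff_continuousAt.2 fun t => (x.ph_deriv t).continuousAt

theorem D_pos (t : ℝ) : 0 < x.D t := dd_pos (x.z t) (x.r_pos t)

theorem F_pos (t : ℝ) : 0 < x.F t := div_pos (x.r_pos t) (pow_pos (x.D_pos t) 3)

theorem Om_pos (t : ℝ) : 0 < x.Om t := by
  have := x.r_pos t
  unfold Om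
  positivity

private theorem normY (hμ : 0 < μ) (t : ℝ) :
    μ ^ 2 * ‖x.Y t‖ ^ 2 = x.p t ^ 2 + (1 - 1 / x.r t) ^ 2 / 4 := by
  rw [Complex.sq_norm, Complex.normSq_apply]
  simp only [Y]
  field_simp
  ring

theorem w_sq (hμ : 0 < μ) (t : ℝ) :
    x.w t ^ 2 = (2 + μ) * (2 / x.D t - μ * (‖x.Y t‖ ^ 2 + k)) := by
  have h1 := x.en t
  have h2 := x.normY hμ t
  have h3 : dd (x.r t) (x.z t) = x.D t := rfl
  rw [h3] at h1
  have h4 : 0 < 2 + μ := by linarith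
  have h5 : μ * (x.w t ^ 2 / (2 + μ)) = μ * (2 / x.D t - μ * (‖x.Y t‖ ^ 2 + k)) := by
    linear_combination h1 + h2
  have h6 := mul_left_cancel₀ hμ.ne' h5
  rw [div_eq_iff h4.ne'] at h6
  rw [h6]
  ring

private theorem inv_D_le (t : ℝ) : 1 / x.D t ≤ 1 / x.r t :=
  one_div_le_one_div_of_le (x.r_pos t) (le_dd_left (x.z t) (x.r_pos t))

theorem r_bounds (hμ : 0 < μ) (hμ' : μ ≤ 1 / 64) (hk : 0 < k) (t : ℝ) :
    2 / 3 < x.r t ∧ x.r t < 3 / 2 := by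
  have h1 := x.en t
  have h3 : dd (x.r t) (x.z t) = x.D t := rfl
  rw [h3] at h1
  have hr := x.r_pos t
  have hD := x.D_pos t
  have hi := x.inv_D_le t
  set u := 1 / x.r t with hu
  have hu0 : 0 < u := by positivity
  have h4 : 0 ≤ μ * (x.w t ^ 2 / (2 + μ)) := by positivity
  have h5 : 2 / x.D t = 2 * (1 / x.D t) := by ring
  have h6 : μ * (1 / x.D t) ≤ μ * u := mul_le_mul_of_nonneg_left hi hμ.le
  have h7 : μ * u ≤ 1 / 64 * u := mul_le_mul_of_nonneg_right hμ' hu0.le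
  have h8 : 0 < μ ^ 2 * k := by positivity
  have h9 : (1 - u) ^ 2 ≤ u / 8 := by
    rw [h5] at h1
    nlinarith [sq_nonneg (x.p t)]
  have h10 : u < 3 / 2 := by nlinarith
  have h11 : 2 / 3 < u := by nlinarith
  have h12 : x.r t * u = 1 := by
    rw [hu]
    field_simp
  constructor
  · by_contra hc
    push Not at hc
    nlinarith
  · by_contra hc
    push Not at hc
    nlinarith

/-- Energy: μ(‖Y‖² + k) ≤ 2/D. -/
theorem energy_le (hμ : 0 < μ) (t : ℝ) : μ * (‖x.Y t‖ ^ 2 + k) ≤ 2 / x.D t := by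
  have h1 := x.w_sq hμ t
  have h2 := sq_nonneg (x.w t)
  by_contra hc
  push Not at hc
  have h3 : (2 + μ) * (2 / x.D t - μ * (‖x.Y t‖ ^ 2 + k)) < 0 :=
    mul_neg_of_pos_of_neg (by linarith) (by linarith)
  linarith

theorem D_le (hμ : 0 < μ) (hk : 0 < k) (t : ℝ) : x.D t ≤ 2 / (μ * k) := by
  have h1 := x.energy_le hμ t
  have hD := x.D_pos t
  have h2 : μ * k ≤ 2 / x.D t := by
    have : 0 ≤ μ * ‖x.Y t‖ ^ 2 := by positivity
    nlinarith
  rw [le_div_iff₀ hD] at h2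
  rw [le_div_iff₀ (by positivity)]
  linarith

private theorem inv_D_lt (hμ : 0 < μ) (hμ' : μ ≤ 1 / 64) (hk : 0 < k) (t : ℝ) :
    1 / x.D t ≤ 3 / 2 := by
  have h1 := (x.r_bounds hμ hμ' hk t).1
  refine (x.inv_D_le t).trans ?_
  rw [div_le_iff₀ (x.r_pos t)]
  linarith

theorem abs_w_le (hμ : 0 < μ) (hμ' : μ ≤ 1 / 64) (hk : 0 < k) (t : ℝ) : |x.w t| ≤ 5 / 2 := by
  refine abs_le_of_sq_le_sq ?_ (by norm_num)
  rw [x.w_sq hμ t]
  have h1 := x.inv_D_lt hμ hμ' hk t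
  have h2 : 0 ≤ μ * (‖x.Y t‖ ^ 2 + k) := by positivity
  have h3 : 2 / x.D t = 2 * (1 / x.D t) := by ring
  have h4 : 2 / x.D t - μ * (‖x.Y t‖ ^ 2 + k) ≤ 3 := by
    rw [h3]
    linarith
  have h5 : (2 + μ) * (2 / x.D t - μ * (‖x.Y t‖ ^ 2 + k)) ≤ (2 + μ) * 3 :=
    mul_le_mul_of_nonneg_left h4 (by linarith)
  refine h5.trans ?_
  norm_num
  linarith

theorem F_le (hμ : 0 < μ) (hμ' : μ ≤ 1 / 64) (hk : 0 < k) (t : ℝ) : x.F t ≤ 9 / 4 := by
  have hr := x.r_pos t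
  have h1 := (x.r_bounds hμ hμ' hk t).1
  have h2 : x.r t ≤ x.D t := le_dd_left (x.z t) hr
  have h3 : x.r t ^ 3 ≤ x.D t ^ 3 := pow_le_pow_left₀ hr.le h2 3
  have h4 : x.F t ≤ x.r t / x.r t ^ 3 :=
    div_le_div_of_nonneg_left hr.le (by positivity) h3
  refine h4.trans ?_
  rw [div_le_iff₀ (by positivity)]
  have h5 : 4 / 9 ≤ x.r t ^ 2 := by nlinarith
  have h6 : x.r t ^ 3 = x.r t ^ 2 * x.r t := by ring
  rw [h6]
  nlinarith

theorem Om_le (hμ : 0 < μ) (hμ' : μ ≤ 1 / 64) (hk : 0 < k) (t : ℝ) : x.Om t ≤ 9 / 8 := by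
  have hr := x.r_pos t
  have h1 := (x.r_bounds hμ hμ' hk t).1
  unfold Om
  rw [div_le_iff₀ (by positivity)]
  nlinarith

private theorem abs_one_sub_le (hμ : 0 < μ) (t : ℝ) :
    |1 - 1 / x.r t| ≤ 2 * μ * ‖x.Y t‖ := by
  have h1 : |(x.Y t).re| ≤ ‖x.Y t‖ := Complex.abs_re_le_norm _
  have h2 : 1 - 1 / x.r t = 2 * μ * (x.Y t).re := by
    simp only [Y]
    field_simp
  rw [h2, abs_mul, abs_of_pos (by positivity)]
  exact mul_le_mul_of_nonneg_left h1 (by positivity)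

theorem abs_r_sub_one_le (hμ : 0 < μ) (hμ' : μ ≤ 1 / 64) (hk : 0 < k) (t : ℝ) :
    |x.r t - 1| ≤ 3 * μ * ‖x.Y t‖ := by
  have hr := x.r_pos t
  have h1 := x.abs_one_sub_le hμ t
  have h2 : x.r t - 1 = x.r t * (1 - 1 / x.r t) := by field_simp
  rw [h2, abs_mul, abs_of_pos hr]
  have h3 : x.r t * |1 - 1 / x.r t| ≤ 3 / 2 * (2 * μ * ‖x.Y t‖) :=
    mul_le_mul (x.r_bounds hμ hμ' hk t).2.le h1 (abs_nonneg _) (by norm_num)
  linarith

theorem abs_Om_sub_half_le (hμ : 0 < μ) (hμ' : μ ≤ 1 / 64) (hk : 0 < k) (t : ℝ) :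
    |x.Om t - 1 / 2| ≤ 5 / 2 * μ * ‖x.Y t‖ := by
  have hr := x.r_pos t
  have h1 := x.abs_one_sub_le hμ t
  have hb := (x.r_bounds hμ hμ' hk t).1
  have h2 : x.Om t - 1 / 2 = -((1 - 1 / x.r t) * ((1 + 1 / x.r t) / 2)) := by
    unfold Om
    field_simp
    ring
  have h3 : 1 / x.r t ≤ 3 / 2 := by
    rw [div_le_iff₀ hr]
    linarith
  have h4 : 0 < 1 / x.r t := by positivity
  rw [h2, abs_neg, abs_mul, abs_of_pos (show 0 < (1 + 1 / x.r t) / 2 by positivity)]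
  have h5 : |1 - 1 / x.r t| * ((1 + 1 / x.r t) / 2) ≤ 2 * μ * ‖x.Y t‖ * (5 / 4) :=
    mul_le_mul h1 (by linarith) (by positivity) (by positivity)
  linarith

end Orb

end IsoTB
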