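import Pool.Agent.Lib.MP_3f23fb_mp.O1b

/-!
# MP_3f23fb_mp, module O2: variation of the amplitude

(1) Y' = -iΩY - iF: the real part of Y is (1-1/r)/(2μ), derivative p/(2μr²) = Ω·Im Y; the imaginary part is p/μ, derivative
(1/(4r³) - 1/(4r²))/μ - F = -Ω·Re Y - F, because 1/(4r³) - 1/(4r²) = -(1/(2r²))·(1-1/r)/2. (HasDerivAt of a complex valued function
of a real variable: write Y t = (Re : ℂ) + I (Im : ℂ), use HasDerivAt.ofReal_comp.)
(2) (Y e^{iφ})' = -iF e^{iφ}, φ' = Ω; integrate (integral_eq_sub_of_hasDerivAt, continuity from O1).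
(3) norms: |e^{iφ}| = 1 and |∫ F e^{iφ}| ≤ ∫ F (F > 0), F ≤ 9/4.
-/

set_option autoImplicit false
set_option linter.unusedVariables false

open MeasureTheory intervalIntegral Complex

namespace IsoTB

namespace Orb

variable {μ k : ℝ} (x : Orb μ k)

theorem Y_deriv (hμ : 0 < μ) (t : ℝ) :
    HasDerivAt x.Y (-I * x.Om t * x.Y t - I * x.F t) t := by
  have hr := x.r_pos t
  have h1 : HasDerivAt (fun s => (1 - 1 / x.r s) / (2 * μ)) (x.p t / (x.r t ^ 2) / (2 * μ)) t := by
    have h2 : HasDerivAt (fun s => 1 - 1 / x.r s) (x.p t / x.r t ^ 2) t := by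
      have h3 := ((x.dr t).inv hr.ne').const_sub 1
      have h4 : -(-x.p t / x.r t ^ 2) = x.p t / x.r t ^ 2 := by ring
      rw [h4] at h3
      refine h3.congr_of_eventuallyEq (Filter.Eventually.of_forall fun s => ?_)
      simp
    exact h2.div_const _
  have h2 : HasDerivAt (fun s => x.p s / μ)
      ((1 / (4 * x.r t ^ 3) - 1 / (4 * x.r t ^ 2) - μ * (x.r t / dd (x.r t) (x.z t) ^ 3)) / μ) t :=
    (x.dp t).div_const _
  have h3 := h1.ofReal_comp.add (h2.ofReal_comp.mul_const I)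
  have hfun : x.Y = (fun s => (((1 - 1 / x.r s) / (2 * μ) : ℝ) : ℂ)) +
      fun s => ((x.p s / μ : ℝ) : ℂ) * I := by
    funext s
    exact Complex.mk_eq_add_mul_I _ _
  have h4 : HasDerivAt x.Y (((x.p t / (x.r t ^ 2) / (2 * μ) : ℝ) : ℂ) +
      (((1 / (4 * x.r t ^ 3) - 1 / (4 * x.r t ^ 2) - μ * (x.r t / dd (x.r t) (x.z t) ^ 3)) / μ
        : ℝ) : ℂ) * I) t := by
    rw [hfun]
    exact h3
  refine h4.congr_deriv ?_
  have hF : x.F t = x.r t / dd (x.r t) (x.z t) ^ 3 := rfl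
  rw [← hF, ← Complex.mk_eq_add_mul_I]
  have hr0 := hr.ne'
  apply Complex.ext
  · simp only [Orb.Y, Orb.Om, Complex.sub_re, Complex.mul_re, Complex.neg_re, Complex.neg_im,
      Complex.I_re, Complex.I_im, Complex.ofReal_re, Complex.ofReal_im, Complex.mul_im]
    field_simp
    ring
  · simp only [Orb.Y, Orb.Om, Complex.sub_im, Complex.mul_re, Complex.neg_re, Complex.neg_im,
      Complex.I_re, Complex.I_im, Complex.ofReal_re, Complex.ofReal_im, Complex.mul_im]
    field_simp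
    ring

theorem O2_cont_int : Continuous fun s => (x.F s : ℂ) * exp (I * x.ph s) := by
  have h1 := x.continuous_F
  have h2 := x.continuous_ph
  exact (Complex.continuous_ofReal.comp h1).mul
    (Complex.continuous_exp.comp (continuous_const.mul (Complex.continuous_ofReal.comp h2)))

/-- The exact variation formula for the amplitude. -/
theorem Y_formula (hμ : 0 < μ) (a b : ℝ) :
    x.Y b * exp (I * x.ph b) = x.Y a * exp (I * x.ph a) - I * ∫ s in a..b, (x.F s : ℂ) * exp (I * x.ph s) := by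
  have hder : ∀ t, HasDerivAt (fun s => x.Y s * exp (I * x.ph s))
      (-I * ((x.F t : ℂ) * exp (I * x.ph t))) t := by
    intro t
    have h1 := x.Y_deriv hμ t
    have h2 : HasDerivAt (fun s => I * (x.ph s : ℂ)) (I * (x.Om t : ℂ)) t :=
      (x.ph_deriv t).ofReal_comp.const_mul I
    have h3 := h1.mul h2.cexp
    refine h3.congr_deriv ?_
    ring
  have h4 := integral_eq_sub_of_hasDerivAt (a := a) (b := b) (fun t _ => hder t)
    ((continuous_const.mul x.O2_cont_int).intervalIntegrable _ _)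
  rw [intervalIntegral.integral_const_mul] at h4
  linear_combination -h4

theorem O2_norm_exp (t : ℝ) : ‖exp (I * x.ph t)‖ = 1 := by
  rw [mul_comm]
  exact Complex.norm_exp_ofReal_mul_I _

theorem norm_integral_le {a b : ℝ} (hab : a ≤ b) :
    ‖∫ s in a..b, (x.F s : ℂ) * exp (I * x.ph s)‖ ≤ ∫ s in a..b, x.F s := by
  refine (intervalIntegral.norm_integral_le_integral_norm hab).trans (le_of_eq ?_)
  refine intervalIntegral.integral_congr fun s _ => ?_
  change ‖(x.F s : ℂ) * exp (I * x.ph s)‖ = x.F s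
  rw [norm_mul, O2_norm_exp, mul_one, Complex.norm_real, Real.norm_of_nonneg (x.F_pos s).le]

theorem norm_Y_le (hμ : 0 < μ) {a b : ℝ} (hab : a ≤ b) : ‖x.Y b‖ ≤ ‖x.Y a‖ + ∫ s in a..b, x.F s := by
  have h1 : ‖x.Y b‖ = ‖x.Y b * exp (I * x.ph b)‖ := by
    rw [norm_mul, O2_norm_exp, mul_one]
  have h2 : ‖x.Y a‖ = ‖x.Y a * exp (I * x.ph a)‖ := by
    rw [norm_mul, O2_norm_exp, mul_one]
  rw [h1, h2, x.Y_formula hμ a b]
  refine (norm_sub_le _ _).trans ?_
  have h3 : ‖I * ∫ s in a..b, (x.F s : ℂ) * exp (I * x.ph s)‖ ≤ ∫ s in a..b, x.F s := by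
    rw [norm_mul, Complex.norm_I, one_mul]
    exact x.norm_integral_le hab
  linarith

theorem norm_Y_le' (hμ : 0 < μ) (hμ' : μ ≤ 1 / 64) (hk : 0 < k) {a b : ℝ} (hab : a ≤ b) :
    ‖x.Y b‖ ≤ ‖x.Y a‖ + 9 / 4 * (b - a) := by
  refine (x.norm_Y_le hμ hab).trans ?_
  have h1 : ∫ s in a..b, x.F s ≤ ∫ s in a..b, (9 / 4 : ℝ) :=
    intervalIntegral.integral_mono_on hab (x.continuous_F.intervalIntegrable _ _)
      (continuous_const.intervalIntegrable _ _) fun s _ => x.F_le hμ hμ' hk s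
  rw [intervalIntegral.integral_const, smul_eq_mul] at h1
  linarith

end Orb

end IsoTB
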