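import Pool.Agent.Lib.MP_3f23fb_mp.O1

/-!
# MP_3f23fb_mp, module O3: existence of the return time

Let z(0) = 0, w(0) > 0. There is δ > 0 with z > 0 on (0, δ]. 
(1) Suppose z(t) ≤ 0 for some t > 0 (then t > δ). Let t₁ = inf {t ≥ δ : z(t) ≤ 0} (closed, nonempty, bounded below): z(t₁) = 0 (≤ 0 by
closedness, ≥ 0 by continuity from the left), z > 0 on (0, t₁). On (0, t₁) w' = -(2+μ)z/D³ < 0, so w is strictly decreasing on
[0, t₁]; by Rolle there is c ∈ (0, t₁) with w(c) = 0, hence w(t₁) < 0.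
(2) Suppose z > 0 on (0, ∞). w is strictly decreasing on [0, ∞). If w(c) ≤ 0 for some c > 0 then w ≤ w(c+1) < 0 on [c+1, ∞) and
z(t) ≤ z(c+1) + w(c+1)(t - c - 1) becomes negative: contradiction. So w > 0 on (0, ∞), z is increasing, z ≥ z(1) > 0 on [1, ∞),
D ≤ 2/(μk), so w' ≤ -c₀ with c₀ = (2+μ) z(1) (μk/2)³ > 0 on [1,∞) and w(t) ≤ w(1) - c₀(t-1) becomes negative: contradiction.
(Use monotonicity of t ↦ w(t) + c₀ t, antitoneOn_of_deriv_nonpos.)
-/

set_option autoImplicit false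
set_option linter.unusedVariables false

open MeasureTheory intervalIntegral

namespace IsoTB

theorem O3_low {f f' : ℝ → ℝ} (hf : ∀ t, HasDerivAt f (f' t) t) {a b c : ℝ} (hab : a ≤ b)
    (h : ∀ t ∈ Set.Icc a b, c ≤ f' t) : c * (b - a) ≤ f b - f a :=
  (convex_Icc a b).mul_sub_le_image_sub_of_le_deriv
    (fun t _ => (hf t).continuousAt.continuousWithinAt)
    (fun t _ => (hf t).differentiableAt.differentiableWithinAt)
    (fun t ht => by rw [(hf t).deriv]; exact h t (interior_subset ht))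
    a (Set.left_mem_Icc.2 hab) b (Set.right_mem_Icc.2 hab) hab

theorem O3_up {f f' : ℝ → ℝ} (hf : ∀ t, HasDerivAt f (f' t) t) {a b c : ℝ} (hab : a ≤ b)
    (h : ∀ t ∈ Set.Icc a b, f' t ≤ c) : f b - f a ≤ c * (b - a) :=
  (convex_Icc a b).image_sub_le_mul_sub_of_deriv_le
    (fun t _ => (hf t).continuousAt.continuousWithinAt)
    (fun t _ => (hf t).differentiableAt.differentiableWithinAt)
    (fun t ht => by rw [(hf t).deriv]; exact h t (interior_subset ht))
    a (Set.left_mem_Icc.2 hab) b (Set.right_mem_Icc.2 hab) hab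

namespace Orb

variable {μ k : ℝ} (x : Orb μ k)

/-- `w` is strictly decreasing where `z > 0`. -/
theorem O3_anti (hμ : 0 < μ) {a b : ℝ} (hz : ∀ t ∈ Set.Ioo a b, 0 < x.z t) :
    StrictAntiOn x.w (Set.Icc a b) := by
  refine strictAntiOn_of_deriv_neg (convex_Icc a b) x.continuous_w.continuousOn fun t ht => ?_
  rw [interior_Icc] at ht
  rw [(x.dw t).deriv]
  have h1 := hz t ht
  have h2 : 0 < dd (x.r t) (x.z t) := dd_pos _ (x.r_pos t)
  have : 0 < (2 + μ) * (x.z t / dd (x.r t) (x.z t) ^ 3) := by positivity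
  linarith

theorem exists_isRet (hμ : 0 < μ) (hμ' : μ ≤ 1 / 64) (hk : 0 < k) (h0 : x.z 0 = 0) (hw : 0 < x.w 0) :
    ∃ t₁, x.IsRet t₁ := by
  have hcz := x.continuous_z
  have hcw := x.continuous_w
  -- z > 0 on (0, δ]
  obtain ⟨δ, hδ, hδz⟩ : ∃ δ : ℝ, 0 < δ ∧ ∀ t, 0 < t → t ≤ δ → 0 < x.z t := by
    have h1 : ∀ᶠ t in nhds (0 : ℝ), x.w 0 / 2 < x.w t :=
      hcw.continuousAt.eventually_const_lt (by linarith)
    obtain ⟨ε, hε, h2⟩ := Metric.eventually_nhds_iff.1 h1
    refine ⟨ε / 2, by linarith, fun t ht0 ht1 => ?_⟩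
    have h3 := O3_low x.dz ht0.le (c := x.w 0 / 2) fun s hs => by
      refine (h2 ?_).le
      rw [Real.dist_eq, sub_zero, abs_of_nonneg hs.1]
      linarith [hs.2]
    rw [h0] at h3
    have h4 : 0 < x.w 0 / 2 * (t - 0) := by
      rw [sub_zero]
      positivity
    linarith
  by_cases hex : ∃ t, 0 < t ∧ x.z t ≤ 0
  · obtain ⟨s, hs0, hs1⟩ := hex
    have hsδ : δ < s := by
      by_contra hc
      rw [not_lt] at hc
      have := hδz s hs0 hc
      linarith
    have hcpt : IsCompact {t | t ∈ Set.Icc δ s ∧ x.z t ≤ 0} :=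
      isCompact_Icc.inter_right (isClosed_le hcz continuous_const)
    obtain ⟨t₁, ⟨ht₁, hzt₁⟩, hmin⟩ := hcpt.exists_isLeast ⟨s, ⟨hsδ.le, le_rfl⟩, hs1⟩
    have ht0 : 0 < t₁ := hδ.trans_le ht₁.1
    have hpos : ∀ t, 0 < t → t < t₁ → 0 < x.z t := by
      intro t h1 h2
      rcases le_total t δ with h3 | h3
      · exact hδz t h1 h3
      · by_contra hc
        rw [not_lt] at hc
        exact absurd (hmin ⟨⟨h3, h2.le.trans ht₁.2⟩, hc⟩) (not_le.2 h2)
    have hz1 : x.z t₁ = 0 := by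
      refine le_antisymm hzt₁ ?_
      by_contra hc
      rw [not_le] at hc
      have h1 : ∀ᶠ t in nhds t₁, x.z t < 0 := hcz.continuousAt.eventually_lt_const hc
      obtain ⟨ε, hε, h2⟩ := Metric.eventually_nhds_iff.1 h1
      have h3 : 0 < min (ε / 2) (t₁ / 2) := by positivity
      have h4 := hpos (t₁ - min (ε / 2) (t₁ / 2)) (by
        have := min_le_right (ε / 2) (t₁ / 2)
        linarith) (by linarith)
      have h5 := h2 (y := t₁ - min (ε / 2) (t₁ / 2)) (by
        rw [Real.dist_eq]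
        have h6 : t₁ - min (ε / 2) (t₁ / 2) - t₁ = -min (ε / 2) (t₁ / 2) := by ring
        rw [h6, abs_neg, abs_of_pos h3]
        have := min_le_left (ε / 2) (t₁ / 2)
        linarith)
      linarith
    have hanti := x.O3_anti hμ (a := 0) (b := t₁) fun t ht => hpos t ht.1 ht.2
    obtain ⟨c, hc, hc0⟩ := exists_hasDerivAt_eq_zero ht0 hcz.continuousOn (by rw [h0, hz1])
      fun t _ => x.dz t
    refine ⟨t₁, ht0, h0, hw, hz1, ?_, hpos⟩
    have := hanti ⟨hc.1.le, hc.2.le⟩ ⟨ht0.le, le_rfl⟩ hc.2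
    linarith
  · exfalso
    push Not at hex
    have hanti : ∀ b, StrictAntiOn x.w (Set.Icc 0 b) := fun b =>
      x.O3_anti hμ fun t ht => hex t ht.1
    have hwpos : ∀ c, 0 < c → 0 < x.w c := by
      intro c hc
      by_contra hcon
      rw [not_lt] at hcon
      have h1 : x.w (c + 1) < 0 := by
        have := hanti (c + 1) ⟨hc.le, by linarith⟩ ⟨by linarith, le_rfl⟩ (by linarith : c < c + 1)
        linarith
      obtain ⟨v, hv⟩ : ∃ v, v = -x.w (c + 1) := ⟨_, rfl⟩
      have hv0 : 0 < v := by rw [hv]; linarith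
      obtain ⟨Z, hZ⟩ : ∃ Z, Z = x.z (c + 1) := ⟨_, rfl⟩
      have hZ0 : 0 < Z := by rw [hZ]; exact hex _ (by linarith)
      have h2 := O3_up x.dz (a := c + 1) (b := c + 1 + Z / v) (c := -v) (by
        have : 0 < Z / v := by positivity
        linarith) fun s hs => by
        rw [hv, neg_neg]
        exact (hanti s).antitoneOn ⟨by linarith, hs.1⟩ ⟨by linarith [hs.1], le_rfl⟩ hs.1
      have h3 : -v * (c + 1 + Z / v - (c + 1)) = -Z := by
        field_simp
        ring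
      rw [h3, ← hZ] at h2
      have h4 := hex (c + 1 + Z / v) (by positivity)
      linarith
    have hz1 : 0 < x.z 1 := hex 1 one_pos
    have hzge : ∀ t, 1 ≤ t → x.z 1 ≤ x.z t := by
      intro t ht
      have := O3_low x.dz ht (c := 0) fun s hs => (hwpos s (by linarith [hs.1])).le
      linarith
    obtain ⟨c₀, hc₀⟩ : ∃ c₀, c₀ = 2 * (x.z 1 / (2 / (μ * k)) ^ 3) := ⟨_, rfl⟩
    have hc₀0 : 0 < c₀ := by rw [hc₀]; positivity
    have hb := O3_up x.dw (a := 1) (b := 1 + x.w 1 / c₀) (c := -c₀) (by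
      have : 0 < x.w 1 / c₀ := div_pos (hwpos 1 one_pos) hc₀0
      linarith) fun s hs => by
      have hD : dd (x.r s) (x.z s) ≤ 2 / (μ * k) := x.D_le hμ hk s
      have hD0 : 0 < dd (x.r s) (x.z s) := dd_pos _ (x.r_pos s)
      have hzs := hzge s hs.1
      have e1 : x.z 1 / (2 / (μ * k)) ^ 3 ≤ x.z s / dd (x.r s) (x.z s) ^ 3 :=
        div_le_div₀ (hz1.le.trans hzs) hzs (by positivity) (pow_le_pow_left₀ hD0.le hD 3)
      have e2 : 0 ≤ x.z s / dd (x.r s) (x.z s) ^ 3 := by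
        have := hz1.le.trans hzs
        positivity
      have e3 : 0 ≤ μ * (x.z s / dd (x.r s) (x.z s) ^ 3) := mul_nonneg hμ.le e2
      rw [hc₀]
      linarith
    have h3 : -c₀ * (1 + x.w 1 / c₀ - 1) = -x.w 1 := by
      field_simp
      ring
    rw [h3] at hb
    have h4 := hwpos (1 + x.w 1 / c₀) (by
      have : 0 < x.w 1 / c₀ := div_pos (hwpos 1 one_pos) hc₀0
      linarith)
    linarith

end Orb

end IsoTB
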