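import Mathlib

/-!
# MP_3f23fb_mp, module S1: the overlap of two rings

ρ = ‖V‖, σ = ‖V + i d‖. ρ² = x² + y², σ² = x² + (y+d)² (V = x + iy), so y = (σ² - ρ² - d²)/(2d) and
4d²x² = 4d²ρ² - (σ²-ρ²-d²)² = ((ρ+σ)² - d²)(d² - (ρ-σ)²). With ρ + σ ≥ 19d/15 and |ρ-σ| ≤ 11d/15: 4d²x² ≥ (136/225)(104/225) d⁴, so
x² ≥ 0.0698 d² ≥ d²/16. (nlinarith: prove the two factor bounds first, then mul_le_mul.)
-/

set_option autoImplicit false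
set_option linter.unusedVariables false

open Complex

namespace IsoTB

/-- The right half of the overlap of the ring 2d/3 ≤ |V| ≤ 4d/3 with the (slightly enlarged) ring around -id. -/
structure Ring (d : ℝ) (V : ℂ) : Prop where
  lo : 2 * d / 3 ≤ ‖V‖
  hi : ‖V‖ ≤ 4 * d / 3
  lo' : 2 * d / 3 - d / 15 ≤ ‖V + I * d‖
  hi' : ‖V + I * d‖ ≤ 4 * d / 3 + d / 15
  re_pos : 0 < V.re

/-- One of the two points is on the inner circle, the other one on the outer circle. -/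
def Ends (d : ℝ) (U V : ℂ) : Prop :=
  (‖U‖ = 2 * d / 3 ∧ ‖V‖ = 4 * d / 3) ∨ (‖U‖ = 4 * d / 3 ∧ ‖V‖ = 2 * d / 3)

private theorem S1_alg {d x y r s : ℝ} (hd : 0 < d) (h1 : r ^ 2 = x ^ 2 + y ^ 2)
    (h2 : s ^ 2 = x ^ 2 + (y + d) ^ 2) (a1 : 2 * d / 3 ≤ r) (a2 : r ≤ 4 * d / 3)
    (b1 : 2 * d / 3 - d / 15 ≤ s) (b2 : s ≤ 4 * d / 3 + d / 15) : (d / 4) ^ 2 ≤ x ^ 2 := by
  have e : 4 * d ^ 2 * x ^ 2 = ((r + s) ^ 2 - d ^ 2) * (d ^ 2 - (r - s) ^ 2) := by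
    have e1 : ((r + s) ^ 2 - d ^ 2) * (d ^ 2 - (r - s) ^ 2) =
        4 * d ^ 2 * r ^ 2 - (s ^ 2 - r ^ 2 - d ^ 2) ^ 2 := by ring
    rw [e1, h1, h2]
    ring
  have f1 : 136 / 225 * d ^ 2 ≤ (r + s) ^ 2 - d ^ 2 := by
    have : 19 / 15 * d ≤ r + s := by linarith
    nlinarith
  have f2 : 104 / 225 * d ^ 2 ≤ d ^ 2 - (r - s) ^ 2 := by
    have g1 : r - s ≤ 11 / 15 * d := by linarith
    have g2 : -(11 / 15 * d) ≤ r - s := by linarith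
    nlinarith
  have hd2 : 0 < d ^ 2 := by positivity
  have f3 : (136 / 225 * d ^ 2) * (104 / 225 * d ^ 2) ≤ 4 * d ^ 2 * x ^ 2 := by
    rw [e]
    exact mul_le_mul f1 f2 (by positivity) (by linarith [mul_pos (show (0:ℝ) < 136 / 225 by norm_num) hd2])
  have f4 : d ^ 2 * (136 / 225 * (104 / 225) * d ^ 2) ≤ d ^ 2 * (4 * x ^ 2) := by
    calc d ^ 2 * (136 / 225 * (104 / 225) * d ^ 2) = (136 / 225 * d ^ 2) * (104 / 225 * d ^ 2) := by ring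
      _ ≤ 4 * d ^ 2 * x ^ 2 := f3
      _ = d ^ 2 * (4 * x ^ 2) := by ring
  have f5 := le_of_mul_le_mul_left f4 hd2
  nlinarith

private theorem S1_sq (V : ℂ) : ‖V‖ ^ 2 = V.re ^ 2 + V.im ^ 2 := by
  rw [← Complex.normSq_eq_norm_sq, Complex.normSq_apply]
  ring

theorem abs_re_ge {d : ℝ} (hd : 0 < d) {V : ℂ} (lo : 2 * d / 3 ≤ ‖V‖) (hi : ‖V‖ ≤ 4 * d / 3)
    (lo' : 2 * d / 3 - d / 15 ≤ ‖V + I * d‖) (hi' : ‖V + I * d‖ ≤ 4 * d / 3 + d / 15) : d / 4 ≤ |V.re| := by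
  have h2 : ‖V + I * d‖ ^ 2 = V.re ^ 2 + (V.im + d) ^ 2 := by
    rw [S1_sq]
    simp
  have h := S1_alg hd (S1_sq V) h2 lo hi lo' hi'
  have h3 := Real.sqrt_le_sqrt h
  rwa [Real.sqrt_sq (by positivity), Real.sqrt_sq_eq_abs] at h3

/-- If the four norm bounds hold and Re V ≥ -d/15 then Re V > 0. -/
theorem Ring.of_re {d : ℝ} (hd : 0 < d) {V : ℂ} (lo : 2 * d / 3 ≤ ‖V‖) (hi : ‖V‖ ≤ 4 * d / 3)
    (lo' : 2 * d / 3 - d / 15 ≤ ‖V + I * d‖) (hi' : ‖V + I * d‖ ≤ 4 * d / 3 + d / 15) (hre : -(d / 15) ≤ V.re) :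
    Ring d V := by
  refine ⟨lo, hi, lo', hi', ?_⟩
  have h := abs_re_ge hd lo hi lo' hi'
  rcases le_or_gt 0 V.re with h0 | h0
  · rw [abs_of_nonneg h0] at h
    linarith
  · rw [abs_of_neg h0] at h
    linarith

end IsoTB
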