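import Mathlib

/-!
# MP_3f23fb_mp, module S2: crossings of an interval

`cross_up`: β' = inf {s ∈ [α,β] : f s ≥ v} (closed, contains β), f β' = v; α' = sup {s ∈ [α,β'] : f s ≤ u}, f α' = u; between them u ≤ f ≤ v.
`cross_down`: apply `cross_up` to -f. `cross_any`: one of the two end values is ≤ u, the other one ≥ v.
-/

set_option autoImplicit false
set_option linter.unusedVariables false

namespace IsoTB

theorem cross_up {f : ℝ → ℝ} {α β u v : ℝ} (hαβ : α ≤ β) (hf : ContinuousOn f (Set.Icc α β)) (huv : u < v)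
    (hα : f α ≤ u) (hβ : v ≤ f β) :
    ∃ α' β', α ≤ α' ∧ α' ≤ β' ∧ β' ≤ β ∧ f α' = u ∧ f β' = v ∧ ∀ s ∈ Set.Icc α' β', u ≤ f s ∧ f s ≤ v := by
  have hc1 : IsCompact (Set.Icc α β ∩ f ⁻¹' Set.Ici v) :=
    isCompact_Icc.of_isClosed_subset (hf.preimage_isClosed_of_isClosed isClosed_Icc isClosed_Ici)
      Set.inter_subset_left
  obtain ⟨b, ⟨hb1, hb2⟩, hbmin⟩ := hc1.exists_isLeast ⟨β, ⟨hαβ, le_rfl⟩, hβ⟩
  have hfb : ContinuousOn f (Set.Icc α b) := hf.mono (Set.Icc_subset_Icc le_rfl hb1.2)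
  have hvb : f b = v := by
    by_contra hne
    have h1 : v < f b := lt_of_le_of_ne hb2 (Ne.symm hne)
    have h2 : v ∈ Set.Icc (f α) (f b) := ⟨by linarith, h1.le⟩
    obtain ⟨s, hs, hsv⟩ := intermediate_value_Icc hb1.1 hfb h2
    have h3 : b ≤ s := hbmin ⟨⟨hs.1, hs.2.trans hb1.2⟩, hsv.ge⟩
    have h4 : s = b := le_antisymm hs.2 h3
    rw [h4] at hsv
    exact hne hsv
  have hc2 : IsCompact (Set.Icc α b ∩ f ⁻¹' Set.Iic u) :=
    isCompact_Icc.of_isClosed_subset (hfb.preimage_isClosed_of_isClosed isClosed_Icc isClosed_Iic)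
      Set.inter_subset_left
  obtain ⟨a, ⟨ha1, ha2⟩, hamax⟩ := hc2.exists_isGreatest ⟨α, ⟨le_rfl, hb1.1⟩, hα⟩
  have hfa : ContinuousOn f (Set.Icc a b) := hfb.mono (Set.Icc_subset_Icc ha1.1 le_rfl)
  have hua : f a = u := by
    by_contra hne
    have h1 : f a < u := lt_of_le_of_ne ha2 hne
    have h2 : u ∈ Set.Icc (f a) (f b) := ⟨h1.le, by linarith⟩
    obtain ⟨s, hs, hsv⟩ := intermediate_value_Icc ha1.2 hfa h2
    have h3 : s ≤ a := hamax ⟨⟨ha1.1.trans hs.1, hs.2⟩, hsv.le⟩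
    have h4 : s = a := le_antisymm h3 hs.1
    rw [h4] at hsv
    exact hne hsv
  refine ⟨a, b, ha1.1, ha1.2, hb1.2, hua, hvb, fun s hs => ⟨?_, ?_⟩⟩
  · by_contra hlt
    rw [not_le] at hlt
    have h3 : s ≤ a := hamax ⟨⟨ha1.1.trans hs.1, hs.2⟩, hlt.le⟩
    have h4 : s = a := le_antisymm h3 hs.1
    rw [h4] at hlt
    linarith
  · by_contra hlt
    rw [not_le] at hlt
    have h3 : b ≤ s := hbmin ⟨⟨ha1.1.trans hs.1, hs.2.trans hb1.2⟩, hlt.le⟩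
    have h4 : s = b := le_antisymm hs.2 h3
    rw [h4] at hlt
    linarith

theorem cross_down {f : ℝ → ℝ} {α β u v : ℝ} (hαβ : α ≤ β) (hf : ContinuousOn f (Set.Icc α β)) (huv : u < v)
    (hα : v ≤ f α) (hβ : f β ≤ u) :
    ∃ α' β', α ≤ α' ∧ α' ≤ β' ∧ β' ≤ β ∧ f α' = v ∧ f β' = u ∧ ∀ s ∈ Set.Icc α' β', u ≤ f s ∧ f s ≤ v := by
  obtain ⟨a, b, h1, h2, h3, h4, h5, h6⟩ := cross_up (f := fun s => -f s) (u := -v) (v := -u) hαβ
    hf.neg (by linarith) (by simpa using hα) (by simpa using hβ)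
  refine ⟨a, b, h1, h2, h3, by linarith, by linarith, fun s hs => ?_⟩
  have h7 := h6 s hs
  exact ⟨by linarith [h7.2], by linarith [h7.1]⟩

theorem cross_any {f : ℝ → ℝ} {α β u v : ℝ} (hαβ : α ≤ β) (hf : ContinuousOn f (Set.Icc α β)) (huv : u < v)
    (h : (f α ≤ u ∧ v ≤ f β) ∨ (v ≤ f α ∧ f β ≤ u)) :
    ∃ α' β', α ≤ α' ∧ α' ≤ β' ∧ β' ≤ β ∧ ((f α' = u ∧ f β' = v) ∨ (f α' = v ∧ f β' = u)) ∧
      ∀ s ∈ Set.Icc α' β', u ≤ f s ∧ f s ≤ v := by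
  rcases h with h | h
  · obtain ⟨a, b, h1, h2, h3, h4, h5, h6⟩ := cross_up hαβ hf huv h.1 h.2
    exact ⟨a, b, h1, h2, h3, Or.inl ⟨h4, h5⟩, h6⟩
  · obtain ⟨a, b, h1, h2, h3, h4, h5, h6⟩ := cross_down hαβ hf huv h.1 h.2
    exact ⟨a, b, h1, h2, h3, Or.inr ⟨h4, h5⟩, h6⟩

end IsoTB
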