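import Mathlib

/-!
# MP_3f23fb_mp, module S5: the next zero is continuous

Let s* ∈ [α,β], T = t₁(s*), small η > 0 (η < T - t₀(s*)). w(s*,T) < 0 and w(s*,t₀(s*)) > 0, so by joint continuity there are δ > 0 and η' ∈ (0, η) such that
w(s,t) > 0 for |s-s*| < δ, |t - t₀(s*)| ≤ η' (and t₀(s) within η' of t₀(s*)), and z(s*, T+η'') < 0 for some η'' ∈ (0,η) (w(s*,T) < 0, z(s*,T) = 0).
On the compact interval [t₀(s*) + η', T - η] z(s*,·) > 0, so z(s,·) > 0 there for s close to s* (compactness, e.g. the generalized tube lemma or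
uniform continuity on a compact rectangle), z(s,T+η'') < 0. For t ∈ (t₀(s), t₀(s*)+η'] z(s,t) > 0 because z(s,t₀(s)) = 0 and w(s,·) > 0 there.
So z(s,·) has no zero in (t₀(s), T-η] and is negative at T + η'': t₁(s) (the first zero after t₀(s)) lies in (T-η, T+η'']: t₁(s) > T - η clear; if t₁(s) > T + η'' then
z(s,T+η'') > 0 by hypothesis, contradiction.
-/

set_option autoImplicit false
set_option linter.unusedVariables false

open Filter Topology

namespace IsoTB

theorem next_zero_continuous {α β : ℝ} {z w : ℝ → ℝ → ℝ}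
    (hz : Continuous fun q : ℝ × ℝ => z q.1 q.2) (hw : Continuous fun q : ℝ × ℝ => w q.1 q.2)
    (hd : ∀ s t, HasDerivAt (z s) (w s t) t) {t₀ t₁ : ℝ → ℝ} (h0 : ContinuousOn t₀ (Set.Icc α β))
    (h : ∀ s ∈ Set.Icc α β, z s (t₀ s) = 0 ∧ 0 < w s (t₀ s) ∧ t₀ s < t₁ s ∧ z s (t₁ s) = 0 ∧ w s (t₁ s) < 0 ∧
      ∀ t, t₀ s < t → t < t₁ s → 0 < z s t) :
    ContinuousOn t₁ (Set.Icc α β) := by
  intro s₀ hs₀
  obtain ⟨a1, a2, a3, a4, a5, a6⟩ := h s₀ hs₀
  have ht0 : ContinuousWithinAt t₀ (Set.Icc α β) s₀ := h0 s₀ hs₀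
  rw [ContinuousWithinAt, Metric.tendsto_nhds]
  intro η0 hη0
  obtain ⟨η, hη, hηη, hηT⟩ : ∃ η, 0 < η ∧ η ≤ η0 ∧ η < t₁ s₀ - t₀ s₀ := by
    refine ⟨min η0 ((t₁ s₀ - t₀ s₀) / 2), lt_min hη0 (by linarith), min_le_left _ _, ?_⟩
    have := min_le_right η0 ((t₁ s₀ - t₀ s₀) / 2)
    linarith
  -- a time after t₁ with negative value
  obtain ⟨η2, hη2, hη2', hneg⟩ : ∃ η2, 0 < η2 ∧ η2 < η ∧ z s₀ (t₁ s₀ + η2) < 0 := by
    have hc : ∀ᶠ t in 𝓝 (t₁ s₀), w s₀ t < 0 := by
      have hcw : Continuous (w s₀) := hw.comp (Continuous.prodMk_right s₀)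
      exact hcw.continuousAt.eventually_lt continuousAt_const a5
    obtain ⟨ε, hε, hεw⟩ := Metric.eventually_nhds_iff.1 hc
    refine ⟨min (ε / 2) (η / 2), by positivity, by have := min_le_right (ε / 2) (η / 2); linarith, ?_⟩
    set q := min (ε / 2) (η / 2) with hq
    have hqp : 0 < q := by positivity
    have hqε : q < ε := by have := min_le_left (ε / 2) (η / 2); linarith
    have hanti : StrictAntiOn (z s₀) (Set.Icc (t₁ s₀) (t₁ s₀ + q)) := by
      apply strictAntiOn_of_deriv_neg (convex_Icc _ _)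
      · exact fun t _ => (hd s₀ t).continuousAt.continuousWithinAt
      · intro t ht
        rw [interior_Icc] at ht
        rw [(hd s₀ t).deriv]
        apply hεw
        rw [Real.dist_eq, abs_lt]
        constructor <;> linarith [ht.1, ht.2]
    have := hanti (Set.left_mem_Icc.2 (by linarith)) (Set.right_mem_Icc.2 (by linarith)) (by linarith : t₁ s₀ < t₁ s₀ + q)
    linarith
  -- positivity of w near the start
  obtain ⟨ε, hε, hεw⟩ : ∃ ε > 0, ∀ s t, |s - s₀| < ε → |t - t₀ s₀| < ε → 0 < w s t := by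
    have hc : ∀ᶠ q : ℝ × ℝ in 𝓝 (s₀, t₀ s₀), 0 < w q.1 q.2 :=
      continuousAt_const.eventually_lt hw.continuousAt a2
    obtain ⟨ε, hε, hεw⟩ := Metric.eventually_nhds_iff.1 hc
    refine ⟨ε, hε, fun s t hs ht => ?_⟩
    refine hεw (y := (s, t)) ?_
    rw [Prod.dist_eq]
    exact max_lt hs ht
  -- compact middle part
  have hK : ∀ᶠ s in 𝓝 s₀, ∀ t ∈ Set.Icc (t₀ s₀ + ε / 2) (t₁ s₀ - η), 0 < z s t := by
    refine isCompact_Icc.eventually_forall_of_forall_eventually ?_
    intro t ht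
    refine continuousAt_const.eventually_lt hz.continuousAt ?_
    exact a6 t (by linarith [ht.1]) (by linarith [ht.2])
  have hN : ∀ᶠ s in 𝓝 s₀, z s (t₁ s₀ + η2) < 0 := by
    have hcz : Continuous fun s => z s (t₁ s₀ + η2) := hz.comp (Continuous.prodMk_left (t₁ s₀ + η2))
    exact hcz.continuousAt.eventually_lt continuousAt_const hneg
  have hS : ∀ᶠ s in 𝓝 s₀, |s - s₀| < ε := by
    have := Metric.ball_mem_nhds s₀ hε
    exact this
  have hT0 : ∀ᶠ s in 𝓝[Set.Icc α β] s₀, |t₀ s - t₀ s₀| < ε / 4 := by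
    have := (Metric.tendsto_nhds.1 ht0) (ε / 4) (by positivity)
    exact this
  have hT1 : ∀ᶠ s in 𝓝[Set.Icc α β] s₀, t₀ s < t₁ s₀ + η2 :=
    ht0.eventually_lt (tendsto_const_nhds) (by linarith)
  filter_upwards [hK.filter_mono nhdsWithin_le_nhds, hN.filter_mono nhdsWithin_le_nhds,
    hS.filter_mono nhdsWithin_le_nhds, hT0, hT1, self_mem_nhdsWithin] with s b1 b2 b3 b4 b5 b6
  obtain ⟨c1, c2, c3, c4, c5, c6⟩ := h s b6
  rw [Real.dist_eq, abs_lt]
  rw [abs_lt] at b4
  constructor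
  · by_contra hcon
    have hle : t₁ s ≤ t₁ s₀ - η := by linarith
    by_cases hcase : t₁ s ≤ t₀ s₀ + ε / 2
    · have hmono : StrictMonoOn (z s) (Set.Icc (t₀ s) (t₁ s)) := by
        apply strictMonoOn_of_deriv_pos (convex_Icc _ _)
        · exact fun t _ => (hd s t).continuousAt.continuousWithinAt
        · intro t ht
          rw [interior_Icc] at ht
          rw [(hd s t).deriv]
          apply hεw s t b3
          rw [abs_lt]
          constructor <;> linarith [ht.1, ht.2, b4.1, b4.2]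
      have := hmono (Set.left_mem_Icc.2 c3.le) (Set.right_mem_Icc.2 c3.le) c3
      linarith
    · have := b1 (t₁ s) ⟨by linarith, hle⟩
      linarith
  · by_contra hcon
    have hge : t₁ s₀ + η2 < t₁ s := by linarith
    have := c6 _ b5 hge
    linarith

end IsoTB
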