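import Pool.Agent.Lib.MP_3f23fb_mp.HO
import Pool.Agent.Lib.MP_3f23fb_mp.S3
import Pool.Agent.Lib.MP_3f23fb_mp.S5
import Pool.Agent.Lib.MP_3f23fb_mp.O3

/-!
# MP_3f23fb_mp, module S6: itineraries and one step for a family of orbits

`Itin x d ΦB n u t`: t 0 = 0 < t 1 < ... < t n are consecutive crossings of the plane z = 0 by the orbit x, at every crossing the amplitude
V is in the region `Ring`, and the angle of the m-th half orbit is in the window of the symbol u m.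

`next_step`. For s ∈ [α,β] let y_s = (x s).shift (t₀ s) if sg, and its reflection `refl` if not sg. Then y_s.z 0 = 0, y_s.w 0 > 0, ‖y_s.V 0‖ = ‖(x s).V (t₀ s)‖ ≤ 4d/3
(Y_shift, Y_refl), so exists_isRet gives T_s with y_s.IsRet T_s; put t₁ s = t₀ s + T_s (choose; arbitrary outside [α,β]). The half-orbit facts `hho` for y_s give
all pointwise statements (ph_shift, ph_refl: y_s.ph T_s = (x s).ph (t₁ s) - (x s).ph (t₀ s)). ContinuousOn t₁: next_zero_continuous with (z,w) or (-z,-w).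
V' s = (x s).V (t₁ s), Φ s = (x s).ph (t₁ s) - (x s).ph (t₀ s) are continuous on [α,β] (cont_V, cont_ph composed with t₀, t₁). `step` gives [α',β'].
(2 JJ.re = d.)
-/

set_option autoImplicit false
set_option linter.unusedVariables false

open Complex

namespace IsoTB

/-- A family of orbits depending continuously on a real parameter. -/
structure Fam (μ k : ℝ) where
  x : ℝ → Orb μ k
  cont_r : Continuous fun q : ℝ × ℝ => (x q.1).r q.2
  cont_p : Continuous fun q : ℝ × ℝ => (x q.1).p q.2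
  cont_z : Continuous fun q : ℝ × ℝ => (x q.1).z q.2
  cont_w : Continuous fun q : ℝ × ℝ => (x q.1).w q.2

/-- The half-orbit facts used in the coding (conclusion of `half_orbit` with a = 2d/3, b = 4d/3, ε = d/15, d = 2 Re J). -/
def HOFacts (μ k d ΦA ΦB : ℝ) : Prop :=
  ∀ (x : Orb μ k) (t₁ : ℝ), x.IsRet t₁ → ‖x.V 0‖ ≤ 4 * d / 3 →
    1 / 2 ≤ t₁ ∧ t₁ ≤ 1 + 40 / (μ * k) ^ 3 ∧
    (∀ t ∈ Set.Icc 0 t₁, min (min t (t₁ - t)) 1 ≤ x.z t) ∧
    ‖x.V t₁ - (exp (-(I * x.ph t₁)) * x.V 0 - I * d)‖ ≤ d / 15 ∧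
    (‖x.V 0‖ = 2 * d / 3 → ΦA ≤ x.ph t₁) ∧ (‖x.V 0‖ = 4 * d / 3 → x.ph t₁ ≤ ΦB)

/-- The data of one half orbit between the times a and b. -/
structure Half {μ k : ℝ} (x : Orb μ k) (d ΦB : ℝ) (e : Bool) (a b : ℝ) : Prop where
  gap : a + 1 / 2 ≤ b
  le : b ≤ a + (1 + 40 / (μ * k) ^ 3)
  big : ∀ t ∈ Set.Icc a b, min (min (t - a) (b - t)) 1 ≤ |x.z t|
  win : arg (x.V a) - (x.ph b - x.ph a) ∈ wsym ΦB e

/-- Itineraries. -/
structure Itin {μ k : ℝ} (x : Orb μ k) (d ΦB : ℝ) (n : ℕ) (u : ℕ → Bool) (t : ℕ → ℝ) : Prop where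
  t0 : t 0 = 0
  zero : ∀ m ≤ n, x.z (t m) = 0
  ring : ∀ m ≤ n, Ring d (x.V (t m))
  half : ∀ m < n, Half x d ΦB (u m) (t m) (t (m + 1))

/-- the data of the half orbit which starts at the crossing time `a` -/
private theorem S6_half {μ k : ℝ} (hμ : 0 < μ) (hμ' : μ ≤ 1 / 64) (hk : 0 < k) {d ΦA ΦB : ℝ}
    (hho : HOFacts μ k d ΦA ΦB) (x : Orb μ k) (a : ℝ) (sg : Bool) (hz : x.z a = 0)
    (hw : 0 < (if sg then x.w a else -x.w a)) (hr : Ring d (x.V a)) :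
    ∃ b, a < b ∧ x.z b = 0 ∧ 0 < (if sg then -x.w b else x.w b) ∧
      (∀ t, a < t → t < b → 0 < (if sg then x.z t else -x.z t)) ∧
      (a + 1 / 2 ≤ b ∧ b ≤ a + (1 + 40 / (μ * k) ^ 3) ∧
        ∀ t ∈ Set.Icc a b, min (min (t - a) (b - t)) 1 ≤ |x.z t|) ∧
      ‖x.V b - (exp (-(I * ((x.ph b - x.ph a : ℝ) : ℂ))) * x.V a - I * d)‖ ≤ d / 15 ∧
      (‖x.V a‖ = 2 * d / 3 → ΦA ≤ x.ph b - x.ph a) ∧ (‖x.V a‖ = 4 * d / 3 → x.ph b - x.ph a ≤ ΦB) := by
  cases sg with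
  | true =>
    simp only [if_true] at hw ⊢
    have hVa : (x.shift a).V 0 = x.V a := by
      rw [Orb.V, Orb.V, Orb.Y_shift, zero_add]
    have hphT : ∀ t, (x.shift a).ph t = x.ph (t + a) - x.ph a := fun t => x.ph_shift a t
    have hVT : ∀ t, (x.shift a).V t = x.V (t + a) := fun t => by
      rw [Orb.V, Orb.V, Orb.Y_shift]
    obtain ⟨T, hT⟩ := (x.shift a).exists_isRet hμ hμ' hk (by
      show x.z (0 + a) = 0
      rw [zero_add, hz]) (by
      show 0 < x.w (0 + a)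
      rw [zero_add]
      exact hw)
    have hT0 := hT.pos
    obtain ⟨h1, h2, h3, h4, h5, h6⟩ := hho (x.shift a) T hT (by rw [hVa]; exact hr.hi)
    rw [hVa, hphT, hVT] at h4
    rw [hVa, hphT] at h5 h6
    have k1 : a < T + a := by linarith
    have k2 : x.z (T + a) = 0 := hT.z1
    have k3 : a + 1 / 2 ≤ T + a := by linarith
    have k4 : T + a ≤ a + (1 + 40 / (μ * k) ^ 3) := by linarith
    refine ⟨T + a, k1, k2, ?_, ?_, ⟨k3, k4, ?_⟩, ?_, ?_, ?_⟩
    rotate_left 3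
    · exact h4
    · exact h5
    · exact h6
    · have := hT.w1
      have h7 : (x.shift a).w T = x.w (T + a) := rfl
      rw [h7] at this
      linarith
    · intro t ht1 ht2
      have := hT.zpos (t - a) (by linarith) (by linarith)
      have h7 : (x.shift a).z (t - a) = x.z (t - a + a) := rfl
      rw [h7, sub_add_cancel] at this
      exact this
    · intro t ht
      have h8 := h3 (t - a) ⟨by linarith [ht.1], by linarith [ht.2]⟩
      have h7 : (x.shift a).z (t - a) = x.z (t - a + a) := rfl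
      rw [h7, sub_add_cancel, show T - (t - a) = T + a - t by ring] at h8
      exact h8.trans (le_abs_self _)
  | false =>
    simp only [Bool.false_eq_true, if_false] at hw ⊢
    have hVa : (x.shift a).refl.V 0 = x.V a := by
      rw [Orb.V, Orb.V, Orb.Y_refl, Orb.Y_shift, zero_add]
    have hphT : ∀ t, (x.shift a).refl.ph t = x.ph (t + a) - x.ph a := fun t => by
      rw [Orb.ph_refl, Orb.ph_shift]
    have hVT : ∀ t, (x.shift a).refl.V t = x.V (t + a) := fun t => by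
      rw [Orb.V, Orb.V, Orb.Y_refl, Orb.Y_shift]
    obtain ⟨T, hT⟩ := (x.shift a).refl.exists_isRet hμ hμ' hk (by
      show -x.z (0 + a) = 0
      rw [zero_add, hz, neg_zero]) (by
      show 0 < -x.w (0 + a)
      rw [zero_add]
      exact hw)
    have hT0 := hT.pos
    obtain ⟨h1, h2, h3, h4, h5, h6⟩ := hho (x.shift a).refl T hT (by rw [hVa]; exact hr.hi)
    rw [hVa, hphT, hVT] at h4
    rw [hVa, hphT] at h5 h6
    have k1 : a < T + a := by linarith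
    have k3 : a + 1 / 2 ≤ T + a := by linarith
    have k4 : T + a ≤ a + (1 + 40 / (μ * k) ^ 3) := by linarith
    refine ⟨T + a, k1, ?_, ?_, ?_, ⟨k3, k4, ?_⟩, ?_, ?_, ?_⟩
    rotate_left 4
    · exact h4
    · exact h5
    · exact h6
    · have := hT.z1
      have h7 : (x.shift a).refl.z T = -x.z (T + a) := rfl
      rw [h7] at this
      linarith
    · have := hT.w1
      have h7 : (x.shift a).refl.w T = -x.w (T + a) := rfl
      rw [h7] at this
      linarith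
    · intro t ht1 ht2
      have := hT.zpos (t - a) (by linarith) (by linarith)
      have h7 : (x.shift a).refl.z (t - a) = -x.z (t - a + a) := rfl
      rw [h7, sub_add_cancel] at this
      exact this
    · intro t ht
      have h8 := h3 (t - a) ⟨by linarith [ht.1], by linarith [ht.2]⟩
      have h7 : (x.shift a).refl.z (t - a) = -x.z (t - a + a) := rfl
      rw [h7, sub_add_cancel, show T - (t - a) = T + a - t by ring] at h8
      exact h8.trans (neg_le_abs _)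

namespace Fam

variable {μ k : ℝ} (f : Fam μ k)

theorem cont_V : Continuous fun q : ℝ × ℝ => (f.x q.1).V q.2 := by
  have e : (fun q : ℝ × ℝ => (f.x q.1).V q.2) = fun q : ℝ × ℝ =>
      (((1 - 1 / (f.x q.1).r q.2) / (2 * μ) : ℝ) : ℂ) + (((f.x q.1).p q.2 / μ : ℝ) : ℂ) * I - I * JJ := by
    funext q
    show (f.x q.1).Y q.2 - I * JJ = _
    congr 1
    exact Complex.mk_eq_add_mul_I _ _
  rw [e]
  have h1 : Continuous fun q : ℝ × ℝ => (((1 - 1 / (f.x q.1).r q.2) / (2 * μ) : ℝ) : ℂ) :=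
    Complex.continuous_ofReal.comp ((continuous_const.sub
      (continuous_const.div f.cont_r (fun q => ((f.x q.1).r_pos q.2).ne'))).div_const _)
  have h2 : Continuous fun q : ℝ × ℝ => (((f.x q.1).p q.2 / μ : ℝ) : ℂ) * I :=
    (Complex.continuous_ofReal.comp (f.cont_p.div_const _)).mul continuous_const
  exact (h1.add h2).sub continuous_const

theorem cont_ph : Continuous fun q : ℝ × ℝ => (f.x q.1).ph q.2 := by
  have h : Continuous (Function.uncurry fun (q : ℝ × ℝ) (s : ℝ) => (f.x q.1).Om s) := by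
    have h1 : Continuous fun q : ℝ × ℝ => (f.x q.1).Om q.2 :=
      continuous_const.div (continuous_const.mul (f.cont_r.pow 2))
        (fun q => mul_ne_zero two_ne_zero (pow_ne_zero 2 ((f.x q.1).r_pos q.2).ne'))
    exact h1.comp ((continuous_fst.comp continuous_fst).prodMk continuous_snd)
  exact intervalIntegral.continuous_parametric_intervalIntegral_of_continuous h continuous_snd

attribute [local irreducible] Orb.V Orb.ph

theorem next_step (hμ : 0 < μ) (hμ' : μ ≤ 1 / 64) (hk : 0 < k) {d ΦA ΦB : ℝ} (hd : 0 < d)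
    (hgap : 8 * Real.pi ≤ ΦA - ΦB) (hho : HOFacts μ k d ΦA ΦB) {α β : ℝ} (hαβ : α ≤ β) {t₀ : ℝ → ℝ}
    (h0 : ContinuousOn t₀ (Set.Icc α β)) (sg : Bool)
    (hz : ∀ s ∈ Set.Icc α β, (f.x s).z (t₀ s) = 0)
    (hw : ∀ s ∈ Set.Icc α β, 0 < (if sg then (f.x s).w (t₀ s) else -(f.x s).w (t₀ s)))
    (hr : ∀ s ∈ Set.Icc α β, Ring d ((f.x s).V (t₀ s)))
    (he : Ends d ((f.x α).V (t₀ α)) ((f.x β).V (t₀ β))) (e : Bool) :
    ∃ (α' β' : ℝ) (t₁ : ℝ → ℝ), α ≤ α' ∧ α' ≤ β' ∧ β' ≤ β ∧ ContinuousOn t₁ (Set.Icc α' β') ∧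
      Ends d ((f.x α').V (t₁ α')) ((f.x β').V (t₁ β')) ∧
      ∀ s ∈ Set.Icc α' β', (f.x s).z (t₁ s) = 0 ∧
        0 < (if sg then -(f.x s).w (t₁ s) else (f.x s).w (t₁ s)) ∧
        Ring d ((f.x s).V (t₁ s)) ∧ Half (f.x s) d ΦB e (t₀ s) (t₁ s) := by
  have hex : ∀ s, ∃ b, s ∈ Set.Icc α β → (t₀ s < b ∧ (f.x s).z b = 0 ∧
      0 < (if sg then -(f.x s).w b else (f.x s).w b) ∧
      (∀ t, t₀ s < t → t < b → 0 < (if sg then (f.x s).z t else -(f.x s).z t)) ∧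
      (t₀ s + 1 / 2 ≤ b ∧ b ≤ t₀ s + (1 + 40 / (μ * k) ^ 3) ∧
        ∀ t ∈ Set.Icc (t₀ s) b, min (min (t - t₀ s) (b - t)) 1 ≤ |(f.x s).z t|) ∧
      ‖(f.x s).V b - (exp (-(I * (((f.x s).ph b - (f.x s).ph (t₀ s) : ℝ) : ℂ))) * (f.x s).V (t₀ s) - I * d)‖ ≤
        d / 15 ∧
      (‖(f.x s).V (t₀ s)‖ = 2 * d / 3 → ΦA ≤ (f.x s).ph b - (f.x s).ph (t₀ s)) ∧
      (‖(f.x s).V (t₀ s)‖ = 4 * d / 3 → (f.x s).ph b - (f.x s).ph (t₀ s) ≤ ΦB)) := by
    intro s
    by_cases hs : s ∈ Set.Icc α β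
    · obtain ⟨b, hb⟩ := S6_half hμ hμ' hk hho (f.x s) (t₀ s) sg (hz s hs) (hw s hs) (hr s hs)
      exact ⟨b, fun _ => hb⟩
    · exact ⟨0, fun h => absurd h hs⟩
  choose t₁ ht₁ using hex
  have hcont : ContinuousOn t₁ (Set.Icc α β) := by
    cases sg with
    | true =>
      have h : ∀ s ∈ Set.Icc α β, (f.x s).z (t₀ s) = 0 ∧ 0 < (f.x s).w (t₀ s) ∧ t₀ s < t₁ s ∧ (f.x s).z (t₁ s) = 0 ∧
          (f.x s).w (t₁ s) < 0 ∧ ∀ t, t₀ s < t → t < t₁ s → 0 < (f.x s).z t := by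
        intro s hs
        obtain ⟨g1, g2, g3, g4, -⟩ := ht₁ s hs
        have g5 := hw s hs
        simp only [if_true] at g3 g4 g5
        exact ⟨hz s hs, g5, g1, g2, by linarith, g4⟩
      have hd' : ∀ s t, HasDerivAt ((fun s => (f.x s).z) s) ((fun s => (f.x s).w) s t) t := fun s t => (f.x s).dz t
      exact next_zero_continuous f.cont_z f.cont_w hd' h0 h
    | false =>
      have h : ∀ s ∈ Set.Icc α β, -(f.x s).z (t₀ s) = 0 ∧ 0 < -(f.x s).w (t₀ s) ∧ t₀ s < t₁ s ∧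
          -(f.x s).z (t₁ s) = 0 ∧ -(f.x s).w (t₁ s) < 0 ∧ ∀ t, t₀ s < t → t < t₁ s → 0 < -(f.x s).z t := by
        intro s hs
        obtain ⟨g1, g2, g3, g4, -⟩ := ht₁ s hs
        have g5 := hw s hs
        simp only [Bool.false_eq_true, if_false] at g3 g4 g5
        exact ⟨by rw [hz s hs, neg_zero], g5, g1, by rw [g2, neg_zero], by linarith, g4⟩
      have hd' : ∀ s t, HasDerivAt ((fun s t => -(f.x s).z t) s) ((fun s t => -(f.x s).w t) s t) t :=
        fun s t => ((f.x s).dz t).neg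
      exact next_zero_continuous f.cont_z.neg f.cont_w.neg hd' h0 h
  have hp0 : ContinuousOn (fun s : ℝ => ((s, t₀ s) : ℝ × ℝ)) (Set.Icc α β) := continuousOn_id.prodMk h0
  have hp1 : ContinuousOn (fun s : ℝ => ((s, t₁ s) : ℝ × ℝ)) (Set.Icc α β) := continuousOn_id.prodMk hcont
  have hV : ContinuousOn (fun s => (f.x s).V (t₀ s)) (Set.Icc α β) := f.cont_V.comp_continuousOn hp0
  have hV' : ContinuousOn (fun s => (f.x s).V (t₁ s)) (Set.Icc α β) := f.cont_V.comp_continuousOn hp1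
  have hΦ1 : ContinuousOn (fun s => (f.x s).ph (t₁ s)) (Set.Icc α β) := f.cont_ph.comp_continuousOn hp1
  have hΦ0 : ContinuousOn (fun s => (f.x s).ph (t₀ s)) (Set.Icc α β) := f.cont_ph.comp_continuousOn hp0
  have hΦ : ContinuousOn (fun s => (f.x s).ph (t₁ s) - (f.x s).ph (t₀ s)) (Set.Icc α β) := hΦ1.sub hΦ0
  have herr : ∀ s ∈ Set.Icc α β, ‖(f.x s).V (t₁ s) -
      (exp (-(I * (((f.x s).ph (t₁ s) - (f.x s).ph (t₀ s) : ℝ) : ℂ))) * (f.x s).V (t₀ s) - I * d)‖ ≤ d / 15 := by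
    intro s hs
    obtain ⟨-, -, -, -, -, g, -, -⟩ := ht₁ s hs
    exact g
  have hA : ∀ s ∈ Set.Icc α β, ‖(f.x s).V (t₀ s)‖ = 2 * d / 3 → ΦA ≤ (f.x s).ph (t₁ s) - (f.x s).ph (t₀ s) := by
    intro s hs
    obtain ⟨-, -, -, -, -, -, g, -⟩ := ht₁ s hs
    exact g
  have hB : ∀ s ∈ Set.Icc α β, ‖(f.x s).V (t₀ s)‖ = 4 * d / 3 → (f.x s).ph (t₁ s) - (f.x s).ph (t₀ s) ≤ ΦB := by
    intro s hs
    obtain ⟨-, -, -, -, -, -, -, g⟩ := ht₁ s hs
    exact g
  obtain ⟨α', β', hα', hαβ', hβ', hends, hall⟩ := step (V := fun s => (f.x s).V (t₀ s))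
    (V' := fun s => (f.x s).V (t₁ s)) (Φ := fun s => (f.x s).ph (t₁ s) - (f.x s).ph (t₀ s)) hd hgap hαβ hV hV' hΦ
    hr he herr hA hB e
  have hcont' : ContinuousOn t₁ (Set.Icc α' β') := hcont.mono (Set.Icc_subset_Icc hα' hβ')
  refine ⟨α', β', t₁, hα', hαβ', hβ', hcont', hends, ?_⟩
  intro s hs
  obtain ⟨g1, g2, g3, g4, ⟨g5, g6, g7⟩, -⟩ := ht₁ s ⟨hα'.trans hs.1, hs.2.trans hβ'⟩
  obtain ⟨i1, i2⟩ := hall s hs
  exact ⟨g2, g3, i1, ⟨g5, g6, g7, i2⟩⟩

end Fam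

end IsoTB
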