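import Pool.Agent.Lib.MP_3f23fb_mp.S6

/-!
# MP_3f23fb_mp, module S8: orbits that stay close have close crossing times

Induction on m: |t m - t' m| ≤ 1/10. Suppose it holds for m < n and t (m+1) < t' (m+1) - 1/10 (the other case is symmetric). With q = t (m+1):
q ≥ t m + 1/2 ≥ t' m - 1/10 + 1/2 > t' m + 1/10, q < t' (m+1) - 1/10, so by Half.big for x' |x'.z q| ≥ min(min(q - t' m)(t' (m+1) - q)) 1 ≥ 1/10. But x.z q = 0, so
|x.z q - x'.z q| ≥ 1/10, while 0 ≤ q ≤ n T: contradiction (t m ≤ m T by Half.le, T = 1 + 40/(μk)³; q = t (m+1) ≤ (m+1) T ≤ n T).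
-/

set_option autoImplicit false
set_option linter.unusedVariables false

open Complex

namespace IsoTB

theorem Itin.nonneg {μ k : ℝ} {x : Orb μ k} {d ΦB : ℝ} {n : ℕ} {u : ℕ → Bool} {t : ℕ → ℝ} (h : Itin x d ΦB n u t) :
    ∀ m ≤ n, 0 ≤ t m := by
  intro m
  induction m with
  | zero => intro _; rw [h.t0]
  | succ m ih =>
    intro hm
    have h1 := ih (by omega)
    have h2 := (h.half m (by omega)).gap
    linarith

theorem Itin.t_le {μ k : ℝ} {x : Orb μ k} {d ΦB : ℝ} {n : ℕ} {u : ℕ → Bool} {t : ℕ → ℝ} (h : Itin x d ΦB n u t) :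
    ∀ m ≤ n, t m ≤ m * (1 + 40 / (μ * k) ^ 3) := by
  intro m
  induction m with
  | zero => intro _; rw [h.t0]; simp
  | succ m ih =>
    intro hm
    have h1 := ih (by omega)
    have h2 := (h.half m (by omega)).le
    push_cast
    linarith

private theorem track_aux {μ k : ℝ} (hμ : 0 < μ) (hk : 0 < k) {x x' : Orb μ k} {d ΦB : ℝ} {n : ℕ} {u u' : ℕ → Bool}
    {t t' : ℕ → ℝ} (h : Itin x d ΦB n u t) (h' : Itin x' d ΦB n u' t')
    (hclose : ∀ s ∈ Set.Icc 0 (n * (1 + 40 / (μ * k) ^ 3)), |x.z s - x'.z s| < 1 / 10) (m : ℕ) (hm : m + 1 ≤ n)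
    (ih : |t m - t' m| ≤ 1 / 10) (hlt : t (m + 1) < t' (m + 1) - 1 / 10) : False := by
  have hT : 0 < 1 + 40 / (μ * k) ^ 3 := by positivity
  have h1 := (h.half m (by omega)).gap
  have h2 := h.nonneg (m + 1) hm
  have h3 := h.t_le (m + 1) hm
  have h4 : ((m + 1 : ℕ) : ℝ) * (1 + 40 / (μ * k) ^ 3) ≤ n * (1 + 40 / (μ * k) ^ 3) :=
    mul_le_mul_of_nonneg_right (by exact_mod_cast hm) hT.le
  have h5 := hclose (t (m + 1)) ⟨h2, h3.trans h4⟩
  rw [h.zero (m + 1) hm, zero_sub, abs_neg] at h5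
  rw [abs_le] at ih
  have h6 := (h'.half m (by omega)).big (t (m + 1)) ⟨by linarith [ih.1, ih.2], by linarith⟩
  have h7 : 1 / 10 ≤ min (min (t (m + 1) - t' m) (t' (m + 1) - t (m + 1))) 1 := by
    apply le_min
    · apply le_min
      · linarith [ih.1, ih.2]
      · linarith
    · norm_num
  linarith

theorem track {μ k : ℝ} (hμ : 0 < μ) (hk : 0 < k) {x x' : Orb μ k} {d ΦB : ℝ} {n : ℕ} {u u' : ℕ → Bool} {t t' : ℕ → ℝ}
    (h : Itin x d ΦB n u t) (h' : Itin x' d ΦB n u' t')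
    (hclose : ∀ s ∈ Set.Icc 0 (n * (1 + 40 / (μ * k) ^ 3)), |x.z s - x'.z s| < 1 / 10) :
    ∀ m ≤ n, |t m - t' m| ≤ 1 / 10 := by
  intro m
  induction m with
  | zero =>
    intro _
    rw [h.t0, h'.t0]
    norm_num
  | succ m ih =>
    intro hm
    have ih' := ih (by omega)
    by_contra hcon
    rw [not_le, lt_abs] at hcon
    rcases hcon with hcon | hcon
    · refine track_aux hμ hk h' h ?_ m hm ?_ (by linarith)
      · intro s hs
        rw [abs_sub_comm]
        exact hclose s hs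
      · rw [abs_sub_comm]
        exact ih'
    · exact track_aux hμ hk h h' hclose m hm ih' (by linarith)

end IsoTB
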