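import Mathlib

/-!
# MP_3f23fb_mp, the isosceles three-body problem: the objects of the statement

The fixed line L is the third coordinate axis. Bodies are numbered 0, 1, 2 (the bodies 1, 2, 3 of the problem).
-/

set_option autoImplicit false

namespace IsoTB

/-- Euclidean 3-space. -/
abbrev E3 : Type := EuclideanSpace ℝ (Fin 3)

/-- States of three bodies: positions `x.1 i` and velocities `x.2 i`. -/
abbrev St : Type := (Fin 3 → E3) × (Fin 3 → E3)

/-- The masses m, m, m₃. -/
def mass (m m₃ : ℝ) : Fin 3 → ℝ := ![m, m, m₃]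

/-- The Newtonian acceleration of body i. -/
noncomputable def acc (M : Fin 3 → ℝ) (q : Fin 3 → E3) (i : Fin 3) : E3 :=
  ∑ j ∈ Finset.univ.erase i, (M j / ‖q j - q i‖ ^ 3) • (q j - q i)

/-- Newton's equations as a vector field on the space of states. -/
noncomputable def newton (M : Fin 3 → ℝ) (x : St) : St := (x.2, acc M x.1)

/-- The energy. -/
noncomputable def energy (M : Fin 3 → ℝ) (x : St) : ℝ :=
  1 / 2 * ∑ i, M i * ‖x.2 i‖ ^ 2 -
    (M 0 * M 1 / ‖x.1 0 - x.1 1‖ + M 0 * M 2 / ‖x.1 0 - x.1 2‖ + M 1 * M 2 / ‖x.1 1 - x.1 2‖)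

/-- The cross product. -/
noncomputable def crossProd (u v : E3) : E3 :=
  !₂[u 1 * v 2 - u 2 * v 1, u 2 * v 0 - u 0 * v 2, u 0 * v 1 - u 1 * v 0]

/-- The angular momentum. -/
noncomputable def angMom (M : Fin 3 → ℝ) (x : St) : E3 := ∑ i, M i • crossProd (x.1 i) (x.2 i)

/-- The unit vector of the axis L. -/
noncomputable def eL : E3 := !₂[0, 0, 1]

/-- The rotation by π about the axis L. -/
noncomputable def rotPi (u : E3) : E3 := !₂[-u 0, -u 1, u 2]

/-- The linear space of isosceles states with centre of mass at rest at the origin (collisions not excluded). -/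
structure IsIso (M : Fin 3 → ℝ) (x : St) : Prop where
  pos12 : x.1 1 = rotPi (x.1 0)
  vel12 : x.2 1 = rotPi (x.2 0)
  pos3 : ∃ a : ℝ, x.1 2 = a • eL
  vel3 : ∃ a : ℝ, x.2 2 = a • eL
  com : ∑ i, M i • x.1 i = 0
  mom : ∑ i, M i • x.2 i = 0

/-- The integral manifold M_{h,c}: collision-free isosceles states of energy h and angular momentum c e. -/
def level (m m₃ h c : ℝ) : Set St :=
  {x | IsIso (mass m m₃) x ∧ (∀ i j, i ≠ j → x.1 i ≠ x.1 j) ∧ energy (mass m m₃) x = h ∧ angMom (mass m m₃) x = c • eL}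

/-- (h,c) is a regular value of (energy, angular momentum) on the isosceles states: at every point of the level the pair
of directional derivatives takes every value (a, b). -/
def IsRegularLevel (m m₃ h c : ℝ) : Prop :=
  ∀ x ∈ level m m₃ h c, ∀ a b : ℝ, ∃ u : St, IsIso (mass m m₃) u ∧
    HasDerivAt (fun s : ℝ => energy (mass m m₃) (x + s • u)) a 0 ∧
    HasDerivAt (fun s : ℝ => angMom (mass m m₃) (x + s • u) 2) b 0

end IsoTB
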